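import Pool.Agent.Lib.H51D.DHDefs
import Pool.Agent.Lib.H68T.T341

/-!
# Chunk DHA: the arithmetic functions `λ = 1 * ψ` and `g = μ * μψ`, `ψ` real
-/

open Finset

namespace Pool.Agent.Lib.H68T

open ArithmeticFunction in
theorem dha_val (r : ℕ) (ψ : DirichletCharacter ℂ r) (h2 : ψ ^ 2 = 1) (n : ℕ) :
    ψ (n : ZMod r) = ((ψ (n : ZMod r)).re : ℂ) ∧
      ((ψ (n : ZMod r)).re = 0 ∨ (ψ (n : ZMod r)).re = 1 ∨ (ψ (n : ZMod r)).re = -1) := by
  by_cases hu : IsUnit (n : ZMod r)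
  · have h1 : (ψ ^ 2) (n : ZMod r) = 1 := by
      rw [h2]; exact MulChar.one_apply hu
    rw [MulChar.pow_apply' ψ two_ne_zero] at h1
    have h3 : ψ (n : ZMod r) = 1 ∨ ψ (n : ZMod r) = -1 := sq_eq_one_iff.mp h1
    rcases h3 with h | h
    · rw [h]
      simp
    · rw [h]
      simp
  · rw [MulChar.map_nonunit ψ hu]
    simp

theorem dha_mul (r : ℕ) (ψ : DirichletCharacter ℂ r) (h2 : ψ ^ 2 = 1) (m n : ℕ) :
    (ψ ((m * n : ℕ) : ZMod r)).re = (ψ (m : ZMod r)).re * (ψ (n : ZMod r)).re := by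
  rw [Nat.cast_mul, map_mul]
  rw [(dha_val r ψ h2 m).1, (dha_val r ψ h2 n).1, ← Complex.ofReal_mul, Complex.ofReal_re,
    Complex.ofReal_re, Complex.ofReal_re]

/-- `ψ` as an arithmetic function -/
noncomputable def dha_P {r : ℕ} (ψ : DirichletCharacter ℂ r) : ArithmeticFunction ℝ :=
  ⟨fun n => if n = 0 then 0 else (ψ (n : ZMod r)).re, by simp⟩

theorem dha_P_apply {r : ℕ} (ψ : DirichletCharacter ℂ r) {n : ℕ} (hn : n ≠ 0) :
    dha_P ψ n = (ψ (n : ZMod r)).re := by
  change (if n = 0 then 0 else (ψ (n : ZMod r)).re) = _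
  rw [if_neg hn]

theorem dha_P_mult (r : ℕ) (ψ : DirichletCharacter ℂ r) (h2 : ψ ^ 2 = 1) :
    (dha_P ψ).IsMultiplicative := by
  rw [ArithmeticFunction.IsMultiplicative.iff_ne_zero]
  refine ⟨?_, ?_⟩
  · rw [dha_P_apply ψ one_ne_zero]
    simp
  · intro m n hm hn _
    rw [dha_P_apply ψ (mul_ne_zero hm hn), dha_P_apply ψ hm, dha_P_apply ψ hn, dha_mul r ψ h2]

theorem dha_lam {r : ℕ} (ψ : DirichletCharacter ℂ r) (n : ℕ) :
    lam ψ n = (dha_P ψ * (ArithmeticFunction.zeta : ArithmeticFunction ℝ)) n := by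
  rw [ArithmeticFunction.coe_mul_zeta_apply]
  unfold lam
  refine sum_congr rfl fun d hd => ?_
  rw [dha_P_apply ψ (Nat.pos_of_mem_divisors hd).ne']

theorem dha_gg {r : ℕ} (ψ : DirichletCharacter ℂ r) (n : ℕ) :
    gg ψ n = ((ArithmeticFunction.moebius : ArithmeticFunction ℝ) *
      (ArithmeticFunction.pmul (ArithmeticFunction.moebius : ArithmeticFunction ℝ) (dha_P ψ))) n := by
  rw [ArithmeticFunction.mul_apply]
  unfold gg
  refine sum_congr rfl fun p hp => ?_
  have h1 : p.2 ≠ 0 := (Nat.ne_zero_of_mem_divisorsAntidiagonal hp).2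
  rw [ArithmeticFunction.pmul_apply, dha_P_apply ψ h1, ArithmeticFunction.intCoe_apply,
    ArithmeticFunction.intCoe_apply]

theorem dha_lam_mult (r : ℕ) (ψ : DirichletCharacter ℂ r) (h2 : ψ ^ 2 = 1) :
    (dha_P ψ * (ArithmeticFunction.zeta : ArithmeticFunction ℝ)).IsMultiplicative :=
  (dha_P_mult r ψ h2).mul ArithmeticFunction.isMultiplicative_zeta.natCast

theorem dha_gg_mult (r : ℕ) (ψ : DirichletCharacter ℂ r) (h2 : ψ ^ 2 = 1) :
    ((ArithmeticFunction.moebius : ArithmeticFunction ℝ) *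
      (ArithmeticFunction.pmul (ArithmeticFunction.moebius : ArithmeticFunction ℝ)
        (dha_P ψ))).IsMultiplicative :=
  ArithmeticFunction.isMultiplicative_moebius.intCast.mul
    (ArithmeticFunction.isMultiplicative_moebius.intCast.pmul (dha_P_mult r ψ h2))

theorem dha_pow (r : ℕ) (ψ : DirichletCharacter ℂ r) (h2 : ψ ^ 2 = 1) (p k : ℕ) :
    (ψ ((p ^ k : ℕ) : ZMod r)).re = (ψ (p : ZMod r)).re ^ k := by
  induction k with
  | zero => simp
  | succ k ih =>
    rw [pow_succ, dha_mul r ψ h2, ih, pow_succ]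

theorem dha_lam_pp (r : ℕ) (ψ : DirichletCharacter ℂ r) (h2 : ψ ^ 2 = 1) (p k : ℕ)
    (hp : p.Prime) : lam ψ (p ^ k) = ∑ i ∈ range (k + 1), (ψ (p : ZMod r)).re ^ i := by
  unfold lam
  rw [Nat.divisors_prime_pow hp, sum_map]
  refine sum_congr rfl fun i _ => ?_
  exact dha_pow r ψ h2 p i

theorem dha_gg_pp (r : ℕ) (ψ : DirichletCharacter ℂ r) (h2 : ψ ^ 2 = 1) (p k : ℕ)
    (hp : p.Prime) : gg ψ (p ^ k) = ∑ i ∈ range (k + 1),
      (ArithmeticFunction.moebius (p ^ i) : ℝ) *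
        ((ArithmeticFunction.moebius (p ^ (k - i)) : ℝ) * (ψ (p : ZMod r)).re ^ (k - i)) := by
  unfold gg
  rw [Nat.sum_divisorsAntidiagonal (fun a b => (ArithmeticFunction.moebius a : ℝ) *
    ((ArithmeticFunction.moebius b : ℝ) * (ψ (b : ZMod r)).re)), Nat.divisors_prime_pow hp, sum_map]
  refine sum_congr rfl fun i hi => ?_
  rw [mem_range] at hi
  have h1 : p ^ k / p ^ i = p ^ (k - i) := Nat.pow_div (by omega) hp.pos
  change (ArithmeticFunction.moebius (p ^ i) : ℝ) * ((ArithmeticFunction.moebius (p ^ k / p ^ i) : ℝ) *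
    (ψ ((p ^ k / p ^ i : ℕ) : ZMod r)).re) = _
  rw [h1, dha_pow r ψ h2]

theorem dha_geom_nonneg (v : ℝ) (hv : v = 0 ∨ v = 1 ∨ v = -1) (n : ℕ) :
    0 ≤ ∑ i ∈ range n, v ^ i := by
  rcases hv with h | h | h
  · rw [h]
    exact sum_nonneg fun i _ => pow_nonneg le_rfl i
  · rw [h]
    exact sum_nonneg fun i _ => by simp
  · rw [h, neg_one_geom_sum]
    split <;> norm_num

/-- `λ(n) ≥ 0`: `λ` is multiplicative (`ArithmeticFunction.IsMultiplicative.mul` for the functions
`n ↦ 1` and `n ↦ (ψ n).re`; `ψ n` is real by `T341_real_value` or because `ψ(n)^2 ∈ {0, 1}`), and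
`λ(p^k) = 1 + ψ(p) + ... + ψ(p)^k ≥ 0` for `ψ(p) ∈ {-1, 0, 1}`. -/
theorem lam_nonneg (r : ℕ) [NeZero r] (ψ : DirichletCharacter ℂ r) (h2 : ψ ^ 2 = 1) (n : ℕ) :
    0 ≤ lam ψ n := by
  induction n using Nat.recOnPosPrimePosCoprime with
  | zero => simp [lam]
  | one => simp [lam]
  | prime_pow p k hp hk =>
    rw [dha_lam_pp r ψ h2 p k hp]
    exact dha_geom_nonneg _ (dha_val r ψ h2 p).2 _
  | coprime a b ha hb hab iha ihb =>
    rw [dha_lam, (dha_lam_mult r ψ h2).map_mul_of_coprime hab, ← dha_lam, ← dha_lam]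
    exact mul_nonneg iha ihb

/-- `|g(n)| ≤ λ(n)`: both sides are multiplicative; at `p`: `g(p) = -(1 + ψ(p)) = -λ(p)`;
`g(p²) = ψ(p)` and `λ(p²) = 1 + ψ(p) + ψ(p)² ≥ |ψ(p)|`; `g(p^k) = 0` for `k ≥ 3`. -/
theorem gg_abs_le (r : ℕ) [NeZero r] (ψ : DirichletCharacter ℂ r) (h2 : ψ ^ 2 = 1) (n : ℕ) :
    |gg ψ n| ≤ lam ψ n := by
  induction n using Nat.recOnPosPrimePosCoprime with
  | zero => simp [lam, gg]
  | one => simp [lam, gg]
  | prime_pow p k hp hk =>
    rw [dha_lam_pp r ψ h2 p k hp, dha_gg_pp r ψ h2 p k hp]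
    set v : ℝ := (ψ (p : ZMod r)).re with hv
    have hv3 : v = 0 ∨ v = 1 ∨ v = -1 := (dha_val r ψ h2 p).2
    have hmp : ArithmeticFunction.moebius p = -1 := ArithmeticFunction.moebius_apply_prime hp
    have hm2 : ∀ i, 2 ≤ i → ArithmeticFunction.moebius (p ^ i) = 0 := by
      intro i hi
      rw [ArithmeticFunction.moebius_apply_prime_pow hp (by omega), if_neg (by omega)]
    rcases Nat.lt_or_ge k 3 with h3 | h3
    · interval_cases k
      · simp only [zero_add, Nat.reduceAdd, sum_range_succ, sum_range_zero, pow_zero, pow_one, Nat.sub_zero,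
          Nat.sub_self, ArithmeticFunction.moebius_apply_one, hmp]
        rcases hv3 with h | h | h <;> rw [h] <;> norm_num
      · have e2 := hm2 2 le_rfl
        simp only [zero_add, Nat.reduceAdd, sum_range_succ, sum_range_zero, pow_zero, pow_one, Nat.sub_zero,
          Nat.sub_self, ArithmeticFunction.moebius_apply_one, hmp, e2, Nat.reduceSub]
        rcases hv3 with h | h | h <;> rw [h] <;> norm_num
    · have h4 : ∑ i ∈ range (k + 1), (ArithmeticFunction.moebius (p ^ i) : ℝ) *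
        ((ArithmeticFunction.moebius (p ^ (k - i)) : ℝ) * v ^ (k - i)) = 0 := by
        refine sum_eq_zero fun i hi => ?_
        rw [mem_range] at hi
        rcases Nat.lt_or_ge i 2 with h5 | h5
        · rw [hm2 (k - i) (by omega)]
          simp
        · rw [hm2 i h5]
          simp
      rw [h4, abs_zero]
      exact dha_geom_nonneg v hv3 _
  | coprime a b ha hb hab iha ihb =>
    rw [dha_lam, (dha_lam_mult r ψ h2).map_mul_of_coprime hab, ← dha_lam, ← dha_lam,
      dha_gg, (dha_gg_mult r ψ h2).map_mul_of_coprime hab, ← dha_gg, ← dha_gg, abs_mul]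
    exact mul_le_mul iha ihb (abs_nonneg _) (lam_nonneg r ψ h2 a)

/-- `g * λ = δ`: `(μ * μψ) * (1 * ψ) = (μ * 1) * (μψ * ψ)` and
`∑_{d ∣ n} μ(d) ψ(d) ψ(n/d) = ψ(n) ∑_{d ∣ n} μ(d)`. -/
theorem gg_conv (r : ℕ) [NeZero r] (ψ : DirichletCharacter ℂ r) (h2 : ψ ^ 2 = 1) (n : ℕ)
    (hn : 0 < n) :
    ∑ p ∈ n.divisorsAntidiagonal, gg ψ p.1 * lam ψ p.2 = if n = 1 then 1 else 0 := by
  have h1 : ArithmeticFunction.pmul (ArithmeticFunction.moebius : ArithmeticFunction ℝ) (dha_P ψ) *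
      dha_P ψ = 1 := by
    ext m
    rcases Nat.eq_zero_or_pos m with hm | hm
    · rw [hm]
      simp
    · have h3 : (ArithmeticFunction.pmul (ArithmeticFunction.moebius : ArithmeticFunction ℝ) (dha_P ψ) *
          dha_P ψ) m = dha_P ψ m * ((ArithmeticFunction.moebius : ArithmeticFunction ℝ) *
            (ArithmeticFunction.zeta : ArithmeticFunction ℝ)) m := by
        rw [ArithmeticFunction.mul_apply, ArithmeticFunction.mul_apply, mul_sum]
        refine sum_congr rfl fun p hp => ?_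
        have h4 := Nat.ne_zero_of_mem_divisorsAntidiagonal hp
        have h5 : p.1 * p.2 = m := (Nat.mem_divisorsAntidiagonal.1 hp).1
        rw [ArithmeticFunction.pmul_apply, dha_P_apply ψ h4.1, dha_P_apply ψ h4.2, dha_P_apply ψ hm.ne',
          ← h5, dha_mul r ψ h2, ArithmeticFunction.natCoe_apply, ArithmeticFunction.zeta_apply_ne h4.2]
        push_cast
        ring
      rw [h3, ArithmeticFunction.coe_moebius_mul_coe_zeta, ArithmeticFunction.one_apply]
      split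
      · rename_i h6
        rw [h6, dha_P_apply ψ one_ne_zero]
        simp
      · simp
  have h6 : ∑ p ∈ n.divisorsAntidiagonal, gg ψ p.1 * lam ψ p.2 =
      (((ArithmeticFunction.moebius : ArithmeticFunction ℝ) *
        (ArithmeticFunction.pmul (ArithmeticFunction.moebius : ArithmeticFunction ℝ) (dha_P ψ))) *
        (dha_P ψ * (ArithmeticFunction.zeta : ArithmeticFunction ℝ))) n := by
    rw [ArithmeticFunction.mul_apply]
    refine sum_congr rfl fun p _ => ?_
    rw [dha_gg, dha_lam]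
  have h7 : ((ArithmeticFunction.moebius : ArithmeticFunction ℝ) *
        (ArithmeticFunction.pmul (ArithmeticFunction.moebius : ArithmeticFunction ℝ) (dha_P ψ))) *
        (dha_P ψ * (ArithmeticFunction.zeta : ArithmeticFunction ℝ)) = 1 := by
    calc _ = ((ArithmeticFunction.moebius : ArithmeticFunction ℝ) *
          (ArithmeticFunction.zeta : ArithmeticFunction ℝ)) *
          (ArithmeticFunction.pmul (ArithmeticFunction.moebius : ArithmeticFunction ℝ) (dha_P ψ) *
            dha_P ψ) := by ring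
      _ = 1 := by rw [h1, ArithmeticFunction.coe_moebius_mul_coe_zeta, one_mul]
  rw [h6, h7, ArithmeticFunction.one_apply]

/-- `λ(n) ≤ n` (number of divisors). -/
theorem lam_le (r : ℕ) [NeZero r] (ψ : DirichletCharacter ℂ r) (n : ℕ) : lam ψ n ≤ n := by
  unfold lam
  have h1 : ∑ d ∈ n.divisors, (ψ (d : ZMod r)).re ≤ ∑ d ∈ n.divisors, (1 : ℝ) :=
    sum_le_sum fun d _ => (Complex.re_le_norm _).trans (DirichletCharacter.norm_le_one ψ _)
  refine h1.trans ?_
  rw [sum_const, nsmul_eq_mul, mul_one]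
  exact_mod_cast Nat.card_divisors_le_self n

/-- `λ` as a sum of complex values: `ψ(d)` is real. -/
theorem lam_cast (r : ℕ) [NeZero r] (ψ : DirichletCharacter ℂ r) (h2 : ψ ^ 2 = 1) (n : ℕ) :
    (lam ψ n : ℂ) = ∑ d ∈ n.divisors, ψ (d : ZMod r) := by
  unfold lam
  rw [Complex.ofReal_sum]
  refine sum_congr rfl fun d _ => ?_
  exact ((dha_val r ψ h2 d).1).symm

end Pool.Agent.Lib.H68T
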