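import Pool.Agent.Lib.H51D.DHDefs
import Pool.Agent.Lib.H51D.DHA
import Pool.Agent.Lib.H68X.XRH

/-!
# Chunk DHC: sums of `λ`
-/

open Finset

namespace Pool.Agent.Lib.H68T

theorem DHC_re_le (r : ℕ) (ψ : DirichletCharacter ℂ r) (d : ℕ) : (ψ (d : ZMod r)).re ≤ 1 :=
  (Complex.re_le_norm _).trans (DirichletCharacter.norm_le_one ψ _)

theorem DHC_harm (N : ℕ) : ∑ a ∈ Icc 1 N, (1 : ℝ) / a ≤ 1 + Real.log N := by
  have h := harmonic_le_one_add_log N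
  refine le_trans (le_of_eq ?_) h
  rw [harmonic_eq_sum_Icc]
  push_cast
  exact sum_congr rfl fun a _ => one_div _

/-- convolution sums against a rectangle -/
theorem DHC_rect (f g : ℕ → ℝ) (hf : ∀ n, 0 ≤ f n) (hg : ∀ n, 0 ≤ g n) (S : Finset ℕ) (N : ℕ)
    (P : ℕ × ℕ → Prop) [DecidablePred P]
    (hS : ∀ n ∈ S, 1 ≤ n ∧ n ≤ N) (hP : ∀ n ∈ S, ∀ p ∈ n.divisorsAntidiagonal, P p) :
    ∑ n ∈ S, ∑ p ∈ n.divisorsAntidiagonal, f p.1 * g p.2 ≤
      ∑ p ∈ (Icc 1 N ×ˢ Icc 1 N).filter P, f p.1 * g p.2 := by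
  rw [← sum_biUnion]
  · refine sum_le_sum_of_subset_of_nonneg ?_ fun p _ _ => mul_nonneg (hf _) (hg _)
    intro p hp
    obtain ⟨n, hn, hp'⟩ := mem_biUnion.1 hp
    obtain ⟨h1, h2⟩ := hS n hn
    obtain ⟨h3, h4⟩ := Nat.mem_divisorsAntidiagonal.1 hp'
    have h5 : 0 < p.1 * p.2 := by rw [h3]; omega
    have h6 : 0 < p.1 := Nat.pos_of_mul_pos_right h5
    have h7 : 0 < p.2 := Nat.pos_of_mul_pos_left h5
    refine mem_filter.2 ⟨mem_product.2 ⟨mem_Icc.2 ⟨h6, ?_⟩, mem_Icc.2 ⟨h7, ?_⟩⟩, hP n hn p hp'⟩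
    · nlinarith
    · nlinarith
  · intro a _ b _ hab
    rw [Function.onFun, Finset.disjoint_left]
    intro p hp hq
    obtain ⟨h3, _⟩ := Nat.mem_divisorsAntidiagonal.1 hp
    obtain ⟨h4, _⟩ := Nat.mem_divisorsAntidiagonal.1 hq
    exact hab (h3.symm.trans h4)


/-- `∑_{n ≤ N} λ(n)/n ≤ ∑_{n ≤ N} d(n)/n ≤ (∑_{n ≤ N} 1/n)²`. -/
theorem lam_sum_le (r : ℕ) [NeZero r] (ψ : DirichletCharacter ℂ r) (N : ℕ) :
    ∑ n ∈ Icc 1 N, lam ψ n / n ≤ (1 + Real.log N) ^ 2 := by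
  have h0 : ∀ n ∈ Icc 1 N, lam ψ n / n ≤
      ∑ p ∈ n.divisorsAntidiagonal, (1 / (p.1 : ℝ)) * (1 / (p.2 : ℝ)) := by
    intro n hn
    have hn1 : 1 ≤ n := (mem_Icc.1 hn).1
    have hn0 : (0 : ℝ) < n := by exact_mod_cast hn1
    have h1 : ∀ p ∈ n.divisorsAntidiagonal, (1 / (p.1 : ℝ)) * (1 / (p.2 : ℝ)) = 1 / n := by
      intro p hp
      obtain ⟨h3, _⟩ := Nat.mem_divisorsAntidiagonal.1 hp
      rw [one_div_mul_one_div, ← Nat.cast_mul, h3]
    rw [sum_congr rfl h1, sum_const, nsmul_eq_mul, mul_one_div]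
    refine div_le_div_of_nonneg_right ?_ hn0.le
    have h2 : n.divisorsAntidiagonal.card = n.divisors.card := by
      have := Nat.map_div_right_divisors (n := n)
      rw [← this, card_map]
    rw [h2]
    refine (sum_le_sum fun d _ => DHC_re_le r ψ d).trans ?_
    rw [sum_const, nsmul_eq_mul, mul_one]
  refine (sum_le_sum h0).trans ?_
  refine (DHC_rect (fun n => 1 / (n : ℝ)) (fun n => 1 / (n : ℝ)) (fun n => by positivity)
    (fun n => by positivity) (Icc 1 N) N (fun _ => True) (fun n hn => mem_Icc.1 hn)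
    (fun _ _ _ _ => trivial)).trans ?_
  rw [filter_true_of_mem fun _ _ => trivial, sum_product]
  change ∑ a ∈ Icc 1 N, ∑ b ∈ Icc 1 N, 1 / (a : ℝ) * (1 / (b : ℝ)) ≤ _
  rw [← sum_mul_sum, ← sq]
  refine pow_le_pow_left₀ (sum_nonneg fun a _ => by positivity) (DHC_harm N) 2

/-- Partial summation from `hyperbola` (`H68X/XRH.lean`): with `M(u) = ∑_{n ≤ u} λ(n)`,
`|M(u) - u L(1)| ≤ 4 r √u` (take real parts or norms; `lam_cast`),
`∑_{y < n ≤ N} λ(n)/n = M(N)/N - M(y)/(y+1) + ∑_{y < n < N} M(n)/(n(n+1))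
≤ ‖L(1)‖ + 4r/√N + ‖L(1)‖ ∑_{y<n<N} 1/(n+1) + 4 r ∑_{n > y} n^(-3/2)`. -/
theorem lam_tail (r : ℕ) [NeZero r] (ψ : DirichletCharacter ℂ r) (hψ : ψ ≠ 1) (h2 : ψ ^ 2 = 1)
    (y N : ℕ) (hy : 1 ≤ y) (hyN : y ≤ N) :
    ∑ n ∈ Ioc y N, lam ψ n / n ≤
      ‖ψ.LFunction 1‖ * (2 + Real.log N) + 20 * r / Real.sqrt y := by
  have hr : (0 : ℝ) ≤ r := Nat.cast_nonneg _
  have hL : 0 ≤ ‖ψ.LFunction 1‖ := norm_nonneg _
  set M : ℕ → ℝ := fun u => ∑ n ∈ Icc 1 u, lam ψ n with hM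
  have hM0 : ∀ u, 0 ≤ M u := fun u => sum_nonneg fun n _ => lam_nonneg r ψ h2 n
  have hMs : ∀ u, M (u + 1) = M u + lam ψ (u + 1) := by
    intro u
    simp only [hM]
    rw [sum_Icc_succ_top (by omega)]
  have hMb : ∀ u, M u ≤ u * ‖ψ.LFunction 1‖ + 4 * r * Real.sqrt u := by
    intro u
    have h1 := hyperbola r ψ hψ u
    have h3 : (∑ m ∈ Icc 1 u, ∑ d ∈ m.divisors, ψ (d : ZMod r)) = ((M u : ℝ) : ℂ) := by
      simp only [hM]
      push_cast
      exact sum_congr rfl fun m _ => (lam_cast r ψ h2 m).symm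
    rw [h3] at h1
    have h4 : M u ≤ ‖((M u : ℝ) : ℂ)‖ := by
      rw [Complex.norm_real]
      exact Real.le_norm_self _
    have h5 : ‖((M u : ℝ) : ℂ)‖ ≤ ‖((M u : ℝ) : ℂ) - u * ψ.LFunction 1‖ +
        ‖(u : ℂ) * ψ.LFunction 1‖ := by
      have := norm_add_le (((M u : ℝ) : ℂ) - u * ψ.LFunction 1) ((u : ℂ) * ψ.LFunction 1)
      rwa [sub_add_cancel] at this
    rw [norm_mul, Complex.norm_natCast] at h5
    linarith
  -- summation by parts
  have hab : ∀ K, y ≤ K → ∑ n ∈ Ioc y K, lam ψ n / n =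
      M K / (K + 1) - M y / (y + 1) + ∑ n ∈ Ioc y K, M n / (n * (n + 1)) := by
    intro K hK
    induction K, hK using Nat.le_induction with
    | base => simp
    | succ K hK ih =>
      rw [sum_Ioc_succ_top (by omega), sum_Ioc_succ_top (by omega), ih, hMs K]
      have h1 : (0 : ℝ) < K + 1 := by positivity
      have h2 : (0 : ℝ) < (K : ℝ) + 1 + 1 := by positivity
      push_cast
      field_simp
      ring
  have hsum : ∀ K, y ≤ K → ∑ n ∈ Ioc y K, M n / (n * (n + 1)) ≤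
      ‖ψ.LFunction 1‖ * (Real.log (K + 1) - Real.log (y + 1)) +
        8 * r * (1 / Real.sqrt (y + 1) - 1 / Real.sqrt (K + 1)) := by
    intro K hK
    induction K, hK using Nat.le_induction with
    | base => simp
    | succ K hK ih =>
      rw [sum_Ioc_succ_top (by omega)]
      have hK1 : (0 : ℝ) < (K : ℝ) + 1 := by positivity
      have hK2 : (0 : ℝ) < (K : ℝ) + 1 + 1 := by positivity
      have h1 := hMb (K + 1)
      have h2 : M (K + 1) / (((K + 1 : ℕ) : ℝ) * (((K + 1 : ℕ) : ℝ) + 1)) ≤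
          ‖ψ.LFunction 1‖ * (1 / ((K : ℝ) + 1 + 1)) +
            4 * r * (1 / (Real.sqrt (K + 1) * ((K : ℝ) + 1 + 1))) := by
        rw [div_le_iff₀ (by positivity)]
        refine h1.trans (le_of_eq ?_)
        push_cast
        have h3 : 0 < Real.sqrt ((K : ℝ) + 1) := Real.sqrt_pos.2 hK1
        have h4 : Real.sqrt ((K : ℝ) + 1) * Real.sqrt ((K : ℝ) + 1) = (K : ℝ) + 1 :=
          Real.mul_self_sqrt hK1.le
        field_simp
        linear_combination (4 * (r : ℝ)) * h4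
      have h3 : 1 / ((K : ℝ) + 1 + 1) ≤ Real.log (K + 1 + 1) - Real.log (K + 1) := by
        have h4 := Real.one_sub_inv_le_log_of_pos (x := ((K : ℝ) + 1 + 1) / (K + 1)) (by positivity)
        rw [Real.log_div hK2.ne' hK1.ne'] at h4
        refine le_trans (le_of_eq ?_) h4
        rw [inv_div]
        field_simp
        ring
      have h5 : 1 / (Real.sqrt ((K : ℝ) + 1) * ((K : ℝ) + 1 + 1)) ≤
          2 * (1 / Real.sqrt ((K : ℝ) + 1) - 1 / Real.sqrt ((K : ℝ) + 1 + 1)) := by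
        have ha : 0 < Real.sqrt ((K : ℝ) + 1) := Real.sqrt_pos.2 hK1
        have hb : 0 < Real.sqrt ((K : ℝ) + 1 + 1) := Real.sqrt_pos.2 hK2
        have hab : Real.sqrt ((K : ℝ) + 1) ≤ Real.sqrt ((K : ℝ) + 1 + 1) :=
          Real.sqrt_le_sqrt (by linarith)
        have ha2 : Real.sqrt ((K : ℝ) + 1) ^ 2 = (K : ℝ) + 1 := Real.sq_sqrt hK1.le
        have hb2 : Real.sqrt ((K : ℝ) + 1 + 1) ^ 2 = (K : ℝ) + 1 + 1 := Real.sq_sqrt hK2.le
        set a := Real.sqrt ((K : ℝ) + 1) with ha'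
        set b := Real.sqrt ((K : ℝ) + 1 + 1) with hb'
        have h6 : 2 * (1 / a - 1 / b) = 2 * (b - a) / (a * b) := by
          field_simp
        rw [h6, ← hb2, div_le_div_iff₀ (by positivity) (by positivity)]
        have h7 : (b - a) * (b + a) = 1 := by nlinarith
        have h8 : 1 ≤ 2 * (b - a) * b := by nlinarith
        have h9 : 0 < a * b := by positivity
        nlinarith [mul_le_mul_of_nonneg_left h8 h9.le]
      have h10 : (((K + 1 : ℕ) : ℝ)) = (K : ℝ) + 1 := by push_cast; ring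
      rw [h10] at h2 ⊢
      have h11 := mul_le_mul_of_nonneg_left h3 hL
      have h12 := mul_le_mul_of_nonneg_left h5 (by positivity : (0 : ℝ) ≤ 4 * r)
      linarith
  rw [hab N hyN]
  have hN1 : 1 ≤ N := hy.trans hyN
  have hN0 : (1 : ℝ) ≤ N := by exact_mod_cast hN1
  have hy0 : (1 : ℝ) ≤ y := by exact_mod_cast hy
  have hyN' : (y : ℝ) ≤ N := by exact_mod_cast hyN
  have hsy : 0 < Real.sqrt (y : ℝ) := Real.sqrt_pos.2 (by linarith)
  have hsN : 0 < Real.sqrt (N : ℝ) := Real.sqrt_pos.2 (by linarith)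
  have hsyN : Real.sqrt (y : ℝ) ≤ Real.sqrt N := Real.sqrt_le_sqrt hyN'
  have k1 := hsum N hyN
  have k2 : M N / (N + 1) ≤ ‖ψ.LFunction 1‖ + 4 * r * (1 / Real.sqrt y) := by
    rw [div_le_iff₀ (by positivity)]
    refine (hMb N).trans ?_
    have h3 : Real.sqrt N ≤ 1 / Real.sqrt y * (N + 1) := by
      rw [one_div, inv_mul_eq_div, le_div_iff₀ hsy]
      have h4 : Real.sqrt (N : ℝ) * Real.sqrt N = N := Real.mul_self_sqrt (by positivity)
      nlinarith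
    have h5 := mul_le_mul_of_nonneg_left h3 (by positivity : (0 : ℝ) ≤ 4 * r)
    nlinarith
  have k3 : 0 ≤ M y / (y + 1) := div_nonneg (hM0 y) (by positivity)
  have k4 : Real.log (N + 1) - Real.log (y + 1) ≤ Real.log N := by
    have h3 : Real.log (N + 1) ≤ Real.log (N * (y + 1)) :=
      Real.log_le_log (by positivity) (by nlinarith)
    rw [Real.log_mul (by positivity) (by positivity)] at h3
    linarith
  have k5 : 1 / Real.sqrt ((y : ℝ) + 1) - 1 / Real.sqrt ((N : ℝ) + 1) ≤ 1 / Real.sqrt y := by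
    have h3 : 0 ≤ 1 / Real.sqrt ((N : ℝ) + 1) := by positivity
    have h4 : 1 / Real.sqrt ((y : ℝ) + 1) ≤ 1 / Real.sqrt y :=
      one_div_le_one_div_of_le hsy (Real.sqrt_le_sqrt (by linarith))
    linarith
  have k6 := mul_le_mul_of_nonneg_left k4 hL
  have k7 := mul_le_mul_of_nonneg_left k5 (by positivity : (0 : ℝ) ≤ 8 * r)
  have k8 : 20 * (r : ℝ) / Real.sqrt y = 20 * r * (1 / Real.sqrt y) := by ring
  have k9 : 0 ≤ (r : ℝ) * (1 / Real.sqrt y) := by positivity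
  rw [k8]
  nlinarith

/-- If `m d = n > z²` then `m > z` or `d > z`. -/
theorem lam2_tail (r : ℕ) [NeZero r] (ψ : DirichletCharacter ℂ r) (h2 : ψ ^ 2 = 1) (z N : ℕ) :
    ∑ n ∈ Ioc (z ^ 2) N, lam2 ψ n / n ≤
      2 * (∑ n ∈ Ioc z N, lam ψ n / n) * ∑ n ∈ Icc 1 N, lam ψ n / n := by
  have hnn : ∀ n : ℕ, 0 ≤ lam ψ n / n := fun n => div_nonneg (lam_nonneg r ψ h2 n) (Nat.cast_nonneg _)
  have h0 : ∀ n ∈ Ioc (z ^ 2) N, lam2 ψ n / n =
      ∑ p ∈ n.divisorsAntidiagonal, lam ψ p.1 / p.1 * (lam ψ p.2 / p.2) := by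
    intro n hn
    unfold lam2
    rw [sum_div]
    refine sum_congr rfl fun p hp => ?_
    obtain ⟨h3, _⟩ := Nat.mem_divisorsAntidiagonal.1 hp
    rw [← h3, Nat.cast_mul, mul_div_mul_comm]
  rw [sum_congr rfl h0]
  have h1 := DHC_rect (fun n => lam ψ n / n) (fun n => lam ψ n / n) hnn hnn (Ioc (z ^ 2) N) N
    (fun p => z < p.1 ∨ z < p.2)
    (fun n hn => ⟨by have := (mem_Ioc.1 hn).1; omega, (mem_Ioc.1 hn).2⟩)
    (fun n hn p hp => by
      obtain ⟨h3, _⟩ := Nat.mem_divisorsAntidiagonal.1 hp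
      by_contra hc
      rw [not_or, not_lt, not_lt] at hc
      have h4 := (mem_Ioc.1 hn).1
      have h5 := Nat.mul_le_mul hc.1 hc.2
      rw [h3, ← sq] at h5
      omega)
  refine h1.trans ?_
  have h6 : (Icc 1 N ×ˢ Icc 1 N).filter (fun p => z < p.1 ∨ z < p.2) ⊆
      (Ioc z N ×ˢ Icc 1 N) ∪ (Icc 1 N ×ˢ Ioc z N) := by
    intro p hp
    obtain ⟨h7, h8⟩ := mem_filter.1 hp
    obtain ⟨h9, h10⟩ := mem_product.1 h7
    rcases h8 with h8 | h8
    · exact mem_union_left _ (mem_product.2 ⟨mem_Ioc.2 ⟨h8, (mem_Icc.1 h9).2⟩, h10⟩)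
    · exact mem_union_right _ (mem_product.2 ⟨h9, mem_Ioc.2 ⟨h8, (mem_Icc.1 h10).2⟩⟩)
  refine (sum_le_sum_of_subset_of_nonneg h6 fun p _ _ => mul_nonneg (hnn _) (hnn _)).trans ?_
  have h11 : ∑ p ∈ (Ioc z N ×ˢ Icc 1 N) ∪ (Icc 1 N ×ˢ Ioc z N),
      lam ψ p.1 / p.1 * (lam ψ p.2 / p.2) ≤
      ∑ p ∈ Ioc z N ×ˢ Icc 1 N, lam ψ p.1 / p.1 * (lam ψ p.2 / p.2) +
      ∑ p ∈ Icc 1 N ×ˢ Ioc z N, lam ψ p.1 / p.1 * (lam ψ p.2 / p.2) := by
    rw [← sum_union_inter]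
    exact le_add_of_nonneg_right (sum_nonneg fun p _ => mul_nonneg (hnn _) (hnn _))
  refine h11.trans (le_of_eq ?_)
  rw [sum_product, sum_product]
  change ∑ a ∈ Ioc z N, ∑ b ∈ Icc 1 N, lam ψ a / a * (lam ψ b / b) +
    ∑ a ∈ Icc 1 N, ∑ b ∈ Ioc z N, lam ψ a / a * (lam ψ b / b) = _
  rw [← sum_mul_sum, ← sum_mul_sum]
  ring

end Pool.Agent.Lib.H68T
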