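import Pool.Agent.Lib.H68X.XDefs

/-!
# Project H51D (MP_f686a1_nt): definitions

Objects of the Deuring-Heilbronn part (module DH).
-/

open Finset

namespace Pool.Agent.Lib.H68T

noncomputable section

/-! ## Objects of the Deuring-Heilbronn part -/

/-- `λ = 1 * ψ` for a real character `ψ`. -/
def lam {r : ℕ} (ψ : DirichletCharacter ℂ r) (n : ℕ) : ℝ :=
  ∑ d ∈ n.divisors, (ψ (d : ZMod r)).re

/-- `g = μ * μψ`, the Dirichlet inverse of `λ`. -/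
def gg {r : ℕ} (ψ : DirichletCharacter ℂ r) (n : ℕ) : ℝ :=
  ∑ p ∈ n.divisorsAntidiagonal, (ArithmeticFunction.moebius p.1 : ℝ) *
    ((ArithmeticFunction.moebius p.2 : ℝ) * (ψ (p.2 : ZMod r)).re)

/-- `λ * λ` -/
def lam2 {r : ℕ} (ψ : DirichletCharacter ℂ r) (n : ℕ) : ℝ :=
  ∑ p ∈ n.divisorsAntidiagonal, lam ψ p.1 * lam ψ p.2

/-- `g` truncated at `Z`, convolved with `λ`. -/
def cZ {r : ℕ} (ψ : DirichletCharacter ℂ r) (Z n : ℕ) : ℝ :=
  ∑ p ∈ n.divisorsAntidiagonal.filter (fun p => p.1 ≤ Z), gg ψ p.1 * lam ψ p.2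

/-- The partial sums `∑_{m ≤ u} χ(m) λ(m) m^(-s)`. -/
def TT {q r : ℕ} (χ : DirichletCharacter ℂ q) (ψ : DirichletCharacter ℂ r) (s : ℂ) (u : ℕ) : ℂ :=
  ∑ m ∈ Icc 1 u, χ (m : ZMod q) * (lam ψ m : ℂ) * (m : ℂ) ^ (-s)

open Classical in
/-- The mean value of a character: `φ(N)/N` for the principal one and `0` for the others. -/
def kap (N : ℕ) (χ : DirichletCharacter ℂ N) : ℝ :=
  if χ = 1 then (Nat.totient N : ℝ) / N else 0

end

end Pool.Agent.Lib.H68T
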