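import Pool.Agent.Lib.H51D.DHDefs
import Pool.Agent.Lib.H68X.XRH

/-!
# Chunk DHD: hyperbola method for the convolution of two characters
-/

open Finset

namespace Pool.Agent.Lib.H68T

theorem DHD_swap (c y : ℕ → ℂ) (u : ℕ) :
    ∑ n ∈ Icc 1 u, ∑ d ∈ n.divisors, c d * y (n / d) =
      ∑ d ∈ Ioc 0 u, c d * ∑ m ∈ Ioc 0 (u / d), y m := by
  have h1 : ∀ n ∈ Icc 1 u, ∑ d ∈ n.divisors, c d * y (n / d) =
      ∑ p ∈ n.divisorsAntidiagonal, c p.1 * y p.2 := by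
    intro n _
    exact (Nat.sum_divisorsAntidiagonal (f := fun a b => c a * y b)).symm
  rw [sum_congr rfl h1, ← sum_biUnion]
  · simp_rw [mul_sum]
    rw [sum_sigma']
    refine sum_bij' (fun p _ => (⟨p.1, p.2⟩ : Σ _ : ℕ, ℕ)) (fun x _ => (x.1, x.2)) ?_ ?_ ?_ ?_ ?_
    · intro p hp
      obtain ⟨n, hn, hp'⟩ := mem_biUnion.1 hp
      obtain ⟨h2, h3⟩ := Nat.mem_divisorsAntidiagonal.1 hp'
      obtain ⟨h4, h5⟩ := mem_Icc.1 hn
      have h6 : 0 < p.1 * p.2 := by rw [h2]; omega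
      have h7 : 0 < p.1 := Nat.pos_of_mul_pos_right h6
      have h8 : 0 < p.2 := Nat.pos_of_mul_pos_left h6
      refine mem_sigma.2 ⟨mem_Ioc.2 ⟨h7, ?_⟩, mem_Ioc.2 ⟨h8, ?_⟩⟩
      · nlinarith
      · change p.2 ≤ u / p.1
        rw [Nat.le_div_iff_mul_le h7, mul_comm, h2]
        exact h5
    · intro x hx
      obtain ⟨h2, h3⟩ := mem_sigma.1 hx
      obtain ⟨h4, h5⟩ := mem_Ioc.1 h2
      obtain ⟨h6, h7⟩ := mem_Ioc.1 h3
      have h8 : x.2 * x.1 ≤ u := (Nat.le_div_iff_mul_le h4).1 h7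
      have h9 : 0 < x.1 * x.2 := Nat.mul_pos h4 h6
      refine mem_biUnion.2 ⟨x.1 * x.2, mem_Icc.2 ⟨h9, by rw [mul_comm]; exact h8⟩, ?_⟩
      exact Nat.mem_divisorsAntidiagonal.2 ⟨rfl, h9.ne'⟩
    · intro p _
      rfl
    · intro x _
      rfl
    · intro p _
      rfl
  · intro a _ b _ hab
    rw [Function.onFun, Finset.disjoint_left]
    intro p hp hq
    obtain ⟨h3, _⟩ := Nat.mem_divisorsAntidiagonal.1 hp
    obtain ⟨h4, _⟩ := Nat.mem_divisorsAntidiagonal.1 hq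
    exact hab (h3.symm.trans h4)

theorem DHD_second (c y : ℕ → ℂ) (D u : ℕ) :
    ∑ d ∈ Ioc D u, c d * ∑ m ∈ Ioc 0 (u / d), y m =
      ∑ m ∈ Ioc 0 (u / (D + 1)), y m * ∑ d ∈ Ioc D (u / m), c d := by
  simp_rw [mul_sum]
  rw [sum_sigma', sum_sigma']
  refine sum_bij' (fun p _ => (⟨p.2, p.1⟩ : Σ _ : ℕ, ℕ)) (fun x _ => (⟨x.2, x.1⟩ : Σ _ : ℕ, ℕ))
    ?_ ?_ ?_ ?_ ?_
  · intro x hx
    obtain ⟨h2, h3⟩ := mem_sigma.1 hx
    obtain ⟨h4, h5⟩ := mem_Ioc.1 h2
    obtain ⟨h6, h7⟩ := mem_Ioc.1 h3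
    have h1 : 0 < x.1 := by omega
    have h8 : x.2 * x.1 ≤ u := (Nat.le_div_iff_mul_le h1).1 h7
    refine mem_sigma.2 ⟨mem_Ioc.2 ⟨h6, ?_⟩, mem_Ioc.2 ⟨h4, ?_⟩⟩
    · exact h7.trans (Nat.div_le_div_left h4 (by omega))
    · change x.1 ≤ u / x.2
      rw [Nat.le_div_iff_mul_le h6, mul_comm]
      exact h8
  · intro x hx
    obtain ⟨h2, h3⟩ := mem_sigma.1 hx
    obtain ⟨h4, h5⟩ := mem_Ioc.1 h2
    obtain ⟨h6, h7⟩ := mem_Ioc.1 h3
    have h8 : x.2 * x.1 ≤ u := (Nat.le_div_iff_mul_le h4).1 h7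
    have h1 : 0 < x.2 := by omega
    refine mem_sigma.2 ⟨mem_Ioc.2 ⟨h6, h7.trans (Nat.div_le_self _ _)⟩, mem_Ioc.2 ⟨h4, ?_⟩⟩
    change x.1 ≤ u / x.2
    rw [Nat.le_div_iff_mul_le h1, mul_comm]
    exact h8
  · intro x _
    rfl
  · intro x _
    rfl
  · intro x _
    exact mul_comm _ _


/-- Hyperbola method (copy the structure of `hyperbola` in `H68X/XRH.lean`). Let
`X(u) = ∑_{n ≤ u} χ₁(n)`, `Y(u) = ∑_{n ≤ u} y(n) = κ u + O(D)`, `v = Nat.sqrt u`. Then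
`∑_{ab ≤ u} χ₁(a) y(b) = ∑_{a ≤ v} χ₁(a) Y(u/a) + ∑_{b ≤ v} y(b) (X(u/b) - X(v))` (natural division;
`a > v` and `a b ≤ u` imply `b ≤ v`). Second sum: at most `v N₁` (`XRH_Ioc`). First sum:
`Y(⌊u/a⌋) = κ u/a + O(‖κ‖ + D)`, `κ u ∑_{a ≤ v} χ₁(a)/a = κ u (L(1,χ₁) + O(2 N₁/(v+1)))`
(`XRH_tail`), `v + 1 > √u ≥ v`. -/
theorem dh_hyperbola (N₁ : ℕ) [NeZero N₁] (χ₁ : DirichletCharacter ℂ N₁) (h₁ : χ₁ ≠ 1)
    (y : ℕ → ℂ) (κ : ℂ) (D : ℝ) (hy : ∀ n, ‖y n‖ ≤ 1) (hκ : ‖κ‖ ≤ 1)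
    (hY : ∀ u : ℕ, ‖(∑ n ∈ Icc 1 u, y n) - κ * u‖ ≤ D) (u : ℕ) :
    ‖(∑ n ∈ Icc 1 u, ∑ d ∈ n.divisors, χ₁ (d : ZMod N₁) * y (n / d)) -
      κ * χ₁.LFunction 1 * u‖ ≤ 5 * (N₁ + D + 1) * Real.sqrt u := by
  have hD0 : 0 ≤ D := (norm_nonneg _).trans (hY 0)
  have hr0 : (0 : ℝ) ≤ N₁ := Nat.cast_nonneg _
  rw [DHD_swap (fun d => χ₁ (d : ZMod N₁)) y u]
  set E := Nat.sqrt u with hE
  have hEu : E ≤ u := Nat.sqrt_le_self u
  have hD1 : (E : ℝ) ≤ √u := Real.nat_sqrt_le_real_sqrt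
  have hD2 : √u ≤ E + 1 := Real.real_sqrt_le_nat_sqrt_succ
  have hs0 : 0 ≤ √(u : ℝ) := Real.sqrt_nonneg _
  have hyy : √(u : ℝ) * √u = u := Real.mul_self_sqrt (Nat.cast_nonneg _)
  have hyD : (u : ℝ) / (E + 1) ≤ √u := by
    rw [div_le_iff₀ (by positivity)]
    nlinarith
  have e2 := (sum_Ioc_consecutive (fun d => χ₁ (d : ZMod N₁) * ∑ m ∈ Ioc 0 (u / d), y m)
    (Nat.zero_le _) hEu).symm
  rw [e2, DHD_second (fun d => χ₁ (d : ZMod N₁)) y E u]
  have b3 : ‖∑ m ∈ Ioc 0 (u / (E + 1)), y m * ∑ d ∈ Ioc E (u / m), χ₁ (d : ZMod N₁)‖ ≤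
      N₁ * √u := by
    refine (norm_sum_le _ _).trans ((sum_le_sum (g := fun _ => (N₁ : ℝ)) fun e _ => ?_).trans ?_)
    · rw [norm_mul]
      calc _ ≤ 1 * (N₁ : ℝ) := mul_le_mul (hy e) (XRH_Ioc N₁ χ₁ h₁ E (u / e)) (norm_nonneg _)
            zero_le_one
        _ = N₁ := one_mul _
    · rw [sum_const, Nat.card_Ioc, Nat.sub_zero, nsmul_eq_mul, mul_comm]
      refine mul_le_mul_of_nonneg_left ?_ hr0
      refine Nat.cast_div_le.trans ?_
      push_cast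
      exact hyD
  have b4 : ‖∑ d ∈ Ioc 0 E, χ₁ (d : ZMod N₁) * ∑ m ∈ Ioc 0 (u / d), y m -
      κ * u * ∑ d ∈ Ioc 0 E, χ₁ (d : ZMod N₁) / d‖ ≤ (D + 1) * √u := by
    rw [mul_sum, ← sum_sub_distrib]
    refine (norm_sum_le _ _).trans (le_trans (sum_le_sum (g := fun _ => (D + 1 : ℝ)) ?_) ?_)
    · intro d hd
      have hd0 : 0 < d := (mem_Ioc.1 hd).1
      have h1 : χ₁ (d : ZMod N₁) * ∑ m ∈ Ioc 0 (u / d), y m -
          κ * u * (χ₁ (d : ZMod N₁) / d) =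
          χ₁ (d : ZMod N₁) * (((∑ m ∈ Ioc 0 (u / d), y m) - κ * ((u / d : ℕ) : ℂ)) +
            κ * (((((u / d : ℕ) : ℝ) - u / d : ℝ)) : ℂ)) := by
        push_cast
        ring
      have h6 : Ioc 0 (u / d) = Icc 1 (u / d) := by
        ext x
        simp only [mem_Ioc, mem_Icc]
        omega
      rw [h1, norm_mul]
      have h2 : ‖((u / d : ℕ) : ℝ) - u / d‖ ≤ 1 := by
        rw [Real.norm_eq_abs, abs_le]
        have h3 : ((u / d : ℕ) : ℝ) ≤ u / d := Nat.cast_div_le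
        have h4 : (u : ℝ) / d < ((u / d : ℕ) : ℝ) + 1 := by
          rw [div_lt_iff₀ (by exact_mod_cast hd0)]
          have := Nat.lt_mul_div_succ u hd0
          have h5 : (u : ℝ) < d * (((u / d : ℕ) : ℝ) + 1) := by exact_mod_cast this
          linarith
        constructor <;> linarith
      have h7 : ‖κ * (((((u / d : ℕ) : ℝ) - u / d : ℝ)) : ℂ)‖ ≤ 1 := by
        rw [norm_mul, Complex.norm_real]
        calc _ ≤ 1 * 1 := mul_le_mul hκ h2 (norm_nonneg _) zero_le_one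
          _ = 1 := one_mul _
      have h8 : ‖(∑ m ∈ Ioc 0 (u / d), y m) - κ * ((u / d : ℕ) : ℂ)‖ ≤ D := by
        rw [h6]
        exact hY (u / d)
      calc _ ≤ 1 * (D + 1) := mul_le_mul (DirichletCharacter.norm_le_one χ₁ _)
            ((norm_add_le _ _).trans (add_le_add h8 h7)) (norm_nonneg _) (by norm_num)
        _ = D + 1 := one_mul _
    · rw [sum_const, Nat.card_Ioc, Nat.sub_zero, nsmul_eq_mul, mul_comm]
      exact mul_le_mul_of_nonneg_left hD1 (by linarith)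
  have b5 : ‖κ * u * (χ₁.LFunction 1 - ∑ d ∈ Ioc 0 E, χ₁ (d : ZMod N₁) / d)‖ ≤
      2 * N₁ * √u := by
    rw [norm_mul, norm_mul, Complex.norm_natCast]
    calc ‖κ‖ * (u : ℝ) * ‖χ₁.LFunction 1 - ∑ d ∈ Ioc 0 E, χ₁ (d : ZMod N₁) / d‖
        ≤ 1 * u * (2 * N₁ / (E + 1)) :=
          mul_le_mul (mul_le_mul_of_nonneg_right hκ (Nat.cast_nonneg _))
            (XRH_tail N₁ χ₁ h₁ E) (norm_nonneg _) (by positivity)
      _ = 2 * N₁ * (u / (E + 1)) := by ring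
      _ ≤ _ := mul_le_mul_of_nonneg_left hyD (by positivity)
  have e6 : ∑ d ∈ Ioc 0 E, χ₁ (d : ZMod N₁) * ∑ m ∈ Ioc 0 (u / d), y m +
      ∑ m ∈ Ioc 0 (u / (E + 1)), y m * ∑ d ∈ Ioc E (u / m), χ₁ (d : ZMod N₁) -
      κ * χ₁.LFunction 1 * u =
      (∑ d ∈ Ioc 0 E, χ₁ (d : ZMod N₁) * ∑ m ∈ Ioc 0 (u / d), y m -
        κ * u * ∑ d ∈ Ioc 0 E, χ₁ (d : ZMod N₁) / d) +
      ∑ m ∈ Ioc 0 (u / (E + 1)), y m * ∑ d ∈ Ioc E (u / m), χ₁ (d : ZMod N₁) -
      κ * u * (χ₁.LFunction 1 - ∑ d ∈ Ioc 0 E, χ₁ (d : ZMod N₁) / d) := by ring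
  rw [e6]
  refine (norm_sub_le _ _).trans ((add_le_add (norm_add_le _ _) le_rfl).trans ?_)
  nlinarith [mul_nonneg hr0 hs0, mul_nonneg hD0 hs0]

/-- The counting function of a character: for `χ ≠ 1` this is `XRH_Ioc`; for `χ = 1` a complete
period contains `φ(N)` coprime residues, so `∑_{n ≤ u} χ(n) = φ(N) ⌊u/N⌋ + O(N)` (cf.
`Nat.filter_coprime_Ico_eq_totient`, `Nat.count`, periodicity). -/
theorem dh_count (N : ℕ) [NeZero N] (χ : DirichletCharacter ℂ N) (u : ℕ) :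
    ‖(∑ n ∈ Icc 1 u, χ (n : ZMod N)) - (kap N χ : ℂ) * u‖ ≤ 2 * N := by
  by_cases hχ : χ = 1
  · subst hχ
    have hN : 0 < N := Nat.pos_of_ne_zero (NeZero.ne N)
    have hN0 : (0 : ℝ) < N := by exact_mod_cast hN
    have hk : kap N (1 : DirichletCharacter ℂ N) = (Nat.totient N : ℝ) / N := by
      unfold kap
      rw [if_pos rfl]
    -- the values of the principal character
    have hv : ∀ n : ℕ, (1 : DirichletCharacter ℂ N) (n : ZMod N) =
        if N.Coprime n then 1 else 0 := by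
      intro n
      split_ifs with h
      · exact MulChar.one_apply ((ZMod.isUnit_iff_coprime n N).2 h.symm)
      · exact MulChar.map_nonunit _ fun hu => h ((ZMod.isUnit_iff_coprime n N).1 hu).symm
    have hsum : ∀ v : ℕ, (∑ n ∈ Icc 1 v, (1 : DirichletCharacter ℂ N) (n : ZMod N)) =
        ((((Icc 1 v).filter fun n => N.Coprime n).card : ℕ) : ℂ) := by
      intro v
      rw [sum_congr rfl fun n _ => hv n, ← sum_filter, sum_const, nsmul_eq_mul, mul_one]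
    have hc : ∀ q t : ℕ, ((Icc 1 (q * N + t)).filter fun n => N.Coprime n).card =
        q * N.totient + ((Icc (q * N + 1) (q * N + t)).filter fun n => N.Coprime n).card := by
      intro q t
      have h1 : Icc 1 (q * N + t) = Icc 1 (q * N) ∪ Icc (q * N + 1) (q * N + t) := by
        ext x
        simp only [mem_union, mem_Icc]
        omega
      rw [h1, filter_union, card_union_of_disjoint]
      · congr 1
        induction q with
        | zero => simp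
        | succ q ih =>
          have h2 : Icc 1 ((q + 1) * N) = Icc 1 (q * N) ∪ Ico (q * N + 1) (q * N + 1 + N) := by
            ext x
            simp only [mem_union, mem_Icc, mem_Ico]
            rw [add_mul, one_mul]
            omega
          rw [h2, filter_union, card_union_of_disjoint, ih, Nat.filter_coprime_Ico_eq_totient,
            add_mul, one_mul]
          · have h3 : Icc 1 (q * N + t) = Icc 1 (q * N) ∪ Icc (q * N + 1) (q * N + t) := by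
              ext x
              simp only [mem_union, mem_Icc]
              omega
            exact h3
          · rw [Finset.disjoint_left]
            intro x hx hy
            have ha := (mem_Icc.1 (mem_filter.1 hx).1).2
            have hb := (mem_Ico.1 (mem_filter.1 hy).1).1
            omega
      · rw [Finset.disjoint_left]
        intro x hx hy
        have ha := (mem_Icc.1 (mem_filter.1 hx).1).2
        have hb := (mem_Icc.1 (mem_filter.1 hy).1).1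
        omega
    have hdiv : u / N * N + u % N = u := Nat.div_add_mod' u N
    have hmod : u % N < N := Nat.mod_lt _ hN
    have h1 := hc (u / N) (u % N)
    rw [hdiv] at h1
    have h2 : ((Icc (u / N * N + 1) u).filter fun n => N.Coprime n).card ≤ u % N := by
      refine (card_filter_le _ _).trans ?_
      rw [Nat.card_Icc]
      omega
    rw [hsum u, h1, hk]
    have h3 : ((((u / N * N.totient + ((Icc (u / N * N + 1) u).filter fun n => N.Coprime n).card :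
        ℕ)) : ℂ) - (((Nat.totient N : ℝ) / N : ℝ) : ℂ) * u) =
        (((((Icc (u / N * N + 1) u).filter fun n => N.Coprime n).card : ℝ) -
          (Nat.totient N : ℝ) / N * ((u % N : ℕ) : ℝ) : ℝ) : ℂ) := by
      have h4 : (u : ℂ) = ((u / N : ℕ) : ℂ) * N + ((u % N : ℕ) : ℂ) := by
        exact_mod_cast hdiv.symm
      have h5 : (N : ℂ) ≠ 0 := by exact_mod_cast hN.ne'
      push_cast
      rw [h4]
      field_simp
      ring
    rw [h3, Complex.norm_real, Real.norm_eq_abs, abs_le]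
    have h6 : (0 : ℝ) ≤ (((Icc (u / N * N + 1) u).filter fun n => N.Coprime n).card : ℝ) :=
      Nat.cast_nonneg _
    have h7 : (((Icc (u / N * N + 1) u).filter fun n => N.Coprime n).card : ℝ) ≤ N := by
      exact_mod_cast h2.trans hmod.le
    have h8 : (Nat.totient N : ℝ) / N ≤ 1 := by
      rw [div_le_one hN0]
      exact_mod_cast Nat.totient_le N
    have h9 : (0 : ℝ) ≤ (Nat.totient N : ℝ) / N := by positivity
    have h10 : ((u % N : ℕ) : ℝ) ≤ N := by exact_mod_cast hmod.le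
    have h11 : (0 : ℝ) ≤ ((u % N : ℕ) : ℝ) := Nat.cast_nonneg _
    have h12 : (Nat.totient N : ℝ) / N * ((u % N : ℕ) : ℝ) ≤ 1 * N :=
      mul_le_mul h8 h10 h11 zero_le_one
    have h13 : 0 ≤ (Nat.totient N : ℝ) / N * ((u % N : ℕ) : ℝ) := mul_nonneg h9 h11
    constructor <;> linarith
  · have hk : kap N χ = 0 := by
      unfold kap
      rw [if_neg hχ]
    rw [hk, Complex.ofReal_zero, zero_mul, sub_zero]
    have h1 : Icc 1 u = Ioc 0 u := by
      ext x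
      simp only [mem_Ioc, mem_Icc]
      omega
    rw [h1]
    refine (XRH_Ioc N χ hχ 0 u).trans ?_
    have : (0 : ℝ) ≤ N := Nat.cast_nonneg _
    linarith

theorem kap_nonneg (N : ℕ) (χ : DirichletCharacter ℂ N) : 0 ≤ kap N χ := by
  unfold kap
  split_ifs
  · positivity
  · exact le_rfl

theorem kap_le_one (N : ℕ) [NeZero N] (χ : DirichletCharacter ℂ N) : kap N χ ≤ 1 := by
  unfold kap
  split_ifs
  · have hN : 0 < N := Nat.pos_of_ne_zero (NeZero.ne N)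
    rw [div_le_one (by exact_mod_cast hN)]
    exact_mod_cast Nat.totient_le N
  · exact zero_le_one

end Pool.Agent.Lib.H68T
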