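import Pool.Agent.Lib.H51D.DHDefs
import Pool.Agent.Lib.H68T.GL
import Pool.Agent.Lib.H68X.XRL

/-!
# Chunk DHE: Dirichlet series at a zero of their analytic continuation
-/

open Finset

namespace Pool.Agent.Lib.H68T

/-- the error term -/
noncomputable def DHE_E (f : ℕ → ℂ) (κ : ℂ) (n : ℕ) : ℂ := (∑ k ∈ Icc 1 n, f k) - κ * n

/-- `(n+1)^(-s)` -/
noncomputable def DHE_p (n : ℕ) (s : ℂ) : ℂ := (((n : ℝ) + 1 : ℝ) : ℂ) ^ (-s)

/-- the terms of the continuation -/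
noncomputable def DHE_A (f : ℕ → ℂ) (κ : ℂ) (n : ℕ) (s : ℂ) : ℂ :=
  DHE_E f κ (n + 1) * ((((n : ℝ) + 1 : ℝ) : ℂ) ^ (-s) - (((n : ℝ) + 2 : ℝ) : ℂ) ^ (-s))

theorem DHE_p_succ (n : ℕ) (s : ℂ) : DHE_p (n + 1) s = (((n : ℝ) + 2 : ℝ) : ℂ) ^ (-s) := by
  have e : (((n + 1 : ℕ) : ℝ) + 1 : ℝ) = (n : ℝ) + 2 := by
    push_cast
    ring
  rw [DHE_p, e]

theorem DHE_abel (f : ℕ → ℂ) (κ : ℂ) (s : ℂ) (K : ℕ) :
    ∑ n ∈ range K, f (n + 1) * DHE_p n s =
      DHE_E f κ K * DHE_p K s + κ * ∑ n ∈ range K, DHE_p n s + ∑ n ∈ range K, DHE_A f κ n s := by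
  induction K with
  | zero => simp [DHE_E]
  | succ K ih =>
    rw [sum_range_succ, ih, sum_range_succ, sum_range_succ (fun n => DHE_A f κ n s)]
    have h1 : DHE_E f κ (K + 1) = DHE_E f κ K + f (K + 1) - κ := by
      rw [DHE_E, DHE_E, sum_Icc_succ_top (by omega)]
      push_cast
      ring
    have h2 : DHE_A f κ K s = DHE_E f κ (K + 1) * (DHE_p K s - DHE_p (K + 1) s) := by
      rw [DHE_A, DHE_p_succ, DHE_p]
    rw [h2, h1]
    ring

theorem DHE_A_norm (f : ℕ → ℂ) (κ : ℂ) (D : ℝ)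
    (hM : ∀ u : ℕ, ‖(∑ n ∈ Icc 1 u, f n) - κ * u‖ ≤ D * Real.sqrt u) (n : ℕ) (s : ℂ)
    (hs : 0 < s.re) :
    ‖DHE_A f κ n s‖ ≤ D * ‖s‖ * ((n : ℝ) + 1) ^ (-s.re - 1 / 2) := by
  have hn : (0 : ℝ) < (n : ℝ) + 1 := by positivity
  rw [DHE_A, norm_mul, norm_sub_rev]
  have h1 : ‖DHE_E f κ (n + 1)‖ ≤ D * ((n : ℝ) + 1) ^ (1 / 2 : ℝ) := by
    have := hM (n + 1)
    rw [Real.sqrt_eq_rpow] at this
    push_cast at this ⊢
    rw [DHE_E]
    push_cast
    exact this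
  have h2 := gl1_diff' s hs (a := (n : ℝ) + 1) (b := (n : ℝ) + 2) hn (by linarith)
  have e : (n : ℝ) + 2 - ((n : ℝ) + 1) = 1 := by ring
  rw [e, mul_one] at h2
  calc _ ≤ (D * ((n : ℝ) + 1) ^ (1 / 2 : ℝ)) * (‖s‖ * ((n : ℝ) + 1) ^ (-s.re - 1)) :=
        mul_le_mul h1 h2 (norm_nonneg _) ((norm_nonneg _).trans h1)
    _ = D * ‖s‖ * (((n : ℝ) + 1) ^ (1 / 2 : ℝ) * ((n : ℝ) + 1) ^ (-s.re - 1)) := by ring
    _ = _ := by
      rw [← Real.rpow_add hn]
      congr 2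
      ring

theorem DHE_diff (f : ℕ → ℂ) (κ : ℂ) (n : ℕ) : Differentiable ℂ (DHE_A f κ n) := by
  have h0 : ∀ (x : ℝ), 0 < x → Differentiable ℂ fun s : ℂ => (x : ℂ) ^ (-s) := by
    intro x hx s
    refine DifferentiableAt.const_cpow differentiableAt_id.neg (Or.inl ?_)
    exact_mod_cast hx.ne'
  unfold DHE_A
  exact ((h0 _ (by positivity)).sub (h0 _ (by positivity))).const_mul _

theorem DHE_analytic (f : ℕ → ℂ) (κ : ℂ) (D : ℝ) (hD : 0 ≤ D)
    (hM : ∀ u : ℕ, ‖(∑ n ∈ Icc 1 u, f n) - κ * u‖ ≤ D * Real.sqrt u) :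
    AnalyticOnNhd ℂ (fun s => ∑' n, DHE_A f κ n s) {s | 1 / 2 < s.re} := by
  have h1 : DifferentiableOn ℂ (fun s => ∑' n, DHE_A f κ n (s + 1 / 2)) {s | 0 < s.re} := by
    apply gl1_analytic (fun n s => DHE_A f κ n (s + 1 / 2))
    · intro n
      exact (DHE_diff f κ n).comp (by fun_prop)
    · intro R
      refine ⟨D * (|R| + 1), fun n s hs hR => ?_⟩
      have h2 : 0 < (s + 1 / 2).re := by
        simp
        linarith
      refine (DHE_A_norm f κ D hM n _ h2).trans ?_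
      have e1 : -(s + 1 / 2).re - 1 / 2 = -s.re - 1 := by
        simp
        ring
      rw [e1]
      apply mul_le_mul_of_nonneg_right _ (Real.rpow_nonneg (by positivity) _)
      apply mul_le_mul_of_nonneg_left _ hD
      refine (norm_add_le _ _).trans ?_
      have h3 : ‖(1 / 2 : ℂ)‖ = 1 / 2 := by simp
      rw [h3]
      linarith [hR.trans (le_abs_self R)]
  have hop : IsOpen {s : ℂ | 1 / 2 < s.re} := isOpen_lt continuous_const Complex.continuous_re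
  apply DifferentiableOn.analyticOnNhd _ hop
  have h4 : DifferentiableOn ℂ ((fun s => ∑' n, DHE_A f κ n (s + 1 / 2)) ∘ fun s => s - 1 / 2)
      {s | 1 / 2 < s.re} := by
    refine h1.comp (by fun_prop) ?_
    intro s hs
    have hs' : 1 / 2 < s.re := hs
    change 0 < (s - 1 / 2).re
    simp
    linarith
  refine h4.congr fun s _ => ?_
  simp

theorem DHE_summable (f : ℕ → ℂ) (κ : ℂ) (D : ℝ)
    (hM : ∀ u : ℕ, ‖(∑ n ∈ Icc 1 u, f n) - κ * u‖ ≤ D * Real.sqrt u) (s : ℂ)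
    (hs : 1 / 2 < s.re) : Summable fun n => DHE_A f κ n s := by
  refine Summable.of_norm_bounded (g := fun n : ℕ => D * ‖s‖ * ((n : ℝ) + 1) ^ (-s.re - 1 / 2)) ?_
    (fun n => DHE_A_norm f κ D hM n s (by linarith))
  apply Summable.mul_left
  have h1 : Summable fun n : ℕ => (n : ℝ) ^ (-s.re - 1 / 2) :=
    Real.summable_nat_rpow.2 (by linarith)
  have h2 := (summable_nat_add_iff 1).2 h1
  simpa using h2

/-- the continuation -/
theorem DHE_series (f : ℕ → ℂ) (κ : ℂ) (D : ℝ)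
    (hM : ∀ u : ℕ, ‖(∑ n ∈ Icc 1 u, f n) - κ * u‖ ≤ D * Real.sqrt u)
    (hsum : ∀ s : ℂ, 1 < s.re → LSeriesSummable f s) (s : ℂ) (hs : 1 < s.re) :
    LSeries f s = κ * riemannZeta s + ∑' n, DHE_A f κ n s := by
  have h2 : Filter.Tendsto (fun K => ∑ n ∈ range K, f (n + 1) * DHE_p n s) Filter.atTop
      (nhds (LSeries f s)) := by
    have h3 := (hsum s hs).hasSum.tendsto_sum_nat
    have h4 := (Filter.tendsto_add_atTop_iff_nat 1).2 h3
    refine h4.congr fun K => ?_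
    rw [sum_range_succ']
    simp only [LSeries.term_zero, add_zero]
    refine sum_congr rfl fun n _ => ?_
    rw [LSeries.term_of_ne_zero (by omega), DHE_p, Complex.cpow_neg, div_eq_mul_inv]
    push_cast
    rfl
  have h5 : Filter.Tendsto (fun K => DHE_E f κ K * DHE_p K s) Filter.atTop (nhds 0) := by
    have h6 : Filter.Tendsto (fun K : ℕ => |D| * ((K : ℝ) + 1) ^ (-(s.re - 1 / 2))) Filter.atTop
        (nhds (|D| * 0)) := by
      refine Filter.Tendsto.const_mul _ ?_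
      have h7 := tendsto_rpow_neg_atTop (y := s.re - 1 / 2) (by linarith)
      have h8 : Filter.Tendsto (fun K : ℕ => (K : ℝ) + 1) Filter.atTop Filter.atTop :=
        Filter.tendsto_atTop_add_const_right _ _ tendsto_natCast_atTop_atTop
      exact h7.comp h8
    rw [mul_zero] at h6
    refine squeeze_zero_norm (fun K => ?_) h6
    have hK : (0 : ℝ) < (K : ℝ) + 1 := by positivity
    rw [norm_mul, DHE_p, Complex.norm_cpow_eq_rpow_re_of_pos hK]
    have h9 : ‖DHE_E f κ K‖ ≤ |D| * ((K : ℝ) + 1) ^ (1 / 2 : ℝ) := by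
      refine (hM K).trans ?_
      rw [Real.sqrt_eq_rpow]
      refine (mul_le_mul_of_nonneg_right (le_abs_self D) (Real.rpow_nonneg (by positivity) _)).trans ?_
      apply mul_le_mul_of_nonneg_left _ (abs_nonneg D)
      exact Real.rpow_le_rpow (by positivity) (by linarith) (by norm_num)
    calc ‖DHE_E f κ K‖ * ((K : ℝ) + 1) ^ (-s).re
        ≤ |D| * ((K : ℝ) + 1) ^ (1 / 2 : ℝ) * ((K : ℝ) + 1) ^ (-s).re :=
          mul_le_mul_of_nonneg_right h9 (Real.rpow_nonneg hK.le _)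
      _ = |D| * (((K : ℝ) + 1) ^ (1 / 2 : ℝ) * ((K : ℝ) + 1) ^ (-s).re) := by ring
      _ = _ := by
        rw [← Real.rpow_add hK]
        congr 2
        simp
        ring
  have h10 : Filter.Tendsto (fun K => ∑ n ∈ range K, DHE_p n s) Filter.atTop
      (nhds (riemannZeta s)) := by
    have h1 : Summable fun n : ℕ => 1 / ((n : ℂ) + 1) ^ s := by
      have h2 := Complex.summable_one_div_nat_cpow.2 hs
      have h3 := (summable_nat_add_iff 1).2 h2
      simpa using h3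
    rw [zeta_eq_tsum_one_div_nat_add_one_cpow hs]
    refine h1.hasSum.tendsto_sum_nat.congr fun K => ?_
    refine sum_congr rfl fun n _ => ?_
    rw [DHE_p, Complex.cpow_neg, one_div]
    push_cast
    rfl
  have h11 := (DHE_summable f κ D hM s (by linarith)).hasSum.tendsto_sum_nat
  have h12 := (h5.add (h10.const_mul κ)).add h11
  rw [zero_add] at h12
  refine tendsto_nhds_unique h2 (h12.congr fun K => ?_)
  exact (DHE_abel f κ s K).symm

theorem DHE_mvt (p x : ℝ) (hp : 0 < p) (hx : 0 < x) :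
    p * (x + 1) ^ (-p - 1) ≤ x ^ (-p) - (x + 1) ^ (-p) := by
  have hx1 : 0 < x + 1 := by linarith
  have h1 : Real.log x ≤ Real.log (x + 1) - 1 / (x + 1) := by
    have h2 : Real.log (x / (x + 1)) ≤ x / (x + 1) - 1 :=
      Real.log_le_sub_one_of_pos (by positivity)
    rw [Real.log_div hx.ne' hx1.ne'] at h2
    have h3 : x / (x + 1) - 1 = -(1 / (x + 1)) := by
      field_simp
      ring
    linarith
  have h4 : (x + 1) ^ (-p) * (1 + p / (x + 1)) ≤ x ^ (-p) := by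
    rw [Real.rpow_def_of_pos hx, Real.rpow_def_of_pos hx1]
    calc Real.exp (Real.log (x + 1) * -p) * (1 + p / (x + 1))
        ≤ Real.exp (Real.log (x + 1) * -p) * Real.exp (p / (x + 1)) := by
          apply mul_le_mul_of_nonneg_left _ (Real.exp_pos _).le
          linarith [Real.add_one_le_exp (p / (x + 1))]
      _ = Real.exp (Real.log (x + 1) * -p + p / (x + 1)) := by rw [Real.exp_add]
      _ ≤ _ := by
          apply Real.exp_le_exp.mpr
          have h5 := mul_le_mul_of_nonneg_left h1 hp.le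
          have h6 : p / (x + 1) = p * (1 / (x + 1)) := by ring
          rw [h6]
          linarith
  have h7 : (x + 1) ^ (-p) * (p / (x + 1)) = p * (x + 1) ^ (-p - 1) := by
    rw [Real.rpow_sub hx1, Real.rpow_one]
    ring
  linarith

/-- Let `M(u) = ∑_{n ≤ u} f(n) = κ u + E(u)`, `|E(u)| ≤ D √u`, and let `F` be analytic on
`Re s > 1/2` with `F(s) = (s-1) ∑ f(n) n^(-s)` for `Re s > 1`. If `F(s) = 0`, `Re s ≥ 3/4`, `s ≠ 1`,
then the partial sums of the Dirichlet series are small. -/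
theorem dh_analytic (f : ℕ → ℂ) (κ : ℂ) (D : ℝ) (hD : 0 ≤ D)
    (hM : ∀ u : ℕ, ‖(∑ n ∈ Icc 1 u, f n) - κ * u‖ ≤ D * Real.sqrt u)
    (hsum : ∀ s : ℂ, 1 < s.re → LSeriesSummable f s)
    (F : ℂ → ℂ) (hF : AnalyticOnNhd ℂ F {s | 1 / 2 < s.re})
    (hFs : ∀ s : ℂ, 1 < s.re → F s = (s - 1) * LSeries f s)
    (s : ℂ) (h1 : 3 / 4 ≤ s.re) (h2 : s.re ≤ 1) (hs1 : s ≠ 1) (h0 : F s = 0) (u : ℕ)
    (hu : 1 ≤ u) :
    ‖∑ n ∈ Icc 1 u, f n * (n : ℂ) ^ (-s)‖ ≤
      2 * ‖κ‖ * (u : ℝ) ^ (1 - s.re) / ‖1 - s‖ +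
        100 * (D + ‖κ‖) * (1 + ‖s‖) * (u : ℝ) ^ (1 / 2 - s.re) := by
  have hs0 : 0 < s.re := by linarith
  have hs12 : 1 / 2 < s.re := by linarith
  have hG := DHE_analytic f κ D hD hM
  -- the identity
  have hid : F s = κ * gl2_Z s + (s - 1) * ∑' n, DHE_A f κ n s := by
    have ha : AnalyticOnNhd ℂ (fun s => κ * gl2_Z s + (s - 1) * ∑' n, DHE_A f κ n s)
        {s | 1 / 2 < s.re} := by
      intro z hz
      exact (analyticAt_const.mul (gl2_Z_differentiable.analyticAt z)).add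
        ((analyticAt_id.sub analyticAt_const).mul (hG z hz))
    have hp : IsPreconnected {s : ℂ | 1 / 2 < s.re} :=
      (convex_halfSpace_re_gt (1 / 2)).isPreconnected
    have h4 := hF.eqOn_of_preconnected_of_eventuallyEq ha hp (z₀ := 2) (by simp; norm_num) ?_
    · exact h4 hs12
    · have h5 : {s : ℂ | 1 < s.re} ∈ nhds (2 : ℂ) :=
        (isOpen_lt continuous_const Complex.continuous_re).mem_nhds (by simp)
      filter_upwards [h5] with z hz
      have hz' : 1 < z.re := hz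
      rw [hFs z hz', DHE_series f κ D hM hsum z hz', gl2_Z_eq z (by rintro rfl; simp at hz')]
      ring
  rw [h0] at hid
  -- the finite sum
  have e1 : ∑ n ∈ Icc 1 u, f n * (n : ℂ) ^ (-s) = ∑ n ∈ range u, f (n + 1) * DHE_p n s := by
    rw [← Finset.Ico_succ_right_eq_Icc, Finset.sum_Ico_eq_sum_range]
    simp only [Order.succ_eq_add_one, Nat.add_sub_cancel]
    refine sum_congr rfl fun n _ => ?_
    rw [add_comm 1 n, DHE_p]
    push_cast
    rfl
  have e2 := DHE_abel f κ s u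
  -- sums of `gl2_B`
  have hsumB := (gl1_tele s.re hs0 (‖s - 1‖ * ‖s‖ / s.re) (by positivity) (fun n => gl2_B n s)
    (fun n => gl2_B_norm n s hs0)).1
  have e3 : ∀ K : ℕ, ∑ n ∈ range K, gl2_B n s = (s - 1) * ∑ n ∈ range K, DHE_p n s +
      ((((K : ℝ) + 1 : ℝ) : ℂ) ^ (-(s - 1)) - 1) := by
    intro K
    induction K with
    | zero => simp
    | succ K ih =>
      rw [sum_range_succ, sum_range_succ, ih, gl2_B, DHE_p]
      have e2 : (((K + 1 : ℕ) : ℝ) + 1 : ℝ) = (K : ℝ) + 2 := by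
        push_cast
        ring
      rw [e2]
      ring
  have e4 : gl2_Z s = 1 + ∑ n ∈ range u, gl2_B n s + ∑' n, gl2_B (n + u) s := by
    rw [gl2_eqOn s hs0, ← hsumB.sum_add_tsum_nat_add u]
    ring
  have hsumA := DHE_summable f κ D hM s hs12
  have e5 : ∑' n, DHE_A f κ n s = ∑ n ∈ range u, DHE_A f κ n s + ∑' n, DHE_A f κ (n + u) s :=
    (hsumA.sum_add_tsum_nat_add u).symm
  have hs1' : s - 1 ≠ 0 := sub_ne_zero.2 hs1
  have hu0 : (0 : ℝ) < u := by exact_mod_cast hu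
  have hu1 : (1 : ℝ) ≤ u := by exact_mod_cast hu
  -- the tails
  have hB : ‖∑' n, gl2_B (n + u) s‖ ≤ ‖s - 1‖ * ‖s‖ / s.re * ((u : ℝ) + 1) ^ (-s.re) :=
    XRL_tele s.re _ (by positivity) u _ (fun n => gl2_B_norm (n + u) s hs0)
  have hA : ‖∑' n, DHE_A f κ (n + u) s‖ ≤
      D * ‖s‖ / (s.re - 1 / 2) * (u : ℝ) ^ (-(s.re - 1 / 2)) := by
    have hh := XRL_tele (s.re - 1 / 2) (D * ‖s‖ / (s.re - 1 / 2))
      (div_nonneg (by positivity) (by linarith)) (u - 1) (fun n => DHE_A f κ (n + u) s) ?_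
    · have e6 : (((u - 1 : ℕ) : ℝ) + 1) = u := by
        rw [Nat.cast_sub hu]
        simp
      rwa [e6] at hh
    · intro n
      refine (DHE_A_norm f κ D hM (n + u) s hs0).trans ?_
      have e7 : ((n + (u - 1) : ℕ) : ℝ) + 1 = ((n + u : ℕ) : ℝ) := by
        have : n + (u - 1) + 1 = n + u := by omega
        exact_mod_cast this
      have e8 : ((n + (u - 1) : ℕ) : ℝ) + 2 = ((n + u : ℕ) : ℝ) + 1 := by
        linarith
      rw [e7, e8]
      have hx : (0 : ℝ) < ((n + u : ℕ) : ℝ) := by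
        have : 0 < n + u := by omega
        exact_mod_cast this
      have h9 := DHE_mvt (s.re - 1 / 2) ((n + u : ℕ) : ℝ) (by linarith) hx
      have e9 : -(s.re - 1 / 2) - 1 = -s.re - 1 / 2 := by ring
      rw [e9] at h9
      have hp : 0 < s.re - 1 / 2 := by linarith
      calc D * ‖s‖ * (((n + u : ℕ) : ℝ) + 1) ^ (-s.re - 1 / 2)
          = D * ‖s‖ / (s.re - 1 / 2) *
            ((s.re - 1 / 2) * (((n + u : ℕ) : ℝ) + 1) ^ (-s.re - 1 / 2)) := by
            rw [← mul_assoc, div_mul_cancel₀ _ hp.ne']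
        _ ≤ _ := mul_le_mul_of_nonneg_left h9 (div_nonneg (by positivity) hp.le)
  -- the formula
  have key : ∑ n ∈ Icc 1 u, f n * (n : ℂ) ^ (-s) =
      DHE_E f κ u * DHE_p u s - κ * (∑' n, gl2_B (n + u) s) / (s - 1) -
        κ * (((u : ℝ) + 1 : ℝ) : ℂ) ^ (-(s - 1)) / (s - 1) - ∑' n, DHE_A f κ (n + u) s := by
    rw [e1, e2]
    have e10 : ∑ n ∈ range u, DHE_p n s = (gl2_Z s - ∑' n, gl2_B (n + u) s -
        (((u : ℝ) + 1 : ℝ) : ℂ) ^ (-(s - 1))) / (s - 1) := by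
      rw [eq_div_iff hs1', e4, e3 u]
      ring
    have e11 : ∑ n ∈ range u, DHE_A f κ n s =
        -(κ * gl2_Z s / (s - 1)) - ∑' n, DHE_A f κ (n + u) s := by
      have e12 : ∑' n, DHE_A f κ n s = -(κ * gl2_Z s / (s - 1)) := by
        field_simp
        linear_combination -hid
      rw [← e12, e5]
      ring
    rw [e10, e11]
    ring
  rw [key]
  have hκ := norm_nonneg κ
  have hns := norm_nonneg s
  have hn1 : 0 < ‖1 - s‖ := by
    rw [norm_pos_iff]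
    exact sub_ne_zero.2 hs1.symm
  have hsw : ‖s - 1‖ = ‖1 - s‖ := norm_sub_rev _ _
  -- bounds
  have b1 : ‖DHE_E f κ u * DHE_p u s‖ ≤ D * (u : ℝ) ^ (1 / 2 - s.re) := by
    rw [norm_mul, DHE_p, Complex.norm_cpow_eq_rpow_re_of_pos (by positivity)]
    have h3 : ‖DHE_E f κ u‖ ≤ D * (u : ℝ) ^ (1 / 2 : ℝ) := by
      rw [← Real.sqrt_eq_rpow]
      exact hM u
    have h4 : ((u : ℝ) + 1) ^ (-s).re ≤ (u : ℝ) ^ (-s.re) := by
      rw [Complex.neg_re]
      exact Real.rpow_le_rpow_of_nonpos hu0 (by linarith) (by linarith)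
    calc ‖DHE_E f κ u‖ * ((u : ℝ) + 1) ^ (-s).re ≤ (D * (u : ℝ) ^ (1 / 2 : ℝ)) * (u : ℝ) ^ (-s.re) :=
          mul_le_mul h3 h4 (Real.rpow_nonneg (by positivity) _) ((norm_nonneg _).trans h3)
      _ = D * ((u : ℝ) ^ (1 / 2 : ℝ) * (u : ℝ) ^ (-s.re)) := by ring
      _ = _ := by
        rw [← Real.rpow_add hu0]
        ring_nf
  have hpow : ((u : ℝ) + 1) ^ (-s.re) ≤ (u : ℝ) ^ (1 / 2 - s.re) := by
    calc ((u : ℝ) + 1) ^ (-s.re) ≤ (u : ℝ) ^ (-s.re) :=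
          Real.rpow_le_rpow_of_nonpos hu0 (by linarith) (by linarith)
      _ ≤ _ := Real.rpow_le_rpow_of_exponent_le hu1 (by linarith)
  have hpos : 0 ≤ (u : ℝ) ^ (1 / 2 - s.re) := Real.rpow_nonneg hu0.le _
  have b2 : ‖κ * (∑' n, gl2_B (n + u) s) / (s - 1)‖ ≤ 2 * ‖κ‖ * ‖s‖ * (u : ℝ) ^ (1 / 2 - s.re) := by
    rw [norm_div, norm_mul, div_le_iff₀ (by rw [hsw]; exact hn1)]
    have h3 : ‖s - 1‖ * ‖s‖ / s.re ≤ 2 * (‖s - 1‖ * ‖s‖) := by
      rw [div_le_iff₀ hs0]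
      have : 0 ≤ ‖s - 1‖ * ‖s‖ := by positivity
      nlinarith
    calc ‖κ‖ * ‖∑' n, gl2_B (n + u) s‖
        ≤ ‖κ‖ * (2 * (‖s - 1‖ * ‖s‖) * (u : ℝ) ^ (1 / 2 - s.re)) := by
          apply mul_le_mul_of_nonneg_left _ hκ
          refine hB.trans ?_
          exact mul_le_mul h3 hpow (Real.rpow_nonneg (by positivity) _) (by positivity)
      _ = _ := by ring
  have b3 : ‖κ * (((u : ℝ) + 1 : ℝ) : ℂ) ^ (-(s - 1)) / (s - 1)‖ ≤
      2 * ‖κ‖ * (u : ℝ) ^ (1 - s.re) / ‖1 - s‖ := by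
    rw [norm_div, norm_mul, hsw, Complex.norm_cpow_eq_rpow_re_of_pos (by positivity)]
    apply div_le_div_of_nonneg_right _ hn1.le
    have e13 : (-(s - 1)).re = 1 - s.re := by
      simp
    rw [e13]
    have h3 : ((u : ℝ) + 1) ^ (1 - s.re) ≤ 2 * (u : ℝ) ^ (1 - s.re) := by
      calc ((u : ℝ) + 1) ^ (1 - s.re) ≤ (2 * (u : ℝ)) ^ (1 - s.re) :=
            Real.rpow_le_rpow (by positivity) (by linarith) (by linarith)
        _ = 2 ^ (1 - s.re) * (u : ℝ) ^ (1 - s.re) :=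
            Real.mul_rpow (by norm_num) hu0.le
        _ ≤ 2 * (u : ℝ) ^ (1 - s.re) := by
            apply mul_le_mul_of_nonneg_right _ (Real.rpow_nonneg hu0.le _)
            calc (2 : ℝ) ^ (1 - s.re) ≤ 2 ^ (1 : ℝ) :=
                  Real.rpow_le_rpow_of_exponent_le (by norm_num) (by linarith)
              _ = 2 := by norm_num
    calc ‖κ‖ * ((u : ℝ) + 1) ^ (1 - s.re) ≤ ‖κ‖ * (2 * (u : ℝ) ^ (1 - s.re)) :=
          mul_le_mul_of_nonneg_left h3 hκ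
      _ = _ := by ring
  have b4 : ‖∑' n, DHE_A f κ (n + u) s‖ ≤ 4 * D * ‖s‖ * (u : ℝ) ^ (1 / 2 - s.re) := by
    refine hA.trans ?_
    have e14 : -(s.re - 1 / 2) = 1 / 2 - s.re := by ring
    rw [e14]
    apply mul_le_mul_of_nonneg_right _ hpos
    rw [div_le_iff₀ (by linarith)]
    have : 0 ≤ D * ‖s‖ := by positivity
    nlinarith
  have t1 := norm_sub_le (DHE_E f κ u * DHE_p u s - κ * (∑' n, gl2_B (n + u) s) / (s - 1) -
        κ * (((u : ℝ) + 1 : ℝ) : ℂ) ^ (-(s - 1)) / (s - 1)) (∑' n, DHE_A f κ (n + u) s)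
  have t2 := norm_sub_le (DHE_E f κ u * DHE_p u s - κ * (∑' n, gl2_B (n + u) s) / (s - 1))
        (κ * (((u : ℝ) + 1 : ℝ) : ℂ) ^ (-(s - 1)) / (s - 1))
  have t3 := norm_sub_le (DHE_E f κ u * DHE_p u s) (κ * (∑' n, gl2_B (n + u) s) / (s - 1))
  have t4 : D * (u : ℝ) ^ (1 / 2 - s.re) + 2 * ‖κ‖ * ‖s‖ * (u : ℝ) ^ (1 / 2 - s.re) +
      4 * D * ‖s‖ * (u : ℝ) ^ (1 / 2 - s.re) ≤
      100 * (D + ‖κ‖) * (1 + ‖s‖) * (u : ℝ) ^ (1 / 2 - s.re) := by
    have : D + 2 * ‖κ‖ * ‖s‖ + 4 * D * ‖s‖ ≤ 100 * (D + ‖κ‖) * (1 + ‖s‖) := by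
      have h5 : 0 ≤ D * ‖s‖ := by positivity
      have h6 : 0 ≤ ‖κ‖ * ‖s‖ := by positivity
      nlinarith
    have h7 := mul_le_mul_of_nonneg_right this hpos
    linarith
  linarith

end Pool.Agent.Lib.H68T
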