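import Pool.Agent.Lib.H51D.DHDefs
import Pool.Agent.Lib.H51D.DHA
import Pool.Agent.Lib.H51D.DHD
import Pool.Agent.Lib.H51D.DHE
import Pool.Agent.Lib.H68T.PAGE

/-!
# Chunk DHF: the twisted sums of `λ` at a zero
-/

open Finset

namespace Pool.Agent.Lib.H68T

/-- the convolution of two characters -/
noncomputable def DHF_f {N₁ N₂ : ℕ} (χ₁ : DirichletCharacter ℂ N₁) (χ₂ : DirichletCharacter ℂ N₂)
    (n : ℕ) : ℂ :=
  ∑ d ∈ n.divisors, χ₁ (d : ZMod N₁) * χ₂ ((n / d : ℕ) : ZMod N₂)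

theorem DHF_f_eq {N₁ N₂ : ℕ} (χ₁ : DirichletCharacter ℂ N₁) (χ₂ : DirichletCharacter ℂ N₂) :
    DHF_f χ₁ χ₂ = LSeries.convolution (fun n : ℕ => χ₁ (n : ZMod N₁))
      (fun n : ℕ => χ₂ (n : ZMod N₂)) := by
  rw [LSeries.convolution_def]
  funext n
  unfold DHF_f
  exact (Nat.sum_divisorsAntidiagonal
    (f := fun a b => χ₁ (a : ZMod N₁) * χ₂ (b : ZMod N₂))).symm

theorem DHF_summable {N₁ N₂ : ℕ} (χ₁ : DirichletCharacter ℂ N₁) (χ₂ : DirichletCharacter ℂ N₂)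
    (s : ℂ) (hs : 1 < s.re) : LSeriesSummable (DHF_f χ₁ χ₂) s := by
  rw [DHF_f_eq]
  exact LSeriesSummable.convolution (DirichletCharacter.LSeriesSummable_of_one_lt_re χ₁ hs)
    (DirichletCharacter.LSeriesSummable_of_one_lt_re χ₂ hs)

theorem DHF_LSeries {N₁ N₂ : ℕ} [NeZero N₁] [NeZero N₂] (χ₁ : DirichletCharacter ℂ N₁)
    (χ₂ : DirichletCharacter ℂ N₂)
    (s : ℂ) (hs : 1 < s.re) : LSeries (DHF_f χ₁ χ₂) s = χ₁.LFunction s * χ₂.LFunction s := by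
  rw [DHF_f_eq, LSeries_convolution' (DirichletCharacter.LSeriesSummable_of_one_lt_re χ₁ hs)
    (DirichletCharacter.LSeriesSummable_of_one_lt_re χ₂ hs),
    DirichletCharacter.LFunction_eq_LSeries χ₁ hs, DirichletCharacter.LFunction_eq_LSeries χ₂ hs]

/-- `(s-1) L(s,χ₂)` extended to `s = 1` -/
theorem DHF_entire {N : ℕ} [NeZero N] (χ : DirichletCharacter ℂ N) :
    ∃ G : ℂ → ℂ, Differentiable ℂ G ∧ ∀ s, s ≠ 1 → G s = (s - 1) * χ.LFunction s := by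
  by_cases h : χ = 1
  · subst h
    refine ⟨DirichletCharacter.LFunctionTrivChar₁ N,
      DirichletCharacter.differentiable_LFunctionTrivChar₁ N, fun s hs => ?_⟩
    rw [DirichletCharacter.LFunctionTrivChar₁, Function.update_of_ne hs]
  · refine ⟨fun s => (s - 1) * χ.LFunction s, ?_, fun s _ => rfl⟩
    exact (differentiable_id.sub_const 1).mul (DirichletCharacter.differentiable_LFunction h)

/-- the value of a product of characters to different moduli -/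
theorem DHF_val (q r : ℕ) [NeZero q] [NeZero r] (χ : DirichletCharacter ℂ q)
    (ψ : DirichletCharacter ℂ r) (d : ℕ) :
    (DirichletCharacter.changeLevel (Dvd.intro r rfl) χ *
      DirichletCharacter.changeLevel (Dvd.intro_left q rfl) ψ : DirichletCharacter ℂ (q * r))
        (d : ZMod (q * r)) = χ (d : ZMod q) * ψ (d : ZMod r) := by
  rw [MulChar.mul_apply]
  by_cases h : IsUnit (d : ZMod (q * r))
  · have e1 := DirichletCharacter.changeLevel_eq_cast_of_dvd χ (Dvd.intro r rfl) h.unit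
    have e2 := DirichletCharacter.changeLevel_eq_cast_of_dvd ψ (Dvd.intro_left q rfl) h.unit
    simp only [IsUnit.unit_spec] at e1 e2
    rw [e1, e2, ZMod.cast_natCast (Dvd.intro r rfl), ZMod.cast_natCast (Dvd.intro_left q rfl)]
  · have h0 : ∀ ξ : DirichletCharacter ℂ (q * r), ξ (d : ZMod (q * r)) = 0 :=
      fun ξ => MulChar.map_nonunit ξ h
    rw [h0, zero_mul]
    rw [ZMod.isUnit_iff_coprime, Nat.coprime_mul_iff_right, not_and_or] at h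
    rcases h with h | h
    · rw [MulChar.map_nonunit χ (fun hu => h ((ZMod.isUnit_iff_coprime d q).1 hu)), zero_mul]
    · rw [MulChar.map_nonunit ψ (fun hu => h ((ZMod.isUnit_iff_coprime d r).1 hu)), mul_zero]


/-- Convolution of two characters at a zero of the product of their L-functions.
`dh_analytic` for `f(n) = ∑_{d ∣ n} χ₁(d) χ₂(n/d)` (`f 0 = 0`), `κ = kap χ₂ · L(1,χ₁)`,
`D = 5 (N₁ + 2 N₂ + 1)` (`dh_hyperbola` with `y = χ₂`, `dh_count`), and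
`F(s) = χ₁.LFunction s * ((s-1) χ₂.LFunction s)`, where the last factor is
`DirichletCharacter.LFunctionTrivChar₁ N₂` if `χ₂ = 1`
(`DirichletCharacter.differentiable_LFunctionTrivChar₁`). Summability and
`LSeries f = LSeries χ₁ * LSeries χ₂` for `Re s > 1`: `LSeries_convolution` / `LSeries.convolution`.
`‖L(1,χ₁)‖ ≤ 2 N₁`: `LFunction_bound`. -/
theorem dh_two (N₁ N₂ : ℕ) [NeZero N₁] [NeZero N₂] (χ₁ : DirichletCharacter ℂ N₁)
    (χ₂ : DirichletCharacter ℂ N₂) (h₁ : χ₁ ≠ 1) (s : ℂ) (h1 : 7 / 8 ≤ s.re) (h2 : s.re ≤ 1)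
    (hs1 : s ≠ 1) (h0 : χ₁.LFunction s * χ₂.LFunction s = 0) (u : ℕ) (hu : 1 ≤ u) :
    ‖∑ n ∈ Icc 1 u, (∑ d ∈ n.divisors, χ₁ (d : ZMod N₁) * χ₂ ((n / d : ℕ) : ZMod N₂)) *
      (n : ℂ) ^ (-s)‖ ≤
      2 * kap N₂ χ₂ * ‖χ₁.LFunction 1‖ * (u : ℝ) ^ (1 - s.re) / ‖1 - s‖ +
        3000 * (N₁ + N₂) * (1 + ‖s‖) * (u : ℝ) ^ (-(3 / 8 : ℝ)) := by
  obtain ⟨G, hG, hGs⟩ := DHF_entire χ₂
  have hk0 := kap_nonneg N₂ χ₂
  have hk1 := kap_le_one N₂ χ₂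
  have hN1 : (1 : ℝ) ≤ N₁ := by exact_mod_cast Nat.one_le_iff_ne_zero.2 (NeZero.ne N₁)
  have hN2 : (1 : ℝ) ≤ N₂ := by exact_mod_cast Nat.one_le_iff_ne_zero.2 (NeZero.ne N₂)
  have hL1 : ‖χ₁.LFunction 1‖ ≤ 2 * N₁ := by
    have := LFunction_bound N₁ χ₁ h₁ 1 (by norm_num)
    simpa using this
  have hκ : ‖(kap N₂ χ₂ : ℂ)‖ = kap N₂ χ₂ := by
    rw [Complex.norm_real, Real.norm_of_nonneg hk0]
  have hkey := dh_analytic (DHF_f χ₁ χ₂) ((kap N₂ χ₂ : ℂ) * χ₁.LFunction 1)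
    (5 * (N₁ + 2 * N₂ + 1)) (by positivity)
    (fun v => dh_hyperbola N₁ χ₁ h₁ (fun n => χ₂ (n : ZMod N₂)) (kap N₂ χ₂ : ℂ) (2 * N₂)
      (fun n => DirichletCharacter.norm_le_one χ₂ _) (by rw [hκ]; exact hk1)
      (fun w => dh_count N₂ χ₂ w) v)
    (fun z hz => DHF_summable χ₁ χ₂ z hz)
    (fun z => χ₁.LFunction z * G z)
    (fun z _ => ((DirichletCharacter.differentiable_LFunction h₁).mul hG).analyticAt z)
    (fun z hz => by
      have hz1 : z ≠ 1 := by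
        rintro rfl
        simp at hz
      change χ₁.LFunction z * G z = _
      rw [DHF_LSeries χ₁ χ₂ z hz, hGs z hz1]
      ring)
    s (by linarith) h2 hs1
    (by
      rw [hGs s hs1]
      rw [mul_left_comm, h0, mul_zero])
    u hu
  refine hkey.trans ?_
  rw [norm_mul, hκ]
  have hu1 : (1 : ℝ) ≤ u := by exact_mod_cast hu
  have e1 : (u : ℝ) ^ (1 / 2 - s.re) ≤ (u : ℝ) ^ (-(3 / 8 : ℝ)) :=
    Real.rpow_le_rpow_of_exponent_le hu1 (by linarith)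
  have e2 : kap N₂ χ₂ * ‖χ₁.LFunction 1‖ ≤ 2 * N₁ := by
    calc _ ≤ 1 * (2 * (N₁ : ℝ)) := mul_le_mul hk1 hL1 (norm_nonneg _) zero_le_one
      _ = 2 * N₁ := one_mul _
  have e3 : 0 ≤ kap N₂ χ₂ * ‖χ₁.LFunction 1‖ := mul_nonneg hk0 (norm_nonneg _)
  have e4 : 0 ≤ (u : ℝ) ^ (1 / 2 - s.re) := Real.rpow_nonneg (by linarith) _
  have e5 : 100 * (5 * ((N₁ : ℝ) + 2 * N₂ + 1) + kap N₂ χ₂ * ‖χ₁.LFunction 1‖) * (1 + ‖s‖) *
      (u : ℝ) ^ (1 / 2 - s.re) ≤ 3000 * (N₁ + N₂) * (1 + ‖s‖) * (u : ℝ) ^ (-(3 / 8 : ℝ)) := by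
    refine mul_le_mul (mul_le_mul_of_nonneg_right ?_ (by positivity)) e1 e4 (by positivity)
    nlinarith
  have e6 : 2 * (kap N₂ χ₂ * ‖χ₁.LFunction 1‖) * (u : ℝ) ^ (1 - s.re) / ‖1 - s‖ =
      2 * kap N₂ χ₂ * ‖χ₁.LFunction 1‖ * (u : ℝ) ^ (1 - s.re) / ‖1 - s‖ := by ring
  rw [e6]
  linarith

/-- The three cases. (1) `χ = 1` (then `q = 1`): `λ = ψ * 1`, `dh_two` with `χ₁ = ψ`, `χ₂ = 1` mod `1`.
(2) `⟨q, χ⟩ = ⟨r, ψ⟩`: `ψ(n) λ(n) = ∑_{d ∣ n} ψ(d) ψ²(n/d)`... precisely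
`ψ(n) ∑_{d ∣ n} ψ(d) = ∑_{d ∣ n} ψ(n/d) ψ(d)² = ∑_{d ∣ n} ψ(d) ψ(n/d)²`, `χ₁ = ψ`, `χ₂ = ψ ^ 2` (mod `r`).
(3) otherwise: `χ(n) λ(n) = ∑_{d ∣ n} χ(n/d) (χψ)(d)`, `χ₁ = ` product of the two characters mod
`q r`, `≠ 1` by `PAGE1_ne_one` (`H68T/PAGE1.lean`), `χ₂ = χ ≠ 1`, `kap = 0`. In all cases `kap ≤ 1`. -/
theorem TT_bound (q r : ℕ) [NeZero q] [NeZero r] (χ : DirichletCharacter ℂ q)
    (ψ : DirichletCharacter ℂ r) (hχ : χ.IsPrimitive) (hψ : ψ.IsPrimitive) (hψ1 : ψ ≠ 1)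
    (hψ2 : ψ ^ 2 = 1) (s : ℂ) (h1 : 7 / 8 ≤ s.re) (h2 : s.re ≤ 1) (hs1 : s ≠ 1)
    (h0 : χ.LFunction s = 0) (u : ℕ) (hu : 1 ≤ u) :
    ‖TT χ ψ s u‖ ≤ 2 * ‖ψ.LFunction 1‖ * (u : ℝ) ^ (1 - s.re) / ‖1 - s‖ +
      6000 * (q * r) * (1 + ‖s‖) * (u : ℝ) ^ (-(3 / 8 : ℝ)) := by
  have hq1 : (1 : ℝ) ≤ q := by exact_mod_cast Nat.one_le_iff_ne_zero.2 (NeZero.ne q)
  have hr1 : (1 : ℝ) ≤ r := by exact_mod_cast Nat.one_le_iff_ne_zero.2 (NeZero.ne r)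
  have hu1 : (1 : ℝ) ≤ u := by exact_mod_cast hu
  have hU : 0 ≤ (1 + ‖s‖) * (u : ℝ) ^ (-(3 / 8 : ℝ)) := by positivity
  have hV : 0 ≤ ‖ψ.LFunction 1‖ * (u : ℝ) ^ (1 - s.re) / ‖1 - s‖ := by positivity
  have hqr : (1 : ℝ) ≤ q * r := by nlinarith
  -- from a bound with `k ≤ 1` and `A ≤ 2 q r` to the claim
  have hfin : ∀ (k A : ℝ), k ≤ 1 → A ≤ 2 * (q * r) → ∀ x : ℝ,
      x ≤ 2 * k * ‖ψ.LFunction 1‖ * (u : ℝ) ^ (1 - s.re) / ‖1 - s‖ +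
        3000 * A * (1 + ‖s‖) * (u : ℝ) ^ (-(3 / 8 : ℝ)) →
      x ≤ 2 * ‖ψ.LFunction 1‖ * (u : ℝ) ^ (1 - s.re) / ‖1 - s‖ +
        6000 * (q * r) * (1 + ‖s‖) * (u : ℝ) ^ (-(3 / 8 : ℝ)) := by
    intro k A hk hA x hx
    refine hx.trans (add_le_add ?_ ?_)
    · have h3 : 2 * k * ‖ψ.LFunction 1‖ * (u : ℝ) ^ (1 - s.re) / ‖1 - s‖ =
          k * (2 * (‖ψ.LFunction 1‖ * (u : ℝ) ^ (1 - s.re) / ‖1 - s‖)) := by ring
      have h4 : 2 * ‖ψ.LFunction 1‖ * (u : ℝ) ^ (1 - s.re) / ‖1 - s‖ =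
          1 * (2 * (‖ψ.LFunction 1‖ * (u : ℝ) ^ (1 - s.re) / ‖1 - s‖)) := by ring
      rw [h3, h4]
      exact mul_le_mul_of_nonneg_right hk (by linarith)
    · have h3 : 3000 * A * (1 + ‖s‖) * (u : ℝ) ^ (-(3 / 8 : ℝ)) =
          3000 * A * ((1 + ‖s‖) * (u : ℝ) ^ (-(3 / 8 : ℝ))) := by ring
      have h4 : 6000 * (q * r : ℝ) * (1 + ‖s‖) * (u : ℝ) ^ (-(3 / 8 : ℝ)) =
          6000 * (q * r) * ((1 + ‖s‖) * (u : ℝ) ^ (-(3 / 8 : ℝ))) := by ring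
      rw [h3, h4]
      exact mul_le_mul_of_nonneg_right (by linarith) hU
  unfold TT
  by_cases hc : χ = 1
  · -- first case
    have hq : q = 1 := by
      have h3 : χ.conductor = q := hχ
      rw [hc, DirichletCharacter.conductor_one] at h3
      exact h3.symm
    subst hq
    have h3 := dh_two r 1 ψ χ hψ1 s h1 h2 hs1 (by rw [h0, mul_zero]) u hu
    have h4 : ∑ m ∈ Icc 1 u, χ (m : ZMod 1) * (lam ψ m : ℂ) * (m : ℂ) ^ (-s) =
        ∑ n ∈ Icc 1 u, (∑ d ∈ n.divisors, ψ (d : ZMod r) * χ ((n / d : ℕ) : ZMod 1)) *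
          (n : ℂ) ^ (-s) := by
      refine sum_congr rfl fun n _ => ?_
      have hv : ∀ m : ℕ, χ (m : ZMod 1) = 1 := by
        intro m
        rw [Subsingleton.elim (m : ZMod 1) 1, map_one]
      rw [hv, one_mul, lam_cast r ψ hψ2 n]
      congr 1
      refine sum_congr rfl fun d _ => ?_
      rw [hv, mul_one]
    rw [h4]
    refine hfin (kap 1 χ) (r + (1 : ℕ)) (kap_le_one 1 χ) (by push_cast; linarith) _ h3
  by_cases he : (⟨q, χ⟩ : Σ r : ℕ, DirichletCharacter ℂ r) = ⟨r, ψ⟩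
  · -- second case
    obtain ⟨hqr', hχψ⟩ := Sigma.mk.inj_iff.1 he
    subst hqr'
    have hχψ' : χ = ψ := eq_of_heq hχψ
    subst hχψ'
    have h3 := dh_two q q χ (χ ^ 2) hψ1 s h1 h2 hs1 (by rw [h0, zero_mul]) u hu
    have h4 : ∑ m ∈ Icc 1 u, χ (m : ZMod q) * (lam χ m : ℂ) * (m : ℂ) ^ (-s) =
        ∑ n ∈ Icc 1 u, (∑ d ∈ n.divisors, χ (d : ZMod q) * (χ ^ 2) ((n / d : ℕ) : ZMod q)) *
          (n : ℂ) ^ (-s) := by
      refine sum_congr rfl fun n hn => ?_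
      have hn0 : n ≠ 0 := by have := (mem_Icc.1 hn).1; omega
      rw [lam_cast q χ hψ2 n]
      congr 1
      rw [mul_sum, ← Nat.sum_div_divisors n (fun d => χ (d : ZMod q) * (χ ^ 2) ((n / d : ℕ) : ZMod q))]
      refine sum_congr rfl fun d hd => ?_
      have hdn : d ∣ n := Nat.dvd_of_mem_divisors hd
      have h5 : n / (n / d) = d := Nat.div_div_self hdn hn0
      rw [h5, MulChar.pow_apply' χ two_ne_zero, sq]
      have h6 : ((n : ℕ) : ZMod q) = ((n / d : ℕ) : ZMod q) * (d : ZMod q) := by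
        rw [← Nat.cast_mul, Nat.div_mul_cancel hdn]
      rw [h6, map_mul, mul_assoc]
    rw [h4]
    refine hfin (kap q (χ ^ 2)) (q + q) (kap_le_one q (χ ^ 2)) (by nlinarith) _ h3
  · -- third case
    have hne := PAGE1_ne_one q r χ ψ hχ hψ hψ2 he
    set ξ : DirichletCharacter ℂ (q * r) := DirichletCharacter.changeLevel (Dvd.intro r rfl) χ *
      DirichletCharacter.changeLevel (Dvd.intro_left q rfl) ψ with hξ
    have h3 := dh_two (q * r) q ξ χ hne s h1 h2 hs1 (by rw [h0, mul_zero]) u hu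
    have hk : kap q χ = 0 := by
      unfold kap
      rw [if_neg hc]
    have h4 : ∑ m ∈ Icc 1 u, χ (m : ZMod q) * (lam ψ m : ℂ) * (m : ℂ) ^ (-s) =
        ∑ n ∈ Icc 1 u, (∑ d ∈ n.divisors, ξ (d : ZMod (q * r)) * χ ((n / d : ℕ) : ZMod q)) *
          (n : ℂ) ^ (-s) := by
      refine sum_congr rfl fun n hn => ?_
      rw [lam_cast r ψ hψ2 n]
      congr 1
      rw [mul_sum]
      refine sum_congr rfl fun d hd => ?_
      have hdn : d ∣ n := Nat.dvd_of_mem_divisors hd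
      have h6 : ((n : ℕ) : ZMod q) = (d : ZMod q) * ((n / d : ℕ) : ZMod q) := by
        rw [← Nat.cast_mul, Nat.mul_div_cancel' hdn]
      rw [hξ, DHF_val q r χ ψ d, h6, map_mul]
      ring
    rw [h4]
    rw [hk, mul_zero, zero_mul, zero_mul, zero_div, zero_add] at h3
    refine hfin 0 ((q * r : ℕ) + q) zero_le_one (by push_cast; nlinarith) _ ?_
    rw [mul_zero, zero_mul, zero_mul, zero_div, zero_add]
    exact h3

end Pool.Agent.Lib.H68T
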