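import Pool.Agent.Lib.H51D.DHDefs
import Pool.Agent.Lib.H51D.DHA

/-!
# Chunk DHB: the truncated convolution
-/

open Finset

namespace Pool.Agent.Lib.H68T

theorem cZ_one (r : ℕ) [NeZero r] (ψ : DirichletCharacter ℂ r) (Z : ℕ) (hZ : 1 ≤ Z) :
    cZ ψ Z 1 = 1 := by
  unfold cZ
  have h1 : (Nat.divisorsAntidiagonal 1).filter (fun p : ℕ × ℕ => p.1 ≤ Z) = {((1 : ℕ), (1 : ℕ))} := by
    rw [Nat.divisorsAntidiagonal_one]
    ext p
    simp only [mem_filter, mem_singleton]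
    constructor
    · exact fun h => h.1
    · intro h
      refine ⟨h, ?_⟩
      rw [h]
      exact hZ
  rw [h1, Finset.sum_singleton]
  unfold gg lam
  rw [Nat.divisorsAntidiagonal_one, Finset.sum_singleton, Nat.divisors_one, Finset.sum_singleton]
  simp

/-- For `1 < n ≤ Z` the truncation has no effect: `gg_conv`. -/
theorem cZ_zero (r : ℕ) [NeZero r] (ψ : DirichletCharacter ℂ r) (h2 : ψ ^ 2 = 1) (Z n : ℕ)
    (h1 : 1 < n) (hn : n ≤ Z) : cZ ψ Z n = 0 := by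
  unfold cZ
  have hf : n.divisorsAntidiagonal.filter (fun p : ℕ × ℕ => p.1 ≤ Z) = n.divisorsAntidiagonal := by
    apply Finset.filter_true_of_mem
    intro p hp
    rw [Nat.mem_divisorsAntidiagonal] at hp
    have hd : p.1 ∣ n := ⟨p.2, hp.1.symm⟩
    exact (Nat.le_of_dvd (by omega) hd).trans hn
  rw [hf, gg_conv r ψ h2 n (by omega), if_neg (by omega)]

/-- `gg_abs_le`, `lam_nonneg`. -/
theorem cZ_abs (r : ℕ) [NeZero r] (ψ : DirichletCharacter ℂ r) (h2 : ψ ^ 2 = 1) (Z n : ℕ) :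
    |cZ ψ Z n| ≤ lam2 ψ n := by
  unfold cZ lam2
  refine (Finset.abs_sum_le_sum_abs _ _).trans ?_
  have hA : ∑ p ∈ n.divisorsAntidiagonal.filter (fun p : ℕ × ℕ => p.1 ≤ Z),
      |gg ψ p.1 * lam ψ p.2| ≤ ∑ p ∈ n.divisorsAntidiagonal.filter (fun p : ℕ × ℕ => p.1 ≤ Z),
      lam ψ p.1 * lam ψ p.2 := by
    apply Finset.sum_le_sum
    intro p _
    rw [abs_mul, abs_of_nonneg (lam_nonneg r ψ h2 p.2)]
    exact mul_le_mul_of_nonneg_right (gg_abs_le r ψ h2 p.1) (lam_nonneg r ψ h2 p.2)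
  refine hA.trans ?_
  exact Finset.sum_le_sum_of_subset_of_nonneg (Finset.filter_subset _ _)
    (fun p _ _ => mul_nonneg (lam_nonneg r ψ h2 p.1) (lam_nonneg r ψ h2 p.2))

theorem lam2_nonneg (r : ℕ) [NeZero r] (ψ : DirichletCharacter ℂ r) (h2 : ψ ^ 2 = 1) (n : ℕ) :
    0 ≤ lam2 ψ n := by
  unfold lam2
  exact Finset.sum_nonneg (fun p _ => mul_nonneg (lam_nonneg r ψ h2 p.1) (lam_nonneg r ψ h2 p.2))

end Pool.Agent.Lib.H68T
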