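import Pool.Agent.Lib.H51D.DHH
import Pool.Agent.Lib.H68X.XRL
import Pool.Agent.Lib.H68X.XSIE
import Pool.Agent.Lib.H68X.XEX
import Pool.Agent.Lib.H68X.XZ3
import Pool.Agent.Lib.H68T.ZF1
import Pool.Agent.Lib.H68T.ZF2
import Pool.Agent.Lib.H68T.ZF3
import Pool.Agent.Lib.H68T.PAGE1

/-!
# Chunk DHI: the wide zero-free region
-/

open Finset

namespace Pool.Agent.Lib.H68T

theorem DHI_pow (Q : ℕ) : ((Q ^ 400 : ℕ) : ℝ) ^ (-(3 / 8 : ℝ)) = ((Q : ℝ) ^ 150)⁻¹ := by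
  have h0 : (0 : ℝ) ≤ Q := Nat.cast_nonneg Q
  rw [Nat.cast_pow, ← Real.rpow_natCast (Q : ℝ) 400, ← Real.rpow_mul h0, ← Real.rpow_natCast (Q : ℝ) 150,
    ← Real.rpow_neg h0]
  norm_num

theorem DHI_pow2 (Q : ℕ) (hQ : (0 : ℝ) < Q) (w : ℝ) :
    ((Q ^ 400 : ℕ) : ℝ) ^ w = Real.exp (400 * w * Real.log Q) := by
  rw [Nat.cast_pow, ← Real.rpow_natCast (Q : ℝ) 400, ← Real.rpow_mul hQ.le, Real.rpow_def_of_pos hQ]
  congr 1
  push_cast
  ring

theorem DHI_log (Q : ℕ) : Real.log ((Q ^ 400 : ℕ) : ℝ) = 400 * Real.log Q := by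
  rw [Nat.cast_pow, Real.log_pow]
  norm_num

theorem DHI_sqrt (Q : ℕ) : Real.sqrt ((Q ^ 12 : ℕ) : ℝ) = (Q : ℝ) ^ 6 := by
  have h0 : (0 : ℝ) ≤ Q := Nat.cast_nonneg Q
  rw [Nat.cast_pow, show (Q : ℝ) ^ 12 = ((Q : ℝ) ^ 6) ^ 2 by ring]
  exact Real.sqrt_sq (by positivity)

theorem DHI_first (Q q r : ℕ) (hQ : (96000 : ℝ) ≤ Q) (hq : q ≤ Q) (hr : r ≤ Q) (s : ℂ)
    (him : |s.im| ≤ (Q : ℝ) ^ 12 + 1) (h1 : 7 / 8 ≤ s.re) (h2 : s.re ≤ 1) :
    12000 * ((q : ℝ) * r) * (1 + ‖s‖) * ((Q ^ 12 : ℕ) : ℝ) ^ 6 * ((Q ^ 400 : ℕ) : ℝ) ^ (-(3 / 8 : ℝ)) ≤ 1 / 4 := by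
  rw [DHI_pow, Nat.cast_pow]
  have hQ0 : (0 : ℝ) < Q := by linarith
  have hQ1 : (1 : ℝ) ≤ Q := by linarith
  have hs : ‖s‖ ≤ 2 + (Q : ℝ) ^ 12 := by
    have h3 := Complex.norm_le_abs_re_add_abs_im s
    have h4 : |s.re| ≤ 1 := abs_le.2 ⟨by linarith, h2⟩
    linarith
  have h12 : (3 : ℝ) ≤ (Q : ℝ) ^ 12 := by
    have : (Q : ℝ) ≤ (Q : ℝ) ^ 12 := le_self_pow₀ hQ1 (by norm_num)
    linarith
  have hqR : (q : ℝ) ≤ Q := by exact_mod_cast hq
  have hrR : (r : ℝ) ≤ Q := by exact_mod_cast hr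
  have h64 : (96000 : ℝ) ≤ (Q : ℝ) ^ 64 := hQ.trans (le_self_pow₀ hQ1 (by norm_num))
  have hqr : (q : ℝ) * r ≤ Q * Q := mul_le_mul hqR hrR (Nat.cast_nonneg _) hQ0.le
  have h5 : 12000 * ((q : ℝ) * r) * (1 + ‖s‖) ≤ 12000 * ((Q : ℝ) * Q) * (2 * (Q : ℝ) ^ 12) := by
    apply mul_le_mul
    · linarith
    · linarith
    · positivity
    · positivity
  calc 12000 * ((q : ℝ) * r) * (1 + ‖s‖) * ((Q : ℝ) ^ 12) ^ 6 * ((Q : ℝ) ^ 150)⁻¹
      ≤ 12000 * ((Q : ℝ) * Q) * (2 * (Q : ℝ) ^ 12) * ((Q : ℝ) ^ 12) ^ 6 * ((Q : ℝ) ^ 150)⁻¹ := by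
        gcongr
    _ = 24000 * ((Q : ℝ) ^ 64)⁻¹ := by
        field_simp
        ring
    _ ≤ 24000 * (96000 : ℝ)⁻¹ := by
        gcongr
    _ = 1 / 4 := by norm_num

/-- the final logarithms -/
theorem DHI_logs (L η w D : ℝ) (hL : 1 ≤ Real.log L) (hη : 0 < η) (hw : 0 ≤ w) (hD : 0 < D)
    (h : 1 ≤ Real.exp (400 * w * L) * L ^ 5 * D * η) (C : ℝ) (hC1 : 400 ≤ C) (hC2 : 5 + |Real.log D| ≤ C) (hL0 : 0 < L) :
    (Real.log (1 / η) - C * Real.log L) / (C * L) ≤ w := by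
  have h1 : 0 ≤ Real.log (Real.exp (400 * w * L) * L ^ 5 * D * η) := Real.log_nonneg h
  rw [Real.log_mul (by positivity) hη.ne', Real.log_mul (by positivity) hD.ne', Real.log_mul (by positivity) (by positivity),
    Real.log_exp, Real.log_pow] at h1
  rw [div_le_iff₀ (by positivity), one_div, Real.log_inv]
  have h2 : Real.log D ≤ |Real.log D| * Real.log L := by
    have h3 : 0 ≤ |Real.log D| := abs_nonneg _
    have h4 := le_abs_self (Real.log D)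
    nlinarith
  have h5 : (5 + |Real.log D|) * Real.log L ≤ C * Real.log L := by gcongr
  have h6 : 400 * w * L ≤ w * (C * L) := by
    have : 400 * (w * L) ≤ C * (w * L) := by gcongr
    linarith
  push_cast at h1
  linarith

theorem DHI_mul (N : ℕ) [NeZero N] (χ : DirichletCharacter ℂ N) (β : ℝ)
    (hL : χ.LFunction (β : ℂ) = 0) (s : ℂ) :
    (s - β) * dslope χ.LFunction (β : ℂ) s = χ.LFunction s := by
  have h := sub_smul_dslope χ.LFunction (β : ℂ) s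
  rw [hL, sub_zero, smul_eq_mul] at h
  exact h

/-- **Deuring-Heilbronn.** If `ψ` mod `r ≤ Q` has the exceptional zero `β`, `η = 1 - β`, and
`s ≠ 1` is a zero of a primitive `L(·,χ)`, `q ≤ Q`, with `|Im s| ≤ Q^12 + 1`, `Re s ≥ 7/8` and
`‖1 - s‖ ≥ a / log Q`, then `1 - Re s ≥ (log (1/η) - C log log Q)/(C log Q)`.

Proof. `dh_ineq` with `z = Q^12`, `N = Q^400`: the first term is at most
`12000 Q^2 · 2 Q^13 · Q^72 · Q^(-150) ≤ 1/4`. `‖L(1,ψ)‖ ≤ C η (log Q)^2` (`L1_upper`; its hypothesis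
`r ≥ 100` holds because otherwise `η ≥ c/r² ≥ c/10^4` (`zero_elementary`) contradicts
`η ≤ c/log Q`; `β ≥ 1 - 1/log r` from `c ≤ 1`), `20 r/√z ≤ 20 Q^(-5)`. Hence
`3/4 ≤ Q^(400 w) C (log Q)^6 (η + Q^(-5))` (constant depending on `a`), and `Q^(-5) ≤ η` for large `Q` since
`η ≥ c/Q²`. Take logarithms. -/
theorem repulsion (a : ℝ) (ha : 0 < a) : ∃ c C K : ℝ, 0 < c ∧ 1 ≤ C ∧ ∀ Q : ℕ, K ≤ Q →
    ∀ (r : ℕ) [NeZero r] (ψ : DirichletCharacter ℂ r) (β : ℝ), Exc c Q r ψ β →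
    ∀ (q : ℕ) [NeZero q] (χ : DirichletCharacter ℂ q), q ≤ Q → χ.IsPrimitive → ∀ s : ℂ,
    χ.LFunction s = 0 → |s.im| ≤ (Q : ℝ) ^ 12 + 1 → 7 / 8 ≤ s.re → s.re ≤ 1 → s ≠ 1 →
    a / Real.log Q ≤ ‖1 - s‖ →
    (Real.log (1 / (1 - β)) - C * Real.log (Real.log Q)) / (C * Real.log Q) ≤ 1 - s.re := by
  obtain ⟨c₀, hc₀, hel⟩ := zero_elementary
  obtain ⟨C₁, hC₁, hL1⟩ := L1_upper
  obtain ⟨D, hDdef⟩ : ∃ D : ℝ, D = 4 / 3 * 401 ^ 2 * (2 * C₁ / a + 804 * C₁ + 40) := ⟨_, rfl⟩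
  have hD : 0 < D := by rw [hDdef]; positivity
  refine ⟨1, max 400 (5 + |Real.log D|), max (max (Real.exp (Real.exp 1)) 96000)
    (max (1 / c₀) (Real.exp (10 ^ 4 / c₀ + 1))), one_pos, (by norm_num : (1 : ℝ) ≤ 400).trans (le_max_left _ _), ?_⟩
  intro Q hQ r _ ψ β hexc q _ χ hqQ hχ s h0 him h1 h2 hs1 has
  obtain ⟨hrQ, hprim, hne, hsq, hβ, hβ1, hz⟩ := hexc
  have k1 : Real.exp (Real.exp 1) ≤ Q := ((le_max_left _ _).trans (le_max_left _ _)).trans hQ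
  have k2 : (96000 : ℝ) ≤ Q := ((le_max_right _ _).trans (le_max_left _ _)).trans hQ
  have k3 : 1 / c₀ ≤ Q := ((le_max_left _ _).trans (le_max_right _ _)).trans hQ
  have k4 : Real.exp (10 ^ 4 / c₀ + 1) ≤ Q := ((le_max_right _ _).trans (le_max_right _ _)).trans hQ
  have hQ0 : (0 : ℝ) < Q := by linarith
  have hQ1 : (1 : ℝ) ≤ Q := by linarith
  have hLe : Real.exp 1 ≤ Real.log Q := (Real.le_log_iff_exp_le hQ0).2 k1
  have hL4 : 10 ^ 4 / c₀ + 1 ≤ Real.log Q := (Real.le_log_iff_exp_le hQ0).2 k4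
  have hL1' : 1 ≤ Real.log Q := (Real.one_le_exp zero_le_one).trans hLe
  have hL0 : 0 < Real.log Q := by linarith
  have hLL : 1 ≤ Real.log (Real.log Q) := (Real.le_log_iff_exp_le hL0).2 hLe
  have hη : 0 < 1 - β := by linarith
  have hηL : 1 - β ≤ 1 / Real.log Q := by linarith
  have hr0 : (0 : ℝ) < r := by
    have := Nat.pos_of_ne_zero (NeZero.ne r)
    exact_mod_cast this
  have hrR : (r : ℝ) ≤ Q := by exact_mod_cast hrQ
  have hel1 := hel r ψ hne hsq β hβ1 hz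
  have hr100 : 100 ≤ r := by
    by_contra hlt
    have hlt1 : (r : ℝ) ≤ 100 := by
      have : r ≤ 100 := by omega
      exact_mod_cast this
    have e1 : c₀ / 10 ^ 4 ≤ c₀ / (r : ℝ) ^ 2 := by
      apply div_le_div_of_nonneg_left hc₀.le (by positivity)
      calc (r : ℝ) ^ 2 ≤ 100 ^ 2 := by gcongr
        _ = 10 ^ 4 := by norm_num
    have e2 : c₀ / 10 ^ 4 ≤ 1 / Real.log Q := e1.trans (hel1.trans hηL)
    rw [div_le_div_iff₀ (by positivity) hL0] at e2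
    have e3 : c₀ * (10 ^ 4 / c₀ + 1) ≤ c₀ * Real.log Q := mul_le_mul_of_nonneg_left hL4 hc₀.le
    have e4 : c₀ * (10 ^ 4 / c₀ + 1) = 10 ^ 4 + c₀ := by
      field_simp
    linarith
  have hr100R : (100 : ℝ) ≤ r := by exact_mod_cast hr100
  have hlogr0 : 0 < Real.log r := Real.log_pos (by linarith)
  have hlogr : Real.log r ≤ Real.log Q := Real.log_le_log hr0 hrR
  have hβr : 1 - 1 / Real.log r ≤ β := by
    have : 1 / Real.log Q ≤ 1 / Real.log r := one_div_le_one_div_of_le hlogr0 hlogr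
    linarith
  have hup : ‖ψ.LFunction 1‖ ≤ C₁ * (1 - β) * (Real.log Q) ^ 2 := by
    refine (hL1 r ψ hr100 hne β hβr hβ1.le hz).trans ?_
    have := hlogr0.le
    gcongr
  have hQ5 : ((Q : ℝ) ^ 5)⁻¹ ≤ 1 - β := by
    refine le_trans ?_ hel1
    have e1 : c₀ / (Q : ℝ) ^ 2 ≤ c₀ / (r : ℝ) ^ 2 := by
      apply div_le_div_of_nonneg_left hc₀.le (by positivity)
      gcongr
    refine le_trans ?_ e1
    rw [inv_eq_one_div, div_le_div_iff₀ (by positivity) (by positivity)]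
    have e2 : 1 ≤ c₀ * Q := by
      rw [div_le_iff₀ hc₀] at k3
      linarith
    have e3 : (Q : ℝ) ^ 2 ≤ (Q : ℝ) ^ 4 := pow_le_pow_right₀ hQ1 (by norm_num)
    calc 1 * (Q : ℝ) ^ 2 ≤ (c₀ * Q) * (Q : ℝ) ^ 4 := mul_le_mul e2 e3 (by positivity) (by positivity)
      _ = c₀ * (Q : ℝ) ^ 5 := by ring
  have hQN : 1 ≤ Q := by exact_mod_cast hQ1
  have hmain := dh_ineq q r χ ψ hχ hprim hne hsq s h1 h2 hs1 h0 (Q ^ 12) (Q ^ 400) (Nat.one_le_pow _ _ hQN)
    (by rw [← pow_mul]; exact Nat.pow_le_pow_right hQN (by norm_num))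
  have hfirst := DHI_first Q q r k2 hqQ hrQ s him h1 h2
  rw [DHI_pow2 Q hQ0 (1 - s.re), DHI_log, DHI_sqrt] at hmain
  have hw : 0 ≤ 1 - s.re := by linarith
  have hb1 : 2 * ‖ψ.LFunction 1‖ / ‖1 - s‖ ≤ 2 * C₁ / a * ((1 - β) * (Real.log Q) ^ 3) := by
    have e1 : 0 < a / Real.log Q := by positivity
    calc 2 * ‖ψ.LFunction 1‖ / ‖1 - s‖ ≤ 2 * (C₁ * (1 - β) * (Real.log Q) ^ 2) / (a / Real.log Q) := by
          gcongr
      _ = 2 * C₁ / a * ((1 - β) * (Real.log Q) ^ 3) := by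
          field_simp
  have hb2 : 2 * (‖ψ.LFunction 1‖ * (2 + 400 * Real.log Q) + 20 * r / (Q : ℝ) ^ 6) ≤
      (804 * C₁ + 40) * ((1 - β) * (Real.log Q) ^ 3) := by
    have e1 : ‖ψ.LFunction 1‖ * (2 + 400 * Real.log Q) ≤ (C₁ * (1 - β) * (Real.log Q) ^ 2) * (402 * Real.log Q) := by
      apply mul_le_mul hup _ (by positivity) (by positivity)
      linarith
    have e2 : 20 * r / (Q : ℝ) ^ 6 ≤ 20 * ((1 - β) * (Real.log Q) ^ 3) := by
      have e3 : 20 * (r : ℝ) / (Q : ℝ) ^ 6 ≤ 20 * Q / (Q : ℝ) ^ 6 := by gcongr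
      have e4 : 20 * (Q : ℝ) / (Q : ℝ) ^ 6 = 20 * ((Q : ℝ) ^ 5)⁻¹ := by
        field_simp
      have e5 : (1 - β) * 1 ≤ (1 - β) * (Real.log Q) ^ 3 := by
        apply mul_le_mul_of_nonneg_left _ hη.le
        exact one_le_pow₀ hL1'
      linarith
    nlinarith [e1, e2]
  have hsqr : (1 + 400 * Real.log Q) ^ 2 ≤ 401 ^ 2 * (Real.log Q) ^ 2 := by
    rw [← mul_pow]
    apply pow_le_pow_left₀ (by positivity)
    linarith
  have hbr : 2 * ‖ψ.LFunction 1‖ / ‖1 - s‖ +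
      2 * (‖ψ.LFunction 1‖ * (2 + 400 * Real.log Q) + 20 * r / (Q : ℝ) ^ 6) ≤
      (2 * C₁ / a + 804 * C₁ + 40) * ((1 - β) * (Real.log Q) ^ 3) := by
    calc _ ≤ 2 * C₁ / a * ((1 - β) * (Real.log Q) ^ 3) + (804 * C₁ + 40) * ((1 - β) * (Real.log Q) ^ 3) :=
          add_le_add hb1 hb2
      _ = _ := by ring
  have hE : 0 < Real.exp (400 * (1 - s.re) * Real.log Q) := Real.exp_pos _
  have hsecond : Real.exp (400 * (1 - s.re) * Real.log Q) * (1 + 400 * Real.log Q) ^ 2 *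
      (2 * ‖ψ.LFunction 1‖ / ‖1 - s‖ +
      2 * (‖ψ.LFunction 1‖ * (2 + 400 * Real.log Q) + 20 * r / (Q : ℝ) ^ 6)) ≤
      Real.exp (400 * (1 - s.re) * Real.log Q) * (401 ^ 2 * (Real.log Q) ^ 2) *
      ((2 * C₁ / a + 804 * C₁ + 40) * ((1 - β) * (Real.log Q) ^ 3)) := by
    apply mul_le_mul _ hbr (by positivity) (by positivity)
    exact mul_le_mul_of_nonneg_left hsqr hE.le
  have hfin : 1 ≤ Real.exp (400 * (1 - s.re) * Real.log Q) * (Real.log Q) ^ 5 * D * (1 - β) := by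
    have e1 : Real.exp (400 * (1 - s.re) * Real.log Q) * (Real.log Q) ^ 5 * D * (1 - β) = 4 / 3 *
      (Real.exp (400 * (1 - s.re) * Real.log Q) * (401 ^ 2 * (Real.log Q) ^ 2) *
      ((2 * C₁ / a + 804 * C₁ + 40) * ((1 - β) * (Real.log Q) ^ 3))) := by
      rw [hDdef]
      ring
    rw [e1]
    linarith
  exact DHI_logs (Real.log Q) (1 - β) (1 - s.re) D hLL hη hw hD hfin _ (le_max_left _ _) (le_max_right _ _) hL0

/-- The wide zero-free region. For `Re s < 7/8` use `b v ≤ log Q/16`. Otherwise apply `repulsion`: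
the classical regions give `‖1 - s‖ ≥ 1 - Re s ≥ a/log Q` with an absolute `a` for all these zeros:
`zero_free_complex`, `zero_free_real`, `page` (real `χ ≠ ψ`, real `s`), `zero_free_zeta` (for `χ = 1`,
then `q = 1`, `DirichletCharacter.LFunction_modOne_eq`), `exc_zero_free` for the zeros of `dslope`
(a zero of `dslope ψ.LFunction β` is a zero of `ψ.LFunction`, `XZ3_mul`).
Zeros of L-functions have real part `< 1` (`DirichletCharacter.LFunction_ne_zero_of_one_le_re`,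
`riemannZeta_ne_zero_of_one_le_re`, `riemannZeta_one_ne_zero`). -/
theorem wide_zero_free : ∃ b C K : ℝ, 0 < b ∧ 1 ≤ C ∧ ∀ Q : ℕ, K ≤ Q →
    ∀ (r : ℕ) [NeZero r] (ψ : DirichletCharacter ℂ r) (β : ℝ), Exc b Q r ψ β →
    ∀ v : ℝ, 1 ≤ v → v + C * Real.log (Real.log Q) ≤ Real.log (1 / (1 - β)) →
    b * v ≤ Real.log Q / 16 →
    (∀ (q : ℕ) [NeZero q] (χ : DirichletCharacter ℂ q), q ≤ Q → χ.IsPrimitive →
      (⟨q, χ⟩ : Σ r : ℕ, DirichletCharacter ℂ r) ≠ ⟨r, ψ⟩ → ∀ s : ℂ, χ.LFunction s = 0 →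
      |s.im| ≤ (Q : ℝ) ^ 12 + 1 → s.re ≤ 1 - b * v / Real.log Q) ∧
    (∀ s : ℂ, dslope ψ.LFunction (β : ℂ) s = 0 → |s.im| ≤ (Q : ℝ) ^ 12 + 1 →
      s.re ≤ 1 - b * v / Real.log Q) := by
  obtain ⟨a₁, K₁, ha₁, h₁⟩ := zero_free_complex
  obtain ⟨a₂, K₂, ha₂, h₂⟩ := zero_free_real
  obtain ⟨a₃, K₃, ha₃, h₃⟩ := page
  obtain ⟨a₄, K₄, ha₄, h₄⟩ := zero_free_zeta
  obtain ⟨b₅, a₅, K₅, hb₅, ha₅, h₅⟩ := exc_zero_free
  obtain ⟨a, hadef⟩ : ∃ a : ℝ, a = min (min (min a₁ a₂) (min a₃ a₄)) a₅ := ⟨_, rfl⟩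
  have ha : 0 < a := by
    rw [hadef]
    exact lt_min (lt_min (lt_min ha₁ ha₂) (lt_min ha₃ ha₄)) ha₅
  have l1 : a ≤ a₁ := by
    rw [hadef]
    exact ((min_le_left _ _).trans (min_le_left _ _)).trans (min_le_left _ _)
  have l2 : a ≤ a₂ := by
    rw [hadef]
    exact ((min_le_left _ _).trans (min_le_left _ _)).trans (min_le_right _ _)
  have l3 : a ≤ a₃ := by
    rw [hadef]
    exact ((min_le_left _ _).trans (min_le_right _ _)).trans (min_le_left _ _)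
  have l4 : a ≤ a₄ := by
    rw [hadef]
    exact ((min_le_left _ _).trans (min_le_right _ _)).trans (min_le_right _ _)
  have l5 : a ≤ a₅ := by
    rw [hadef]
    exact min_le_right _ _
  obtain ⟨c, C, K, hc, hC, hrep⟩ := repulsion a ha
  have hC0 : 0 < C := by linarith
  obtain ⟨b, hbdef⟩ : ∃ b : ℝ, b = min (min c (1 / C)) (min a₃ b₅) := ⟨_, rfl⟩
  have hb : 0 < b := by
    rw [hbdef]
    exact lt_min (lt_min hc (by positivity)) (lt_min ha₃ hb₅)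
  have b1 : b ≤ c := by
    rw [hbdef]
    exact (min_le_left _ _).trans (min_le_left _ _)
  have b2 : b ≤ 1 / C := by
    rw [hbdef]
    exact (min_le_left _ _).trans (min_le_right _ _)
  have b3 : b ≤ a₃ := by
    rw [hbdef]
    exact (min_le_right _ _).trans (min_le_left _ _)
  have b4 : b ≤ b₅ := by
    rw [hbdef]
    exact (min_le_right _ _).trans (min_le_right _ _)
  refine ⟨b, C, max (max (max K₁ K₂) (max K₃ K₄)) (max (max K₅ K) (max 3 (Real.exp (4 * b)))), hb, hC, ?_⟩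
  intro Q hQ r _ ψ β hexc v hv hvC hbv
  have k1 : K₁ ≤ Q := (((le_max_left _ _).trans (le_max_left _ _)).trans (le_max_left _ _)).trans hQ
  have k2 : K₂ ≤ Q := (((le_max_right _ _).trans (le_max_left _ _)).trans (le_max_left _ _)).trans hQ
  have k3 : K₃ ≤ Q := (((le_max_left _ _).trans (le_max_right _ _)).trans (le_max_left _ _)).trans hQ
  have k4 : K₄ ≤ Q := (((le_max_right _ _).trans (le_max_right _ _)).trans (le_max_left _ _)).trans hQ
  have k5 : K₅ ≤ Q := (((le_max_left _ _).trans (le_max_left _ _)).trans (le_max_right _ _)).trans hQ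
  have k6 : K ≤ Q := (((le_max_right _ _).trans (le_max_left _ _)).trans (le_max_right _ _)).trans hQ
  have k7 : (3 : ℝ) ≤ Q := (((le_max_left _ _).trans (le_max_right _ _)).trans (le_max_right _ _)).trans hQ
  have k8 : Real.exp (4 * b) ≤ Q := (((le_max_right _ _).trans (le_max_right _ _)).trans (le_max_right _ _)).trans hQ
  have hQ0 : (0 : ℝ) < Q := by linarith
  have hL0 : 0 < Real.log Q := Real.log_pos (by linarith)
  have hL4 : 4 * b ≤ Real.log Q := (Real.le_log_iff_exp_le hQ0).2 k8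
  have hdiv : ∀ x y : ℝ, x ≤ y → x / Real.log Q ≤ y / Real.log Q := fun x y h =>
    div_le_div_of_nonneg_right h hL0.le
  obtain ⟨hrQ, hprim, hne, hsq, hβ, hβ1, hz⟩ := id hexc
  have hβ34 : 3 / 4 ≤ β := by
    have : b / Real.log Q ≤ 1 / 4 := by
      rw [div_le_iff₀ hL0]
      linarith
    linarith
  have hβ3 : 1 - a₃ / Real.log Q ≤ β := by linarith [hdiv _ _ b3]
  have hβ5 : 1 - b₅ / Real.log Q ≤ β := by linarith [hdiv _ _ b4]
  have hbv0 : b * v / Real.log Q ≤ 1 / 16 := by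
    rw [div_le_iff₀ hL0]
    linarith
  have core : ∀ (q : ℕ) [NeZero q] (χ : DirichletCharacter ℂ q), q ≤ Q → χ.IsPrimitive → ∀ s : ℂ,
      χ.LFunction s = 0 → |s.im| ≤ (Q : ℝ) ^ 12 + 1 → s.re < 1 - a / Real.log Q →
      s.re ≤ 1 - b * v / Real.log Q := by
    intro q _ χ hqQ hχ s h0 him hre
    by_cases h78 : 7 / 8 ≤ s.re
    · have haL : 0 < a / Real.log Q := by positivity
      have hs1 : s ≠ 1 := by
        intro h
        rw [h, Complex.one_re] at hre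
        linarith
      have hnorm : a / Real.log Q ≤ ‖1 - s‖ := by
        have e1 : (1 - s).re ≤ ‖1 - s‖ := Complex.re_le_norm _
        rw [Complex.sub_re, Complex.one_re] at e1
        linarith
      have hr := hrep Q k6 r ψ β (hexc.mono b1) q χ hqQ hχ s h0 him h78 (by linarith) hs1 hnorm
      have e2 : b * v / Real.log Q ≤ (Real.log (1 / (1 - β)) - C * Real.log (Real.log Q)) / (C * Real.log Q) := by
        rw [div_le_div_iff₀ hL0 (by positivity)]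
        have e3 : b * C ≤ 1 := by
          rw [le_div_iff₀ hC0] at b2
          exact b2
        have e4 : b * v * C ≤ v := by
          have : b * C * v ≤ 1 * v := mul_le_mul_of_nonneg_right e3 (by linarith)
          linarith
        calc b * v * (C * Real.log Q) = (b * v * C) * Real.log Q := by ring
          _ ≤ v * Real.log Q := mul_le_mul_of_nonneg_right e4 hL0.le
          _ ≤ _ := mul_le_mul_of_nonneg_right (by linarith) hL0.le
      linarith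
    · push Not at h78
      linarith
  constructor
  · intro q _ χ hqQ hχ hneq s h0 him
    refine core q χ hqQ hχ s h0 him ?_
    by_cases hχ1 : χ = 1
    · have hq : q = 1 := by
        have h3 : χ.conductor = q := hχ
        rw [hχ1, DirichletCharacter.conductor_one] at h3
        exact h3.symm
      subst hq
      rw [DirichletCharacter.LFunction_modOne_eq] at h0
      have := h₄ Q k4 s h0 him
      linarith [hdiv _ _ l4]
    · have hlt : s.re < 1 := by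
        by_contra hge
        exact DirichletCharacter.LFunction_ne_zero_of_one_le_re χ (Or.inl hχ1) (not_lt.1 hge) h0
      by_cases hχ2 : χ ^ 2 = 1
      · by_cases hreal : s.im = 0
        · by_contra hge
          push Not at hge
          have hs : s = (s.re : ℂ) := Complex.ext rfl (by simpa using hreal)
          rw [hs] at h0
          refine h₃ Q k3 r q ψ χ hrQ hqQ hprim hχ hne hχ1 hsq hχ2 hneq.symm β s.re hβ3 hβ1.le ?_ hlt.le hz h0
          linarith [hdiv _ _ l3]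
        · have := h₂ Q k2 q χ hqQ hχ1 hχ2 s h0 hreal him
          linarith [hdiv _ _ l2]
      · have := h₁ Q k1 q χ hqQ hχ2 s h0 him
        linarith [hdiv _ _ l1]
  · intro s h0 him
    have h0' : ψ.LFunction s = 0 := by
      rw [← DHI_mul r ψ β hz s, h0, mul_zero]
    refine core r ψ hrQ hprim s h0' him ?_
    have := h₅ Q k5 r ψ hrQ hne hsq β hβ34 hβ5 hβ1 hz s h0 him
    linarith [hdiv _ _ l5]

end Pool.Agent.Lib.H68T
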