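import Pool.Agent.Lib.H51D.DHDefs
import Pool.Agent.Lib.H68X.XRL
import Pool.Agent.Lib.H68T.GL

/-!
# Chunk DHW0: growth of L-functions and of zeta close to the line `Re s = 1`
-/

open Finset

namespace Pool.Agent.Lib.H68T

theorem dhw0_K {Q : ℝ} (hQ : 1 ≤ Q) : (1 : ℝ) ≤ (⌈Q⌉₊ : ℝ) ∧ Q ≤ (⌈Q⌉₊ : ℝ) ∧ ((⌈Q⌉₊ : ℝ)) ≤ 2 * Q ∧
    ((⌈Q⌉₊ : ℝ)) + 1 ≤ 3 * Q := by
  have h1 : Q ≤ (⌈Q⌉₊ : ℝ) := Nat.le_ceil Q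
  have h2 : (⌈Q⌉₊ : ℝ) < Q + 1 := Nat.ceil_lt_add_one (by linarith)
  exact ⟨by linarith, h1, by linarith, by linarith⟩

theorem dhw0_sum {Q σ : ℝ} (hQ : 1 ≤ Q) (hσ : 1 / 2 ≤ σ) :
    ∑ n ∈ range ⌈Q⌉₊, ((n : ℝ) + 1) ^ (-σ) ≤ 4 * (Q ^ (max 0 (1 - σ)) * (1 + Real.log Q)) := by
  obtain ⟨h1, h2, h3, -⟩ := dhw0_K hQ
  set K : ℕ := ⌈Q⌉₊ with hK
  set δ : ℝ := max 0 (1 - σ) with hδ
  have hδ0 : 0 ≤ δ := le_max_left _ _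
  have hδ1 : δ ≤ 1 := max_le (by norm_num) (by linarith)
  have hQ0 : 0 ≤ Q := by linarith
  have hKδ : (K : ℝ) ^ δ ≤ 2 * Q ^ δ := by
    calc (K : ℝ) ^ δ ≤ (2 * Q) ^ δ := Real.rpow_le_rpow (by linarith) h3 hδ0
      _ = 2 ^ δ * Q ^ δ := Real.mul_rpow (by norm_num) hQ0
      _ ≤ 2 * Q ^ δ := by
        apply mul_le_mul_of_nonneg_right _ (Real.rpow_nonneg hQ0 _)
        calc (2 : ℝ) ^ δ ≤ 2 ^ (1 : ℝ) := Real.rpow_le_rpow_of_exponent_le (by norm_num) hδ1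
          _ = 2 := Real.rpow_one 2
  have hlogQ : 0 ≤ Real.log Q := Real.log_nonneg hQ
  have hlog : 1 + Real.log K ≤ 2 * (1 + Real.log Q) := by
    have e1 : Real.log K ≤ Real.log (2 * Q) := Real.log_le_log (by linarith) h3
    have e2 : Real.log (2 * Q) = Real.log 2 + Real.log Q :=
      Real.log_mul (by norm_num) (by linarith)
    have e3 : Real.log 2 < 0.6931471808 := Real.log_two_lt_d9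
    linarith
  have hterm : ∀ n ∈ range K, ((n : ℝ) + 1) ^ (-σ) ≤ (K : ℝ) ^ δ * ((n : ℝ) + 1)⁻¹ := by
    intro n hn
    have hn1 : (n : ℝ) + 1 ≤ K := by
      have := mem_range.1 hn
      exact_mod_cast this
    have hn0 : (0 : ℝ) < (n : ℝ) + 1 := by positivity
    have hn2 : (1 : ℝ) ≤ (n : ℝ) + 1 := by linarith [Nat.cast_nonneg (α := ℝ) n]
    have e1 : ((n : ℝ) + 1) ^ (-σ) = ((n : ℝ) + 1) ^ (1 - σ) * ((n : ℝ) + 1)⁻¹ := by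
      have e : -σ = (1 - σ) - 1 := by ring
      rw [e, Real.rpow_sub hn0, Real.rpow_one, div_eq_mul_inv]
    rw [e1]
    apply mul_le_mul_of_nonneg_right _ (by positivity)
    calc ((n : ℝ) + 1) ^ (1 - σ) ≤ ((n : ℝ) + 1) ^ δ :=
          Real.rpow_le_rpow_of_exponent_le hn2 (le_max_right _ _)
      _ ≤ (K : ℝ) ^ δ := Real.rpow_le_rpow hn0.le hn1 hδ0
  have hsum : ∑ n ∈ range K, ((n : ℝ) + 1) ^ (-σ) ≤ (K : ℝ) ^ δ * (1 + Real.log K) := by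
    refine (sum_le_sum hterm).trans ?_
    rw [← mul_sum]
    exact mul_le_mul_of_nonneg_left (XRL_harm K) (Real.rpow_nonneg (by linarith) _)
  have hlogK : 0 ≤ 1 + Real.log K := by
    have := Real.log_nonneg h1
    linarith
  have hQδ : 0 ≤ Q ^ δ := Real.rpow_nonneg hQ0 _
  calc _ ≤ (K : ℝ) ^ δ * (1 + Real.log K) := hsum
    _ ≤ (2 * Q ^ δ) * (2 * (1 + Real.log Q)) := mul_le_mul hKδ hlog hlogK (by positivity)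
    _ = _ := by ring

theorem dhw0_pow {Q σ : ℝ} (hQ : 1 ≤ Q) (hσ : 1 / 2 ≤ σ) :
    ((⌈Q⌉₊ : ℝ) + 1) ^ (1 - σ) ≤ 3 * Q ^ (max 0 (1 - σ)) ∧
    Q * ((⌈Q⌉₊ : ℝ) + 1) ^ (-σ) ≤ 3 * Q ^ (max 0 (1 - σ)) := by
  obtain ⟨h1, h2, -, h4⟩ := dhw0_K hQ
  set K : ℕ := ⌈Q⌉₊ with hK
  set δ : ℝ := max 0 (1 - σ) with hδ
  have hδ0 : 0 ≤ δ := le_max_left _ _
  have hδ1 : δ ≤ 1 := max_le (by norm_num) (by linarith)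
  have hQ0 : 0 ≤ Q := by linarith
  have hK0 : (0 : ℝ) < (K : ℝ) + 1 := by positivity
  have e1 : ((K : ℝ) + 1) ^ (1 - σ) ≤ 3 * Q ^ δ := by
    calc ((K : ℝ) + 1) ^ (1 - σ) ≤ ((K : ℝ) + 1) ^ δ :=
          Real.rpow_le_rpow_of_exponent_le (by linarith) (le_max_right _ _)
      _ ≤ (3 * Q) ^ δ := Real.rpow_le_rpow hK0.le h4 hδ0
      _ = 3 ^ δ * Q ^ δ := Real.mul_rpow (by norm_num) hQ0
      _ ≤ 3 * Q ^ δ := by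
        apply mul_le_mul_of_nonneg_right _ (Real.rpow_nonneg hQ0 _)
        calc (3 : ℝ) ^ δ ≤ 3 ^ (1 : ℝ) := Real.rpow_le_rpow_of_exponent_le (by norm_num) hδ1
          _ = 3 := Real.rpow_one 3
  refine ⟨e1, ?_⟩
  have e2 : ((K : ℝ) + 1) * ((K : ℝ) + 1) ^ (-σ) = ((K : ℝ) + 1) ^ (1 - σ) := by
    have e : (1 - σ) = 1 + (-σ) := by ring
    rw [e, Real.rpow_add hK0, Real.rpow_one]
  calc Q * ((K : ℝ) + 1) ^ (-σ) ≤ ((K : ℝ) + 1) * ((K : ℝ) + 1) ^ (-σ) :=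
        mul_le_mul_of_nonneg_right (by linarith) (Real.rpow_nonneg hK0.le _)
    _ = ((K : ℝ) + 1) ^ (1 - σ) := e2
    _ ≤ _ := e1

/-- `|L(s,χ)| ≤ C (N(‖s‖+1))^δ (1 + log (N(‖s‖+1)))` with `δ = max 0 (1 - Re s)`, `Re s ≥ 1/2`.

Proof: `XRL_split` with `K = ⌈N(‖s‖+1)⌉`: the terms `n ≤ K` give at most
`∑ n^(-σ) ≤ K^δ ∑ 1/n`, the rest is at most `(N + N‖s‖/σ)(K+1)^(-σ) ≤ 3 K^(1-σ) ≤ 3 K^δ`
(`gl1_T_bound`, `XRL_tele`, `gl1_A_norm`). -/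
theorem growth_near : ∃ C : ℝ, 1 ≤ C ∧ ∀ (N : ℕ) [NeZero N] (χ : DirichletCharacter ℂ N), χ ≠ 1 →
    ∀ s : ℂ, 1 / 2 ≤ s.re → ‖χ.LFunction s‖ ≤
      C * (N * (‖s‖ + 1)) ^ (max 0 (1 - s.re)) * (1 + Real.log (N * (‖s‖ + 1))) := by
  refine ⟨10, by norm_num, fun N _ χ hχ s hs => ?_⟩
  have hs0 : 0 < s.re := by linarith
  have hN : (1 : ℝ) ≤ N := by
    exact_mod_cast Nat.one_le_iff_ne_zero.2 (NeZero.ne N)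
  obtain ⟨Q, hQdef⟩ : ∃ Q : ℝ, Q = N * (‖s‖ + 1) := ⟨_, rfl⟩
  have hns : 0 ≤ ‖s‖ := norm_nonneg _
  have hQ : 1 ≤ Q := by
    rw [hQdef]
    nlinarith
  rw [← hQdef]
  have hsum := dhw0_sum hQ hs
  obtain ⟨-, hpow⟩ := dhw0_pow hQ hs
  have hlogQ : 0 ≤ Real.log Q := Real.log_nonneg hQ
  have hP0 : 0 ≤ Q ^ (max 0 (1 - s.re)) := Real.rpow_nonneg (by linarith) _
  have hR0 : 0 ≤ ((⌈Q⌉₊ : ℝ) + 1) ^ (-s.re) := Real.rpow_nonneg (by positivity) _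
  rw [XRL_split N χ hχ s hs0 ⌈Q⌉₊]
  have h1 : ‖∑ n ∈ range ⌈Q⌉₊, χ ((n + 1 : ℕ) : ZMod N) * (((n : ℝ) + 1 : ℝ) : ℂ) ^ (-s)‖ ≤
      4 * (Q ^ (max 0 (1 - s.re)) * (1 + Real.log Q)) := by
    refine (norm_sum_le _ _).trans ((sum_le_sum fun n _ => ?_).trans hsum)
    rw [norm_mul, Complex.norm_cpow_eq_rpow_re_of_pos (by positivity), Complex.neg_re]
    calc _ ≤ 1 * ((n : ℝ) + 1) ^ (-s.re) :=
          mul_le_mul_of_nonneg_right (DirichletCharacter.norm_le_one χ _)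
            (Real.rpow_nonneg (by positivity) _)
      _ = _ := one_mul _
  have h2 : ‖gl1_T χ ⌈Q⌉₊ * (((⌈Q⌉₊ : ℝ) + 1 : ℝ) : ℂ) ^ (-s)‖ ≤ N * ((⌈Q⌉₊ : ℝ) + 1) ^ (-s.re) := by
    rw [norm_mul, Complex.norm_cpow_eq_rpow_re_of_pos (by positivity), Complex.neg_re]
    exact mul_le_mul_of_nonneg_right (gl1_T_bound N χ hχ _) hR0
  have h3 : ‖∑' n, gl1_A χ (n + ⌈Q⌉₊) s‖ ≤ 2 * (N * ‖s‖) * ((⌈Q⌉₊ : ℝ) + 1) ^ (-s.re) := by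
    refine (XRL_tele s.re (N * ‖s‖ / s.re) (by positivity) ⌈Q⌉₊ (fun n => gl1_A χ (n + ⌈Q⌉₊) s)
      (fun n => gl1_A_norm N χ hχ (n + ⌈Q⌉₊) s hs0)).trans ?_
    apply mul_le_mul_of_nonneg_right _ hR0
    rw [div_le_iff₀ hs0]
    have h4 : 0 ≤ (N : ℝ) * ‖s‖ := by positivity
    nlinarith
  have h5 : ‖∑ n ∈ range ⌈Q⌉₊, χ ((n + 1 : ℕ) : ZMod N) * (((n : ℝ) + 1 : ℝ) : ℂ) ^ (-s)
      - gl1_T χ ⌈Q⌉₊ * (((⌈Q⌉₊ : ℝ) + 1 : ℝ) : ℂ) ^ (-s) + ∑' n, gl1_A χ (n + ⌈Q⌉₊) s‖ ≤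
      4 * (Q ^ (max 0 (1 - s.re)) * (1 + Real.log Q)) + N * ((⌈Q⌉₊ : ℝ) + 1) ^ (-s.re) +
      2 * (N * ‖s‖) * ((⌈Q⌉₊ : ℝ) + 1) ^ (-s.re) :=
    (norm_add_le _ _).trans (add_le_add ((norm_sub_le _ _).trans (add_le_add h1 h2)) h3)
  refine h5.trans ?_
  have h6 : (N : ℝ) * ((⌈Q⌉₊ : ℝ) + 1) ^ (-s.re) + 2 * (N * ‖s‖) * ((⌈Q⌉₊ : ℝ) + 1) ^ (-s.re) ≤
      2 * (Q * ((⌈Q⌉₊ : ℝ) + 1) ^ (-s.re)) := by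
    have h7 : (N : ℝ) + 2 * (N * ‖s‖) ≤ 2 * Q := by
      rw [hQdef]
      nlinarith
    have h8 := mul_le_mul_of_nonneg_right h7 hR0
    linarith
  have h9 : 0 ≤ Q ^ (max 0 (1 - s.re)) * Real.log Q := mul_nonneg hP0 hlogQ
  nlinarith

/-- `‖(s-1) ζ(s)‖ ≤ C ‖s - 1‖ (‖s‖+1)^δ (1 + log (‖s‖+1)) + 2 (‖s‖+1)^δ`, `δ = max 0 (1 - Re s)`,
`Re s ≥ 1/2`.

Proof: `gl2_eqOn`, the first `K = ⌈‖s‖+1⌉` terms telescope: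
`gl2_Z s = (s-1) ∑_{n ≤ K} n^(-s) + (K+1)^(1-s) + tail`, `‖tail‖ ≤ ‖s-1‖ ‖s‖/σ (K+1)^(-σ)`
(`gl2_B_norm`, `XRL_tele`). -/
theorem growth_near_zeta : ∃ C : ℝ, 1 ≤ C ∧ ∀ s : ℂ, 1 / 2 ≤ s.re → ‖gl2_Z s‖ ≤
      C * (‖s - 1‖ + 1) * (‖s‖ + 1) ^ (max 0 (1 - s.re)) * (1 + Real.log (‖s‖ + 1)) := by
  refine ⟨10, by norm_num, fun s hs => ?_⟩
  have hs0 : 0 < s.re := by linarith
  obtain ⟨Q, hQdef⟩ : ∃ Q : ℝ, Q = ‖s‖ + 1 := ⟨_, rfl⟩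
  have hns : 0 ≤ ‖s‖ := norm_nonneg _
  have hQ : 1 ≤ Q := by
    rw [hQdef]
    linarith
  rw [← hQdef]
  have hsum := dhw0_sum hQ hs
  obtain ⟨hpow1, hpow⟩ := dhw0_pow hQ hs
  have hlogQ : 0 ≤ Real.log Q := Real.log_nonneg hQ
  have hP0 : 0 ≤ Q ^ (max 0 (1 - s.re)) := Real.rpow_nonneg (by linarith) _
  have hR0 : 0 ≤ ((⌈Q⌉₊ : ℝ) + 1) ^ (-s.re) := Real.rpow_nonneg (by positivity) _
  have hsm := (gl1_tele s.re hs0 (‖s - 1‖ * ‖s‖ / s.re) (by positivity) (fun n => gl2_B n s)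
    (fun n => gl2_B_norm n s hs0)).1
  have hB : ∀ K : ℕ, ∑ n ∈ range K, gl2_B n s = (s - 1) * ∑ n ∈ range K, (((n : ℝ) + 1 : ℝ) : ℂ) ^ (-s) +
      ((((K : ℝ) + 1 : ℝ) : ℂ) ^ (-(s - 1)) - 1) := by
    intro K
    induction K with
    | zero => simp
    | succ K ih =>
      rw [sum_range_succ, sum_range_succ, ih, gl2_B]
      have e2 : (((K + 1 : ℕ) : ℝ) + 1 : ℝ) = (K : ℝ) + 2 := by
        push_cast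
        ring
      rw [e2]
      ring
  rw [gl2_eqOn s hs0, ← hsm.sum_add_tsum_nat_add ⌈Q⌉₊, hB]
  have h1 : ‖∑ n ∈ range ⌈Q⌉₊, (((n : ℝ) + 1 : ℝ) : ℂ) ^ (-s)‖ ≤
      4 * (Q ^ (max 0 (1 - s.re)) * (1 + Real.log Q)) := by
    refine (norm_sum_le _ _).trans ((sum_le_sum fun n _ => ?_).trans hsum)
    rw [Complex.norm_cpow_eq_rpow_re_of_pos (by positivity), Complex.neg_re]
  have h2 : ‖(((⌈Q⌉₊ : ℝ) + 1 : ℝ) : ℂ) ^ (-(s - 1))‖ ≤ 3 * Q ^ (max 0 (1 - s.re)) := by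
    rw [Complex.norm_cpow_eq_rpow_re_of_pos (by positivity)]
    have e : (-(s - 1)).re = 1 - s.re := by
      simp
    rw [e]
    exact hpow1
  have h3 : ‖∑' n, gl2_B (n + ⌈Q⌉₊) s‖ ≤ 2 * (‖s - 1‖ * Q) * ((⌈Q⌉₊ : ℝ) + 1) ^ (-s.re) := by
    refine (XRL_tele s.re (‖s - 1‖ * ‖s‖ / s.re) (by positivity) ⌈Q⌉₊ (fun n => gl2_B (n + ⌈Q⌉₊) s)
      (fun n => gl2_B_norm (n + ⌈Q⌉₊) s hs0)).trans ?_
    apply mul_le_mul_of_nonneg_right _ hR0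
    rw [div_le_iff₀ hs0]
    have h4 : 0 ≤ ‖s - 1‖ * ‖s‖ := by positivity
    have h5 : ‖s - 1‖ * ‖s‖ ≤ ‖s - 1‖ * Q := mul_le_mul_of_nonneg_left (by rw [hQdef]; linarith) (norm_nonneg _)
    nlinarith
  have e0 : 1 + ((s - 1) * ∑ n ∈ range ⌈Q⌉₊, (((n : ℝ) + 1 : ℝ) : ℂ) ^ (-s) +
      ((((⌈Q⌉₊ : ℝ) + 1 : ℝ) : ℂ) ^ (-(s - 1)) - 1) + ∑' n, gl2_B (n + ⌈Q⌉₊) s) =
      (s - 1) * ∑ n ∈ range ⌈Q⌉₊, (((n : ℝ) + 1 : ℝ) : ℂ) ^ (-s) +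
      (((⌈Q⌉₊ : ℝ) + 1 : ℝ) : ℂ) ^ (-(s - 1)) + ∑' n, gl2_B (n + ⌈Q⌉₊) s := by ring
  rw [e0]
  have h5 : ‖(s - 1) * ∑ n ∈ range ⌈Q⌉₊, (((n : ℝ) + 1 : ℝ) : ℂ) ^ (-s) +
      (((⌈Q⌉₊ : ℝ) + 1 : ℝ) : ℂ) ^ (-(s - 1)) + ∑' n, gl2_B (n + ⌈Q⌉₊) s‖ ≤
      ‖s - 1‖ * (4 * (Q ^ (max 0 (1 - s.re)) * (1 + Real.log Q))) + 3 * Q ^ (max 0 (1 - s.re)) +
      2 * (‖s - 1‖ * Q) * ((⌈Q⌉₊ : ℝ) + 1) ^ (-s.re) := by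
    refine (norm_add_le _ _).trans (add_le_add ((norm_add_le _ _).trans (add_le_add ?_ h2)) h3)
    rw [norm_mul]
    exact mul_le_mul_of_nonneg_left h1 (norm_nonneg _)
  refine h5.trans ?_
  have h6 : 2 * (‖s - 1‖ * Q) * ((⌈Q⌉₊ : ℝ) + 1) ^ (-s.re) ≤ ‖s - 1‖ * (6 * Q ^ (max 0 (1 - s.re))) := by
    have h7 := mul_le_mul_of_nonneg_left hpow (norm_nonneg (s - 1))
    nlinarith
  have h8 : 0 ≤ ‖s - 1‖ * (Q ^ (max 0 (1 - s.re)) * Real.log Q) :=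
    mul_nonneg (norm_nonneg _) (mul_nonneg hP0 hlogQ)
  have h9 : 0 ≤ Q ^ (max 0 (1 - s.re)) * Real.log Q := mul_nonneg hP0 hlogQ
  have h10 : 0 ≤ ‖s - 1‖ * Q ^ (max 0 (1 - s.re)) := mul_nonneg (norm_nonneg _) hP0
  nlinarith

end Pool.Agent.Lib.H68T
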