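import Pool.Agent.Lib.H51D.DHDefs
import Pool.Agent.Lib.H68T.INV

/-!
# Chunk DHW1: wide regions, general lemma
-/

open Finset Metric

namespace Pool.Agent.Lib.H68T

/-- Growth, lower bound to the right of `1`, and a wide zero-free region for `|Im s| ≥ h`
imply bounds for `1/f` and `f'/f` in a smaller wide region, `|Im s| ≥ h + 1/2`.
(Use `h = -1/2` for no restriction.)

Proof (as `inv_char` in `H68T/INV2.lean`, other scales). `L = log Q`, `ω = v/L`, so `b ω ≤ 1/16`.
`c' = b/4`. Let `s ∈ Rg (c' v) Q`. If `Re s ≥ 1 + b ω/4`: `h2`. Otherwise take `s₀ = 1 + b ω/4 + i Im s`,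
`r' = 5 b ω/8`, `R = 5 b ω`, so `‖s - s₀‖ ≤ r'`, and apply `local_bound` with `M = A₁ v` for a large
constant `A₁(A, b)` (`1 ≤ v`, `log L ≤ v`):
* `‖f(z)‖ ≤ exp M ‖f(s₀)‖` on `closedBall s₀ R`: `h1` with `max 0 (1 - Re z) ≤ 5 b ω`, so
  `exp (A · 5bω · L) = exp (5 A b v)`, and `h2` for `‖f s₀‖ ≥ (bω/4)^A / A ≥ (b/(4L))^A / A`;
  `h1` needs `Re z ≤ 2`, `Re z ≥ 1/2`, `|Im z| ≤ Q^12 + 1`: fine, `R ≤ 5/16`;
* zeros in `‖ρ - s₀‖ ≤ R/2`: `|Im ρ| ≥ h + 1/2 - R/2 ≥ h` and `≤ Q^12 + 1`, so `h3`: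
  `Re ρ ≤ 1 - bω = Re s₀ - 2 r'`;
* `‖f'/f(s₀)‖ ≤ A/(bω/4) ≤ (M+1)/(5bω)` if `M ≥ 20 A`.
Conclusion: `f s ≠ 0`, `‖f s₀‖ ≤ exp (A' (M+1)/8) ‖f s‖`, `‖f'/f(s)‖ ≤ A' (M+1)/(5bω)`,
and `1/ω ≤ L ≤ exp v`. -/
theorem wide_local (b A : ℝ) (hb : 0 < b) (hA : 1 ≤ A) : ∃ c' C K : ℝ, 0 < c' ∧ c' ≤ b ∧ 1 ≤ C ∧
    ∀ Q : ℕ, K ≤ Q → ∀ v : ℝ, 1 ≤ v → Real.log (Real.log Q) ≤ v → b * v ≤ Real.log Q / 16 →
    ∀ h : ℝ, ∀ f : ℂ → ℂ,
    AnalyticOnNhd ℂ f {s | 0 < s.re} →
    (∀ s : ℂ, 1 / 2 ≤ s.re → s.re ≤ 2 → |s.im| ≤ (Q : ℝ) ^ 12 + 1 →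
      ‖f s‖ ≤ A * (Real.log Q) ^ A * Real.exp (A * max 0 (1 - s.re) * Real.log Q)) →
    (∀ s : ℂ, 1 < s.re → s.re ≤ 2 → |s.im| ≤ (Q : ℝ) ^ 12 + 1 →
      (s.re - 1) ^ A / A ≤ ‖f s‖ ∧ ‖deriv f s / f s‖ ≤ A / (s.re - 1)) →
    (∀ ρ : ℂ, f ρ = 0 → 1 / 2 ≤ ρ.re → |ρ.im| ≤ (Q : ℝ) ^ 12 + 1 → h ≤ |ρ.im| →
      ρ.re ≤ 1 - b * v / Real.log Q) →
    ∀ s ∈ Rg (c' * v) Q, h + 1 / 2 ≤ |s.im| → f s ≠ 0 ∧
      ‖(f s)⁻¹‖ ≤ Real.exp (C * v) ∧ ‖deriv f s / f s‖ ≤ Real.exp (C * v) := by
  obtain ⟨A', hA', hloc⟩ := local_bound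
  set B₀ : ℝ := A * |Real.log (b / 4)| + 2 * A with hB₀
  have habs := abs_nonneg (Real.log (b / 4))
  have hA0 : 0 < A := by linarith
  have hAl : 0 ≤ A * |Real.log (b / 4)| := by positivity
  have hB₀0 : 0 ≤ B₀ := by rw [hB₀]; linarith
  set A₁ : ℝ := 2 * A + 5 * A * b + B₀ + 20 * A with hA₁
  have hAb : 0 ≤ A * b := by positivity
  have hA₁0 : 0 ≤ A₁ := by rw [hA₁]; linarith
  set E : ℝ := A' * (A₁ + 1) with hE
  have hE0 : 0 ≤ E := by rw [hE]; positivity
  have hEb : 0 ≤ E / (5 * b) := by positivity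
  have h4Ab : 0 ≤ 4 * A / b := by positivity
  refine ⟨b / 4, E + B₀ + E / (5 * b) + 4 * A / b + 1, Real.exp 1, by positivity, by linarith,
    by linarith, ?_⟩
  intro Q hQ v hv1 hvL hbv h f hf h1 h2 h3 s hs him
  have hQpos : (0 : ℝ) < Q := (Real.exp_pos _).trans_le hQ
  set L : ℝ := Real.log Q with hL
  have hL1 : 1 ≤ L := (Real.le_log_iff_exp_le hQpos).2 hQ
  have hL0 : 0 < L := by linarith
  have hv0 : 0 < v := by linarith
  set y : ℝ := b * v / L with hy
  have hy0 : 0 < y := by positivity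
  have hy1 : y ≤ 1 / 16 := by
    rw [hy, div_le_iff₀ hL0]
    linarith
  have hyL : y * L = b * v := by rw [hy]; field_simp
  obtain ⟨hs1, hs2, hs3⟩ := hs
  have hs1' : 1 - y / 4 ≤ s.re := by
    have e : b / 4 * v / L = y / 4 := by rw [hy]; ring
    rw [← hL, e] at hs1
    exact hs1
  have hLexp : L ≤ Real.exp v := by
    rw [← Real.log_le_iff_le_exp hL0]
    exact hvL
  have hLA : L ^ A ≤ Real.exp (A * v) := by
    rw [Real.rpow_def_of_pos hL0]
    apply Real.exp_le_exp.mpr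
    rw [mul_comm]
    exact mul_le_mul_of_nonneg_left hvL hA0.le
  have hexpv : ∀ x : ℝ, 0 ≤ x → x ≤ Real.exp (x * v) := by
    intro x hx
    have e1 : x ≤ Real.exp x := by linarith [Real.add_one_le_exp x]
    refine e1.trans (Real.exp_le_exp.mpr ?_)
    nlinarith
  -- lower bound of the powers
  have hlow : Real.exp (-(B₀ * v)) ≤ (y / 4) ^ A / A := by
    rw [le_div_iff₀ hA0]
    have e1 : b / 4 / L ≤ y / 4 := by
      have e2 : y / 4 = b / 4 / L * v := by rw [hy]; ring
      rw [e2]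
      exact le_mul_of_one_le_right (by positivity) hv1
    have e3 : Real.exp (-((A * |Real.log (b / 4)| + A) * v)) ≤ (b / 4 / L) ^ A := by
      rw [Real.rpow_def_of_pos (by positivity), Real.log_div (by positivity) hL0.ne']
      apply Real.exp_le_exp.mpr
      have e4 : -(|Real.log (b / 4)| * v) ≤ Real.log (b / 4) := by
        have := neg_abs_le (Real.log (b / 4))
        nlinarith
      have e5 : -(|Real.log (b / 4)| * v) - v ≤ Real.log (b / 4) - Real.log L := by linarith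
      have e6 := mul_le_mul_of_nonneg_right e5 hA0.le
      linarith
    have e7 : (b / 4 / L) ^ A ≤ (y / 4) ^ A := Real.rpow_le_rpow (by positivity) e1 hA0.le
    calc Real.exp (-(B₀ * v)) * A ≤ Real.exp (-(B₀ * v)) * Real.exp (A * v) :=
          mul_le_mul_of_nonneg_left (hexpv A hA0.le) (Real.exp_pos _).le
      _ = Real.exp (-((A * |Real.log (b / 4)| + A) * v)) := by
          rw [← Real.exp_add, hB₀]
          ring_nf
      _ ≤ _ := e3.trans e7
  have hypos : 0 < (y / 4) ^ A := Real.rpow_pos_of_pos (by positivity) _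
  have hylow : 0 < (y / 4) ^ A / A := by positivity
  have hyinv : ((y / 4) ^ A / A)⁻¹ ≤ Real.exp (B₀ * v) := by
    have e1 := inv_anti₀ (Real.exp_pos _) hlow
    rwa [← Real.exp_neg, neg_neg] at e1
  have hyd : 4 * A / y ≤ Real.exp ((4 * A / b + 1) * v) := by
    have e1 : 4 * A / y ≤ 4 * A / b * L := by
      rw [div_le_iff₀ hy0]
      have e2 : 4 * A / b * L * y = 4 * A * v := by
        have : 4 * A / b * L * y = 4 * A / b * (y * L) := by ring
        rw [this, hyL]
        field_simp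
      rw [e2]
      nlinarith
    calc 4 * A / y ≤ 4 * A / b * L := e1
      _ ≤ Real.exp (4 * A / b * v) * Real.exp v :=
          mul_le_mul (hexpv _ h4Ab) hLexp hL0.le (Real.exp_pos _).le
      _ = _ := by rw [← Real.exp_add]; ring_nf
  have hmonoC : ∀ x : ℝ, x ≤ E + B₀ + E / (5 * b) + 4 * A / b + 1 →
      Real.exp (x * v) ≤ Real.exp ((E + B₀ + E / (5 * b) + 4 * A / b + 1) * v) := by
    intro x hx
    exact Real.exp_le_exp.mpr (mul_le_mul_of_nonneg_right hx hv0.le)
  rcases le_or_gt (1 + y / 4) s.re with hcase | hcase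
  · -- right part
    have hre : 1 < s.re := by linarith
    obtain ⟨g1, g2⟩ := h2 s hre hs2 (by linarith)
    have e1 : (y / 4) ^ A ≤ (s.re - 1) ^ A :=
      Real.rpow_le_rpow (by positivity) (by linarith) hA0.le
    have e2 : (y / 4) ^ A / A ≤ ‖f s‖ := (div_le_div_of_nonneg_right e1 hA0.le).trans g1
    have hpos : 0 < ‖f s‖ := hylow.trans_le e2
    refine ⟨norm_pos_iff.1 hpos, ?_, ?_⟩
    · rw [norm_inv]
      refine (inv_anti₀ hylow e2).trans (hyinv.trans (hmonoC _ ?_))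
      linarith
    · have e3 : A / (s.re - 1) ≤ 4 * A / y := by
        rw [div_le_div_iff₀ (by linarith) hy0]
        nlinarith
      refine g2.trans (e3.trans (hyd.trans (hmonoC _ ?_)))
      linarith
  · -- left part
    set s₀ : ℂ := ⟨1 + y / 4, s.im⟩ with hs₀
    have hs₀re : s₀.re = 1 + y / 4 := rfl
    have hs₀im : s₀.im = s.im := rfl
    obtain ⟨g1, g2⟩ := h2 s₀ (by rw [hs₀re]; linarith) (by rw [hs₀re]; linarith)
      (by rw [hs₀im]; linarith)
    have e0 : s₀.re - 1 = y / 4 := by rw [hs₀re]; ring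
    rw [e0] at g1 g2
    have hpos0 : 0 < ‖f s₀‖ := hylow.trans_le g1
    have hlow0 : Real.exp (-(B₀ * v)) ≤ ‖f s₀‖ := hlow.trans g1
    have hM0 : 0 ≤ A₁ * v := by positivity
    have hball : ∀ z ∈ closedBall s₀ (5 * y), 1 - 5 * y ≤ z.re ∧ z.re ≤ 2 ∧
        |z.im| ≤ (Q : ℝ) ^ 12 + 1 := by
      intro z hz
      rw [mem_closedBall, dist_eq_norm] at hz
      have e1 := (Complex.abs_re_le_norm (z - s₀)).trans hz
      have e2 := (Complex.abs_im_le_norm (z - s₀)).trans hz
      rw [Complex.sub_re, hs₀re, abs_le] at e1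
      rw [Complex.sub_im, hs₀im] at e2
      refine ⟨by linarith [e1.1], by linarith [e1.2], ?_⟩
      have e3 := abs_add_le (z.im - s.im) s.im
      rw [sub_add_cancel] at e3
      linarith
    have hres := hloc f s₀ (5 * y) (A₁ * v) (5 * y / 8) (by positivity) hM0 (by positivity)
      (by linarith) (fun z hz => hf z (by
        have := (hball z hz).1
        change 0 < z.re
        linarith)) (norm_pos_iff.1 hpos0) ?_ ?_ ?_ s ?_
    · obtain ⟨r1, r2, r3⟩ := hres
      have hfs : 0 < ‖f s‖ := norm_pos_iff.2 r1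
      have hEv : A' * (A₁ * v + 1) ≤ E * v := by
        rw [hE]
        have : A₁ * v + 1 ≤ (A₁ + 1) * v := by linarith
        calc A' * (A₁ * v + 1) ≤ A' * ((A₁ + 1) * v) := mul_le_mul_of_nonneg_left this hA'.le
          _ = _ := by ring
      refine ⟨r1, ?_, ?_⟩
      · have e1 : A' * (A₁ * v + 1) * (5 * y / 8) / (5 * y) ≤ E * v := by
          have e2 : A' * (A₁ * v + 1) * (5 * y / 8) / (5 * y) = A' * (A₁ * v + 1) / 8 := by
            field_simp
          rw [e2]
          have : 0 ≤ A' * (A₁ * v + 1) := by positivity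
          linarith
        have e3 : ‖f s₀‖ ≤ Real.exp (E * v) * ‖f s‖ :=
          r3.trans (mul_le_mul_of_nonneg_right (Real.exp_le_exp.2 e1) hfs.le)
        have e4 : Real.exp (-(B₀ * v)) ≤ Real.exp (E * v) * ‖f s‖ := hlow0.trans e3
        rw [norm_inv, inv_le_iff_one_le_mul₀ hfs]
        have e5 : Real.exp ((E + B₀) * v) ≤
            Real.exp ((E + B₀ + E / (5 * b) + 4 * A / b + 1) * v) := hmonoC _ (by linarith)
        calc (1 : ℝ) = Real.exp (B₀ * v) * Real.exp (-(B₀ * v)) := by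
              rw [← Real.exp_add]; simp
          _ ≤ Real.exp (B₀ * v) * (Real.exp (E * v) * ‖f s‖) :=
              mul_le_mul_of_nonneg_left e4 (Real.exp_pos _).le
          _ = Real.exp ((E + B₀) * v) * ‖f s‖ := by
              rw [← mul_assoc, ← Real.exp_add]; ring_nf
          _ ≤ _ := mul_le_mul_of_nonneg_right e5 hfs.le
      · refine r2.trans ?_
        have e1 : A' * (A₁ * v + 1) / (5 * y) ≤ E / (5 * b) * L := by
          rw [div_le_iff₀ (by positivity)]
          have e2 : E / (5 * b) * L * (5 * y) = E * v := by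
            have : E / (5 * b) * L * (5 * y) = E / b * (y * L) := by
              field_simp
            rw [this, hyL]
            field_simp
          rw [e2]
          exact hEv
        refine e1.trans ?_
        calc E / (5 * b) * L ≤ Real.exp (E / (5 * b) * v) * Real.exp v :=
              mul_le_mul (hexpv _ hEb) hLexp hL0.le (Real.exp_pos _).le
          _ = Real.exp ((E / (5 * b) + 1) * v) := by rw [← Real.exp_add]; ring_nf
          _ ≤ _ := hmonoC _ (by linarith)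
    · -- growth
      intro z hz
      obtain ⟨z1, z2, z3⟩ := hball z hz
      have e1 := h1 z (by linarith) z2 z3
      have e2 : A * max 0 (1 - z.re) * L ≤ 5 * A * b * v := by
        have e3 : max 0 (1 - z.re) ≤ 5 * y := max_le (by positivity) (by linarith)
        calc A * max 0 (1 - z.re) * L ≤ A * (5 * y) * L := by gcongr
          _ = 5 * A * (y * L) := by ring
          _ = _ := by rw [hyL]; ring
      have e4 : ‖f z‖ ≤ Real.exp ((2 * A + 5 * A * b) * v) := by
        calc ‖f z‖ ≤ A * L ^ A * Real.exp (A * max 0 (1 - z.re) * L) := e1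
          _ ≤ Real.exp (A * v) * Real.exp (A * v) * Real.exp (5 * A * b * v) := by
              gcongr
              exact hexpv A hA0.le
          _ = _ := by rw [← Real.exp_add, ← Real.exp_add]; ring_nf
      calc ‖f z‖ ≤ Real.exp ((2 * A + 5 * A * b) * v) := e4
        _ ≤ Real.exp (A₁ * v + -(B₀ * v)) := by
            apply Real.exp_le_exp.mpr
            rw [hA₁]
            have : 0 ≤ 20 * A * v := by positivity
            linarith
        _ = Real.exp (A₁ * v) * Real.exp (-(B₀ * v)) := Real.exp_add _ _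
        _ ≤ _ := mul_le_mul_of_nonneg_left hlow0 (Real.exp_pos _).le
    · -- zeros
      intro ρ hρ hρ0
      have e1 := (Complex.abs_re_le_norm (ρ - s₀)).trans hρ
      have e2 := (Complex.abs_im_le_norm (ρ - s₀)).trans hρ
      rw [Complex.sub_re, hs₀re, abs_le] at e1
      rw [Complex.sub_im, hs₀im] at e2
      have e3 := abs_add_le (ρ.im - s.im) s.im
      rw [sub_add_cancel] at e3
      have e4 := abs_sub_abs_le_abs_sub s.im ρ.im
      rw [abs_sub_comm] at e4
      have e5 := h3 ρ hρ0 (by linarith [e1.1]) (by linarith) (by linarith)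
      rw [hs₀re]
      linarith
    · refine g2.trans ?_
      rw [div_le_div_iff₀ (by positivity) (by positivity)]
      have e1 : 20 * A ≤ A₁ * v + 1 := by
        have : A₁ * 1 ≤ A₁ * v := mul_le_mul_of_nonneg_left hv1 hA₁0
        rw [hA₁] at this ⊢
        linarith
      have := mul_le_mul_of_nonneg_right e1 hy0.le
      linarith
    · rw [mem_closedBall, dist_eq_norm]
      have e1 : s - s₀ = ((s.re - (1 + y / 4) : ℝ) : ℂ) := by
        apply Complex.ext
        · simp [hs₀re]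
        · simp [hs₀im]
      rw [e1, Complex.norm_real, Real.norm_eq_abs, abs_le]
      constructor <;> linarith

end Pool.Agent.Lib.H68T
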