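import Pool.Agent.Lib.H51D.VDefs
import Pool.Agent.Lib.H51D.DHW0
import Pool.Agent.Lib.H51D.DHW1

/-!
# Chunk DHW2: `InvV` and `InvHighV` for nontrivial characters
-/

open Finset

namespace Pool.Agent.Lib.H68T

/-- `σ - 1 ∈ (0, 1]` -/
theorem DHW2_rpow (x A : ℝ) (hx : 0 < x) (hx1 : x ≤ 1) (hA : 2 ≤ A) : x ^ A / A ≤ x / 2 := by
  have h1 : x ^ A ≤ x := by
    calc x ^ A ≤ x ^ (1 : ℝ) := Real.rpow_le_rpow_of_exponent_ge hx hx1 (by linarith)
      _ = x := Real.rpow_one x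
  have h2 : 0 ≤ x ^ A := Real.rpow_nonneg hx.le _
  rw [div_le_div_iff₀ (by linarith) (by norm_num)]
  nlinarith

theorem DHW2_norm (s : ℂ) (Q : ℝ) (hQ : 10 ≤ Q) (h1 : 1 / 2 ≤ s.re) (h2 : s.re ≤ 2)
    (h3 : |s.im| ≤ Q ^ 12 + 1) : ‖s‖ + 1 ≤ Q ^ 13 := by
  have e1 := Complex.norm_le_abs_re_add_abs_im s
  rw [abs_of_pos (by linarith : 0 < s.re)] at e1
  have e2 : (1 : ℝ) ≤ Q ^ 12 := one_le_pow₀ (by linarith)
  calc ‖s‖ + 1 ≤ Q ^ 12 + 4 * Q ^ 12 := by linarith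
    _ = 5 * Q ^ 12 := by ring
    _ ≤ Q * Q ^ 12 := mul_le_mul_of_nonneg_right (by linarith) (by positivity)
    _ = Q ^ 13 := by ring

/-- The growth bound in the form used by `wide_local`. -/
theorem DHW2_grow (C A y δ Q : ℝ) (hC : 1 ≤ C) (hA : 15 * C + 15 ≤ A) (hQ : Real.exp 3 ≤ Q)
    (hy : 1 ≤ y) (hyQ : y ≤ Q ^ 14) (hδ : 0 ≤ δ) :
    C * y ^ δ * (1 + Real.log y) ≤ A * (Real.log Q) ^ A * Real.exp (A * δ * Real.log Q) := by
  have hQ0 : 0 < Q := (Real.exp_pos 3).trans_le hQ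
  have hL : 3 ≤ Real.log Q := (Real.le_log_iff_exp_le hQ0).2 hQ
  have hly : Real.log y ≤ 14 * Real.log Q := by
    have h1 := Real.log_le_log (by linarith) hyQ
    rw [Real.log_pow] at h1
    push_cast at h1
    exact h1
  have hly0 : 0 ≤ Real.log y := Real.log_nonneg hy
  have h1 : y ^ δ ≤ Real.exp (A * δ * Real.log Q) := by
    rw [Real.rpow_def_of_pos (by linarith)]
    apply Real.exp_le_exp.2
    calc Real.log y * δ ≤ 14 * Real.log Q * δ := mul_le_mul_of_nonneg_right hly hδ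
      _ ≤ A * Real.log Q * δ := by
          apply mul_le_mul_of_nonneg_right _ hδ
          apply mul_le_mul_of_nonneg_right _ (by linarith)
          linarith
      _ = A * δ * Real.log Q := by ring
  have h2 : 1 + Real.log y ≤ 15 * (Real.log Q) ^ A := by
    have h3 : Real.log Q ≤ (Real.log Q) ^ A := by
      calc Real.log Q = (Real.log Q) ^ (1 : ℝ) := (Real.rpow_one _).symm
        _ ≤ (Real.log Q) ^ A := Real.rpow_le_rpow_of_exponent_le (by linarith) (by linarith)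
    linarith
  have h3 : 0 ≤ (Real.log Q) ^ A := Real.rpow_nonneg (by linarith) _
  have h4 : 0 ≤ y ^ δ := Real.rpow_nonneg (by linarith) _
  calc C * y ^ δ * (1 + Real.log y) ≤ C * Real.exp (A * δ * Real.log Q) * (15 * (Real.log Q) ^ A) := by
        apply mul_le_mul _ h2 (by linarith) (by positivity)
        exact mul_le_mul_of_nonneg_left h1 (by linarith)
    _ = (15 * C) * (Real.log Q) ^ A * Real.exp (A * δ * Real.log Q) := by ring
    _ ≤ A * (Real.log Q) ^ A * Real.exp (A * δ * Real.log Q) := by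
        apply mul_le_mul_of_nonneg_right _ (Real.exp_pos _).le
        apply mul_le_mul_of_nonneg_right _ h3
        linarith

/-- The hypotheses of `wide_local` for L-functions. -/
theorem DHW2_hyps : ∃ A : ℝ, 2 ≤ A ∧ ∀ Q : ℕ, Real.exp 10 ≤ Q → ∀ (q : ℕ) [NeZero q]
    (χ : DirichletCharacter ℂ q), q ≤ Q → χ ≠ 1 →
    (∀ s : ℂ, 1 / 2 ≤ s.re → s.re ≤ 2 → |s.im| ≤ (Q : ℝ) ^ 12 + 1 →
      ‖χ.LFunction s‖ ≤ A * (Real.log Q) ^ A * Real.exp (A * max 0 (1 - s.re) * Real.log Q)) ∧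
    (∀ s : ℂ, 1 < s.re → s.re ≤ 2 → |s.im| ≤ (Q : ℝ) ^ 12 + 1 →
      (s.re - 1) ^ A / A ≤ ‖χ.LFunction s‖ ∧
        ‖deriv χ.LFunction s / χ.LFunction s‖ ≤ A / (s.re - 1)) := by
  obtain ⟨C, hC, hgr⟩ := growth_near
  obtain ⟨C₀, hC₀, hvM⟩ := vonMangoldt_le
  refine ⟨15 * C + 15 + C₀, by linarith, fun Q hQ q _ χ hqQ hχ => ⟨fun s h1 h2 h3 => ?_,
    fun s h1 h2 h3 => ⟨?_, ?_⟩⟩⟩
  · have hQ10 : (10 : ℝ) ≤ Q := by linarith [Real.add_one_le_exp (10 : ℝ)]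
    have hq1 : (1 : ℝ) ≤ q := by
      have : 1 ≤ q := NeZero.one_le
      exact_mod_cast this
    have hqQR : (q : ℝ) ≤ Q := by exact_mod_cast hqQ
    have hn := DHW2_norm s Q hQ10 h1 h2 h3
    refine (hgr q χ hχ s h1).trans ?_
    have hs0 : 0 ≤ ‖s‖ := norm_nonneg s
    apply DHW2_grow C _ (q * (‖s‖ + 1)) _ Q hC (by linarith) _ _ _ (le_max_left _ _)
    · exact (Real.exp_le_exp.2 (by norm_num)).trans hQ
    · nlinarith
    · calc (q : ℝ) * (‖s‖ + 1) ≤ Q * (Q : ℝ) ^ 13 := mul_le_mul hqQR hn (by positivity) (by positivity)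
        _ = (Q : ℝ) ^ 14 := by ring
  · refine (DHW2_rpow (s.re - 1) _ (by linarith) (by linarith) (by linarith)).trans ?_
    rw [DirichletCharacter.LFunction_eq_LSeries χ h1]
    refine le_trans ?_ (lab2_lower q χ s h1)
    exact div_le_div_of_nonneg_left (by linarith) (by linarith) h2
  · refine ((INV2_logderiv q χ s h1).trans (hvM s.re h1 h2)).trans ?_
    have hx : 0 < s.re - 1 := by linarith
    rw [← sub_nonneg]
    have : (15 * C + 15 + C₀) / (s.re - 1) - (1 / (s.re - 1) + C₀) =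
        ((15 * C + 14) + C₀ * (1 - (s.re - 1))) / (s.re - 1) := by
      field_simp
      ring
    rw [this]
    apply div_nonneg _ hx.le
    have : 0 ≤ C₀ * (1 - (s.re - 1)) := mul_nonneg hC₀.le (by linarith)
    linarith

/-- `wide_local` (`h = -1/2`) for `f = χ.LFunction`: growth `growth_near` (`N (‖s‖+1) ≤ Q^14`), lower
bound `lab2_lower`, logarithmic derivative `INV2_logderiv`, `vonMangoldt_le`; `g = 1/L(s,χ)` as in
`inv_char` (`H68T/INV2.lean`). -/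
theorem invV_char (b : ℝ) (hb : 0 < b) : ∃ c' C K : ℝ, 0 < c' ∧ c' ≤ b ∧ 1 ≤ C ∧ ∀ Q : ℕ, K ≤ Q →
    ∀ v : ℝ, 1 ≤ v → Real.log (Real.log Q) ≤ v → b * v ≤ Real.log Q / 16 →
    ∀ (q : ℕ) [NeZero q] (χ : DirichletCharacter ℂ q), q ≤ Q → χ ≠ 1 →
    (∀ s : ℂ, χ.LFunction s = 0 → |s.im| ≤ (Q : ℝ) ^ 12 + 1 → s.re ≤ 1 - b * v / Real.log Q) →
    InvV c' C v Q ⟨q, χ⟩ := by
  obtain ⟨A, hA, hh⟩ := DHW2_hyps
  obtain ⟨c', C, K, hc', hcb, hC, hw⟩ := wide_local b A hb (by linarith)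
  refine ⟨c', C, max K (Real.exp 10), hc', hcb, hC, ?_⟩
  intro Q hQ v hv1 hv2 hv3 q _ χ hqQ hχ hz
  obtain ⟨h1, h2⟩ := hh Q ((le_max_right _ _).trans hQ) q χ hqQ hχ
  have hd := DirichletCharacter.differentiable_LFunction hχ
  have hres := hw Q ((le_max_left _ _).trans hQ) v hv1 hv2 hv3 (-(1 / 2)) χ.LFunction
    (fun s _ => hd.analyticAt s) h1 h2 (fun ρ h0 _ him _ => hz ρ h0 him)
  have hall : ∀ s ∈ Rg (c' * v) Q, -(1 / 2 : ℝ) + 1 / 2 ≤ |s.im| := by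
    intro s _
    have := abs_nonneg s.im
    linarith
  refine ⟨fun s => (χ.LFunction s)⁻¹, ?_, ?_, ?_⟩
  · intro s hs
    exact (hd.analyticAt s).inv (hres s hs (hall s hs)).1
  · intro s hs
    exact inv_eq_of_mul_eq_one_right (INV2_mul q χ s hs)
  · intro s hs
    exact (hres s hs (hall s hs)).2.1

/-- The same for `|Im s| ≥ 1` (`h = 1/2` in `wide_local`). -/
theorem invHighV_char (b : ℝ) (hb : 0 < b) : ∃ c' C K : ℝ, 0 < c' ∧ c' ≤ b ∧ 1 ≤ C ∧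
    ∀ Q : ℕ, K ≤ Q →
    ∀ v : ℝ, 1 ≤ v → Real.log (Real.log Q) ≤ v → b * v ≤ Real.log Q / 16 →
    ∀ (q : ℕ) [NeZero q] (χ : DirichletCharacter ℂ q), q ≤ Q → χ ≠ 1 →
    (∀ s : ℂ, χ.LFunction s = 0 → |s.im| ≤ (Q : ℝ) ^ 12 + 1 → 1 / 2 ≤ |s.im| →
      s.re ≤ 1 - b * v / Real.log Q) →
    InvHighV c' C v Q ⟨q, χ⟩ := by
  obtain ⟨A, hA, hh⟩ := DHW2_hyps
  obtain ⟨c', C, K, hc', hcb, hC, hw⟩ := wide_local b A hb (by linarith)
  refine ⟨c', C, max K (Real.exp 10), hc', hcb, hC, ?_⟩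
  intro Q hQ v hv1 hv2 hv3 q _ χ hqQ hχ hz
  obtain ⟨h1, h2⟩ := hh Q ((le_max_right _ _).trans hQ) q χ hqQ hχ
  have hd := DirichletCharacter.differentiable_LFunction hχ
  have hres := hw Q ((le_max_left _ _).trans hQ) v hv1 hv2 hv3 (1 / 2) χ.LFunction
    (fun s _ => hd.analyticAt s) h1 h2 (fun ρ h0 _ him him2 => hz ρ h0 him him2)
  have hall : ∀ s : ℂ, 1 ≤ |s.im| → (1 / 2 : ℝ) + 1 / 2 ≤ |s.im| := by
    intro s hs
    linarith
  refine ⟨fun s => (χ.LFunction s)⁻¹, ?_, ?_, ?_⟩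
  · rintro s ⟨hs, hs1⟩
    exact (hd.analyticAt s).inv (hres s hs (hall s hs1)).1
  · intro s hs
    exact inv_eq_of_mul_eq_one_right (INV2_mul q χ s hs)
  · intro s hs hs1
    exact (hres s hs (hall s hs1)).2.1

end Pool.Agent.Lib.H68T
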