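import Pool.Agent.Lib.H51D.VDefs
import Pool.Agent.Lib.H51D.DHW0
import Pool.Agent.Lib.H51D.DHW1
import Pool.Agent.Lib.H51D.DHW2
import Pool.Agent.Lib.H68T.INVZ

/-!
# Chunk DHW3: `InvV` for the trivial character and `ZetaV`
-/

open Finset

namespace Pool.Agent.Lib.H68T

theorem DHW3_ne {s : ℂ} (hs : 0 < s.re) : s + 1 ≠ 0 := by
  intro h
  have h1 : (s + 1).re = 0 := by rw [h]; rfl
  rw [Complex.add_re, Complex.one_re] at h1
  linarith

theorem DHW3_norm (s : ℂ) (hs : 1 / 2 ≤ s.re) : ‖s - 1‖ + 1 ≤ 3 * ‖s + 1‖ := by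
  have h1 : s.re + 1 ≤ ‖s + 1‖ := by
    have := Complex.re_le_norm (s + 1)
    simpa using this
  have h2 : ‖s - 1‖ ≤ ‖s + 1‖ + 2 := by
    have h3 := norm_sub_le (s + 1) 2
    have h4 : s + 1 - 2 = s - 1 := by ring
    rw [h4] at h3
    have h5 : ‖(2 : ℂ)‖ = 2 := by norm_num
    linarith
  linarith

theorem DHW3_norm2 (s : ℂ) (hs : 0 < s.re) : ‖s - 1‖ ≤ ‖s + 1‖ := by
  rw [← sq_le_sq₀ (norm_nonneg _) (norm_nonneg _), ← Complex.normSq_eq_norm_sq, ← Complex.normSq_eq_norm_sq,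
    Complex.normSq_apply, Complex.normSq_apply]
  simp only [Complex.sub_re, Complex.add_re, Complex.one_re, Complex.sub_im, Complex.add_im, Complex.one_im]
  nlinarith

theorem DHW3_deriv (s : ℂ) (hs : 0 < s.re) (hZ : gl2_Z s ≠ 0) :
    deriv (fun z => gl2_Z z / (z + 1)) s / (gl2_Z s / (s + 1)) = deriv gl2_Z s / gl2_Z s - 1 / (s + 1) := by
  have h1 := DHW3_ne hs
  have h2 : HasDerivAt (fun z => gl2_Z z / (z + 1)) ((deriv gl2_Z s * (s + 1) - gl2_Z s * 1) / (s + 1) ^ 2) s :=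
    (gl2_Z_differentiable s).hasDerivAt.div ((hasDerivAt_id s).add_const 1) h1
  rw [h2.deriv]
  field_simp

/-- The hypotheses of `wide_local` for `(s-1) ζ(s)/(s+1)`. -/
theorem DHW3_hyps : ∃ A : ℝ, 2 ≤ A ∧ ∀ Q : ℕ, Real.exp 10 ≤ Q →
    (∀ s : ℂ, 1 / 2 ≤ s.re → s.re ≤ 2 → |s.im| ≤ (Q : ℝ) ^ 12 + 1 →
      ‖gl2_Z s / (s + 1)‖ ≤ A * (Real.log Q) ^ A * Real.exp (A * max 0 (1 - s.re) * Real.log Q)) ∧
    (∀ s : ℂ, 1 < s.re → s.re ≤ 2 → |s.im| ≤ (Q : ℝ) ^ 12 + 1 →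
      (s.re - 1) ^ A / A ≤ ‖gl2_Z s / (s + 1)‖ ∧
        ‖deriv (fun z => gl2_Z z / (z + 1)) s / (gl2_Z s / (s + 1))‖ ≤ A / (s.re - 1)) := by
  obtain ⟨C, hC, hgr⟩ := growth_near_zeta
  obtain ⟨C₀, hC₀, hvM⟩ := INVZ_vM
  refine ⟨45 * C + 15 + C₀, by linarith, fun Q hQ => ⟨fun s h1 h2 h3 => ?_, fun s h1 h2 h3 => ?_⟩⟩
  · have hQ10 : (10 : ℝ) ≤ Q := by linarith [Real.add_one_le_exp (10 : ℝ)]
    have hn := DHW2_norm s Q hQ10 h1 h2 h3
    have hs0 : 0 ≤ ‖s‖ := norm_nonneg s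
    have hs1 : 0 < ‖s + 1‖ := norm_pos_iff.2 (DHW3_ne (by linarith))
    have hgrow : 3 * C * (‖s‖ + 1) ^ (max 0 (1 - s.re)) * (1 + Real.log (‖s‖ + 1)) ≤ _ :=
      DHW2_grow (3 * C) (45 * C + 15 + C₀) (‖s‖ + 1) (max 0 (1 - s.re)) Q (by linarith) (by linarith)
        ((Real.exp_le_exp.2 (by norm_num)).trans hQ) (by linarith)
        (hn.trans (pow_le_pow_right₀ (by linarith) (by norm_num))) (le_max_left _ _)
    refine le_trans ?_ hgrow
    rw [norm_div, div_le_iff₀ hs1]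
    refine (hgr s h1).trans ?_
    have h4 := DHW3_norm s h1
    have h5 : 0 ≤ (‖s‖ + 1) ^ (max 0 (1 - s.re)) * (1 + Real.log (‖s‖ + 1)) := by
      apply mul_nonneg (Real.rpow_nonneg (by linarith) _)
      have := Real.log_nonneg (by linarith : 1 ≤ ‖s‖ + 1)
      linarith
    have h6 := mul_le_mul_of_nonneg_right h4 (mul_nonneg (by linarith : (0 : ℝ) ≤ C) h5)
    calc C * (‖s - 1‖ + 1) * (‖s‖ + 1) ^ (max 0 (1 - s.re)) * (1 + Real.log (‖s‖ + 1)) =
          (‖s - 1‖ + 1) * (C * ((‖s‖ + 1) ^ (max 0 (1 - s.re)) * (1 + Real.log (‖s‖ + 1)))) := by ring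
      _ ≤ 3 * ‖s + 1‖ * (C * ((‖s‖ + 1) ^ (max 0 (1 - s.re)) * (1 + Real.log (‖s‖ + 1)))) := h6
      _ = _ := by ring
  · have hne1 : s ≠ 1 := by
      rintro rfl
      simp at h1
    have hz := INVZ_lower s h1
    have hu : 0 < s.re - 1 := by linarith
    have hu1 : s.re - 1 ≤ 1 := by linarith
    have hzpos : 0 < ‖riemannZeta s‖ := lt_of_lt_of_le (div_pos hu (by linarith)) hz
    have hsub : 0 < ‖s - 1‖ := norm_pos_iff.2 (sub_ne_zero.2 hne1)
    have hs1 : 0 < ‖s + 1‖ := norm_pos_iff.2 (DHW3_ne (by linarith))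
    have hZne : gl2_Z s ≠ 0 := by
      rw [gl2_Z_eq s hne1]
      exact mul_ne_zero (sub_ne_zero.2 hne1) (norm_pos_iff.1 hzpos)
    have hsu : s.re - 1 ≤ ‖s - 1‖ := by
      have := Complex.re_le_norm (s - 1)
      simpa using this
    constructor
    · -- the lower bound
      have h4 : (s.re - 1) / 3 ≤ ‖s - 1‖ / ‖s + 1‖ := by
        rw [div_le_div_iff₀ (by norm_num) hs1]
        have h5 : ‖s + 1‖ ≤ ‖s - 1‖ + 2 := by
          have h6 := norm_add_le (s - 1) 2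
          have h7 : s - 1 + 2 = s + 1 := by ring
          rw [h7] at h6
          have h8 : ‖(2 : ℂ)‖ = 2 := by norm_num
          linarith
        nlinarith
      have h5 : (s.re - 1) / 2 ≤ ‖riemannZeta s‖ :=
        (div_le_div_of_nonneg_left hu.le (by linarith) h2).trans hz
      have h6 : ‖gl2_Z s / (s + 1)‖ = ‖s - 1‖ / ‖s + 1‖ * ‖riemannZeta s‖ := by
        rw [gl2_Z_eq s hne1, norm_div, norm_mul]
        ring
      rw [h6]
      have h7 : (s.re - 1) ^ 2 / 6 ≤ ‖s - 1‖ / ‖s + 1‖ * ‖riemannZeta s‖ := by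
        calc (s.re - 1) ^ 2 / 6 = (s.re - 1) / 3 * ((s.re - 1) / 2) := by ring
          _ ≤ _ := mul_le_mul h4 h5 (by linarith) (by positivity)
      refine le_trans ?_ h7
      have h8 : (s.re - 1) ^ (45 * C + 15 + C₀) ≤ (s.re - 1) ^ 2 := by
        rw [← Real.rpow_natCast]
        apply Real.rpow_le_rpow_of_exponent_ge hu hu1
        push_cast
        linarith
      have h9 : 0 ≤ (s.re - 1) ^ 2 := by positivity
      rw [div_le_div_iff₀ (by linarith) (by norm_num)]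
      nlinarith
    · rw [DHW3_deriv s (by linarith) hZne]
      refine (norm_sub_le _ _).trans ?_
      have h4 := hvM s h1 h2
      have h5 : ‖(1 : ℂ) / (s + 1)‖ ≤ 1 := by
        rw [norm_div, norm_one, div_le_one hs1]
        have := Complex.re_le_norm (s + 1)
        simp only [Complex.add_re, Complex.one_re] at this
        linarith
      have h6 : 2 / (s.re - 1) + C₀ + 1 ≤ (45 * C + 15 + C₀) / (s.re - 1) := by
        rw [← sub_nonneg]
        have : (45 * C + 15 + C₀) / (s.re - 1) - (2 / (s.re - 1) + C₀ + 1) =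
            ((45 * C + 13) + C₀ * (1 - (s.re - 1)) - (s.re - 1)) / (s.re - 1) := by
          field_simp
          ring
        rw [this]
        apply div_nonneg _ hu.le
        have : 0 ≤ C₀ * (1 - (s.re - 1)) := mul_nonneg hC₀.le (by linarith)
        linarith
      linarith

/-- `wide_local` (`h = -1/2`) for `f(s) = gl2_Z s/(s+1)`, `gl2_Z s = (s-1) ζ(s)`. Growth:
`growth_near_zeta` (`‖s-1‖ + 1 ≤ 3 ‖s+1‖`, `‖s‖ + 1 ≤ Q^13`). Lower bound for `Re s = 1 + u`, `u ≤ 1`: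
`‖s-1‖/‖s+1‖ ≥ u/3` and `‖ζ(s)‖ ≥ u/2` (`INVZ_lower`), `f'/f = gl2_Z'/gl2_Z - 1/(s+1)`, `INVZ_vM`.
Then `1/ζ(s) = (s-1)/gl2_Z s = (s-1)/((s+1) f(s))`, as in `inv_zeta` (`H68T/INVZ.lean`), and
`∑ Λ(n) n^(-s) - 1/(s-1) = - gl2_Z'/gl2_Z` as in `zeta_stmt`. -/
theorem invV_zeta (b : ℝ) (hb : 0 < b) : ∃ c' C K : ℝ, 0 < c' ∧ c' ≤ b ∧ 1 ≤ C ∧ ∀ Q : ℕ, K ≤ Q →
    ∀ v : ℝ, 1 ≤ v → Real.log (Real.log Q) ≤ v → b * v ≤ Real.log Q / 16 →
    (∀ s : ℂ, riemannZeta s = 0 → |s.im| ≤ (Q : ℝ) ^ 12 + 1 → 1 / 2 ≤ s.re →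
      s.re ≤ 1 - b * v / Real.log Q) →
    InvV c' C v Q p0 ∧ ZetaV c' C v Q := by
  obtain ⟨A, hA, hh⟩ := DHW3_hyps
  obtain ⟨c', C, K, hc', hcb, hC, hw⟩ := wide_local b A hb (by linarith)
  refine ⟨c', C + 1, max K (Real.exp 10), hc', hcb, by linarith, ?_⟩
  intro Q hQ v hv1 hv2 hv3 hz
  obtain ⟨h1, h2⟩ := hh Q ((le_max_right _ _).trans hQ)
  set f : ℂ → ℂ := fun z => gl2_Z z / (z + 1) with hf
  have hQ10 : Real.exp 10 ≤ (Q : ℝ) := (le_max_right _ _).trans hQ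
  have hL : 10 ≤ Real.log Q := (Real.le_log_iff_exp_le ((Real.exp_pos _).trans_le hQ10)).2 hQ10
  have hfan : ∀ s : ℂ, 0 < s.re → AnalyticAt ℂ f s := fun s hs =>
    (gl2_Z_differentiable.analyticAt s).div (by fun_prop) (DHW3_ne hs)
  have hres := hw Q ((le_max_left _ _).trans hQ) v hv1 hv2 hv3 (-(1 / 2)) f
    (fun s hs => hfan s hs) h1 h2 (fun ρ h0 hre him _ => by
      have hne := DHW3_ne (s := ρ) (by linarith)
      have h3 : gl2_Z ρ = 0 := by
        have h4 : gl2_Z ρ / (ρ + 1) = 0 := h0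
        rwa [div_eq_zero_iff, or_iff_left hne] at h4
      exact hz ρ (lab3_Z_zero ρ h3) him hre)
  have hRg : ∀ s ∈ Rg (c' * v) Q, 1 / 2 < s.re := by
    rintro s ⟨hs1, -, -⟩
    have h3 : c' * v / Real.log Q ≤ 1 / 16 := by
      rw [div_le_iff₀ (by linarith)]
      have : c' * v ≤ b * v := mul_le_mul_of_nonneg_right hcb (by linarith)
      linarith
    linarith
  have hres' : ∀ s ∈ Rg (c' * v) Q, gl2_Z s ≠ 0 ∧ ‖(gl2_Z s / (s + 1))⁻¹‖ ≤ Real.exp (C * v) ∧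
      ‖deriv gl2_Z s / gl2_Z s - 1 / (s + 1)‖ ≤ Real.exp (C * v) := by
    intro s hs
    have hs' := hRg s hs
    obtain ⟨r1, r2, r3⟩ := hres s hs (by
      have := abs_nonneg s.im
      linarith)
    have hZ : gl2_Z s ≠ 0 := by
      intro h
      apply r1
      show gl2_Z s / (s + 1) = 0
      rw [h, zero_div]
    refine ⟨hZ, r2, ?_⟩
    have h3 := DHW3_deriv s (by linarith) hZ
    rw [← h3]
    exact r3
  have hexp : Real.exp (C * v) + 1 ≤ Real.exp ((C + 1) * v) := by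
    have e1 : 1 ≤ Real.exp (C * v) := Real.one_le_exp (by positivity)
    have e2 : 2 ≤ Real.exp v := by linarith [Real.add_one_le_exp v]
    have e3 : Real.exp ((C + 1) * v) = Real.exp (C * v) * Real.exp v := by
      rw [← Real.exp_add]; ring_nf
    rw [e3]
    nlinarith
  refine ⟨⟨fun s => (s - 1) / gl2_Z s, ?_, ?_, ?_⟩, ⟨fun s => -(deriv gl2_Z s / gl2_Z s), ?_, ?_, ?_⟩⟩
  · intro s hs
    exact AnalyticAt.div (by fun_prop) (gl2_Z_differentiable.analyticAt s) (hres' s hs).1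
  · intro s hs
    have hne1 : s ≠ 1 := by
      rintro rfl
      simp at hs
    have hsub : s - 1 ≠ 0 := sub_ne_zero.2 hne1
    have h1 := DirichletCharacter.LSeries.mul_mu_eq_one (1 : DirichletCharacter ℂ 1) hs
    have e2 : LSeries (fun n => (1 : DirichletCharacter ℂ 1) (n : ZMod 1)) s = riemannZeta s := by
      rw [← DirichletCharacter.LFunction_eq_LSeries (1 : DirichletCharacter ℂ 1) hs,
        DirichletCharacter.LFunction_modOne_eq]
    rw [e2] at h1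
    have e3 : LSeries ((fun n : ℕ => (1 : DirichletCharacter ℂ 1) (n : ZMod 1)) *
        fun n : ℕ => ((ArithmeticFunction.moebius n : ℤ) : ℂ)) s =
        LSeries (fun n => (ArithmeticFunction.moebius n : ℂ) * p0.2 (n : ZMod p0.1)) s := by
      congr 1
      funext n
      rw [Pi.mul_apply, mul_comm]
      rfl
    rw [e3] at h1
    have e4 : (s - 1) / gl2_Z s = (riemannZeta s)⁻¹ := by
      rw [gl2_Z_eq s hne1, div_mul_eq_div_div, div_self hsub, one_div]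
    simp only [e4]
    exact (eq_inv_of_mul_eq_one_right h1).symm
  · intro s hs
    obtain ⟨r1, r2, -⟩ := hres' s hs
    have hs' := hRg s hs
    have hne := DHW3_ne (s := s) (by linarith)
    have hs1 : 0 < ‖s + 1‖ := norm_pos_iff.2 hne
    have e1 : (s - 1) / gl2_Z s = (s - 1) / (s + 1) * (gl2_Z s / (s + 1))⁻¹ := by
      field_simp
    simp only [e1]
    rw [norm_mul, norm_div]
    have e2 : ‖s - 1‖ / ‖s + 1‖ ≤ 1 := by
      rw [div_le_one hs1]
      exact DHW3_norm2 s (by linarith)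
    calc ‖s - 1‖ / ‖s + 1‖ * ‖(gl2_Z s / (s + 1))⁻¹‖ ≤ 1 * Real.exp (C * v) :=
          mul_le_mul e2 r2 (norm_nonneg _) zero_le_one
      _ ≤ Real.exp ((C + 1) * v) := by linarith
  · intro s hs
    have han := gl2_Z_differentiable.analyticAt s
    exact (AnalyticAt.div han.deriv han (hres' s hs).1).neg
  · intro s hs
    rw [lab1_Z s hs, logDeriv_apply]
    ring
  · intro s hs
    obtain ⟨-, -, r3⟩ := hres' s hs
    have hs' := hRg s hs
    rw [norm_neg]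
    have e1 : deriv gl2_Z s / gl2_Z s = (deriv gl2_Z s / gl2_Z s - 1 / (s + 1)) + 1 / (s + 1) := by ring
    rw [e1]
    refine (norm_add_le _ _).trans ?_
    have e2 : ‖(1 : ℂ) / (s + 1)‖ ≤ 1 := by
      have hne := DHW3_ne (s := s) (by linarith)
      have hs1 : 0 < ‖s + 1‖ := norm_pos_iff.2 hne
      rw [norm_div, norm_one, div_le_one hs1]
      have := Complex.re_le_norm (s + 1)
      simp only [Complex.add_re, Complex.one_re] at this
      linarith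
    linarith

end Pool.Agent.Lib.H68T
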