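import Pool.Agent.Lib.H51D.VDefs
import Pool.Agent.Lib.H51D.DHW0
import Pool.Agent.Lib.H51D.DHW1
import Pool.Agent.Lib.H51D.DHW3
import Pool.Agent.Lib.H68X.XZ4

/-!
# Chunk DHW4: `LogV` for the exceptional character
-/

open Finset

namespace Pool.Agent.Lib.H68T

theorem DHW4_F {f : ℂ → ℂ} (a s : ℂ) (ha : f a = 0) : dslope f a s * (s - a) = f s := by
  rcases eq_or_ne s a with h | h
  · rw [h, ha, sub_self, mul_zero]
  · rw [dslope_of_ne _ h, slope_def_field, ha, sub_zero]
    have : s - a ≠ 0 := sub_ne_zero.2 h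
    field_simp

theorem DHW4_deriv {F : ℂ → ℂ} (hF : Differentiable ℂ F) (s : ℂ) (hs : 0 < s.re) (h0 : F s ≠ 0) :
    deriv (fun z => (z + 1) * F z) s / ((s + 1) * F s) = 1 / (s + 1) + deriv F s / F s := by
  have h1 := DHW3_ne hs
  have h2 : HasDerivAt (fun z => (z + 1) * F z) (1 * F s + (s + 1) * deriv F s) s :=
    ((hasDerivAt_id s).add_const 1).mul (hF s).hasDerivAt
  rw [h2.deriv]
  field_simp

theorem DHW4_norm (s : ℂ) (β : ℝ) (hs : 1 < s.re) (hβ0 : 0 ≤ β) (hβ : β < 1) : ‖s - β‖ ≤ ‖s + 1‖ := by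
  rw [← sq_le_sq₀ (norm_nonneg _) (norm_nonneg _), ← Complex.normSq_eq_norm_sq, ← Complex.normSq_eq_norm_sq,
    Complex.normSq_apply, Complex.normSq_apply]
  simp only [Complex.sub_re, Complex.add_re, Complex.one_re, Complex.sub_im, Complex.add_im, Complex.one_im,
    Complex.ofReal_re, Complex.ofReal_im]
  nlinarith

/-- Growth away from `β`. -/
theorem DHW4_far (A L δ y w : ℝ) (hA : 2 ≤ A) (hL : 1 ≤ L) (hy : y ≤ A * L ^ A * Real.exp (A * δ * L))
    (hy0 : 0 ≤ y) (hw : w ≤ 3 * L) : w * y ≤ 3 * A * L ^ (A + 1) * Real.exp (A * δ * L) := by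
  have hL0 : 0 < L := by linarith
  calc w * y ≤ 3 * L * (A * L ^ A * Real.exp (A * δ * L)) :=
        mul_le_mul hw hy hy0 (by positivity)
    _ = 3 * A * L ^ (A + 1) * Real.exp (A * δ * L) := by
        rw [Real.rpow_add hL0, Real.rpow_one]
        ring

/-- The hypotheses of `wide_local` for `(s+1) L(s,ψ)/(s-β)`. -/
theorem DHW4_hyps : ∃ A : ℝ, 2 ≤ A ∧ ∀ Q : ℕ, Real.exp 10 ≤ Q → ∀ (r : ℕ) [NeZero r]
    (ψ : DirichletCharacter ℂ r), r ≤ Q → ψ ≠ 1 → ∀ β : ℝ, 1 - 1 / Real.log Q ≤ β → β < 1 →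
    ψ.LFunction (β : ℂ) = 0 →
    (∀ s : ℂ, 1 / 2 ≤ s.re → s.re ≤ 2 → |s.im| ≤ (Q : ℝ) ^ 12 + 1 →
      ‖(s + 1) * dslope ψ.LFunction (β : ℂ) s‖ ≤
        A * (Real.log Q) ^ A * Real.exp (A * max 0 (1 - s.re) * Real.log Q)) ∧
    (∀ s : ℂ, 1 < s.re → s.re ≤ 2 → |s.im| ≤ (Q : ℝ) ^ 12 + 1 →
      (s.re - 1) ^ A / A ≤ ‖(s + 1) * dslope ψ.LFunction (β : ℂ) s‖ ∧
        ‖deriv (fun z => (z + 1) * dslope ψ.LFunction (β : ℂ) z) s /
          ((s + 1) * dslope ψ.LFunction (β : ℂ) s)‖ ≤ A / (s.re - 1)) := by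
  obtain ⟨A, hA, hh⟩ := DHW2_hyps
  have hE1 : 1 ≤ Real.exp (2 * A) := Real.one_le_exp (by linarith)
  have hAE : A ≤ A * Real.exp (2 * A) := le_mul_of_one_le_right (by linarith) hE1
  refine ⟨3 * (A * Real.exp (2 * A)) + 2, by linarith, fun Q hQ r _ ψ hrQ hψ β hβ1 hβ2 hβ0 => ?_⟩
  obtain ⟨h1, h2⟩ := hh Q hQ r ψ hrQ hψ
  set A' := 3 * (A * Real.exp (2 * A)) + 2 with hA'
  have hQ0 : (0 : ℝ) < Q := (Real.exp_pos _).trans_le hQ
  have hL : 10 ≤ Real.log Q := (Real.le_log_iff_exp_le hQ0).2 hQ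
  set L := Real.log Q with hLdef
  have hL0 : 0 < L := by linarith
  have hLi : 1 / L ≤ 1 / 10 := one_div_le_one_div_of_le (by norm_num) hL
  have hβ3 : 9 / 10 ≤ β := by linarith
  set F := dslope ψ.LFunction (β : ℂ) with hF
  have hd := DirichletCharacter.differentiable_LFunction hψ
  have hFd : Differentiable ℂ F := XZ4_dslope_diff hd _
  have hFm : ∀ s : ℂ, F s * (s - β) = ψ.LFunction s := fun s => DHW4_F _ s hβ0
  have hLA : L ^ (A + 1) ≤ L ^ A' := by
    apply Real.rpow_le_rpow_of_exponent_le (by linarith)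
    rw [hA']
    linarith
  have hLA0 : 0 ≤ L ^ (A + 1) := Real.rpow_nonneg hL0.le _
  -- far from `β`
  have hfar : ∀ s : ℂ, 1 / 2 ≤ s.re → s.re ≤ 2 → |s.im| ≤ (Q : ℝ) ^ 12 + 1 → 1 / L ≤ ‖s - β‖ →
      ‖(s + 1) * F s‖ ≤ 3 * A * L ^ (A + 1) * Real.exp (A * max 0 (1 - s.re) * L) := by
    intro s e1 e2 e3 e4
    have hpos : 0 < ‖s - β‖ := lt_of_lt_of_le (by positivity) e4
    have e5 : ‖(s + 1) * F s‖ = ‖s + 1‖ / ‖s - β‖ * ‖ψ.LFunction s‖ := by
      rw [← hFm s, norm_mul, norm_mul]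
      field_simp
    rw [e5]
    apply DHW4_far A L _ _ _ hA (by linarith) (h1 s e1 e2 e3) (norm_nonneg _)
    rw [div_le_iff₀ hpos]
    have e6 : ‖s + 1‖ ≤ ‖s - β‖ + 2 := by
      have e7 := norm_add_le (s - β) ((β : ℂ) + 1)
      have e8 : s - β + (β + 1) = s + 1 := by ring
      rw [e8] at e7
      have e9 : ‖(β : ℂ) + 1‖ ≤ 2 := by
        have e10 : (β : ℂ) + 1 = ((β + 1 : ℝ) : ℂ) := by push_cast; ring
        rw [e10, Complex.norm_real, Real.norm_eq_abs, abs_of_pos (by linarith)]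
        linarith
      linarith
    have e7 : 1 ≤ L * ‖s - β‖ := by
      rw [div_le_iff₀ hL0] at e4
      linarith
    nlinarith
  refine ⟨fun s e1 e2 e3 => ?_, fun s e1 e2 e3 => ?_⟩
  · rcases le_or_gt (1 / L) ‖s - β‖ with hc | hc
    · refine (hfar s e1 e2 e3 hc).trans ?_
      have hδ : 0 ≤ max 0 (1 - s.re) := le_max_left _ _
      have e4 : Real.exp (A * max 0 (1 - s.re) * L) ≤ Real.exp (A' * max 0 (1 - s.re) * L) := by
        apply Real.exp_le_exp.2
        apply mul_le_mul_of_nonneg_right _ hL0.le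
        apply mul_le_mul_of_nonneg_right _ hδ
        rw [hA']
        linarith
      apply mul_le_mul _ e4 (Real.exp_pos _).le (by positivity)
      apply mul_le_mul _ hLA hLA0 (by positivity)
      rw [hA']
      linarith
    · -- the maximum principle
      have hbd : ‖(s + 1) * F s‖ ≤ 3 * A * L ^ (A + 1) * Real.exp (2 * A) := by
        have hdc : DiffContOnCl ℂ (fun z => (z + 1) * F z) (Metric.ball (β : ℂ) (1 / L)) := by
          apply Differentiable.diffContOnCl
          exact (differentiable_id.add_const 1).mul hFd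
        refine Complex.norm_le_of_forall_mem_frontier_norm_le Metric.isBounded_ball hdc ?_
          (subset_closure (Metric.mem_ball.2 (by rw [dist_eq_norm]; exact hc)))
        intro z hz
        rw [frontier_ball _ (by positivity), mem_sphere_iff_norm] at hz
        have hre := Complex.abs_re_le_norm (z - β)
        have him := Complex.abs_im_le_norm (z - β)
        rw [hz] at hre him
        simp only [Complex.sub_re, Complex.ofReal_re, Complex.sub_im, Complex.ofReal_im, sub_zero] at hre him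
        rw [abs_le] at hre
        have hQ12 : (0 : ℝ) ≤ (Q : ℝ) ^ 12 := by positivity
        refine (hfar z (by linarith) (by linarith) (by linarith) (by rw [hz])).trans ?_
        apply mul_le_mul_of_nonneg_left _ (by positivity)
        apply Real.exp_le_exp.2
        have e4 : max 0 (1 - z.re) ≤ 2 / L := by
          apply max_le (by positivity)
          have : (2 : ℝ) / L = 1 / L + 1 / L := by ring
          rw [this]
          linarith
        calc A * max 0 (1 - z.re) * L ≤ A * (2 / L) * L := by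
              apply mul_le_mul_of_nonneg_right _ hL0.le
              exact mul_le_mul_of_nonneg_left e4 (by linarith)
          _ = 2 * A := by field_simp
      refine hbd.trans ?_
      have hδ : 0 ≤ max 0 (1 - s.re) := le_max_left _ _
      have e4 : 1 ≤ Real.exp (A' * max 0 (1 - s.re) * L) := by
        apply Real.one_le_exp
        have : 0 ≤ A' := by rw [hA']; linarith
        positivity
      have e5 : 0 ≤ L ^ A' := Real.rpow_nonneg hL0.le _
      have hA'0 : 0 ≤ A' := by rw [hA']; linarith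
      calc 3 * A * L ^ (A + 1) * Real.exp (2 * A) = 3 * (A * Real.exp (2 * A)) * L ^ (A + 1) := by ring
        _ ≤ A' * L ^ A' := by
            apply mul_le_mul _ hLA hLA0 hA'0
            rw [hA']
            linarith
        _ ≤ A' * L ^ A' * Real.exp (A' * max 0 (1 - s.re) * L) := le_mul_of_one_le_right (by positivity) e4
  · obtain ⟨g1, g2⟩ := h2 s e1 e2 e3
    have hu : 0 < s.re - 1 := by linarith
    have hu1 : s.re - 1 ≤ 1 := by linarith
    have hsβ : s ≠ (β : ℂ) := by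
      intro h
      rw [h, Complex.ofReal_re] at e1
      linarith
    have hpos : 0 < ‖s - β‖ := norm_pos_iff.2 (sub_ne_zero.2 hsβ)
    have hLne : ψ.LFunction s ≠ 0 :=
      DirichletCharacter.LFunction_ne_zero_of_one_le_re ψ (Or.inl hψ) e1.le
    have hFne : F s ≠ 0 := by
      intro h
      have := hFm s
      rw [h, zero_mul] at this
      exact hLne this.symm
    constructor
    · have e5 : ‖(s + 1) * F s‖ = ‖s + 1‖ / ‖s - β‖ * ‖ψ.LFunction s‖ := by
        rw [← hFm s, norm_mul, norm_mul]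
        field_simp
      rw [e5]
      have e6 : 1 ≤ ‖s + 1‖ / ‖s - β‖ := by
        rw [le_div_iff₀ hpos, one_mul]
        exact DHW4_norm s β e1 (by linarith) hβ2
      have e7 : (s.re - 1) ^ A' / A' ≤ (s.re - 1) ^ A / A := by
        have e8 : (s.re - 1) ^ A' ≤ (s.re - 1) ^ A := by
          apply Real.rpow_le_rpow_of_exponent_ge hu hu1
          rw [hA']
          linarith
        apply div_le_div₀ (Real.rpow_nonneg hu.le _) e8 (by linarith)
        rw [hA']
        linarith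
      calc (s.re - 1) ^ A' / A' ≤ ‖ψ.LFunction s‖ := e7.trans g1
        _ ≤ ‖s + 1‖ / ‖s - β‖ * ‖ψ.LFunction s‖ := le_mul_of_one_le_left (norm_nonneg _) e6
    · rw [DHW4_deriv hFd s (by linarith) hFne, XZ4_dslope_logderiv hd (β : ℂ) s hβ0 hsβ hLne]
      have e5 : ‖(1 : ℂ) / (s + 1)‖ ≤ 1 := by
        have hs1 : 0 < ‖s + 1‖ := norm_pos_iff.2 (DHW3_ne (by linarith))
        rw [norm_div, norm_one, div_le_one hs1]
        have := Complex.re_le_norm (s + 1)
        simp only [Complex.add_re, Complex.one_re] at this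
        linarith
      have e6 : ‖(1 : ℂ) / (s - β)‖ ≤ 1 / (s.re - 1) := by
        rw [norm_div, norm_one]
        apply one_div_le_one_div_of_le hu
        have := Complex.re_le_norm (s - β)
        simp only [Complex.sub_re, Complex.ofReal_re] at this
        linarith
      have e7 : ‖1 / (s + 1) + (deriv ψ.LFunction s / ψ.LFunction s - 1 / (s - β))‖ ≤
          1 + (A / (s.re - 1) + 1 / (s.re - 1)) :=
        (norm_add_le _ _).trans (add_le_add e5 ((norm_sub_le _ _).trans (add_le_add g2 e6)))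
      refine e7.trans ?_
      have e8 : 1 + (A / (s.re - 1) + 1 / (s.re - 1)) = ((s.re - 1) + A + 1) / (s.re - 1) := by
        field_simp
        ring
      rw [e8]
      apply div_le_div_of_nonneg_right _ hu.le
      rw [hA']
      linarith

/-- `wide_local` (`h = -1/2`) for `f(s) = (s+1) F(s)`, `F = dslope ψ.LFunction β` (`= L(s,ψ)/(s-β)`,
variant of `log_exc` in `H68X/XZ4.lean`). Growth: for `‖s - β‖ ≥ 1/log Q` directly from `growth_near`
(`‖s+1‖/‖s-β‖ ≤ 1 + 2 log Q`), for `‖s - β‖ < 1/log Q` by the maximum principle on the disc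
`closedBall β (1/log Q)`, where `max 0 (1 - Re z) ≤ 2/log Q` on the circle. Lower bound:
`‖s+1‖ ≥ ‖s-β‖` and `lab2_lower`; `f'/f = 1/(s+1) + L'/L - 1/(s-β)`.
Then `g = -L'/L + 1/(s-β) = -F'/F = 1/(s+1) - f'/f` (`XZ4_dslope_logderiv`). -/
theorem logV_char (b : ℝ) (hb : 0 < b) : ∃ c' C K : ℝ, 0 < c' ∧ c' ≤ b ∧ 1 ≤ C ∧ ∀ Q : ℕ, K ≤ Q →
    ∀ v : ℝ, 1 ≤ v → Real.log (Real.log Q) ≤ v → b * v ≤ Real.log Q / 16 →
    ∀ (r : ℕ) [NeZero r] (ψ : DirichletCharacter ℂ r),
    r ≤ Q → ψ ≠ 1 → ∀ β : ℝ, 1 - 1 / Real.log Q ≤ β → β < 1 → ψ.LFunction (β : ℂ) = 0 →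
    (∀ s : ℂ, dslope ψ.LFunction (β : ℂ) s = 0 → |s.im| ≤ (Q : ℝ) ^ 12 + 1 →
      s.re ≤ 1 - b * v / Real.log Q) →
    LogV c' C v Q ⟨r, ψ⟩ β := by
  obtain ⟨A, hA, hh⟩ := DHW4_hyps
  obtain ⟨c', C, K, hc', hcb, hC, hw⟩ := wide_local b A hb (by linarith)
  refine ⟨c', C + 1, max K (Real.exp 10), hc', hcb, by linarith, ?_⟩
  intro Q hQ v hv1 hv2 hv3 r _ ψ hrQ hψ β hβ1 hβ2 hβ0 hz
  obtain ⟨h1, h2⟩ := hh Q ((le_max_right _ _).trans hQ) r ψ hrQ hψ β hβ1 hβ2 hβ0
  have hQ10 : Real.exp 10 ≤ (Q : ℝ) := (le_max_right _ _).trans hQ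
  have hL : 10 ≤ Real.log Q := (Real.le_log_iff_exp_le ((Real.exp_pos _).trans_le hQ10)).2 hQ10
  have hd := DirichletCharacter.differentiable_LFunction hψ
  set F := dslope ψ.LFunction (β : ℂ) with hF
  have hFd : Differentiable ℂ F := XZ4_dslope_diff hd _
  set f : ℂ → ℂ := fun z => (z + 1) * F z with hf
  have hfd : Differentiable ℂ f := (differentiable_id.add_const 1).mul hFd
  have hres := hw Q ((le_max_left _ _).trans hQ) v hv1 hv2 hv3 (-(1 / 2)) f
    (fun s _ => hfd.analyticAt s) h1 h2 (fun ρ h0 hre him _ => by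
      have hne := DHW3_ne (s := ρ) (by linarith)
      have h3 : (ρ + 1) * F ρ = 0 := h0
      exact hz ρ ((mul_eq_zero.1 h3).resolve_left hne) him)
  have hRg : ∀ s ∈ Rg (c' * v) Q, 1 / 2 < s.re := by
    rintro s ⟨hs1, -, -⟩
    have h3 : c' * v / Real.log Q ≤ 1 / 16 := by
      rw [div_le_iff₀ (by linarith)]
      have : c' * v ≤ b * v := mul_le_mul_of_nonneg_right hcb (by linarith)
      linarith
    linarith
  have hres' : ∀ s ∈ Rg (c' * v) Q, F s ≠ 0 ∧ ‖1 / (s + 1) + deriv F s / F s‖ ≤ Real.exp (C * v) := by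
    intro s hs
    have hs' := hRg s hs
    obtain ⟨r1, r2, r3⟩ := hres s hs (by
      have := abs_nonneg s.im
      linarith)
    have hZ : F s ≠ 0 := by
      intro h
      apply r1
      show (s + 1) * F s = 0
      rw [h, mul_zero]
    refine ⟨hZ, ?_⟩
    rw [← DHW4_deriv hFd s (by linarith) hZ]
    exact r3
  have hexp : Real.exp (C * v) + 1 ≤ Real.exp ((C + 1) * v) := by
    have e1 : 1 ≤ Real.exp (C * v) := Real.one_le_exp (by positivity)
    have e2 : 2 ≤ Real.exp v := by linarith [Real.add_one_le_exp v]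
    have e3 : Real.exp ((C + 1) * v) = Real.exp (C * v) * Real.exp v := by
      rw [← Real.exp_add]; ring_nf
    rw [e3]
    nlinarith
  refine ⟨fun s => -(deriv F s / F s), ?_, ?_, ?_⟩
  · intro s hs
    exact (((hFd.analyticAt s).deriv).div (hFd.analyticAt s) (hres' s hs).1).neg
  · intro s hs
    have hsβ : s ≠ (β : ℂ) := by
      intro h
      rw [h, Complex.ofReal_re] at hs
      linarith
    have hLne : ψ.LFunction s ≠ 0 :=
      DirichletCharacter.LFunction_ne_zero_of_one_le_re ψ (Or.inl hψ) hs.le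
    have h1 := DirichletCharacter.LSeries_twist_vonMangoldt_eq ψ hs
    have h2 : ((fun n : ℕ => ψ (n : ZMod r)) * fun n : ℕ => (ArithmeticFunction.vonMangoldt n : ℂ)) =
        fun n : ℕ => (ArithmeticFunction.vonMangoldt n : ℂ) * ψ (n : ZMod r) := by
      funext n
      simp only [Pi.mul_apply]
      ring
    rw [h2, ← DirichletCharacter.deriv_LFunction_eq_deriv_LSeries ψ hs,
      ← DirichletCharacter.LFunction_eq_LSeries ψ hs] at h1
    simp only
    rw [XZ4_dslope_logderiv hd (β : ℂ) s hβ0 hsβ hLne, h1]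
    ring
  · intro s hs
    obtain ⟨-, r3⟩ := hres' s hs
    have hs' := hRg s hs
    rw [norm_neg]
    have e1 : deriv F s / F s = (1 / (s + 1) + deriv F s / F s) - 1 / (s + 1) := by ring
    rw [e1]
    refine (norm_sub_le _ _).trans ?_
    have e2 : ‖(1 : ℂ) / (s + 1)‖ ≤ 1 := by
      have hs1 : 0 < ‖s + 1‖ := norm_pos_iff.2 (DHW3_ne (by linarith))
      rw [norm_div, norm_one, div_le_one hs1]
      have := Complex.re_le_norm (s + 1)
      simp only [Complex.add_re, Complex.one_re] at this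
      linarith
    linarith

end Pool.Agent.Lib.H68T
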