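import Pool.Agent.Lib.H51D.VDefs
import Pool.Agent.Lib.H51D.DHI
import Pool.Agent.Lib.H51D.DHW2
import Pool.Agent.Lib.H51D.DHW3
import Pool.Agent.Lib.H51D.DHW4

/-!
# Chunk DHEX: output of the Deuring-Heilbronn part
-/

open Finset

namespace Pool.Agent.Lib.H68T

/-- **Wide zero-free region** (Deuring-Heilbronn). Assembly as in `exc_data` (`H68X/XEX.lean`):
`wide_zero_free` (constant `b`, `C ≥ 16 b` gives `b v ≤ log Q/16`), `invV_char` for `p ≠ p0, ⟨r, ψ⟩`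
(a primitive character with `χ = 1` is `p0`, see `XEX.lean`), `invHighV_char` for `ψ` (a zero `s` of
`ψ.LFunction` with `|Im s| ≥ 1/2` is a zero of `dslope ψ.LFunction β`, since `s ≠ β`), `invV_zeta`
(`DirichletCharacter.LFunction_modOne_eq`), `logV_char`; `InvV.mono` etc. in `VDefs.lean`. -/
theorem exc_dataV : ∃ c c' C K : ℝ, 0 < c ∧ 0 < c' ∧ 1 ≤ C ∧ ∀ Q : ℕ, K ≤ Q →
    ∀ (r : ℕ) [NeZero r] (ψ : DirichletCharacter ℂ r) (β : ℝ), Exc c Q r ψ β →
    ∀ v : ℝ, 1 ≤ v → Real.log (Real.log Q) ≤ v →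
    v + C * Real.log (Real.log Q) ≤ Real.log (1 / (1 - β)) → C * v ≤ Real.log Q →
    ExcDataV c' C v Q r ψ β := by
  obtain ⟨b, C₀, K₀, hb, hC₀, h₀⟩ := wide_zero_free
  obtain ⟨a₁, C₁, K₁, ha₁, -, hC₁, h₁⟩ := logV_char b hb
  obtain ⟨a₂, C₂, K₂, ha₂, -, hC₂, h₂⟩ := invV_char b hb
  obtain ⟨a₃, C₃, K₃, ha₃, -, hC₃, h₃⟩ := invV_zeta b hb
  obtain ⟨a₄, C₄, K₄, ha₄, -, hC₄, h₄⟩ := invHighV_char b hb
  have m1 : min (min a₁ a₂) (min a₃ a₄) ≤ a₁ := (min_le_left _ _).trans (min_le_left _ _)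
  have m2 : min (min a₁ a₂) (min a₃ a₄) ≤ a₂ := (min_le_left _ _).trans (min_le_right _ _)
  have m3 : min (min a₁ a₂) (min a₃ a₄) ≤ a₃ := (min_le_right _ _).trans (min_le_left _ _)
  have m4 : min (min a₁ a₂) (min a₃ a₄) ≤ a₄ := (min_le_right _ _).trans (min_le_right _ _)
  set C : ℝ := C₀ + C₁ + C₂ + C₃ + C₄ + 16 * b with hCdef
  have n0 : C₀ ≤ C := by linarith
  have n1 : C₁ ≤ C := by linarith
  have n2 : C₂ ≤ C := by linarith
  have n3 : C₃ ≤ C := by linarith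
  have n4 : C₄ ≤ C := by linarith
  have n5 : 16 * b ≤ C := by linarith
  refine ⟨min b 1, min (min a₁ a₂) (min a₃ a₄), C,
    max (max (max K₀ K₁) (max K₂ K₃)) (max K₄ (Real.exp (4 * b + 1))), lt_min hb one_pos,
    lt_min (lt_min ha₁ ha₂) (lt_min ha₃ ha₄), by linarith, ?_⟩
  intro Q hQ r _ ψ β hexc v hv hvQ hvb hCv
  have q0 : K₀ ≤ Q := (((le_max_left _ _).trans (le_max_left _ _)).trans (le_max_left _ _)).trans hQ
  have q1 : K₁ ≤ Q := (((le_max_right _ _).trans (le_max_left _ _)).trans (le_max_left _ _)).trans hQ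
  have q2 : K₂ ≤ Q := (((le_max_left _ _).trans (le_max_right _ _)).trans (le_max_left _ _)).trans hQ
  have q3 : K₃ ≤ Q :=
    (((le_max_right _ _).trans (le_max_right _ _)).trans (le_max_left _ _)).trans hQ
  have q4 : K₄ ≤ Q := ((le_max_left _ _).trans (le_max_right _ _)).trans hQ
  have q5 : Real.exp (4 * b + 1) ≤ Q := ((le_max_right _ _).trans (le_max_right _ _)).trans hQ
  have hQpos : (0 : ℝ) < Q := (Real.exp_pos _).trans_le q5
  have hL : 4 * b + 1 ≤ Real.log Q := (Real.le_log_iff_exp_le hQpos).2 q5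
  have hL0 : 0 < Real.log Q := by linarith
  have hLL : 0 ≤ Real.log (Real.log Q) := Real.log_nonneg (by linarith)
  have hdiv : ∀ y, min b 1 ≤ y → min b 1 / Real.log Q ≤ y / Real.log Q := fun y hy =>
    div_le_div_of_nonneg_right hy hL0.le
  obtain ⟨hrQ, hprim, hne, hsq, hβ, hβ1, hz⟩ := hexc
  have hβb : 1 - b / Real.log Q ≤ β := by linarith [hdiv b (min_le_left _ _)]
  have hβ1' : 1 - 1 / Real.log Q ≤ β := by linarith [hdiv 1 (min_le_right _ _)]
  have hβ34 : 1 / 2 ≤ β := by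
    have h2 : b / Real.log Q ≤ 1 / 2 := by
      rw [div_le_iff₀ hL0]
      linarith
    linarith
  have hv0 : 0 ≤ v := by linarith
  have hbv : b * v ≤ Real.log Q / 16 := by
    have h5 := mul_le_mul_of_nonneg_right n5 hv0
    linarith
  have hvC : v + C₀ * Real.log (Real.log Q) ≤ Real.log (1 / (1 - β)) := by
    have h5 := mul_le_mul_of_nonneg_right n0 hLL
    linarith
  obtain ⟨z1, z2⟩ := h₀ Q q0 r ψ β ⟨hrQ, hprim, hne, hsq, hβb, hβ1, hz⟩ v hv hvC hbv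
  have hr1 : 1 ≤ r := NeZero.one_le
  have hp0ne : (⟨r, ψ⟩ : Σ r : ℕ, DirichletCharacter ℂ r) ≠ p0 := by
    intro h
    obtain ⟨h1, h2⟩ := Sigma.mk.inj_iff.1 h
    subst h1
    exact hne (eq_of_heq h2)
  have hzeta := h₃ Q q3 v hv hvQ hbv (fun s hs hi _ => by
    have hQ1 : 1 ≤ Q := hr1.trans hrQ
    have hpr : (1 : DirichletCharacter ℂ 1).IsPrimitive := by
      unfold DirichletCharacter.IsPrimitive
      rw [DirichletCharacter.conductor_one]
    have h5 := z1 1 (1 : DirichletCharacter ℂ 1) hQ1 hpr (fun h => hp0ne h.symm) s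
    rw [DirichletCharacter.LFunction_modOne_eq] at h5
    exact h5 hs hi)
  refine ⟨mem_PC.mpr ⟨hr1, hrQ, hprim⟩, hp0ne, hsq, hβ34, hβ1,
    (h₁ Q q1 v hv hvQ hbv r ψ hrQ hne β hβ1' hβ1 hz z2).mono hv0 m1 n1,
    (h₄ Q q4 v hv hvQ hbv r ψ hrQ hne ?_).mono hv0 m4 n4,
    hzeta.2.mono hv0 m3 n3, ?_⟩
  · intro s hs hi hi2
    have hsβ : s ≠ (β : ℂ) := by
      intro h
      rw [h, Complex.ofReal_im, abs_zero] at hi2
      linarith
    refine z2 s ?_ hi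
    rw [dslope_of_ne _ hsβ, slope_def_field, hs, hz, sub_zero, zero_div]
  · rintro ⟨r', ψ'⟩ hp hpne
    obtain ⟨hr1', hr2', hprim'⟩ := mem_PC.mp hp
    have hr1'' : 1 ≤ r' := hr1'
    have hne' : NeZero r' := ⟨by omega⟩
    by_cases hψ : ψ' = 1
    · have hr : r' = 1 := by
        have h3 : ψ'.conductor = r' := hprim'
        rw [hψ, DirichletCharacter.conductor_one] at h3
        exact h3.symm
      subst hr
      have hp0 : (⟨1, ψ'⟩ : Σ r : ℕ, DirichletCharacter ℂ r) = p0 := by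
        rw [hψ]
        rfl
      rw [hp0]
      exact hzeta.1.mono hv0 m3 n3
    · exact (h₂ Q q2 v hv hvQ hbv r' ψ' hr2' hψ (z1 r' ψ' hr2' hprim' hpne)).mono hv0 m2 n2

end Pool.Agent.Lib.H68T
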