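import Pool.Agent.Lib.H51D.DHDefs
import Pool.Agent.Lib.H51D.DHA
import Pool.Agent.Lib.H51D.DHB

/-!
# Chunk DHG: the mollified sum
-/

open Finset

namespace Pool.Agent.Lib.H68T

/-- `∑_{n ≤ N} cZ(n) χ(n) n^(-s) = ∑_{d ≤ Z} g(d) χ(d) d^(-s) TT(N/d)` for `Z ≤ N`. -/
theorem dh_swap (q r : ℕ) [NeZero r] (χ : DirichletCharacter ℂ q) (ψ : DirichletCharacter ℂ r)
    (s : ℂ) (Z N : ℕ) (hZN : Z ≤ N) :
    ∑ n ∈ Icc 1 N, (cZ ψ Z n : ℂ) * χ (n : ZMod q) * (n : ℂ) ^ (-s) =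
      ∑ d ∈ Icc 1 Z, (gg ψ d : ℂ) * χ (d : ZMod q) * (d : ℂ) ^ (-s) * TT χ ψ s (N / d) := by
  have hL : ∀ n ∈ Icc 1 N, (cZ ψ Z n : ℂ) * χ (n : ZMod q) * (n : ℂ) ^ (-s) =
      ∑ p ∈ n.divisorsAntidiagonal.filter (fun p : ℕ × ℕ => p.1 ≤ Z),
        (gg ψ p.1 : ℂ) * (lam ψ p.2 : ℂ) * χ (n : ZMod q) * (n : ℂ) ^ (-s) := by
    intro n _
    unfold cZ
    push_cast
    rw [Finset.sum_mul, Finset.sum_mul]
  have hR : ∀ d ∈ Icc 1 Z, (gg ψ d : ℂ) * χ (d : ZMod q) * (d : ℂ) ^ (-s) * TT χ ψ s (N / d) =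
      ∑ m ∈ Icc 1 (N / d), (gg ψ d : ℂ) * χ (d : ZMod q) * (d : ℂ) ^ (-s) *
        (χ (m : ZMod q) * (lam ψ m : ℂ) * (m : ℂ) ^ (-s)) := by
    intro d _
    unfold TT
    rw [Finset.mul_sum]
  rw [Finset.sum_congr rfl hL, Finset.sum_congr rfl hR, Finset.sum_sigma', Finset.sum_sigma']
  refine Finset.sum_bij'
    (fun (x : (_ : ℕ) × (ℕ × ℕ)) _ => (⟨x.2.1, x.2.2⟩ : (_ : ℕ) × ℕ))
    (fun (y : (_ : ℕ) × ℕ) _ => (⟨y.1 * y.2, (y.1, y.2)⟩ : (_ : ℕ) × (ℕ × ℕ))) ?_ ?_ ?_ ?_ ?_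
  · rintro ⟨n, a, b⟩ h
    rw [Finset.mem_sigma, Finset.mem_filter, Nat.mem_divisorsAntidiagonal] at h
    obtain ⟨h1, ⟨h2, h3⟩, h4⟩ := h
    simp only at h1 h2 h3 h4 ⊢
    rw [Finset.mem_Icc] at h1
    rw [Finset.mem_sigma, Finset.mem_Icc, Finset.mem_Icc]
    simp only
    have ha : 0 < a := by
      rcases Nat.eq_zero_or_pos a with h | h
      · subst h
        simp at h2
        omega
      · exact h
    have hb : 0 < b := by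
      rcases Nat.eq_zero_or_pos b with h | h
      · subst h
        simp at h2
        omega
      · exact h
    refine ⟨⟨ha, h4⟩, hb, ?_⟩
    rw [Nat.le_div_iff_mul_le ha, mul_comm]
    omega
  · rintro ⟨d, m⟩ h
    rw [Finset.mem_sigma, Finset.mem_Icc, Finset.mem_Icc] at h
    obtain ⟨⟨h1, h2⟩, h3, h4⟩ := h
    simp only at h1 h2 h3 h4 ⊢
    rw [Finset.mem_sigma, Finset.mem_filter, Nat.mem_divisorsAntidiagonal, Finset.mem_Icc]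
    simp only
    have hdm : 0 < d * m := Nat.mul_pos h1 h3
    rw [Nat.le_div_iff_mul_le h1, mul_comm] at h4
    exact ⟨⟨hdm, h4⟩, ⟨trivial, hdm.ne'⟩, h2⟩
  · rintro ⟨n, a, b⟩ h
    rw [Finset.mem_sigma, Finset.mem_filter, Nat.mem_divisorsAntidiagonal] at h
    obtain ⟨h1, ⟨h2, h3⟩, h4⟩ := h
    simp only at h1 h2 h3 h4 ⊢
    rw [h2]
  · rintro ⟨d, m⟩ h
    rfl
  · rintro ⟨n, a, b⟩ h
    rw [Finset.mem_sigma, Finset.mem_filter, Nat.mem_divisorsAntidiagonal] at h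
    obtain ⟨h1, ⟨h2, h3⟩, h4⟩ := h
    simp only at h1 h2 h3 h4 ⊢
    rw [← h2, Nat.cast_mul, Nat.cast_mul, map_mul, Complex.natCast_mul_natCast_cpow]
    ring

/-- The left side of `dh_swap` is `1 + ∑_{Z < n ≤ N}` by `cZ_one`, `cZ_zero`; `|cZ| ≤ λ * λ`,
`n^(-σ) ≤ N^(1-σ)/n`; `|g| ≤ λ`. -/
theorem dh_core (q r : ℕ) [NeZero q] [NeZero r] (χ : DirichletCharacter ℂ q)
    (ψ : DirichletCharacter ℂ r) (hψ2 : ψ ^ 2 = 1) (s : ℂ) (h2 : s.re ≤ 1) (Z N : ℕ)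
    (hZ : 1 ≤ Z) (hZN : Z ≤ N) :
    1 ≤ ∑ d ∈ Icc 1 Z, lam ψ d * (d : ℝ) ^ (-s.re) * ‖TT χ ψ s (N / d)‖ +
      (N : ℝ) ^ (1 - s.re) * ∑ n ∈ Ioc Z N, lam2 ψ n / n := by
  have hsw := dh_swap q r χ ψ s Z N hZN
  have hsplit : ∑ n ∈ Icc 1 N, (cZ ψ Z n : ℂ) * χ (n : ZMod q) * (n : ℂ) ^ (-s) =
      1 + ∑ n ∈ Ioc Z N, (cZ ψ Z n : ℂ) * χ (n : ZMod q) * (n : ℂ) ^ (-s) := by
    have hu : Icc 1 N = Icc 1 Z ∪ Ioc Z N := by
      ext n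
      simp only [mem_union, mem_Icc, mem_Ioc]
      omega
    have hd : Disjoint (Icc 1 Z) (Ioc Z N) := by
      rw [Finset.disjoint_left]
      intro n hn hn'
      rw [mem_Icc] at hn
      rw [mem_Ioc] at hn'
      omega
    rw [hu, Finset.sum_union hd]
    congr 1
    rw [Finset.sum_eq_single_of_mem 1 (by rw [mem_Icc]; exact ⟨le_refl 1, hZ⟩)]
    · rw [cZ_one r ψ Z hZ]
      simp
    · intro n hn hn1
      rw [mem_Icc] at hn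
      rw [cZ_zero r ψ hψ2 Z n (by omega) hn.2]
      simp
  have h1 : (1 : ℂ) = ∑ d ∈ Icc 1 Z, (gg ψ d : ℂ) * χ (d : ZMod q) * (d : ℂ) ^ (-s) *
      TT χ ψ s (N / d) - ∑ n ∈ Ioc Z N, (cZ ψ Z n : ℂ) * χ (n : ZMod q) * (n : ℂ) ^ (-s) := by
    rw [← hsw, hsplit]
    ring
  have h1n : (1 : ℝ) ≤ ‖∑ d ∈ Icc 1 Z, (gg ψ d : ℂ) * χ (d : ZMod q) * (d : ℂ) ^ (-s) *
      TT χ ψ s (N / d)‖ + ‖∑ n ∈ Ioc Z N, (cZ ψ Z n : ℂ) * χ (n : ZMod q) * (n : ℂ) ^ (-s)‖ := by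
    have := norm_sub_le (∑ d ∈ Icc 1 Z, (gg ψ d : ℂ) * χ (d : ZMod q) * (d : ℂ) ^ (-s) *
      TT χ ψ s (N / d)) (∑ n ∈ Ioc Z N, (cZ ψ Z n : ℂ) * χ (n : ZMod q) * (n : ℂ) ^ (-s))
    rw [← h1, norm_one] at this
    exact this
  refine h1n.trans (add_le_add ?_ ?_)
  · refine (norm_sum_le _ _).trans (Finset.sum_le_sum ?_)
    intro d hd
    rw [mem_Icc] at hd
    have hd0 : 0 < d := by omega
    rw [norm_mul, norm_mul, norm_mul, Complex.norm_natCast_cpow_of_pos hd0, Complex.neg_re,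
      Complex.norm_real, Real.norm_eq_abs]
    have hχ : ‖χ (d : ZMod q)‖ ≤ 1 := DirichletCharacter.norm_le_one χ _
    have hg := gg_abs_le r ψ hψ2 d
    have hlam := lam_nonneg r ψ hψ2 d
    have hp : 0 ≤ (d : ℝ) ^ (-s.re) := Real.rpow_nonneg (Nat.cast_nonneg d) _
    have hgx : |gg ψ d| * ‖χ (d : ZMod q)‖ ≤ lam ψ d := by
      calc |gg ψ d| * ‖χ (d : ZMod q)‖ ≤ lam ψ d * 1 :=
            mul_le_mul hg hχ (norm_nonneg _) hlam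
        _ = lam ψ d := mul_one _
    exact mul_le_mul_of_nonneg_right (mul_le_mul_of_nonneg_right hgx hp) (norm_nonneg _)
  · rw [Finset.mul_sum]
    refine (norm_sum_le _ _).trans (Finset.sum_le_sum ?_)
    intro n hn
    rw [mem_Ioc] at hn
    have hn0 : 0 < n := by omega
    rw [norm_mul, norm_mul, Complex.norm_natCast_cpow_of_pos hn0, Complex.neg_re,
      Complex.norm_real, Real.norm_eq_abs]
    have hχ : ‖χ (n : ZMod q)‖ ≤ 1 := DirichletCharacter.norm_le_one χ _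
    have hc := cZ_abs r ψ hψ2 Z n
    have hl2 := lam2_nonneg r ψ hψ2 n
    have hnR : (0 : ℝ) < n := by exact_mod_cast hn0
    have hcx : |cZ ψ Z n| * ‖χ (n : ZMod q)‖ ≤ lam2 ψ n := by
      calc |cZ ψ Z n| * ‖χ (n : ZMod q)‖ ≤ lam2 ψ n * 1 :=
            mul_le_mul hc hχ (norm_nonneg _) hl2
        _ = lam2 ψ n := mul_one _
    have hpow : (n : ℝ) ^ (-s.re) ≤ (N : ℝ) ^ (1 - s.re) / n := by
      have e : (n : ℝ) ^ (-s.re) = (n : ℝ) ^ (1 - s.re) / n := by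
        rw [show -s.re = (1 - s.re) - 1 by ring, Real.rpow_sub hnR, Real.rpow_one]
      rw [e]
      apply div_le_div_of_nonneg_right _ hnR.le
      exact Real.rpow_le_rpow hnR.le (by exact_mod_cast hn.2) (by linarith)
    have hp : 0 ≤ (n : ℝ) ^ (-s.re) := Real.rpow_nonneg (Nat.cast_nonneg n) _
    calc |cZ ψ Z n| * ‖χ (n : ZMod q)‖ * (n : ℝ) ^ (-s.re)
        ≤ lam2 ψ n * ((N : ℝ) ^ (1 - s.re) / n) := mul_le_mul hcx hpow hp hl2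
      _ = (N : ℝ) ^ (1 - s.re) * (lam2 ψ n / n) := by ring

end Pool.Agent.Lib.H68T
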