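import Pool.Agent.Lib.H51D.DHDefs
import Pool.Agent.Lib.H51D.DHC
import Pool.Agent.Lib.H51D.DHF
import Pool.Agent.Lib.H51D.DHG

/-!
# Chunk DHH: repulsion, inequality form
-/

open Finset

namespace Pool.Agent.Lib.H68T

theorem DHH_pow (N d : ℕ) (hd : 1 ≤ d) (hdN : d ≤ N) :
    ((N / d : ℕ) : ℝ) ^ (-(3 / 8 : ℝ)) ≤ (N : ℝ) ^ (-(3 / 8 : ℝ)) * (2 * d) := by
  have hdR : (1 : ℝ) ≤ d := by exact_mod_cast hd
  have hd0 : (0 : ℝ) < d := by linarith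
  have hNR : (1 : ℝ) ≤ N := by exact_mod_cast hd.trans hdN
  have hN0 : (0 : ℝ) < N := by linarith
  have hu : 1 ≤ N / d := (Nat.one_le_div_iff (by omega)).mpr hdN
  have hlow : (N : ℝ) / (2 * d) ≤ ((N / d : ℕ) : ℝ) := by
    rw [div_le_iff₀ (by positivity)]
    have h1 : N < (N / d + 1) * d := by
      exact Nat.lt_mul_of_div_lt (Nat.lt_succ_self _) (by omega)
    have h2 : (N / d + 1) * d ≤ (N / d) * (2 * d) := by nlinarith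
    have h3 : N ≤ (N / d) * (2 * d) := by omega
    exact_mod_cast h3
  have hpos : (0 : ℝ) < (N : ℝ) / (2 * d) := by positivity
  calc ((N / d : ℕ) : ℝ) ^ (-(3 / 8 : ℝ)) ≤ ((N : ℝ) / (2 * d)) ^ (-(3 / 8 : ℝ)) :=
        Real.rpow_le_rpow_of_nonpos hpos hlow (by norm_num)
    _ = (N : ℝ) ^ (-(3 / 8 : ℝ)) * (2 * (d : ℝ)) ^ (3 / 8 : ℝ) := by
        rw [Real.div_rpow hN0.le (by positivity), Real.rpow_neg (x := 2 * (d : ℝ)) (by positivity),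
          div_inv_eq_mul]
    _ ≤ (N : ℝ) ^ (-(3 / 8 : ℝ)) * (2 * d) := by
        apply mul_le_mul_of_nonneg_left _ (Real.rpow_nonneg hN0.le _)
        calc (2 * (d : ℝ)) ^ (3 / 8 : ℝ) ≤ (2 * (d : ℝ)) ^ (1 : ℝ) :=
              Real.rpow_le_rpow_of_exponent_le (by linarith) (by norm_num)
          _ = 2 * d := Real.rpow_one _

theorem DHH_pow2 (N d : ℕ) (hd : 1 ≤ d) (w : ℝ) (hw : 0 ≤ w) :
    (d : ℝ) ^ (-(1 - w)) * ((N / d : ℕ) : ℝ) ^ w ≤ (N : ℝ) ^ w / d := by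
  have hd0 : (0 : ℝ) < d := by exact_mod_cast hd
  have h1 : ((N / d : ℕ) : ℝ) ≤ (N : ℝ) / d := Nat.cast_div_le
  have h2 : ((N / d : ℕ) : ℝ) ^ w ≤ (N : ℝ) ^ w / (d : ℝ) ^ w := by
    calc ((N / d : ℕ) : ℝ) ^ w ≤ ((N : ℝ) / d) ^ w := Real.rpow_le_rpow (Nat.cast_nonneg _) h1 hw
      _ = (N : ℝ) ^ w / (d : ℝ) ^ w := Real.div_rpow (Nat.cast_nonneg _) hd0.le _
  have h3 : (d : ℝ) ^ (-(1 - w)) = (d : ℝ) ^ w / d := by
    rw [show -(1 - w) = w - 1 by ring, Real.rpow_sub hd0, Real.rpow_one]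
  have hp : (0 : ℝ) < (d : ℝ) ^ w := Real.rpow_pos_of_pos hd0 _
  calc (d : ℝ) ^ (-(1 - w)) * ((N / d : ℕ) : ℝ) ^ w
      ≤ (d : ℝ) ^ (-(1 - w)) * ((N : ℝ) ^ w / (d : ℝ) ^ w) :=
        mul_le_mul_of_nonneg_left h2 (Real.rpow_nonneg hd0.le _)
    _ = (N : ℝ) ^ w / d := by
        rw [h3]
        field_simp

/-- `dh_core` with `Z = z²`, `TT_bound`, `lam_sum_le`, `lam_tail`, `lam2_tail`.
With `σ = Re s`, `w = 1 - σ`, `L₁ = ‖L(1,ψ)‖`, `u = ⌊N/d⌋ ≥ N/(2d)`: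
`∑_{d ≤ Z} λ(d) d^(-σ) 2 L₁ (N/d)^w/‖1-s‖ = 2 L₁ N^w/‖1-s‖ ∑ λ(d)/d` and
`∑_{d ≤ Z} λ(d) d^(-σ) 6000 q r (1+‖s‖) (N/(2d))^(-3/8) ≤ 12000 q r (1+‖s‖) Z^3 N^(-3/8)`
(`λ(d) ≤ d`). -/
theorem dh_ineq (q r : ℕ) [NeZero q] [NeZero r] (χ : DirichletCharacter ℂ q)
    (ψ : DirichletCharacter ℂ r) (hχ : χ.IsPrimitive) (hψ : ψ.IsPrimitive) (hψ1 : ψ ≠ 1)
    (hψ2 : ψ ^ 2 = 1) (s : ℂ) (h1 : 7 / 8 ≤ s.re) (h2 : s.re ≤ 1) (hs1 : s ≠ 1)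
    (h0 : χ.LFunction s = 0) (z N : ℕ) (hz : 1 ≤ z) (hzN : z ^ 2 ≤ N) :
    1 ≤ 12000 * (q * r) * (1 + ‖s‖) * (z : ℝ) ^ 6 * (N : ℝ) ^ (-(3 / 8 : ℝ)) +
      (N : ℝ) ^ (1 - s.re) * (1 + Real.log N) ^ 2 *
        (2 * ‖ψ.LFunction 1‖ / ‖1 - s‖ +
          2 * (‖ψ.LFunction 1‖ * (2 + Real.log N) + 20 * r / Real.sqrt z)) := by
  have hz2 : 1 ≤ z ^ 2 := Nat.one_le_pow _ _ hz
  have hN1 : 1 ≤ N := hz2.trans hzN
  have hzN' : z ≤ N := (Nat.le_self_pow (by norm_num) z).trans hzN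
  have hcore := dh_core q r χ ψ hψ2 s h2 (z ^ 2) N hz2 hzN
  have hsn : 0 < ‖1 - s‖ := by
    rw [norm_pos_iff]
    exact sub_ne_zero.mpr (Ne.symm hs1)
  have hL0 : 0 ≤ ‖ψ.LFunction 1‖ := norm_nonneg _
  have hNR : (1 : ℝ) ≤ N := by exact_mod_cast hN1
  have hN0 : (0 : ℝ) < N := by linarith
  have hlogN : 0 ≤ Real.log N := Real.log_nonneg hNR
  have hw : 0 ≤ 1 - s.re := by linarith
  have hNw : 0 ≤ (N : ℝ) ^ (1 - s.re) := Real.rpow_nonneg hN0.le _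
  have hNm : 0 ≤ (N : ℝ) ^ (-(3 / 8 : ℝ)) := Real.rpow_nonneg hN0.le _
  -- the first sum
  have hterm : ∀ d ∈ Icc 1 (z ^ 2), lam ψ d * (d : ℝ) ^ (-s.re) * ‖TT χ ψ s (N / d)‖ ≤
      2 * ‖ψ.LFunction 1‖ / ‖1 - s‖ * (N : ℝ) ^ (1 - s.re) * (lam ψ d / d) +
        12000 * (q * r) * (1 + ‖s‖) * (N : ℝ) ^ (-(3 / 8 : ℝ)) * (z : ℝ) ^ 4 := by
    intro d hd
    rw [mem_Icc] at hd
    have hdN : d ≤ N := hd.2.trans hzN
    have hd0 : (0 : ℝ) < d := by exact_mod_cast hd.1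
    have hd1 : (1 : ℝ) ≤ d := by exact_mod_cast hd.1
    have hu : 1 ≤ N / d := (Nat.one_le_div_iff (by omega)).mpr hdN
    have hT := TT_bound q r χ ψ hχ hψ hψ1 hψ2 s h1 h2 hs1 h0 (N / d) hu
    have hlam := lam_nonneg r ψ hψ2 d
    have hlamd := lam_le r ψ d
    have hpd : 0 ≤ (d : ℝ) ^ (-s.re) := Real.rpow_nonneg hd0.le _
    have hpd1 : (d : ℝ) ^ (-s.re) ≤ 1 := Real.rpow_le_one_of_one_le_of_nonpos hd1 (by linarith)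
    have hP1 := DHH_pow2 N d hd.1 (1 - s.re) hw
    rw [show -(1 - (1 - s.re)) = -s.re by ring] at hP1
    have hP2 := DHH_pow N d hd.1 hdN
    have hdz : (d : ℝ) ≤ (z : ℝ) ^ 2 := by exact_mod_cast hd.2
    have hc0 : 0 ≤ 2 * ‖ψ.LFunction 1‖ / ‖1 - s‖ := by positivity
    have hc1 : (0 : ℝ) ≤ 6000 * (q * r) * (1 + ‖s‖) := by positivity
    calc lam ψ d * (d : ℝ) ^ (-s.re) * ‖TT χ ψ s (N / d)‖
        ≤ lam ψ d * (d : ℝ) ^ (-s.re) * (2 * ‖ψ.LFunction 1‖ * ((N / d : ℕ) : ℝ) ^ (1 - s.re) /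
            ‖1 - s‖ + 6000 * (q * r) * (1 + ‖s‖) * ((N / d : ℕ) : ℝ) ^ (-(3 / 8 : ℝ))) :=
          mul_le_mul_of_nonneg_left hT (mul_nonneg hlam hpd)
      _ = 2 * ‖ψ.LFunction 1‖ / ‖1 - s‖ * lam ψ d *
            ((d : ℝ) ^ (-s.re) * ((N / d : ℕ) : ℝ) ^ (1 - s.re)) +
          6000 * (q * r) * (1 + ‖s‖) * (lam ψ d * (d : ℝ) ^ (-s.re)) *
            ((N / d : ℕ) : ℝ) ^ (-(3 / 8 : ℝ)) := by ring
      _ ≤ 2 * ‖ψ.LFunction 1‖ / ‖1 - s‖ * lam ψ d * ((N : ℝ) ^ (1 - s.re) / d) +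
          6000 * (q * r) * (1 + ‖s‖) * (z : ℝ) ^ 2 *
            ((N : ℝ) ^ (-(3 / 8 : ℝ)) * (2 * (z : ℝ) ^ 2)) := by
          apply add_le_add
          · exact mul_le_mul_of_nonneg_left hP1 (mul_nonneg hc0 hlam)
          · have hA : lam ψ d * (d : ℝ) ^ (-s.re) ≤ (z : ℝ) ^ 2 := by
              calc lam ψ d * (d : ℝ) ^ (-s.re) ≤ lam ψ d * 1 :=
                    mul_le_mul_of_nonneg_left hpd1 hlam
                _ = lam ψ d := mul_one _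
                _ ≤ (z : ℝ) ^ 2 := hlamd.trans hdz
            have hB : ((N / d : ℕ) : ℝ) ^ (-(3 / 8 : ℝ)) ≤
                (N : ℝ) ^ (-(3 / 8 : ℝ)) * (2 * (z : ℝ) ^ 2) :=
              hP2.trans (mul_le_mul_of_nonneg_left (by linarith) hNm)
            exact mul_le_mul (mul_le_mul_of_nonneg_left hA hc1) hB
              (Real.rpow_nonneg (Nat.cast_nonneg _) _) (by positivity)
      _ = _ := by ring
  have hsum1 : ∑ d ∈ Icc 1 (z ^ 2), lam ψ d * (d : ℝ) ^ (-s.re) * ‖TT χ ψ s (N / d)‖ ≤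
      2 * ‖ψ.LFunction 1‖ / ‖1 - s‖ * (N : ℝ) ^ (1 - s.re) * (1 + Real.log N) ^ 2 +
        12000 * (q * r) * (1 + ‖s‖) * (z : ℝ) ^ 6 * (N : ℝ) ^ (-(3 / 8 : ℝ)) := by
    refine (Finset.sum_le_sum hterm).trans ?_
    rw [Finset.sum_add_distrib, ← Finset.mul_sum, Finset.sum_const, Nat.card_Icc, nsmul_eq_mul]
    have hs := lam_sum_le r ψ (z ^ 2)
    have hlz : Real.log ((z ^ 2 : ℕ) : ℝ) ≤ Real.log N :=
      Real.log_le_log (by exact_mod_cast hz2) (by exact_mod_cast hzN)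
    have hlz0 : 0 ≤ Real.log ((z ^ 2 : ℕ) : ℝ) := Real.log_nonneg (by exact_mod_cast hz2)
    have hs' : ∑ d ∈ Icc 1 (z ^ 2), lam ψ d / d ≤ (1 + Real.log N) ^ 2 :=
      hs.trans (pow_le_pow_left₀ (by linarith) (by linarith) 2)
    apply add_le_add
    · exact mul_le_mul_of_nonneg_left hs' (by positivity)
    · rw [Nat.add_sub_cancel]
      push_cast
      apply le_of_eq
      ring
  have hsum2 : ∑ n ∈ Ioc (z ^ 2) N, lam2 ψ n / n ≤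
      2 * (‖ψ.LFunction 1‖ * (2 + Real.log N) + 20 * r / Real.sqrt z) * (1 + Real.log N) ^ 2 := by
    refine (lam2_tail r ψ hψ2 z N).trans ?_
    have ha := lam_tail r ψ hψ1 hψ2 z N hz hzN'
    have hb := lam_sum_le r ψ N
    have hb0 : 0 ≤ ∑ n ∈ Icc 1 N, lam ψ n / n :=
      Finset.sum_nonneg (fun n _ => div_nonneg (lam_nonneg r ψ hψ2 n) (Nat.cast_nonneg n))
    have hR0 : 0 ≤ ‖ψ.LFunction 1‖ * (2 + Real.log N) + 20 * r / Real.sqrt z := by positivity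
    exact mul_le_mul (mul_le_mul_of_nonneg_left ha (by norm_num)) hb hb0 (by positivity)
  have hsum2' := mul_le_mul_of_nonneg_left hsum2 hNw
  refine hcore.trans ((add_le_add hsum1 hsum2').trans (le_of_eq ?_))
  ring

end Pool.Agent.Lib.H68T
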