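import Pool.Agent.Lib.H51D.VDA
import Pool.Agent.Lib.H68X.XBA1

/-!
# Chunk VBA1: classes, the mean
-/

open Finset

namespace Pool.Agent.Lib.H68T

/-- Port of `structured_class` (file `H68X/XBA1.lean`), with `structured_excV`. -/
theorem structured_classV (c' C : ℝ) (hc' : 0 < c') : ∃ K : ℝ, 1 ≤ K ∧
    ∀ (v : ℝ) (Q M W r : ℕ),
    RegV K v Q (M * W) → ∀ (ψ : DirichletCharacter ℂ r) (β : ℝ), ExcDataV c' C v Q r ψ β →
    0 < W → r ∣ W → ∀ (b : ℕ) (ε : ℝ), b < 2 * W → ψ (b : ZMod r) = (ε : ℂ) →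
    ∀ l : ℕ, M ≤ l → l < 3 * M →
    |Lk Q (M * W / Q ^ 2) ((b : ℤ) + W * (l : ℕ)) - Mod Q r ε β ((b : ℤ) + W * (l : ℕ))| ≤
        sv K v Q (M * W) * dQ Q ((b : ℤ) + W * (l : ℕ)) := by
  obtain ⟨K1, hK11, hK1⟩ := structured_excV c' C hc'
  refine ⟨K1, hK11, ?_⟩
  intro ν Q M W r hRV ψ β hE hW hrW b ε hb hε l hl1 hl2
  have hR := hRV.1
  have hX0 : 0 < M * W := hR.X_pos (by linarith)
  have hM0 : 0 < M := Nat.pos_of_mul_pos_right hX0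
  obtain ⟨h1, h2⟩ := XBA1_range hM0 hW hb hl1 hl2
  set m : ℤ := (b : ℤ) + W * (l : ℕ) with hm
  have h3 := hK1 ν Q (M * W) hRV r ψ β hE m h1 h2
  have h4 : (m : ZMod r) = (b : ZMod r) := by
    rw [hm]
    push_cast
    have : (W : ZMod r) = 0 := (ZMod.natCast_eq_zero_iff W r).2 hrW
    rw [this, zero_mul, add_zero]
  rw [h4, hε] at h3
  have h5 : ((Lk Q (M * W / Q ^ 2) m - G Q m : ℝ) : ℂ) +
      (Gam Q r m : ℂ) * (ε : ℂ) * (((m : ℝ) ^ (β - 1) : ℝ) : ℂ) =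
      ((Lk Q (M * W / Q ^ 2) m - Mod Q r ε β m : ℝ) : ℂ) := by
    unfold Mod
    push_cast
    ring
  rw [h5, Complex.norm_real, Real.norm_eq_abs] at h3
  exact h3

/-- Port of `x_class_mean` (file `H68X/XBA1.lean`), with `structured_classV`; `XBA1_pre` takes the
`Reg` part of `RegV`. -/
theorem x_class_meanV (c' C : ℝ) (hc' : 0 < c') : ∃ K : ℝ, 1 ≤ K ∧ ∀ (v : ℝ) (Q M W r : ℕ),
    RegV K v Q (M * W) → ∀ (ψ : DirichletCharacter ℂ r) (β : ℝ), ExcDataV c' C v Q r ψ β →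
    0 < W → W ^ 100 ≤ Q → r ∣ W → ∀ (b : ℕ) (ε : ℝ), b < 2 * W → Nat.Coprime b W → |ε| ≤ 1 →
    ψ (b : ZMod r) = (ε : ℂ) → ∀ s ∈ Ico M (2 * M),
    (∑ c ∈ range M, (1 - ε * ((b + W * (s + c) : ℕ) : ℝ) ^ (β - 1))) - M * sv K v Q (M * W) ≤
      ∑ c ∈ range M, fW W b (s + c) := by
  obtain ⟨K1, hK11, hK1⟩ := structured_classV c' C hc'
  obtain ⟨K2, hK2⟩ := class_fourier
  obtain ⟨K3, hK3, hpre⟩ := XBA1_pre
  obtain ⟨K4, hK40, hK41, hK4⟩ := sv_absorb 4 3 0 (K1 + 10) (by linarith)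
  refine ⟨K1 + |K2| + K3 + K4, by linarith [abs_nonneg K2], ?_⟩
  intro ν Q M W r hRV ψ β hE hW hWQ hrW b ε hb hbW hε hεψ s hs
  have hR := hRV.1
  have hν0 : 0 ≤ ν := by linarith [hRV.2.1]
  set K := K1 + |K2| + K3 + K4 with hK
  have a2 := abs_nonneg K2
  have b2 := le_abs_self K2
  have hK0 : (0 : ℝ) ≤ K := by linarith
  have R1 := hRV.mono (K' := K1) hK0 (by linarith)
  have R2 := hR.mono (K' := K2) hK0 (by linarith)
  have R4 := hRV.mono (K' := K4) hK0 (by linarith)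
  obtain ⟨hlX, hlQX, hQge, hM0, hWleQ, hWQ', hQM⟩ := hpre K Q M W (by linarith) hR hW hWQ
  have hQ0 : (0 : ℝ) < Q := by linarith
  have hQ1 : 1 ≤ Q := by exact_mod_cast (by linarith : (1:ℝ) ≤ Q)
  have hMr : (0 : ℝ) < M := by exact_mod_cast hM0
  have hWr : (0 : ℝ) < W := by exact_mod_cast hW
  set X := M * W with hX
  have hXMW : (X : ℝ) = M * W := by rw [hX]; push_cast; ring
  set ℓ := Real.log (X : ℕ) with hℓ
  set mm : ℕ → ℤ := fun l => (b : ℤ) + W * (l : ℕ) with hmm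
  set Y := X / Q ^ 2 with hY
  set g : ℕ → ℝ := fun l => Mod Q r ε β (mm l) with hgdef
  set u : ℕ → ℝ := fun l => Lk Q Y (mm l) - Mod Q r ε β (mm l) with hudef
  set v : ℕ → ℝ := fun l => lp (mm l) - Lk Q Y (mm l) with hvdef
  set d : ℕ → ℝ := fun l => dQ Q (mm l) with hddef
  set ρ : ℝ := (Nat.totient W : ℝ) / (W : ℝ) with hρ
  have hφ0 : (0 : ℝ) < Nat.totient W := by exact_mod_cast Nat.totient_pos.mpr hW
  have hr0 : 0 < ρ := div_pos hφ0 hWr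
  have hr1 : ρ ≤ 1 := by
    rw [hρ, div_le_one hWr]
    exact_mod_cast Nat.totient_le W
  have hsum : ∀ l, fW W b l = ρ * (g l + u l + v l) := by
    intro l
    simp only [fW, hgdef, hudef, hvdef, hmm, hρ]
    ring
  have hlogQ : 0 ≤ Real.log Q := Real.log_nonneg (by linarith)
  have hs' := mem_Ico.mp hs
  have hv0 : |∑ c ∈ range M, v (s + c)| ≤ X * (Q : ℝ) ^ (-(1 / 4) : ℝ) := by
    have h1 := hK2 Q M W R2 hW b hb s hs 0
    have h2 : ∑ c ∈ range M, ((lp ((b : ℤ) + W * (s + c : ℕ)) -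
      Lk Q (M * W / Q ^ 2) ((b : ℤ) + W * (s + c : ℕ)) : ℝ) : ℂ) * e (c * 0) =
        ((∑ c ∈ range M, v (s + c) : ℝ) : ℂ) := by
      rw [Complex.ofReal_sum]
      refine sum_congr rfl fun c _ => ?_
      have : e ((c : ℝ) * 0) = 1 := by
        unfold e
        simp
      rw [this, mul_one]
    rw [h2, Complex.norm_real, Real.norm_eq_abs] at h1
    exact h1
  have hgm : (W : ℝ) / Nat.totient W *
      (∑ c ∈ range M, (1 - ε * ((b + W * (s + c) : ℕ) : ℝ) ^ (β - 1))) - (Q : ℝ) ^ 5 ≤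
      ∑ c ∈ range M, g (s + c) :=
    x_mean Q M W r b s β ε hW hWQ hrW hbW (by omega) hE.half hE.lt.le hε
      (by exact_mod_cast (by linarith : (8:ℝ) ≤ Q))
  have e1 : ∑ c ∈ range M, fW W b (s + c) =
      ∑ c ∈ range M, ρ * (g (s + c) + u (s + c) + v (s + c)) :=
    sum_congr rfl fun c _ => hsum (s + c)
  rw [e1]
  set S := ∑ c ∈ range M, (1 - ε * ((b + W * (s + c) : ℕ) : ℝ) ^ (β - 1)) with hS
  have h1 := BA2_mean M g u v d s ρ (sv K1 ν Q X) (2 * M * ℓ ^ 3) ((Q : ℝ) ^ 5)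
    (X * (Q : ℝ) ^ (-(1 / 4) : ℝ)) ((W : ℝ) / Nat.totient W * S) hr0.le hr1
    (sv_pos K1 ν Q X hQ1).le
    (fun c _ => one_le_dQ Q hQ1 _)
    (fun c hc => hK1 ν Q M W r R1 ψ β hE hW hrW b ε hb hεψ (s + c) (by omega)
      (by have := mem_range.mp hc; omega))
    (XBA1_moment hW hbW (by linarith) hlogQ hlQX (by linarith) hQM)
    (by positivity) (by positivity) hgm hv0
  refine le_trans ?_ h1
  have e2 : ρ * ((W : ℝ) / Nat.totient W * S) = S := by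
    rw [hρ]; field_simp
  rw [e2]
  -- absorb the errors
  set σ := sv (K1 + 10) ν Q X with hσ
  have hσ1 : sv K1 ν Q X ≤ σ := sv_mono hν0 (by linarith) (by linarith) hQ1
  have hq : (Q : ℝ) ^ (-(1 / 10) : ℝ) ≤ σ := by
    refine le_trans ?_ (sv_mono hν0 (by norm_num : (0:ℝ) < 10) (by linarith) hQ1)
    unfold sv
    linarith [Real.exp_pos (-(ν * (Real.log X / (10 * Real.log Q))))]
  have hσ0 : 0 < σ := sv_pos _ ν Q X hQ1
  have c1 : (Q : ℝ) ^ 5 ≤ M * σ := by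
    have h2 : (Q : ℝ) ^ 5 ≤ M * (Q : ℝ) ^ (-(1 / 10) : ℝ) := by
      calc (Q : ℝ) ^ 5 ≤ (Q : ℝ) ^ (10 + -(1 / 10) : ℝ) := by
            rw [← Real.rpow_natCast]
            exact Real.rpow_le_rpow_of_exponent_le (by linarith) (by norm_num)
        _ = (Q : ℝ) ^ 10 * (Q : ℝ) ^ (-(1 / 10) : ℝ) := by
            rw [Real.rpow_add hQ0, ← Real.rpow_natCast (Q : ℝ) 10]
            norm_num
        _ ≤ _ := mul_le_mul_of_nonneg_right hQM (Real.rpow_nonneg hQ0.le _)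
    exact h2.trans (mul_le_mul_of_nonneg_left hq hMr.le)
  have c2 : X * (Q : ℝ) ^ (-(1 / 4) : ℝ) ≤ M * σ := by
    rw [hXMW]
    calc (M : ℝ) * W * (Q : ℝ) ^ (-(1 / 4) : ℝ) ≤
          M * (Q : ℝ) ^ (1 / 100 : ℝ) * (Q : ℝ) ^ (-(1 / 4) : ℝ) := by gcongr
      _ = M * (Q : ℝ) ^ (1 / 100 + -(1 / 4) : ℝ) := by rw [mul_assoc, ← Real.rpow_add hQ0]
      _ ≤ M * (Q : ℝ) ^ (-(1 / 10) : ℝ) := by
          refine mul_le_mul_of_nonneg_left ?_ hMr.le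
          exact Real.rpow_le_rpow_of_exponent_le (by linarith) (by norm_num)
      _ ≤ M * σ := mul_le_mul_of_nonneg_left hq hMr.le
  have c3 : sv K1 ν Q X * (2 * M * ℓ ^ 3) ≤ M * (2 * ℓ ^ 3 * σ) := by
    calc sv K1 ν Q X * (2 * M * ℓ ^ 3) ≤ σ * (2 * M * ℓ ^ 3) :=
          mul_le_mul_of_nonneg_right hσ1 (by positivity)
      _ = _ := by ring
  have h8 := hK4 ν Q X R4
  rw [zero_mul, Real.exp_zero, mul_one] at h8
  have h9 : (Real.log X) ^ (3 : ℝ) = ℓ ^ 3 := by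
    rw [hℓ, ← Real.rpow_natCast]; norm_num
  rw [h9, ← hσ] at h8
  have h10 : sv K4 ν Q X ≤ sv K ν Q X := sv_mono hν0 (by linarith) (by linarith) hQ1
  have hℓ3 : 1 ≤ ℓ ^ 3 := one_le_pow₀ (by linarith)
  have h11 : 2 * σ + 2 * ℓ ^ 3 * σ ≤ sv K ν Q X := by
    have : 2 * σ ≤ 2 * ℓ ^ 3 * σ := by
      have := mul_le_mul_of_nonneg_right hℓ3 hσ0.le
      linarith
    linarith
  have h12 : (M : ℝ) * (2 * σ + 2 * ℓ ^ 3 * σ) ≤ M * sv K ν Q X :=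
    mul_le_mul_of_nonneg_left h11 hMr.le
  have h13 : (M : ℝ) * (2 * σ + 2 * ℓ ^ 3 * σ) = M * σ + M * σ + M * (2 * ℓ ^ 3 * σ) := by ring
  rw [h13] at h12
  linarith

end Pool.Agent.Lib.H68T
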