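import Pool.Agent.Lib.H51D.VBA1
import Pool.Agent.Lib.H68X.XBA2

/-!
# Chunk VBA2: classes, pairs
-/

open Finset

namespace Pool.Agent.Lib.H68T

/-- Port of `x_class_pair` (file `H68X/XBA2.lean`), with `structured_classV`; `tl_moment`,
`corr_sq_le`, `XBA1_pre` take the `Reg` part of `RegV`. -/
theorem x_class_pairV (c' C : ℝ) (hc' : 0 < c') : ∃ K : ℝ, 1 ≤ K ∧ ∀ (v : ℝ) (Q M W r : ℕ),
    RegV K v Q (M * W) → ∀ (ψ : DirichletCharacter ℂ r) (β : ℝ), ExcDataV c' C v Q r ψ β →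
    0 < W → W ^ 100 ≤ Q → r ∣ W → ∀ (b : ℕ) (ε : ℝ), b < 2 * W → Nat.Coprime b W → |ε| ≤ 1 →
    ψ (b : ZMod r) = (ε : ℂ) →
    ∃ e : ℕ → ℕ → ℝ, (∀ s s', 0 ≤ e s s') ∧
      ∑ s ∈ Ico M (2 * M), ∑ s' ∈ Ico M (2 * M), (e s s') ^ 2 ≤
        (M : ℝ) ^ 2 * (Q : ℝ) ^ (-(6 / 25) : ℝ) ∧
      ∀ s ∈ Ico M (2 * M), ∀ s' ∈ Ico M (2 * M), s ≠ s' →
        ∑ c ∈ range M, fW W b (s + c) * fW W b (s' + c) ≤
          (∑ c ∈ range M, (1 - ε * ((b + W * (s + c) : ℕ) : ℝ) ^ (β - 1)) *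
            (1 - ε * ((b + W * (s' + c) : ℕ) : ℝ) ^ (β - 1))) *
              (G0 Q W * gp Q W ((s : ℤ) - s')) +
          M * (sv K v Q (M * W) + e s s') := by
  obtain ⟨K1, hK11, hK1⟩ := structured_classV c' C hc'
  obtain ⟨K2, hK2⟩ := class_fourier
  obtain ⟨K3, hK3, hpre⟩ := XBA1_pre
  obtain ⟨K4, hK40, hK41, hK4⟩ := sv_absorb 405 6 0 (K1 + 10) (by linarith)
  obtain ⟨K5, hK51, hK5⟩ := tl_moment
  obtain ⟨K6, hK61, hK6⟩ := reg_log_le 640032 9 (1 / 10) (by norm_num)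
  obtain ⟨K7, hK71, hK7⟩ := reg_log_le 3 0 (7 / 75) (by norm_num)
  refine ⟨K1 + |K2| + K3 + K4 + K5 + K6 + K7, by linarith [abs_nonneg K2], ?_⟩
  intro ν Q M W r hRV ψ β hE hW hWQ hrW b ε hb hbW hε hεψ
  have hR := hRV.1
  have hν0 : 0 ≤ ν := by linarith [hRV.2.1]
  set K := K1 + |K2| + K3 + K4 + K5 + K6 + K7 with hK
  have a2 := abs_nonneg K2
  have b2 := le_abs_self K2
  have hK0 : (0 : ℝ) ≤ K := by linarith
  have R1 := hRV.mono (K' := K1) hK0 (by linarith)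
  have R2 := hR.mono (K' := K2) hK0 (by linarith)
  have R4 := hRV.mono (K' := K4) hK0 (by linarith)
  have R5 := hR.mono (K' := K5) hK0 (by linarith)
  have R6 := hR.mono (K' := K6) hK0 (by linarith)
  have R7 := hR.mono (K' := K7) hK0 (by linarith)
  obtain ⟨hlX, hlQX, hQge, hM0, hWleQ, hWQ', hQM⟩ := hpre K Q M W (by linarith) hR hW hWQ
  have hQ0 : (0 : ℝ) < Q := by linarith
  have hQ1r : (1 : ℝ) ≤ Q := by linarith
  have hQ1 : 1 ≤ Q := by exact_mod_cast hQ1r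
  have hMr : (0 : ℝ) < M := by exact_mod_cast hM0
  have hWr : (0 : ℝ) < W := by exact_mod_cast hW
  have hX0 : 0 < M * W := Nat.mul_pos hM0 hW
  set X := M * W with hX
  have hXr : (0 : ℝ) < X := by exact_mod_cast hX0
  have hXMW : (X : ℝ) = M * W := by rw [hX]; push_cast; ring
  set ℓ := Real.log (X : ℕ) with hℓ
  have hlX0 : 0 < ℓ := by linarith
  set mm : ℕ → ℤ := fun l => (b : ℤ) + W * (l : ℕ) with hmm
  set Y := X / Q ^ 2 with hY
  set g : ℕ → ℝ := fun l => Mod Q r ε β (mm l) with hgdef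
  set u : ℕ → ℝ := fun l => Lk Q Y (mm l) - Mod Q r ε β (mm l) with hudef
  set v : ℕ → ℝ := fun l => lp (mm l) - Lk Q Y (mm l) with hvdef
  set d : ℕ → ℝ := fun l => dQ Q (mm l) with hddef
  set ρ : ℝ := (Nat.totient W : ℝ) / (W : ℝ) with hρ
  have hφ0 : (0 : ℝ) < Nat.totient W := by exact_mod_cast Nat.totient_pos.mpr hW
  have hr0 : 0 < ρ := div_pos hφ0 hWr
  have hr1 : ρ ≤ 1 := by
    rw [hρ, div_le_one hWr]
    exact_mod_cast Nat.totient_le W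
  have hsum : ∀ l, fW W b l = ρ * (g l + u l + v l) := by
    intro l
    simp only [fW, hgdef, hudef, hvdef, hmm, hρ]
    ring
  have hlogQ : 0 ≤ Real.log Q := Real.log_nonneg hQ1r
  have hrange : ∀ l, M ≤ l → l < 3 * M → (X : ℤ) ≤ mm l ∧ mm l ≤ 4 * X := fun l h1 h2 =>
    XBA1_range hM0 hW hb h1 h2
  have hd1 : ∀ l, 1 ≤ d l := fun l => one_le_dQ Q hQ1 _
  have hmem := mem_PC.mp hE.mem
  have hg : ∀ l, M ≤ l → l < 3 * M → |g l| ≤ 200 * ℓ ^ 3 * d l := by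
    intro l h1 h2
    obtain ⟨h3, h4⟩ := hrange l h1 h2
    have h5 : (1 : ℤ) ≤ mm l := by
      have : (1 : ℤ) ≤ X := by exact_mod_cast hX0
      linarith
    refine (abs_Mod_le Q r hmem.1 hmem.2.1 β ε hE.lt.le hε (mm l) h5).trans ?_
    have h6 : (1 + Real.log Q) ^ 3 ≤ ℓ ^ 3 := by
      apply pow_le_pow_left₀ (by linarith) hlQX
    exact mul_le_mul_of_nonneg_right (by linarith) (by linarith [hd1 l])
  set δ : ℝ := sv K1 ν Q X with hδ
  have hδ0 : 0 < δ := sv_pos K1 ν Q X hQ1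
  have hu : ∀ l, M ≤ l → l < 3 * M → |u l| ≤ δ * d l := fun l h1 h2 =>
    hK1 ν Q M W r R1 ψ β hE hW hrW b ε hb hεψ l h1 h2
  have hp : ∀ l, M ≤ l → l < 3 * M → 0 ≤ g l + u l + v l ∧ g l + u l + v l ≤ 2 * ℓ := by
    intro l h1 h2
    obtain ⟨h3, h4⟩ := hrange l h1 h2
    have e1 : g l + u l + v l = lp (mm l) := by
      simp only [hgdef, hudef, hvdef]; ring
    rw [e1]
    have h5 : (1 : ℤ) ≤ mm l := by
      have : (1 : ℤ) ≤ X := by exact_mod_cast hX0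
      linarith
    obtain ⟨h6, h7⟩ := BA2_lp_bounds (mm l) (4 * X) h5 (by exact_mod_cast h4)
    refine ⟨h6, h7.trans ?_⟩
    rw [Real.log_mul (by norm_num) hXr.ne']
    have : Real.log 4 ≤ 4 := by
      have := Real.log_le_sub_one_of_pos (show (0 : ℝ) < 4 by norm_num)
      linarith
    linarith
  have hdm : ∀ s, ∑ c ∈ range M, d (s + c) ^ 2 ≤ 2 * M * ℓ ^ 3 := fun s =>
    XBA1_moment hW hbW (by linarith) hlogQ hlQX hQ1r hQM
  have hD : ∀ s ∈ Ico M (2 * M), ∀ θ : ℝ,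
      ‖∑ c ∈ range M, (v (s + c) : ℂ) * e (c * θ)‖ ≤ X * (Q : ℝ) ^ (-(1 / 4) : ℝ) := by
    intro s hs θ
    exact hK2 Q M W R2 hW b hb s hs θ
  refine ⟨fun s s' => (if s' = s then 0 else tl Q W ((s : ℤ) - s')) +
      (|∑ c ∈ range M, g (s + c) * v (s' + c)| +
        |∑ c ∈ range M, v (s + c) * (g (s' + c) + u (s' + c) + v (s' + c))|) / M, ?_, ?_, ?_⟩
  · intro s s'
    have h1 : 0 ≤ (if s' = s then 0 else tl Q W ((s : ℤ) - s')) := by
      split_ifs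
      · exact le_rfl
      · exact tl_nonneg _ _ _
    positivity
  · -- mean square
    have hgs : ∑ l ∈ Ico M (3 * M), g l ^ 2 ≤ 160000 * M * ℓ ^ 9 := by
      have h1 : ∑ l ∈ Ico M (3 * M), g l ^ 2 ≤ ∑ l ∈ Ico M (3 * M), 40000 * ℓ ^ 6 * d l ^ 2 := by
        refine sum_le_sum fun l hl => ?_
        have hl' := mem_Ico.mp hl
        have := hg l hl'.1 hl'.2
        have h2 : g l ^ 2 ≤ (200 * ℓ ^ 3 * d l) ^ 2 := by
          rw [← sq_abs (g l)]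
          exact pow_le_pow_left₀ (abs_nonneg _) this 2
        calc g l ^ 2 ≤ (200 * ℓ ^ 3 * d l) ^ 2 := h2
          _ = 40000 * ℓ ^ 6 * d l ^ 2 := by ring
      have h2 : ∑ l ∈ Ico M (3 * M), d l ^ 2 = ∑ c ∈ range M, d (M + c) ^ 2 +
          ∑ c ∈ range M, d (2 * M + c) ^ 2 := by
        rw [← sum_Ico_consecutive _ (show M ≤ 2 * M by omega) (show 2 * M ≤ 3 * M by omega),
          sum_Ico_eq_sum_range, sum_Ico_eq_sum_range]
        have e1 : 2 * M - M = M := by omega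
        have e2 : 3 * M - 2 * M = M := by omega
        rw [e1, e2]
      rw [← mul_sum, h2] at h1
      have h3 := hdm M
      have h4 := hdm (2 * M)
      calc ∑ l ∈ Ico M (3 * M), g l ^ 2 ≤ _ := h1
        _ ≤ 40000 * ℓ ^ 6 * (2 * M * ℓ ^ 3 + 2 * M * ℓ ^ 3) := by gcongr
        _ = 160000 * M * ℓ ^ 9 := by ring
    have hps : ∑ l ∈ Ico M (3 * M), (g l + u l + v l) ^ 2 ≤ 8 * M * ℓ ^ 9 := by
      calc ∑ l ∈ Ico M (3 * M), (g l + u l + v l) ^ 2 ≤ ∑ l ∈ Ico M (3 * M), (2 * ℓ) ^ 2 := by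
            refine sum_le_sum fun l hl => ?_
            have hl' := mem_Ico.mp hl
            obtain ⟨h1, h2⟩ := hp l hl'.1 hl'.2
            exact pow_le_pow_left₀ h1 h2 2
        _ = 2 * M * (2 * ℓ) ^ 2 := by
            rw [sum_const, Nat.card_Ico, nsmul_eq_mul]
            have : 3 * M - M = 2 * M := by omega
            rw [this]
            push_cast
            ring
        _ = 8 * M * ℓ ^ 2 := by ring
        _ ≤ 8 * M * ℓ ^ 9 := by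
            have : ℓ ^ 2 ≤ ℓ ^ 9 := pow_le_pow_right₀ (by linarith) (by norm_num)
            gcongr
    have h1 := BA2_esq M hM0 g v (fun l => g l + u l + v l) (X * (Q : ℝ) ^ (-(1 / 4) : ℝ))
      (160000 * M * ℓ ^ 9) (8 * M * ℓ ^ 9) hD hgs hps
    have h2 := hK5 Q M W R5 hW hWleQ
    have h3 := XBA2_split M (fun s s' => tl Q W ((s : ℤ) - s'))
      (fun s s' => (|∑ c ∈ range M, g (s + c) * v (s' + c)| +
        |∑ c ∈ range M, v (s + c) * (g (s' + c) + u (s' + c) + v (s' + c))|) / M) _ _ h2 h1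
    refine h3.trans ?_
    have e1 : ((Q : ℝ) ^ (-(1 / 4) : ℝ)) ^ 2 = (Q : ℝ) ^ (-(1 / 2) : ℝ) := by
      rw [← Real.rpow_natCast, ← Real.rpow_mul hQ0.le]
      norm_num
    have e2 : 2 * (2 * (X * (Q : ℝ) ^ (-(1 / 4) : ℝ)) ^ 2 *
        (160000 * M * ℓ ^ 9 + 8 * M * ℓ ^ 9) / M) =
        (M : ℝ) ^ 2 * (640032 * ℓ ^ 9 * ((W : ℝ) * W * (Q : ℝ) ^ (-(1 / 2) : ℝ))) := by
      rw [mul_pow, e1, hXMW]
      field_simp
      ring
    rw [e2]
    have h6 := hK6 Q X R6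
    have e3 : (Real.log X) ^ (9 : ℝ) = ℓ ^ 9 := by
      rw [hℓ, ← Real.rpow_natCast]; norm_num
    rw [e3] at h6
    have h7 := hK7 Q X R7
    rw [Real.rpow_zero, mul_one] at h7
    have h8 : 640032 * ℓ ^ 9 * ((W : ℝ) * W * (Q : ℝ) ^ (-(1 / 2) : ℝ)) ≤
        (Q : ℝ) ^ (-(1 / 3) : ℝ) := by
      calc 640032 * ℓ ^ 9 * ((W : ℝ) * W * (Q : ℝ) ^ (-(1 / 2) : ℝ)) ≤
            (Q : ℝ) ^ (1 / 10 : ℝ) * ((Q : ℝ) ^ (1 / 100 : ℝ) * (Q : ℝ) ^ (1 / 100 : ℝ) *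
              (Q : ℝ) ^ (-(1 / 2) : ℝ)) := by gcongr
        _ = (Q : ℝ) ^ (1 / 10 + (1 / 100 + 1 / 100 + -(1 / 2)) : ℝ) := by
            rw [← Real.rpow_add hQ0, ← Real.rpow_add hQ0, ← Real.rpow_add hQ0]
        _ ≤ (Q : ℝ) ^ (-(1 / 3) : ℝ) :=
            Real.rpow_le_rpow_of_exponent_le hQ1r (by norm_num)
    have h9 : 3 * (Q : ℝ) ^ (-(1 / 3) : ℝ) ≤ (Q : ℝ) ^ (-(6 / 25) : ℝ) := by
      calc 3 * (Q : ℝ) ^ (-(1 / 3) : ℝ) ≤ (Q : ℝ) ^ (7 / 75 : ℝ) * (Q : ℝ) ^ (-(1 / 3) : ℝ) := by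
            gcongr
        _ = (Q : ℝ) ^ (-(6 / 25) : ℝ) := by
            rw [← Real.rpow_add hQ0]; norm_num
    have hM2 : (0:ℝ) ≤ (M : ℝ) ^ 2 := by positivity
    have h10 := mul_le_mul_of_nonneg_left h8 hM2
    have h11 := mul_le_mul_of_nonneg_left h9 hM2
    linarith
  · -- pairs
    intro s hs s' hs' hss
    have hs1 := mem_Ico.mp hs
    have hs2 := mem_Ico.mp hs'
    have e1 : ∑ c ∈ range M, fW W b (s + c) * fW W b (s' + c) =
        ∑ c ∈ range M, (ρ * (g (s + c) + u (s + c) + v (s + c))) *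
          (ρ * (g (s' + c) + u (s' + c) + v (s' + c))) :=
      sum_congr rfl fun c _ => by rw [hsum, hsum]
    rw [e1]
    have hgp := x_pair Q M W r b s s' β ε hW hWQ hrW hbW (by omega) (by omega) hss hE.half
      hE.lt.le hε (by exact_mod_cast (by linarith : (8:ℝ) ≤ Q))
    set S2 := ∑ c ∈ range M, (1 - ε * ((b + W * (s + c) : ℕ) : ℝ) ^ (β - 1)) *
            (1 - ε * ((b + W * (s' + c) : ℕ) : ℝ) ^ (β - 1)) with hS2
    set GG := G0 Q W * gp Q W ((s : ℤ) - s') with hGG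
    have hgg : ρ ^ 2 * ∑ c ∈ range M, g (s + c) * g (s' + c) ≤
        S2 * GG + M * tl Q W ((s : ℤ) - s') + (Q : ℝ) ^ 9 := by
      have h1 : ρ ^ 2 * ∑ c ∈ range M, g (s + c) * g (s' + c) ≤
          ρ ^ 2 * (((W : ℝ) / Nat.totient W) ^ 2 * (S2 * GG + M * tl Q W ((s : ℤ) - s')) +
            (Q : ℝ) ^ 9) := mul_le_mul_of_nonneg_left hgp (sq_nonneg ρ)
      refine h1.trans ?_
      have e2 : ρ ^ 2 * ((W : ℝ) / Nat.totient W) ^ 2 = 1 := by
        rw [← mul_pow, hρ]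
        have : (Nat.totient W : ℝ) / W * ((W : ℝ) / Nat.totient W) = 1 := by field_simp
        rw [this, one_pow]
      have e3 : ρ ^ 2 * (((W : ℝ) / Nat.totient W) ^ 2 * (S2 * GG + M * tl Q W ((s : ℤ) - s')) +
            (Q : ℝ) ^ 9) =
          (ρ ^ 2 * ((W : ℝ) / Nat.totient W) ^ 2) * (S2 * GG + M * tl Q W ((s : ℤ) - s')) +
            ρ ^ 2 * (Q : ℝ) ^ 9 := by ring
      rw [e3, e2, one_mul]
      have h2 : ρ ^ 2 ≤ 1 := pow_le_one₀ hr0.le hr1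
      have h3 : ρ ^ 2 * (Q : ℝ) ^ 9 ≤ 1 * (Q : ℝ) ^ 9 :=
        mul_le_mul_of_nonneg_right h2 (by positivity)
      linarith
    have h1 := BA2_pair M g u v d s s' ρ δ (2 * M * ℓ ^ 3) (200 * ℓ ^ 3) (2 * ℓ)
      (S2 * GG + M * tl Q W ((s : ℤ) - s') + (Q : ℝ) ^ 9)
      hr0.le hr1 hδ0.le (by positivity) (by positivity) (fun c _ => hd1 _) (fun c _ => hd1 _)
      (fun c hc => hg _ (by omega) (by have := mem_range.mp hc; omega))
      (fun c hc => hu _ (by omega) (by have := mem_range.mp hc; omega))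
      (fun c hc => hu _ (by omega) (by have := mem_range.mp hc; omega))
      (fun c hc => by
        obtain ⟨h2, h3⟩ := hp (s' + c) (by omega) (by have := mem_range.mp hc; omega)
        rw [abs_of_nonneg h2]; exact h3) (hdm s) (hdm s') hgg
    refine h1.trans ?_
    have hne : ¬ (s' = s) := fun h => hss h.symm
    simp only [if_neg hne]
    set E := (|∑ c ∈ range M, g (s + c) * v (s' + c)| +
        |∑ c ∈ range M, v (s + c) * (g (s' + c) + u (s' + c) + v (s' + c))|) with hEdef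
    have e4 : (M : ℝ) * (E / M) = E := by field_simp
    have e5 : (M : ℝ) * (sv K ν Q X + (tl Q W ((s : ℤ) - s') + E / M)) =
        M * sv K ν Q X + M * tl Q W ((s : ℤ) - s') + E := by
      rw [mul_add, mul_add, e4]; ring
    rw [e5]
    set σ := sv (K1 + 10) ν Q X with hσ
    have hσ1 : δ ≤ σ := sv_mono hν0 (by linarith) (by linarith) hQ1
    have hq : (Q : ℝ) ^ (-(1 / 10) : ℝ) ≤ σ := by
      refine le_trans ?_ (sv_mono hν0 (by norm_num : (0:ℝ) < 10) (by linarith) hQ1)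
      unfold sv
      linarith [Real.exp_pos (-(ν * (Real.log X / (10 * Real.log Q))))]
    have hσ0 : 0 < σ := sv_pos _ ν Q X hQ1
    have h2 : (Q : ℝ) ^ 9 ≤ M * σ :=
      (XBA2_absorb hQ1r hQM).trans (mul_le_mul_of_nonneg_left hq hMr.le)
    have hℓ6 : ℓ ^ 4 ≤ ℓ ^ 6 := pow_le_pow_right₀ (by linarith) (by norm_num)
    have hℓ6' : 1 ≤ ℓ ^ 6 := one_le_pow₀ (by linarith)
    have h3 : 200 * ℓ ^ 3 * δ * (2 * M * ℓ ^ 3) + δ * (2 * ℓ) * (2 * M * ℓ ^ 3) ≤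
        M * (404 * ℓ ^ 6 * σ) := by
      calc 200 * ℓ ^ 3 * δ * (2 * M * ℓ ^ 3) + δ * (2 * ℓ) * (2 * M * ℓ ^ 3) =
            (M * δ) * (400 * ℓ ^ 6 + 4 * ℓ ^ 4) := by ring
        _ ≤ (M * σ) * (400 * ℓ ^ 6 + 4 * ℓ ^ 6) := by gcongr
        _ = _ := by ring
    have h8 := hK4 ν Q X R4
    rw [zero_mul, Real.exp_zero, mul_one] at h8
    have h9 : (Real.log X) ^ (6 : ℝ) = ℓ ^ 6 := by
      rw [hℓ, ← Real.rpow_natCast]; norm_num
    rw [h9, ← hσ] at h8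
    have h10 : sv K4 ν Q X ≤ sv K ν Q X := sv_mono hν0 (by linarith) (by linarith) hQ1
    have h11 : σ + 404 * ℓ ^ 6 * σ ≤ sv K ν Q X := by
      have : 1 * σ ≤ ℓ ^ 6 * σ := mul_le_mul_of_nonneg_right hℓ6' hσ0.le
      linarith
    have h12 : (M : ℝ) * (σ + 404 * ℓ ^ 6 * σ) ≤ M * sv K ν Q X :=
      mul_le_mul_of_nonneg_left h11 hMr.le
    have h13 : (M : ℝ) * (σ + 404 * ℓ ^ 6 * σ) = M * σ + M * (404 * ℓ ^ 6 * σ) := by ring
    rw [h13] at h12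
    linarith

end Pool.Agent.Lib.H68T
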