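import Pool.Agent.Lib.H51D.VBA2
import Pool.Agent.Lib.H68X.XBA3

/-!
# Chunk VBA3: normalised correlations
-/

open Finset

namespace Pool.Agent.Lib.H68T

/-- Port of `x_class_corr` (file `H68X/XBA3.lean`; `XBA3_eta`, `XBA3_sign` can be used), with
`x_class_meanV`, `x_class_pairV`. -/
theorem x_class_corrV (c' C : ℝ) (hc' : 0 < c') : ∃ K : ℝ, 1 ≤ K ∧ ∀ (v : ℝ) (Q M W r : ℕ),
    RegV K v Q (M * W) → ∀ (ψ : DirichletCharacter ℂ r) (β : ℝ), ExcDataV c' C v Q r ψ β →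
    sv K v Q (M * W) ≤ 1 - β → 0 < W → W ^ 100 ≤ Q → r ∣ W → ∀ b : ℕ, b < 2 * W →
    Nat.Coprime b W →
    ∃ η : ℝ, (1 - β) / 2 ≤ η ∧ η ≤ 2 ∧
    (∀ s ∈ Ico M (2 * M), (1 - 4 / Real.log (M * W : ℕ)) * (M * η) ≤
      ∑ c ∈ range M, fW W b (s + c)) ∧
    ∃ e : ℕ → ℕ → ℝ, (∀ s s', 0 ≤ e s s') ∧
      ∑ s ∈ Ico M (2 * M), ∑ s' ∈ Ico M (2 * M), (e s s') ^ 2 ≤
        (M : ℝ) ^ 2 * (Q : ℝ) ^ (-(1 / 5) : ℝ) ∧
      ∀ s ∈ Ico M (2 * M), ∀ s' ∈ Ico M (2 * M), s ≠ s' →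
        ∑ c ∈ range M, fW W b (s + c) * fW W b (s' + c) ≤
          η ^ 2 * (M * (G0 Q W * gp Q W ((s : ℤ) - s') + 4 / Real.log (M * W : ℕ) + e s s')) := by
  obtain ⟨K1, hK11, hK1⟩ := x_class_meanV c' C hc'
  obtain ⟨K2, hK21, hK2⟩ := x_class_pairV c' C hc'
  obtain ⟨K3, hK3, hpre⟩ := XBA1_pre
  obtain ⟨K4, hK40, hK41, hK4⟩ := sv_absorb 1 1 0 K1 (by linarith)
  obtain ⟨K5, hK50, hK51, hK5⟩ := sv_absorb 1 1 0 K2 (by linarith)
  obtain ⟨K6, hK61, hK6⟩ := reg_log_le 16 0 (1 / 50) (by norm_num)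
  refine ⟨K1 + K2 + K3 + K4 + 2 * K5 + K6 + 200, by linarith, ?_⟩
  intro ν Q M W r hRV ψ β hE hsw hW hWQ hrW b hb hbW
  have hR := hRV.1
  have hν0 : 0 ≤ ν := by linarith [hRV.2.1]
  set K := K1 + K2 + K3 + K4 + 2 * K5 + K6 + 200 with hK
  have hK0 : (0 : ℝ) ≤ K := by linarith
  have R1 := hRV.mono (K' := K1) hK0 (by linarith)
  have R2 := hRV.mono (K' := K2) hK0 (by linarith)
  have R4 := hRV.mono (K' := K4) hK0 (by linarith)
  have R5 := hRV.mono (K' := K5) hK0 (by linarith)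
  have R6 := hR.mono (K' := K6) hK0 (by linarith)
  obtain ⟨hlX, hlQX, hQge, hM0, hWleQ, hWQ', hQM⟩ := hpre K Q M W (by linarith) hR hW hWQ
  have hQ0 : (0 : ℝ) < Q := by linarith
  have hQ1r : (1 : ℝ) ≤ Q := by linarith
  have hQ1 : 1 ≤ Q := by exact_mod_cast hQ1r
  have hQ2 : 2 ≤ Q := by exact_mod_cast (by linarith : (2:ℝ) ≤ Q)
  have hMr : (0 : ℝ) < M := by exact_mod_cast hM0
  have hWr : (0 : ℝ) < W := by exact_mod_cast hW
  have hX0 : 0 < M * W := Nat.mul_pos hM0 hW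
  set X := M * W with hX
  have hXr : (0 : ℝ) < X := by exact_mod_cast hX0
  set ℓ := Real.log (X : ℕ) with hℓ
  have hlX0 : 0 < ℓ := by linarith
  obtain ⟨ε, hε, hψε⟩ := XBA3_sign ψ hE.sq hrW hbW
  have hε1 : |ε| ≤ 1 := by
    rcases hε with h | h
    · rw [h]; norm_num
    · rw [h]; norm_num
  obtain ⟨η, hη1, hη2, hη3⟩ := XBA3_eta hXr hlX hE.half hE.lt hε
  have hu0 : 0 < 1 - β := by linarith [hE.lt]
  have hη0 : 0 < η := by linarith
  have hσK : 0 < sv K ν Q X := sv_pos K ν Q X hQ1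
  have hσ0 : sv K ν Q X ≤ 2 * η := by linarith
  have hrange : ∀ l : ℕ, M ≤ l → l < 3 * M → (X : ℝ) ≤ ((b + W * l : ℕ) : ℝ) ∧
      ((b + W * l : ℕ) : ℝ) ≤ 4 * X := by
    intro l h1 h2
    obtain ⟨h3, h4⟩ := XBA1_range hM0 hW hb h1 h2
    constructor
    · exact_mod_cast h3
    · exact_mod_cast h4
  have hℓ2 : 0 ≤ 1 - 2 / ℓ := by
    have : 2 / ℓ ≤ 1 := by rw [div_le_one hlX0]; linarith
    linarith
  have ha : ∀ s ∈ Ico M (2 * M), ∀ c ∈ range M,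
      (1 - 2 / ℓ) * η ≤ 1 - ε * ((b + W * (s + c) : ℕ) : ℝ) ^ (β - 1) ∧
        1 - ε * ((b + W * (s + c) : ℕ) : ℝ) ^ (β - 1) ≤ η := by
    intro s hs c hc
    have h1 := mem_Ico.mp hs
    have h2 := mem_range.mp hc
    obtain ⟨h3, h4⟩ := hrange (s + c) (by omega) (by omega)
    exact hη3 _ h3 h4
  refine ⟨η, hη1, hη2, ?_, ?_⟩
  · intro s hs
    have h1 := hK1 ν Q M W r R1 ψ β hE hW hWQ hrW b ε hb hbW hε1 hψε s hs
    refine le_trans ?_ h1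
    have h2 : (M : ℝ) * ((1 - 2 / ℓ) * η) ≤
        ∑ c ∈ range M, (1 - ε * ((b + W * (s + c) : ℕ) : ℝ) ^ (β - 1)) := by
      have := card_nsmul_le_sum (range M)
        (fun c => 1 - ε * ((b + W * (s + c) : ℕ) : ℝ) ^ (β - 1)) ((1 - 2 / ℓ) * η)
        (fun c hc => (ha s hs c hc).1)
      rwa [card_range, nsmul_eq_mul] at this
    have h3 := hK4 ν Q X R4
    rw [Real.rpow_one, one_mul, zero_mul, Real.exp_zero, mul_one] at h3
    have h4 : sv K4 ν Q X ≤ sv K ν Q X := sv_mono hν0 (by linarith) (by linarith) hQ1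
    have h5 : sv K1 ν Q X ≤ 2 * η / ℓ := by
      rw [le_div_iff₀ hlX0, mul_comm]
      exact (h3.trans h4).trans hσ0
    have h6 : (M : ℝ) * sv K1 ν Q X ≤ M * (2 * η / ℓ) := mul_le_mul_of_nonneg_left h5 hMr.le
    have h7 : (1 - 4 / ℓ) * (M * η) = M * ((1 - 2 / ℓ) * η) - M * (2 * η / ℓ) := by ring
    rw [h7]
    linarith
  · obtain ⟨e, he0, he1, he2⟩ := hK2 ν Q M W r R2 ψ β hE hW hWQ hrW b ε hb hbW hε1 hψε
    refine ⟨fun s s' => e s s' / η ^ 2, fun s s' => div_nonneg (he0 s s') (by positivity), ?_, ?_⟩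
    · have h1 : ∑ s ∈ Ico M (2 * M), ∑ s' ∈ Ico M (2 * M), (e s s' / η ^ 2) ^ 2 =
          (1 / η ^ 4) * ∑ s ∈ Ico M (2 * M), ∑ s' ∈ Ico M (2 * M), (e s s') ^ 2 := by
        rw [mul_sum]
        refine sum_congr rfl fun s _ => ?_
        rw [mul_sum]
        refine sum_congr rfl fun s' _ => ?_
        field_simp
      rw [h1]
      have h2 : (Q : ℝ) ^ (-(1 / 200) : ℝ) ≤ 2 * η := by
        refine le_trans ?_ hσ0
        refine le_trans ?_ (sv_mono hν0 (by norm_num : (0:ℝ) < 200) (by linarith) hQ1)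
        unfold sv
        linarith [Real.exp_pos (-(ν * (Real.log X / (200 * Real.log Q))))]
      have h3 : (Q : ℝ) ^ (-(1 / 50) : ℝ) ≤ 16 * η ^ 4 := by
        have h4 : ((Q : ℝ) ^ (-(1 / 200) : ℝ)) ^ 4 ≤ (2 * η) ^ 4 :=
          pow_le_pow_left₀ (Real.rpow_nonneg hQ0.le _) h2 4
        have h5 : ((Q : ℝ) ^ (-(1 / 200) : ℝ)) ^ 4 = (Q : ℝ) ^ (-(1 / 50) : ℝ) := by
          rw [← Real.rpow_natCast, ← Real.rpow_mul hQ0.le]
          norm_num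
        rw [h5] at h4
        have h6 : (2 * η) ^ 4 = 16 * η ^ 4 := by ring
        rwa [h6] at h4
      have h7 := hK6 Q X R6
      rw [Real.rpow_zero, mul_one] at h7
      have hη4 : 0 < η ^ 4 := by positivity
      have h8 : 1 / η ^ 4 ≤ (Q : ℝ) ^ (1 / 25 : ℝ) := by
        rw [div_le_iff₀ hη4]
        have h9 : (Q : ℝ) ^ (1 / 25 : ℝ) * (Q : ℝ) ^ (-(1 / 50) : ℝ) =
            (Q : ℝ) ^ (1 / 50 : ℝ) := by
          rw [← Real.rpow_add hQ0]; norm_num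
        have h10 : (Q : ℝ) ^ (1 / 25 : ℝ) * (Q : ℝ) ^ (-(1 / 50) : ℝ) ≤
            (Q : ℝ) ^ (1 / 25 : ℝ) * (16 * η ^ 4) :=
          mul_le_mul_of_nonneg_left h3 (Real.rpow_nonneg hQ0.le _)
        rw [h9] at h10
        linarith
      calc (1 / η ^ 4) * ∑ s ∈ Ico M (2 * M), ∑ s' ∈ Ico M (2 * M), (e s s') ^ 2 ≤
            (Q : ℝ) ^ (1 / 25 : ℝ) * ((M : ℝ) ^ 2 * (Q : ℝ) ^ (-(6 / 25) : ℝ)) :=
            mul_le_mul h8 he1 (sum_nonneg fun _ _ => sum_nonneg fun _ _ => sq_nonneg _)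
              (Real.rpow_nonneg hQ0.le _)
        _ = (M : ℝ) ^ 2 * ((Q : ℝ) ^ (1 / 25 : ℝ) * (Q : ℝ) ^ (-(6 / 25) : ℝ)) := by ring
        _ = (M : ℝ) ^ 2 * (Q : ℝ) ^ (-(1 / 5) : ℝ) := by
            rw [← Real.rpow_add hQ0]; norm_num
    · intro s hs s' hs' hss
      refine (he2 s hs s' hs' hss).trans ?_
      set GG := G0 Q W * gp Q W ((s : ℤ) - s') with hGG
      have hGG0 : 0 ≤ GG := mul_nonneg (by linarith [one_le_G0 Q W])
        (by linarith [one_le_gp Q W ((s : ℤ) - s')])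
      have h1 : ∑ c ∈ range M, (1 - ε * ((b + W * (s + c) : ℕ) : ℝ) ^ (β - 1)) *
            (1 - ε * ((b + W * (s' + c) : ℕ) : ℝ) ^ (β - 1)) ≤ M * η ^ 2 := by
        have := sum_le_card_nsmul (range M)
          (fun c => (1 - ε * ((b + W * (s + c) : ℕ) : ℝ) ^ (β - 1)) *
            (1 - ε * ((b + W * (s' + c) : ℕ) : ℝ) ^ (β - 1))) (η ^ 2) (fun c hc => by
          obtain ⟨c1, c2⟩ := ha s hs c hc
          obtain ⟨c3, c4⟩ := ha s' hs' c hc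
          have c5 : 0 ≤ (1 - 2 / ℓ) * η := mul_nonneg hℓ2 hη0.le
          calc (1 - ε * ((b + W * (s + c) : ℕ) : ℝ) ^ (β - 1)) *
              (1 - ε * ((b + W * (s' + c) : ℕ) : ℝ) ^ (β - 1)) ≤ η * η :=
                mul_le_mul c2 c4 (c5.trans c3) hη0.le
            _ = η ^ 2 := by ring)
        rwa [card_range, nsmul_eq_mul] at this
      have h2 : ℓ * sv K2 ν Q X ≤ 4 * η ^ 2 := by
        have h3 := hK5 ν Q X R5
        rw [Real.rpow_one, one_mul, zero_mul, Real.exp_zero, mul_one] at h3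
        have h4 := sv_rpow K5 ν (1 / 2) (by linarith) (by norm_num) (by norm_num) Q X hQ2
        have h5 : sv (K5 / (1 / 2)) ν Q X ≤ sv K ν Q X := by
          refine sv_mono hν0 (by positivity) ?_ hQ1
          have : K5 / (1 / 2) = 2 * K5 := by ring
          rw [this]
          linarith
        have h6 : sv K5 ν Q X = ((sv K5 ν Q X) ^ (1 / 2 : ℝ)) ^ 2 := by
          rw [← Real.rpow_natCast, ← Real.rpow_mul (sv_pos K5 ν Q X hQ1).le]
          norm_num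
        calc ℓ * sv K2 ν Q X ≤ sv K5 ν Q X := h3
          _ = ((sv K5 ν Q X) ^ (1 / 2 : ℝ)) ^ 2 := h6
          _ ≤ (2 * η) ^ 2 := pow_le_pow_left₀ (Real.rpow_nonneg (sv_pos K5 ν Q X hQ1).le _)
              ((h4.trans h5).trans hσ0) 2
          _ = 4 * η ^ 2 := by ring
      have h7 : sv K2 ν Q X ≤ η ^ 2 * (4 / ℓ) := by
        have : η ^ 2 * (4 / ℓ) = 4 * η ^ 2 / ℓ := by ring
        rw [this, le_div_iff₀ hlX0, mul_comm]
        exact h2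
      have h8 : η ^ 2 * (M * (GG + 4 / ℓ + e s s' / η ^ 2)) =
          M * η ^ 2 * GG + M * (η ^ 2 * (4 / ℓ) + e s s') := by
        have h11 : η ^ 2 * (e s s' / η ^ 2) = e s s' := by field_simp
        calc η ^ 2 * (M * (GG + 4 / ℓ + e s s' / η ^ 2)) =
            M * η ^ 2 * GG + M * (η ^ 2 * (4 / ℓ) + η ^ 2 * (e s s' / η ^ 2)) := by ring
          _ = _ := by rw [h11]
      rw [h8]
      have h9 := mul_le_mul_of_nonneg_right h1 hGG0
      have h10 : (M : ℝ) * (sv K2 ν Q X + e s s') ≤ M * (η ^ 2 * (4 / ℓ) + e s s') :=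
        mul_le_mul_of_nonneg_left (by linarith) hMr.le
      exact add_le_add h9 h10

end Pool.Agent.Lib.H68T
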