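import Pool.Agent.Lib.H51D.VPN0
import Pool.Agent.Lib.H68X.XPN0

/-!
# Chunk VPN2: the prime number theorem with error `sv`, second part
-/

open Finset

namespace Pool.Agent.Lib.H68T

/-- Port of `pnt_sw` (file `H68X/XPN0.lean`), with `VPN0_core`; the bound for `-ζ'/ζ` is now the
hypothesis `ZetaV`. (`|C|` instead of `C`.) -/
theorem pnt_sv (c' C : ℝ) (hc' : 0 < c') : ∃ K : ℝ, 1 ≤ K ∧ ∀ (v : ℝ) (Q X : ℕ),
    RegV K v Q X → ZetaV c' C v Q → ∀ u : ℝ, (X : ℝ) / 8 ≤ u →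
    u ≤ 60 * X → |∑ m ∈ Icc 1 ⌊u⌋₊, (ArithmeticFunction.vonMangoldt m - 1)| ≤
      u * sv K v Q X := by
  obtain ⟨P, hP, hper⟩ := perron
  obtain ⟨K₂, hK₂1, hK₂⟩ := VPN0_core P |C| c' hP (abs_nonneg C) hc'
  refine ⟨K₂, hK₂1, fun v Q X r2 hinv => ?_⟩
  have hv0 : 0 < v := by linarith [r2.2.1]
  obtain ⟨⟨hη1, hu3, hB1, hlQ0, hQ1⟩, hcore⟩ := hK₂ v Q X r2
  obtain ⟨g, hg1, hg2, hg3⟩ := hinv
  have hCB : Real.exp (C * v) ≤ Real.exp (|C| * v) :=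
    Real.exp_le_exp.mpr (mul_le_mul_of_nonneg_right (le_abs_self C) hv0.le)
  set η : ℝ := c' * v / Real.log Q with hη
  have hη0 : 0 < η := by positivity
  set T : ℝ := (Q : ℝ) ^ 11 with hT
  have hT1 : 1 ≤ T := one_le_pow₀ hQ1
  have hT2 : T ≤ (Q : ℝ) ^ 12 := pow_le_pow_right₀ hQ1 (by norm_num)
  have hmem : ∀ s : ℂ, 1 - η ≤ s.re → s.re ≤ 2 → |s.im| ≤ T → s ∈ Rg (c' * v) Q := by
    intro s h1 h2 h3
    exact ⟨h1, h2, h3.trans hT2⟩
  have hf1 : AnalyticOnNhd ℂ g {s | 1 - η ≤ s.re ∧ s.re ≤ 2 ∧ |s.im| ≤ T} := by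
    intro s hs
    exact hg1 _ (hmem s hs.1 hs.2.1 hs.2.2)
  have hLam : ∀ n : ℕ, 1 ≤ n → 0 ≤ ArithmeticFunction.vonMangoldt n ∧
      ArithmeticFunction.vonMangoldt n ≤ Real.log n := fun n _ =>
    ⟨ArithmeticFunction.vonMangoldt_nonneg, ArithmeticFunction.vonMangoldt_le_log⟩
  have hfin := hcore (fun n => ((ArithmeticFunction.vonMangoldt n - 1 : ℝ) : ℂ))
    (fun n hn => by
        obtain ⟨h2, h3⟩ := hLam n hn
        rw [Complex.norm_real, Real.norm_eq_abs, abs_le]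
        constructor <;> linarith) (fun u hu1 hu2 => by
    have h1 := hper (fun n => (ArithmeticFunction.vonMangoldt n : ℂ)) g 1 η T
      (Real.exp (|C| * v)) u (by simp) hη0 hη1 hT1 (by linarith) hB1 (fun n hn => by
        obtain ⟨h2, h3⟩ := hLam n hn
        rw [Complex.norm_real, Real.norm_of_nonneg h2]
        linarith) hf1
      (fun s h1 h2 h3 => (hg3 _ (hmem s h1 h2 h3)).trans hCB)
      (fun s hs => hg2 s hs)
    have hone := PNTE_ces u (by linarith)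
    have hsplit : (∑ n ∈ Icc 1 ⌊u⌋₊, ((ArithmeticFunction.vonMangoldt n - 1 : ℝ) : ℂ) *
        (1 - n / u)) =
        (∑ n ∈ Icc 1 ⌊u⌋₊, (ArithmeticFunction.vonMangoldt n : ℂ) * (1 - n / u) -
          1 * (u / 2 - 1 + 1 / (2 * u))) -
        (∑ n ∈ Icc 1 ⌊u⌋₊, (1 : ℂ) * (1 - n / u) - 1 * (u / 2 - 1 + 1 / (2 * u))) := by
      rw [sub_sub_sub_cancel_right, ← Finset.sum_sub_distrib]
      refine Finset.sum_congr rfl fun n _ => ?_
      push_cast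
      ring
    rw [hsplit]
    exact (norm_sub_le _ _).trans (add_le_add h1 hone))
  intro u hu1 hu2
  have h1 := hfin u hu1 hu2
  have h2 : (∑ n ∈ Icc 1 ⌊u⌋₊, ((ArithmeticFunction.vonMangoldt n - 1 : ℝ) : ℂ)) =
      ((∑ n ∈ Icc 1 ⌊u⌋₊, (ArithmeticFunction.vonMangoldt n - 1) : ℝ) : ℂ) := by
    push_cast
    rfl
  rw [h2, Complex.norm_real, Real.norm_eq_abs] at h1
  exact h1

/-- Port of `FL0_sw`: `XPN0_abel`, `pnt_sv`, `sv_absorb D 1 0 K₁`. -/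
theorem FL0_sv (c' C : ℝ) (hc' : 0 < c') : ∃ K : ℝ, 1 ≤ K ∧ ∀ (v : ℝ) (Q X : ℕ),
    RegV K v Q X → ZetaV c' C v Q → ∀ t : ℝ,
    ‖FL X p0 t - F0 X t‖ ≤ (1 + |t|) * sv K v Q X := by
  obtain ⟨D, hD1, hD⟩ := XPN0_abel
  obtain ⟨K₁, hK₁1, hK₁⟩ := pnt_sv c' C hc'
  obtain ⟨K₂, hK₂1, hK₂2, hK₂⟩ := sv_absorb D 1 0 K₁ (by linarith)
  refine ⟨K₂ + 1000, by linarith, fun v Q X hregV hzet t => ?_⟩
  have hreg := hregV.1
  have hv0 : 0 ≤ v := by linarith [hregV.2.1]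
  have r1 : RegV K₁ v Q X := hregV.mono (by linarith) (by linarith)
  have r2 : RegV K₂ v Q X := hregV.mono (by linarith) (by linarith)
  have hL : 1000 ≤ Real.log X := by
    have h1 := hreg.logX_ge (by linarith)
    have := Real.add_one_le_exp (K₂ + 1000)
    linarith
  have hdiff : FL X p0 t - F0 X t = ∑ m ∈ Icc 1 (60 * X),
      ((ArithmeticFunction.vonMangoldt m - 1 : ℝ) : ℂ) * PNTE_phi X t m := by
    unfold FL F0 FF
    rw [← Finset.sum_sub_distrib]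
    refine Finset.sum_congr rfl fun m _ => ?_
    have h1 : p0.2 (m : ZMod p0.1) = 1 := by
      show (1 : DirichletCharacter ℂ 1) (m : ZMod 1) = 1
      rw [Subsingleton.elim (m : ZMod 1) 1, map_one]
    unfold PNTE_phi
    simp only [h1]
    push_cast
    ring
  rw [hdiff]
  have hQ := hreg.Q_pos (by linarith)
  refine (hD X hL t (sv K₁ v Q X) _ (sv_pos _ _ _ _ hQ).le fun m hm1 hm2 => ?_).trans ?_
  · have h1 := hK₁ v Q X r1 hzet m hm1 hm2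
    rw [Nat.floor_natCast] at h1
    have h3 : (∑ k ∈ Icc 1 m, ((ArithmeticFunction.vonMangoldt k - 1 : ℝ) : ℂ)) =
        ((∑ k ∈ Icc 1 m, (ArithmeticFunction.vonMangoldt k - 1) : ℝ) : ℂ) := by
      push_cast
      rfl
    rw [h3, Complex.norm_real, Real.norm_eq_abs]
    exact h1
  · refine mul_le_mul_of_nonneg_left ?_ (by positivity)
    have h1 := hK₂ v Q X r2
    rw [Real.rpow_one, zero_mul, Real.exp_zero, mul_one] at h1
    exact h1.trans (sv_mono hv0 (by linarith) (by linarith) hQ)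

end Pool.Agent.Lib.H68T
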