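import Pool.Agent.Lib.H51D.VMAIN
import Pool.Agent.Lib.H51D.VPN2
import Pool.Agent.Lib.H68X.XD2B

/-!
# Chunk VD2B: the trivial character
-/

open Finset MeasureTheory

namespace Pool.Agent.Lib.H68T

/-- Port of `L1_trivial_sw` (file `H68X/XD2B.lean`; `XD2B_kernel`, `XD2B_int` can be used):
`FL0_sv` instead of `FL0_sw`, the hypothesis `InvV` for `p0` instead of `inv_zeta`,
`main_L1_of_invV`, `sv_rpow`, `sv_of_Q`, `sv_absorb`, `sv_le_one`. -/
theorem L1_trivialV (c' C : ℝ) (hc' : 0 < c') : ∃ K : ℝ, 1 ≤ K ∧ ∀ (v : ℝ) (Q X : ℕ),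
    RegV K v Q X → ZetaV c' C v Q → InvV c' C v Q p0 →
    ∫ t in (-(Q : ℝ) ^ 7)..((Q : ℝ) ^ 7), ‖FL X p0 t - F0 X t‖ ≤ sv K v Q X := by
  obtain ⟨Kd, hKd⟩ := decomposition
  obtain ⟨C₁, Kl, hC, hKl⟩ := long_triv
  obtain ⟨Km, hKm1, hKm⟩ := main_L1_of_invV c' C hc'
  obtain ⟨Kf, hKf1, hKf⟩ := FL0_sv c' C hc'
  obtain ⟨Kq, hKq1, hKq⟩ := sv_of_Q 6 7 0 4 (by norm_num)
  have hpi := Real.pi_pos
  have hKf3 : 0 < Kf / (1 / 3) := by positivity
  obtain ⟨Ke, hKe0, hKe1, hKe⟩ := sv_absorb (Real.pi * (4 + 6 * C₁)) 8 0 (Kf / (1 / 3)) hKf3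
  obtain ⟨M, hM⟩ : ∃ M : ℝ, M = Km + Kq + Ke := ⟨_, rfl⟩
  have hM0 : 0 < M := by rw [hM]; linarith
  obtain ⟨Kg, hKg0, hKg1, hKg⟩ := sv_absorb 3 0 0 M hM0
  refine ⟨Kg + |Kd| + |Kl| + Km + Kf + Kq + Ke + 30, by
    have := abs_nonneg Kd; have := abs_nonneg Kl; linarith, ?_⟩
  intro v Q X hregV hzet hinv
  have hreg := hregV.1
  have hv0 : 0 ≤ v := by linarith [hregV.2.1]
  have a1 : 0 ≤ |Kd| := abs_nonneg _
  have a2 : 0 ≤ |Kl| := abs_nonneg _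
  have b1 : Kd ≤ |Kd| := le_abs_self _
  have b2 : Kl ≤ |Kl| := le_abs_self _
  have hKpos : 0 ≤ Kg + |Kd| + |Kl| + Km + Kf + Kq + Ke + 30 := by linarith
  have r1 : Reg Kd Q X := hreg.mono hKpos (by linarith)
  have r2 : Reg Kl Q X := hreg.mono hKpos (by linarith)
  have r3 : RegV Km v Q X := hregV.mono hKpos (by linarith)
  have r4 : RegV Kf v Q X := hregV.mono hKpos (by linarith)
  have r5 : RegV Kq v Q X := hregV.mono hKpos (by linarith)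
  have r6 : RegV Ke v Q X := hregV.mono hKpos (by linarith)
  have r7 : Reg 30 Q X := hreg.mono hKpos (by linarith)
  have r8 : RegV Kg v Q X := hregV.mono hKpos (by linarith)
  set L : ℝ := Real.log X with hL
  have hL1 : 1 ≤ L := r7.logX_ge_one (by norm_num)
  have hL0 : 0 < L := by linarith
  have hQ10 : (30 : ℝ) ≤ Q := r7.Q_ge (by norm_num)
  have hQ0 : (0 : ℝ) < Q := by linarith
  have hQ1 : 1 ≤ Q := r7.Q_pos (by norm_num)
  have hQ2 : 2 ≤ Q := by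
    have : (2 : ℝ) ≤ Q := by linarith
    exact_mod_cast this
  have hX1 : 1 ≤ X := r7.X_pos (by norm_num)
  have hQX : 20 * Real.log Q + 3 ≤ L := by
    have h1 := r7.logQ_le (by norm_num)
    have h2 := r7.logQ_ge (by norm_num)
    linarith
  obtain ⟨α, hα, hdec⟩ := hKd Q X r1
  set T₁ : ℝ := (Q : ℝ) ^ 7 with hT₁
  have hT₁0 : 0 < T₁ := by positivity
  obtain ⟨s, hs⟩ : ∃ s : ℝ, s = sv Kf v Q X := ⟨_, rfl⟩
  have hs0 : 0 < s := by rw [hs]; exact sv_pos _ _ _ _ hQ1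
  have hs1 : s ≤ 1 := by rw [hs]; exact sv_le_one hKf1 r4
  set T₀ : ℝ := s ^ (-(1 / 3) : ℝ) with hT₀
  have hT₀1 : 1 ≤ T₀ := by
    rw [hT₀, Real.rpow_neg hs0.le]
    exact (one_le_inv₀ (by positivity)).2 (Real.rpow_le_one hs0.le hs1 (by norm_num))
  have hT₀0 : 0 < T₀ := by linarith
  have hp0 : p0 ∈ PC Q := p0_mem hQ1
  have hL7 : 1 ≤ L ^ (7 : ℝ) := Real.one_le_rpow hL1 (by norm_num)
  have hL8 : L ^ (8 : ℝ) = L ^ (7 : ℝ) * L := by
    rw [show (8 : ℝ) = 7 + 1 by norm_num, Real.rpow_add hL0, Real.rpow_one]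
  set B : ℝ := 3 * C₁ * L ^ (8 : ℝ) with hB
  have hB0 : 0 ≤ B := by positivity
  set D : ℝ := 2 * (1 + T₀) * s + 2 * B / T₀ ^ 2 with hD
  have hcF : Continuous (fun t => ‖FF X (fun m => (hmain Q X m : ℂ) * p0.2 (m : ZMod p0.1)) t‖) :=
    (main_cont_FF X _).norm
  have hcL : Continuous (fun t => ‖FL X p0 t - F0 X t‖) :=
    ((main_cont_FF X _).sub (main_cont_FF X _)).norm
  have hck : Continuous (fun t : ℝ => (1 + (t / T₀) ^ 2)⁻¹) := by
    refine Continuous.inv₀ (by fun_prop) fun t => ?_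
    positivity
  have key : ∀ t ∈ Set.Icc (-T₁) T₁, ‖FL X p0 t - F0 X t‖ ≤
      ‖FF X (fun m => (hmain Q X m : ℂ) * p0.2 (m : ZMod p0.1)) t‖ +
        3 * L ^ (7 : ℝ) * (Q : ℝ) ^ (-11 : ℝ) + D * (1 + (t / T₀) ^ 2)⁻¹ := by
    intro t ht
    have ht' : |t| ≤ T₁ := abs_le.2 ⟨ht.1, ht.2⟩
    have hFF0 : 0 ≤ ‖FF X (fun m => (hmain Q X m : ℂ) * p0.2 (m : ZMod p0.1)) t‖ := norm_nonneg _
    have hmid0 : 0 ≤ 3 * L ^ (7 : ℝ) * (Q : ℝ) ^ (-11 : ℝ) := by positivity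
    have hk := XD2B_kernel (s := s) (B := B) (T₀ := T₀) (t := t)
      (b := ‖FL X p0 t - F0 X t‖ -
        ‖FF X (fun m => (hmain Q X m : ℂ) * p0.2 (m : ZMod p0.1)) t‖ -
        3 * L ^ (7 : ℝ) * (Q : ℝ) ^ (-11 : ℝ)) hs0 hB0 hT₀1 ?_ ?_
    · rw [← hD] at hk
      linarith
    · intro _
      have h1 := hKf v Q X r4 hzet t
      rw [← hs] at h1
      linarith
    · intro hcase
      have ht1 : 1 ≤ |t| := by linarith
      have ht0 : 0 < t ^ 2 := by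
        have : t ≠ 0 := by
          intro h0
          rw [h0] at ht1
          norm_num at ht1
        positivity
      set E : ℝ := C₁ * L / t ^ 2 + (Q : ℝ) ^ (-11 : ℝ) with hE
      have hE0 : 0 ≤ E := by positivity
      have h1 : ‖F0 X t‖ ≤ E := by
        rw [d2b_F0 Q X hX1 hQ1 hQX t]
        exact hKl Q X r2 0 (by simp) 1 le_rfl t ht1 ht'
      have h2 := d2b_long Q X α _ E hE0 hα p0 t
        (fun j hj a ha => hKl Q X r2 j hj a ha t ht1 ht')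
      have h3 : ‖FL X p0 t - F0 X t‖ ≤
          ‖FF X (fun m => (hmain Q X m : ℂ) * p0.2 (m : ZMod p0.1)) t‖ +
            2 * (L ^ (7 : ℝ) * E) + E := by
        refine (norm_sub_le _ _).trans (add_le_add ?_ h1)
        rw [hdec p0 le_rfl t]
        exact (norm_add_le _ _).trans (add_le_add le_rfl h2)
      have h4 : 2 * (L ^ (7 : ℝ) * E) + E ≤ 3 * L ^ (7 : ℝ) * E := by nlinarith
      have h5 : 3 * L ^ (7 : ℝ) * E = 3 * L ^ (7 : ℝ) * (Q : ℝ) ^ (-11 : ℝ) +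
          B / t ^ 2 := by
        rw [hE, hB, hL8]
        ring
      linarith
  have hD0 : 0 ≤ D := by rw [hD]; positivity
  have hstep : ∫ t in (-T₁)..T₁, ‖FL X p0 t - F0 X t‖ ≤
      (∫ t in (-T₁)..T₁, ‖FF X (fun m => (hmain Q X m : ℂ) * p0.2 (m : ZMod p0.1)) t‖) +
        2 * T₁ * (3 * L ^ (7 : ℝ) * (Q : ℝ) ^ (-11 : ℝ)) + D * (Real.pi * T₀) := by
    have h1 : ∫ t in (-T₁)..T₁, ‖FL X p0 t - F0 X t‖ ≤ ∫ t in (-T₁)..T₁,
        (‖FF X (fun m => (hmain Q X m : ℂ) * p0.2 (m : ZMod p0.1)) t‖ +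
        3 * L ^ (7 : ℝ) * (Q : ℝ) ^ (-11 : ℝ) + D * (1 + (t / T₀) ^ 2)⁻¹) :=
      intervalIntegral.integral_mono_on (by linarith) (hcL.intervalIntegrable _ _)
        (((hcF.add continuous_const).add (continuous_const.mul hck)).intervalIntegrable _ _) key
    refine h1.trans ?_
    have hci1 : Continuous (fun t =>
        ‖FF X (fun m => (hmain Q X m : ℂ) * p0.2 (m : ZMod p0.1)) t‖ +
        3 * L ^ (7 : ℝ) * (Q : ℝ) ^ (-11 : ℝ)) := hcF.add continuous_const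
    have hci2 : Continuous (fun t : ℝ => D * (1 + (t / T₀) ^ 2)⁻¹) := continuous_const.mul hck
    have hci3 : Continuous (fun _ : ℝ => 3 * L ^ (7 : ℝ) * (Q : ℝ) ^ (-11 : ℝ)) :=
      continuous_const
    rw [intervalIntegral.integral_add (hci1.intervalIntegrable _ _)
      (hci2.intervalIntegrable _ _),
      intervalIntegral.integral_add (hcF.intervalIntegrable _ _)
      (hci3.intervalIntegrable _ _), intervalIntegral.integral_const, smul_eq_mul,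
      intervalIntegral.integral_const_mul]
    have h2 := mul_le_mul_of_nonneg_left (d2b_kernel T₀ T₁ hT₀0 hT₁0.le) hD0
    have e : (T₁ - -T₁) * (3 * L ^ (7 : ℝ) * (Q : ℝ) ^ (-11 : ℝ)) =
        2 * T₁ * (3 * L ^ (7 : ℝ) * (Q : ℝ) ^ (-11 : ℝ)) := by ring
    rw [e]
    linarith
  have hKmM : sv Km v Q X ≤ sv M v Q X := sv_mono hv0 (by linarith) (by rw [hM]; linarith) hQ1
  have hKqM : sv Kq v Q X ≤ sv M v Q X := sv_mono hv0 (by linarith) (by rw [hM]; linarith) hQ1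
  have hKeM : sv Ke v Q X ≤ sv M v Q X := sv_mono hv0 (by linarith) (by rw [hM]; linarith) hQ1
  have hpart1 : ∫ t in (-T₁)..T₁,
      ‖FF X (fun m => (hmain Q X m : ℂ) * p0.2 (m : ZMod p0.1)) t‖ ≤ sv M v Q X := by
    have h1 := hKm v Q X r3 {p0} (Finset.singleton_subset_iff.2 hp0) (fun p hp => by
      rw [Finset.mem_singleton.1 hp]
      exact hinv)
    rw [Finset.sum_singleton] at h1
    exact h1.trans hKmM
  have hpart2 : 2 * T₁ * (3 * L ^ (7 : ℝ) * (Q : ℝ) ^ (-11 : ℝ)) ≤ sv M v Q X := by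
    have hq5 := hKq v Q X r5
    rw [zero_mul, Real.exp_zero, mul_one] at hq5
    refine le_trans (le_of_eq ?_) (hq5.trans hKqM)
    have e1 : (Q : ℝ) ^ (-4 : ℝ) = T₁ * (Q : ℝ) ^ (-11 : ℝ) := by
      rw [hT₁, ← Real.rpow_natCast, ← Real.rpow_add hQ0]
      norm_num
    rw [e1]
    ring
  have hpart3 : D * (Real.pi * T₀) ≤ sv M v Q X := by
    have hq6 := hKe v Q X r6
    rw [zero_mul, Real.exp_zero, mul_one] at hq6
    refine le_trans ?_ (hq6.trans hKeM)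
    have h1 := XD2B_int hs0 hs1 hB0
    rw [← hT₀, ← hD] at h1
    refine h1.trans ?_
    have h2 : s ^ (1 / 3 : ℝ) ≤ sv (Kf / (1 / 3)) v Q X := by
      rw [hs]
      exact sv_rpow Kf v (1 / 3) (by linarith) (by norm_num) (by norm_num) Q X hQ2
    have h3 : 4 + 2 * B ≤ (4 + 6 * C₁) * L ^ (8 : ℝ) := by
      have : 1 ≤ L ^ (8 : ℝ) := Real.one_le_rpow hL1 (by norm_num)
      rw [hB]
      nlinarith
    calc Real.pi * (4 + 2 * B) * s ^ (1 / 3 : ℝ)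
        ≤ Real.pi * ((4 + 6 * C₁) * L ^ (8 : ℝ)) * sv (Kf / (1 / 3)) v Q X := by gcongr
      _ = Real.pi * (4 + 6 * C₁) * L ^ (8 : ℝ) * sv (Kf / (1 / 3)) v Q X := by ring
  have hfin := hKg v Q X r8
  rw [Real.rpow_zero, mul_one, zero_mul, Real.exp_zero, mul_one] at hfin
  have hlast : sv Kg v Q X ≤ sv (Kg + |Kd| + |Kl| + Km + Kf + Kq + Ke + 30) v Q X :=
    sv_mono hv0 (by linarith) (by linarith) hQ1
  linarith

end Pool.Agent.Lib.H68T
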