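import Pool.Agent.Lib.H51D.VPN0
import Pool.Agent.Lib.H68X.XPN1

/-!
# Chunk VPN1: the exceptional character, prime number theorem with error `sv`
-/

open Finset

namespace Pool.Agent.Lib.H68T

/-- Port of `exc_sum_sw` (file `H68X/XPN1.lean`), with `VPN0_core`, `LogV`. -/
theorem exc_sum_sv (c' C : ℝ) (hc' : 0 < c') : ∃ K : ℝ, 1 ≤ K ∧ ∀ (v : ℝ) (Q X : ℕ),
    RegV K v Q X → ∀ p : Σ r : ℕ, DirichletCharacter ℂ r, 1 ≤ p.1 → ∀ β : ℝ, 1 / 2 ≤ β → β < 1 →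
    LogV c' C v Q p β → ∀ u : ℝ, (X : ℝ) / 8 ≤ u → u ≤ 60 * X →
    ‖∑ m ∈ Icc 1 ⌊u⌋₊, ((ArithmeticFunction.vonMangoldt m : ℂ) * p.2 (m : ZMod p.1) +
      (((m : ℝ) ^ (β - 1) : ℝ) : ℂ))‖ ≤ u * sv K v Q X := by
  obtain ⟨P, hP, hper⟩ := perron_beta
  obtain ⟨K₂, hK₂1, hK₂⟩ := VPN0_core P |C| c' hP (abs_nonneg C) hc'
  refine ⟨K₂, hK₂1, fun v Q X r2 p _ β hβ0 hβ1 hlog => ?_⟩
  have hv0 : 0 < v := by linarith [r2.2.1]
  obtain ⟨⟨hη1, hu3, hB1, hlQ0, hQ1⟩, hcore⟩ := hK₂ v Q X r2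
  obtain ⟨g, hg1, hg2, hg3⟩ := hlog
  set η : ℝ := c' * v / Real.log Q with hη
  have hη0 : 0 < η := by positivity
  set T : ℝ := (Q : ℝ) ^ 11 with hT
  have hT1 : 1 ≤ T := one_le_pow₀ hQ1
  have hT2 : T ≤ (Q : ℝ) ^ 12 := pow_le_pow_right₀ hQ1 (by norm_num)
  have hmem : ∀ s : ℂ, 1 - η ≤ s.re → s.re ≤ 2 → |s.im| ≤ T → s ∈ Rg (c' * v) Q := by
    intro s h1 h2 h3
    exact ⟨h1, h2, h3.trans hT2⟩
  have hf1 : AnalyticOnNhd ℂ g {s | 1 - η ≤ s.re ∧ s.re ≤ 2 ∧ |s.im| ≤ T} := by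
    intro s hs
    exact hg1 _ (hmem s hs.1 hs.2.1 hs.2.2)
  have hCB : Real.exp (C * v) ≤ Real.exp (|C| * v) :=
    Real.exp_le_exp.mpr (mul_le_mul_of_nonneg_right (le_abs_self C) hv0.le)
  have hnorm : ∀ n : ℕ, 1 ≤ n → ‖(ArithmeticFunction.vonMangoldt n : ℂ) * p.2 (n : ZMod p.1)‖ ≤
      Real.log n := by
    intro n _
    rw [norm_mul, Complex.norm_real, Real.norm_of_nonneg ArithmeticFunction.vonMangoldt_nonneg]
    have h1 := p.2.norm_le_one (n : ZMod p.1)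
    have h2 := ArithmeticFunction.vonMangoldt_le_log (n := n)
    have h3 := ArithmeticFunction.vonMangoldt_nonneg (n := n)
    calc ArithmeticFunction.vonMangoldt n * ‖p.2 (n : ZMod p.1)‖ ≤
          ArithmeticFunction.vonMangoldt n * 1 := mul_le_mul_of_nonneg_left h1 h3
      _ ≤ Real.log n := by linarith
  refine hcore (fun n => (ArithmeticFunction.vonMangoldt n : ℂ) * p.2 (n : ZMod p.1) +
      (((n : ℝ) ^ (β - 1) : ℝ) : ℂ)) (fun n hn => ?_) (fun u hu1 hu2 => ?_)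
  · refine (norm_add_le _ _).trans ?_
    have hn1 : (1 : ℝ) ≤ n := by exact_mod_cast hn
    have h1 : ‖(((n : ℝ) ^ (β - 1) : ℝ) : ℂ)‖ ≤ 1 := by
      rw [Complex.norm_real, Real.norm_of_nonneg (Real.rpow_nonneg (by linarith) _)]
      exact Real.rpow_le_one_of_one_le_of_nonpos hn1 (by linarith)
    have h2 := hnorm n hn
    linarith
  · have h1 := hper (fun n => (ArithmeticFunction.vonMangoldt n : ℂ) * p.2 (n : ZMod p.1)) g (-1) β
      η T (Real.exp (|C| * v)) u (by simp) hβ0 hβ1.le hη0 hη1 hT1 (by linarith) hB1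
      (fun n hn => by
        have h2 := hnorm n hn
        linarith) hf1
      (fun s h1 h2 h3 => (hg3 _ (hmem s h1 h2 h3)).trans hCB)
      (fun s hs => by
        rw [hg2 s hs]
        ring)
    have hone := XPN1_ces (β := β) (u := u) hβ1.le (by linarith)
    have hsplit : (∑ n ∈ Icc 1 ⌊u⌋₊, ((ArithmeticFunction.vonMangoldt n : ℂ) *
        p.2 (n : ZMod p.1) + (((n : ℝ) ^ (β - 1) : ℝ) : ℂ)) * (1 - n / u)) =
        (∑ n ∈ Icc 1 ⌊u⌋₊, (ArithmeticFunction.vonMangoldt n : ℂ) * p.2 (n : ZMod p.1) *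
          (1 - n / u) - (-1) * ((∫ y in (1 : ℝ)..u, y ^ (β - 1) * (1 - y / u) : ℝ) : ℂ)) +
        ((∑ n ∈ Icc 1 ⌊u⌋₊, (n : ℝ) ^ (β - 1) * (1 - n / u) -
          ∫ y in (1 : ℝ)..u, y ^ (β - 1) * (1 - y / u) : ℝ) : ℂ) := by
      simp only [add_mul, Finset.sum_add_distrib]
      push_cast
      ring
    rw [hsplit]
    refine (norm_add_le _ _).trans (add_le_add h1 ?_)
    rw [Complex.norm_real, Real.norm_eq_abs]
    exact hone

/-- Port of `exc_FL_sw`: `XPN0_abel`, `exc_sum_sv`, `sv_absorb D 1 0 K₁`. -/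
theorem exc_FL_sv (c' C : ℝ) (hc' : 0 < c') : ∃ K : ℝ, 1 ≤ K ∧ ∀ (v : ℝ) (Q X : ℕ),
    RegV K v Q X → ∀ p : Σ r : ℕ, DirichletCharacter ℂ r, 1 ≤ p.1 → ∀ β : ℝ, 1 / 2 ≤ β → β < 1 →
    LogV c' C v Q p β → ∀ t : ℝ, ‖FL X p t + Fb X β t‖ ≤ (1 + |t|) * sv K v Q X := by
  obtain ⟨D, hD1, hD⟩ := XPN0_abel
  obtain ⟨K₁, hK₁1, hK₁⟩ := exc_sum_sv c' C hc'
  obtain ⟨K₂, hK₂1, hK₂2, hK₂⟩ := sv_absorb D 1 0 K₁ (by linarith)
  refine ⟨K₂ + 1000, by linarith, fun v Q X hregV p hp β hβ0 hβ1 hlog t => ?_⟩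
  have hreg := hregV.1
  have hv0 : 0 ≤ v := by linarith [hregV.2.1]
  have r1 : RegV K₁ v Q X := hregV.mono (by linarith) (by linarith)
  have r2 : RegV K₂ v Q X := hregV.mono (by linarith) (by linarith)
  have hL : 1000 ≤ Real.log X := by
    have h1 := hreg.logX_ge (by linarith)
    have := Real.add_one_le_exp (K₂ + 1000)
    linarith
  have hdiff : FL X p t + Fb X β t = ∑ m ∈ Icc 1 (60 * X),
      ((ArithmeticFunction.vonMangoldt m : ℂ) * p.2 (m : ZMod p.1) +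
        (((m : ℝ) ^ (β - 1) : ℝ) : ℂ)) * PNTE_phi X t m := by
    unfold FL Fb FF
    rw [← Finset.sum_add_distrib]
    refine Finset.sum_congr rfl fun m _ => ?_
    unfold PNTE_phi
    ring
  rw [hdiff]
  have hQ := hreg.Q_pos (by linarith)
  refine (hD X hL t (sv K₁ v Q X) _ (sv_pos _ _ _ _ hQ).le fun m hm1 hm2 => ?_).trans ?_
  · have h1 := hK₁ v Q X r1 p hp β hβ0 hβ1 hlog m hm1 hm2
    rw [Nat.floor_natCast] at h1
    exact h1
  · refine mul_le_mul_of_nonneg_left ?_ (by positivity)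
    have h1 := hK₂ v Q X r2
    rw [Real.rpow_one, zero_mul, Real.exp_zero, mul_one] at h1
    exact h1.trans (sv_mono hv0 (by linarith) (by linarith) hQ)

end Pool.Agent.Lib.H68T
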