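import Pool.Agent.Lib.H51D.VMAIN1
import Pool.Agent.Lib.H51D.VPN1
import Pool.Agent.Lib.H68X.XD2C

/-!
# Chunk VD2C: the exceptional character
-/

open Finset MeasureTheory

namespace Pool.Agent.Lib.H68T

/-- Port of `L1_exc` (file `H68X/XD2C.lean`; its auxiliary lemmas can be used), with `exc_FL_sv`,
`main_L1_highV`, and `T₁ = max 8 ((sv K₁ v Q X)^(-1/3))` (at most `Q^7` as `sv K₁ v Q X ≥ Q^(-1/K₁)`);
the additional factor `exp (D v)` of `main_L1_highV` is absorbed by `sv_absorb _ _ D`. -/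
theorem L1_excV (c' C : ℝ) (hc' : 0 < c') : ∃ K : ℝ, 1 ≤ K ∧ ∀ (v : ℝ) (Q X : ℕ),
    RegV K v Q X → ∀ p ∈ PC Q, p ≠ p0 → ∀ β : ℝ, 1 / 2 ≤ β → β < 1 → LogV c' C v Q p β →
    InvHighV c' C v Q p →
    ∫ t in (-(Q : ℝ) ^ 7)..((Q : ℝ) ^ 7), ‖FL X p t + Fb X β t‖ ≤ sv K v Q X := by
  obtain ⟨Kd, hKd⟩ := decomposition
  obtain ⟨Kl, hKl⟩ := long_small
  obtain ⟨Cb, Kb, hCb, hKb1, hKb⟩ := Fb_bound
  obtain ⟨Km, Dm, hKm1, hKm⟩ := main_L1_highV c' C hc'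
  obtain ⟨Kf, hKf1, hKf⟩ := exc_FL_sv c' C hc'
  obtain ⟨Kq, hKq1, hKq⟩ := sv_of_Q 6 7 0 4 (by norm_num)
  have hpi := Real.pi_pos
  have hKf3 : 0 < Kf / (1 / 6) := by positivity
  obtain ⟨Ke, hKe0, hKe1, hKe⟩ := sv_absorb (257 + 4 * Real.pi * Cb) 15 |Dm| (Kf / (1 / 6)) hKf3
  obtain ⟨M, hM⟩ : ∃ M : ℝ, M = Km + Kq + Ke := ⟨_, rfl⟩
  have hM0 : 0 < M := by rw [hM]; linarith
  obtain ⟨Kg, hKg0, hKg1, hKg⟩ := sv_absorb 3 0 0 M hM0
  refine ⟨Kg + |Kd| + |Kl| + Kb + Km + Kf + Kq + Ke + 30, by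
    have := abs_nonneg Kd; have := abs_nonneg Kl; linarith, ?_⟩
  intro v Q X hregV p hp hpp β hβ hβ1 hlog hhigh
  have hreg := hregV.1
  have hv0 : 0 ≤ v := by linarith [hregV.2.1]
  have a1 : 0 ≤ |Kd| := abs_nonneg _
  have a2 : 0 ≤ |Kl| := abs_nonneg _
  have b1 : Kd ≤ |Kd| := le_abs_self _
  have b2 : Kl ≤ |Kl| := le_abs_self _
  have hKpos : 0 ≤ Kg + |Kd| + |Kl| + Kb + Km + Kf + Kq + Ke + 30 := by linarith
  have r1 : Reg Kd Q X := hreg.mono hKpos (by linarith)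
  have r2 : Reg Kl Q X := hreg.mono hKpos (by linarith)
  have r3 : RegV Km v Q X := hregV.mono hKpos (by linarith)
  have r4 : RegV Kf v Q X := hregV.mono hKpos (by linarith)
  have r5 : RegV Kq v Q X := hregV.mono hKpos (by linarith)
  have r6 : RegV Ke v Q X := hregV.mono hKpos (by linarith)
  have r7 : Reg 30 Q X := hreg.mono hKpos (by linarith)
  have r8 : RegV Kg v Q X := hregV.mono hKpos (by linarith)
  have r9 : Reg Kb Q X := hreg.mono hKpos (by linarith)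
  have hp1 : 1 ≤ p.1 := (mem_PC.1 hp).1
  set L : ℝ := Real.log X with hL
  have hL1 : 1 ≤ L := r7.logX_ge_one (by norm_num)
  have hL0 : 0 < L := by linarith
  have hQ10 : (30 : ℝ) ≤ Q := r7.Q_ge (by norm_num)
  have hQ0 : (0 : ℝ) < Q := by linarith
  have hQ1 : 1 ≤ Q := r7.Q_pos (by norm_num)
  have hQ1' : (1 : ℝ) ≤ Q := by linarith
  have hQ2 : 2 ≤ Q := by
    have : (2 : ℝ) ≤ Q := by linarith
    exact_mod_cast this
  have hX1 : 1 ≤ X := r7.X_pos (by norm_num)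
  obtain ⟨α, hα, hdec⟩ := hKd Q X r1
  set T : ℝ := (Q : ℝ) ^ 7 with hT
  have hT0 : 0 < T := by positivity
  obtain ⟨s, hs⟩ : ∃ s : ℝ, s = sv Kf v Q X := ⟨_, rfl⟩
  have hs0 : 0 < s := by rw [hs]; exact sv_pos _ _ _ _ hQ1
  have hs1 : s ≤ 1 := by rw [hs]; exact sv_le_one hKf1 r4
  obtain ⟨r, hr⟩ : ∃ r : ℝ, r = s ^ (1 / 3 : ℝ) := ⟨_, rfl⟩
  have hr0 : 0 < r := by rw [hr]; positivity
  have hr1 : r ≤ 1 := by rw [hr]; exact Real.rpow_le_one hs0.le hs1 (by norm_num)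
  have hrs : s = r ^ 3 := by
    rw [hr, ← Real.rpow_natCast, ← Real.rpow_mul hs0.le]
    norm_num
  obtain ⟨T₁, hT₁⟩ : ∃ T₁ : ℝ, T₁ = max 8 r⁻¹ := ⟨_, rfl⟩
  have hT₁8 : 8 ≤ T₁ := by rw [hT₁]; exact le_max_left _ _
  have hT₁0 : 0 < T₁ := by linarith
  have hT₁r : r⁻¹ ≤ T₁ := by rw [hT₁]; exact le_max_right _ _
  have hrinv : 1 ≤ r⁻¹ := (one_le_inv₀ hr0).2 hr1
  have hT₁le : T₁ ≤ 8 * r⁻¹ := by
    rw [hT₁]
    exact max_le (by linarith) (by linarith)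
  have hT₁T : T₁ ≤ T := by
    rw [hT₁]
    refine max_le ?_ ?_
    · rw [hT]
      have : (Q : ℝ) ≤ (Q : ℝ) ^ 7 := le_self_pow₀ hQ1' (by norm_num)
      linarith
    · have h1 : (Q : ℝ) ^ (-(1 / Kf)) ≤ s := by
        rw [hs]
        unfold sv
        have := Real.exp_pos (-(v * (Real.log X / (Kf * Real.log Q))))
        linarith
      have h2 : (Q : ℝ)⁻¹ ≤ s := by
        refine le_trans ?_ h1
        rw [← Real.rpow_neg_one]
        refine Real.rpow_le_rpow_of_exponent_le hQ1' ?_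
        have : 1 / Kf ≤ 1 := (div_le_one (by linarith)).2 hKf1
        linarith
      have h3 : s ≤ r := by
        rw [hrs]
        calc r ^ 3 ≤ r ^ 1 := pow_le_pow_of_le_one hr0.le hr1 (by norm_num)
          _ = r := pow_one r
      have h4 : r⁻¹ ≤ Q := by
        rw [inv_le_comm₀ hr0 hQ0]
        exact h2.trans h3
      have : (Q : ℝ) ≤ (Q : ℝ) ^ 7 := le_self_pow₀ hQ1' (by norm_num)
      rw [hT]
      linarith
  have hL7 : 1 ≤ L ^ (7 : ℝ) := Real.one_le_rpow hL1 (by norm_num)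
  have hcF : Continuous (fun t => ‖FF X (fun m => (hmain Q X m : ℂ) * p.2 (m : ZMod p.1)) t‖) :=
    (main_cont_FF X _).norm
  have hcL : Continuous (fun t => ‖FL X p t + Fb X β t‖) :=
    ((main_cont_FF X _).add (main_cont_FF X _)).norm
  obtain ⟨u, hu⟩ : ∃ u : ℝ, u = 3 * L ^ (7 : ℝ) * (Q : ℝ) ^ (-11 : ℝ) := ⟨_, rfl⟩
  have hu0 : 0 ≤ u := by rw [hu]; positivity
  -- pointwise bound at high frequencies
  have key : ∀ t : ℝ, T₁ ≤ |t| → |t| ≤ T → ‖FL X p t + Fb X β t‖ ≤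
      ‖FF X (fun m => (hmain Q X m : ℂ) * p.2 (m : ZMod p.1)) t‖ + u +
        (2 * Cb / T₁ ^ 2) * (1 + (t / T₁) ^ 2)⁻¹ := by
    intro t ht1 ht
    have hE0 : (0 : ℝ) ≤ (Q : ℝ) ^ (-11 : ℝ) := by positivity
    have h1 := d2b_long Q X α _ _ hE0 hα p t
      (fun j hj a ha => hKl Q X r2 p hp hpp j hj a ha t ht)
    have h2 : ‖Fb X β t‖ ≤ Cb / (1 + t ^ 2) + (Q : ℝ) ^ (-11 : ℝ) := by
      refine hKb Q X r9 β hβ hβ1.le t (ht.trans ?_)
      rw [hT]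
      exact pow_le_pow_right₀ hQ1' (by norm_num)
    have h3 : ‖FL X p t‖ ≤ ‖FF X (fun m => (hmain Q X m : ℂ) * p.2 (m : ZMod p.1)) t‖ +
        2 * (L ^ (7 : ℝ) * (Q : ℝ) ^ (-11 : ℝ)) := by
      rw [hdec p hp1 t]
      exact (norm_add_le _ _).trans (add_le_add le_rfl h1)
    have h4 : Cb / (1 + t ^ 2) ≤ (2 * Cb / T₁ ^ 2) * (1 + (t / T₁) ^ 2)⁻¹ := by
      have e : (2 * Cb / T₁ ^ 2) * (1 + (t / T₁) ^ 2)⁻¹ = 2 * Cb / (T₁ ^ 2 + t ^ 2) := by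
        field_simp
      rw [e, div_le_div_iff₀ (by positivity) (by positivity)]
      have : T₁ ^ 2 ≤ t ^ 2 := by
        rw [← sq_abs t]
        exact pow_le_pow_left₀ hT₁0.le ht1 2
      exact XD2C_aux1 Cb (T₁ ^ 2) (t ^ 2) (by linarith) this
    have h5 : (Q : ℝ) ^ (-11 : ℝ) ≤ L ^ (7 : ℝ) * (Q : ℝ) ^ (-11 : ℝ) :=
      le_mul_of_one_le_left hE0 hL7
    have h6 := norm_add_le (FL X p t) (Fb X β t)
    rw [hu]
    linarith
  -- splitting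
  have hB0 : 0 ≤ 2 * Cb / T₁ ^ 2 := by positivity
  have hint : ∀ a b : ℝ, IntervalIntegrable (fun t => ‖FL X p t + Fb X β t‖) volume a b :=
    fun a b => hcL.intervalIntegrable a b
  have hsplit : ∫ t in (-T)..T, ‖FL X p t + Fb X β t‖ =
      (∫ t in (-T)..(-T₁), ‖FL X p t + Fb X β t‖) +
      (∫ t in (-T₁)..T₁, ‖FL X p t + Fb X β t‖) +
      ∫ t in T₁..T, ‖FL X p t + Fb X β t‖ := by
    rw [intervalIntegral.integral_add_adjacent_intervals (hint _ _) (hint _ _),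
      intervalIntegral.integral_add_adjacent_intervals (hint _ _) (hint _ _)]
  have hlow : ∫ t in (-T₁)..T₁, ‖FL X p t + Fb X β t‖ ≤ 256 * r := by
    have h1 : ∫ t in (-T₁)..T₁, ‖FL X p t + Fb X β t‖ ≤ ∫ _t in (-T₁)..T₁, (1 + T₁) * s := by
      refine intervalIntegral.integral_mono_on (by linarith) (hint _ _)
        (continuous_const.intervalIntegrable _ _) fun t ht => ?_
      have h2 := hKf v Q X r4 p hp1 β hβ hβ1 hlog t
      rw [← hs] at h2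
      refine h2.trans ?_
      have : |t| ≤ T₁ := abs_le.2 ⟨ht.1, ht.2⟩
      gcongr
    refine h1.trans ?_
    rw [intervalIntegral.integral_const, smul_eq_mul]
    have h3 : (T₁ - -T₁) * ((1 + T₁) * s) ≤ 4 * T₁ ^ 2 * s := by
      have : (T₁ - -T₁) * ((1 + T₁) * s) = 2 * T₁ * (1 + T₁) * s := by ring
      rw [this]
      have h4 : 2 * T₁ * (1 + T₁) ≤ 4 * T₁ ^ 2 := XD2C_aux2 T₁ (by linarith)
      gcongr
    refine h3.trans ?_
    have h5 : T₁ ^ 2 ≤ (8 * r⁻¹) ^ 2 := by gcongr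
    calc 4 * T₁ ^ 2 * s ≤ 4 * (8 * r⁻¹) ^ 2 * s := by gcongr
      _ = 256 * r := by
        rw [hrs]
        field_simp
        norm_num
  have hhi1 := XD2C_part (T := T) (u := u) hcL hcF (show T₁ ≤ T from hT₁T) (by linarith) le_rfl
    hT₁0 hB0 (fun t ht => key t (by rw [abs_of_nonneg (by linarith [ht.1])]; exact ht.1)
      (by rw [abs_of_nonneg (by linarith [ht.1])]; exact ht.2))
  have hhi2 := XD2C_part (T := T) (u := u) hcL hcF (show -T ≤ -T₁ by linarith) le_rfl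
    (by linarith) hT₁0 hB0
    (fun t ht => key t (by rw [abs_of_nonpos (by linarith [ht.2])]; linarith [ht.2])
      (by rw [abs_of_nonpos (by linarith [ht.2])]; linarith [ht.1]))
  have hmain := hKm v Q X r3 p hp hhigh T₁ hT₁8 hT₁T
  -- `T₁^(-1/2) ≤ s^(1/6)`
  obtain ⟨w, hw⟩ : ∃ w : ℝ, w = s ^ (1 / 6 : ℝ) := ⟨_, rfl⟩
  have hw0 : 0 < w := by rw [hw]; positivity
  have hw1 : w ≤ 1 := by rw [hw]; exact Real.rpow_le_one hs0.le hs1 (by norm_num)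
  have hwr : r = w ^ 2 := by
    rw [hr, hw, ← Real.rpow_natCast, ← Real.rpow_mul hs0.le]
    norm_num
  have hT₁half : T₁ ^ (-(1 / 2) : ℝ) ≤ w := by
    have h1 : T₁ ^ (-(1 / 2) : ℝ) ≤ (r⁻¹) ^ (-(1 / 2) : ℝ) :=
      Real.rpow_le_rpow_of_nonpos (by positivity) hT₁r (by norm_num)
    refine h1.trans (le_of_eq ?_)
    rw [Real.rpow_neg (by positivity), ← Real.inv_rpow (by positivity), inv_inv, hwr,
      ← Real.sqrt_eq_rpow, Real.sqrt_sq hw0.le]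
  have hrw : r ≤ w := by
    rw [hwr, sq]
    exact mul_le_of_le_one_left hw0.le hw1
  have hinvT : 2 * Cb / T₁ ^ 2 * (Real.pi * T₁) ≤ 2 * Real.pi * Cb * w := by
    have e : 2 * Cb / T₁ ^ 2 * (Real.pi * T₁) = 2 * Real.pi * Cb * T₁⁻¹ := by
      field_simp
    rw [e]
    have h1 : T₁⁻¹ ≤ r := by
      rw [inv_le_comm₀ hT₁0 hr0]
      exact hT₁r
    have h2 : T₁⁻¹ ≤ w := h1.trans hrw
    gcongr
  have hKmM : sv Km v Q X ≤ sv M v Q X := sv_mono hv0 (by linarith) (by rw [hM]; linarith) hQ1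
  have hKqM : sv Kq v Q X ≤ sv M v Q X := sv_mono hv0 (by linarith) (by rw [hM]; linarith) hQ1
  have hKeM : sv Ke v Q X ≤ sv M v Q X := sv_mono hv0 (by linarith) (by rw [hM]; linarith) hQ1
  have hpart2 : 2 * T * u ≤ sv M v Q X := by
    have hq5 := hKq v Q X r5
    rw [zero_mul, Real.exp_zero, mul_one] at hq5
    refine le_trans (le_of_eq ?_) (hq5.trans hKqM)
    have e1 : (Q : ℝ) ^ (-4 : ℝ) = T * (Q : ℝ) ^ (-11 : ℝ) := by
      rw [hT, ← Real.rpow_natCast, ← Real.rpow_add hQ0]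
      norm_num
    rw [e1, hu]
    ring
  obtain ⟨y, hy⟩ : ∃ y : ℝ, y = Real.exp (|Dm| * v) := ⟨_, rfl⟩
  have hy1 : 1 ≤ y := by rw [hy]; exact Real.one_le_exp (by positivity)
  have hyD : Real.exp (Dm * v) ≤ y := by
    rw [hy]
    exact Real.exp_le_exp.mpr (mul_le_mul_of_nonneg_right (le_abs_self Dm) hv0)
  have hpart3 : 256 * r + Real.exp (Dm * v) * L ^ (15 : ℝ) * T₁ ^ (-(1 / 2) : ℝ) +
      2 * (2 * Cb / T₁ ^ 2 * (Real.pi * T₁)) ≤ sv M v Q X := by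
    refine le_trans ?_ ((hKe v Q X r6).trans hKeM)
    have h2 : w ≤ sv (Kf / (1 / 6)) v Q X := by
      rw [hw, hs]
      exact sv_rpow Kf v (1 / 6) (by linarith) (by norm_num) (by norm_num) Q X hQ2
    have hL15 : 1 ≤ L ^ (15 : ℝ) := Real.one_le_rpow hL1 (by norm_num)
    have hT12 : 0 ≤ T₁ ^ (-(1 / 2) : ℝ) := by positivity
    have h3 : Real.exp (Dm * v) * L ^ (15 : ℝ) * T₁ ^ (-(1 / 2) : ℝ) ≤
        L ^ (15 : ℝ) * y * w := by
      calc Real.exp (Dm * v) * L ^ (15 : ℝ) * T₁ ^ (-(1 / 2) : ℝ) ≤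
            y * L ^ (15 : ℝ) * w := by gcongr
        _ = _ := by ring
    have hwy : w ≤ L ^ (15 : ℝ) * y * w := by
      refine le_mul_of_one_le_left hw0.le ?_
      exact one_le_mul_of_one_le_of_one_le hL15 hy1
    have h4 : 256 * r ≤ 256 * (L ^ (15 : ℝ) * y * w) := by linarith
    have h5 : 4 * Real.pi * Cb * w ≤ 4 * Real.pi * Cb * (L ^ (15 : ℝ) * y * w) := by
      gcongr
    rw [← hy]
    calc 256 * r + Real.exp (Dm * v) * L ^ (15 : ℝ) * T₁ ^ (-(1 / 2) : ℝ) +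
          2 * (2 * Cb / T₁ ^ 2 * (Real.pi * T₁))
        ≤ (257 + 4 * Real.pi * Cb) * L ^ (15 : ℝ) * y * w := by linarith
      _ ≤ (257 + 4 * Real.pi * Cb) * L ^ (15 : ℝ) * y * sv (Kf / (1 / 6)) v Q X := by gcongr
  have hfin := hKg v Q X r8
  rw [Real.rpow_zero, mul_one, zero_mul, Real.exp_zero, mul_one] at hfin
  have hlast : sv Kg v Q X ≤ sv (Kg + |Kd| + |Kl| + Kb + Km + Kf + Kq + Ke + 30) v Q X :=
    sv_mono hv0 (by linarith) (by linarith) hQ1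
  have hu2 : (T - T₁) * u + (-T₁ - -T) * u ≤ 2 * T * u := XD2C_aux3 T T₁ u hT₁0.le hu0
  rw [hsplit]
  linarith

end Pool.Agent.Lib.H68T
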