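import Pool.Agent.Lib.H51D.VD2A
import Pool.Agent.Lib.H51D.VD2B
import Pool.Agent.Lib.H51D.VD2C
import Pool.Agent.Lib.H68X.XDA

/-!
# Chunk VDA: the structured part
-/

open Finset MeasureTheory

namespace Pool.Agent.Lib.H68T

/-- Port of `structured_exc` (file `H68X/XDA.lean`; `XDA_diff` can be used), with `L1_trivialV`
(`ExcDataV.zeta`, `ExcDataV.inv` for `p0`), `L1_excV`, `L1_restV`, `sv_of_Q`, `sv_absorb`. -/
theorem structured_excV (c' C : ℝ) (hc' : 0 < c') : ∃ K : ℝ, 1 ≤ K ∧ ∀ (v : ℝ) (Q X : ℕ),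
    RegV K v Q X → ∀ (r : ℕ) (ψ : DirichletCharacter ℂ r) (β : ℝ), ExcDataV c' C v Q r ψ β →
    ∀ m : ℤ, (X : ℤ) ≤ m → m ≤ 4 * X →
    ‖((Lk Q (X / Q ^ 2) m - G Q m : ℝ) : ℂ) +
      (Gam Q r m : ℂ) * ψ (m : ZMod r) * (((m : ℝ) ^ (β - 1) : ℝ) : ℂ)‖ ≤
        sv K v Q X * dQ Q m := by
  classical
  obtain ⟨K1, hK1⟩ := B_le
  obtain ⟨K2, hK2⟩ := B0_le
  obtain ⟨K3, hK31, hK3⟩ := L1_restV c' C hc'
  obtain ⟨K4, hK41, hK4⟩ := L1_trivialV c' C hc'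
  obtain ⟨K6, hK61, hK6⟩ := B1_le
  obtain ⟨K7, hK71, hK7⟩ := L1_excV c' C hc'
  obtain ⟨K5, hK50, hK51, hK5⟩ := sv_absorb 600 3 0 (K3 + K4 + K7 + 2) (by linarith)
  have a1 := abs_nonneg K1
  have a2 := abs_nonneg K2
  have b1 := le_abs_self K1
  have b2 := le_abs_self K2
  refine ⟨|K1| + |K2| + K3 + K4 + K5 + K6 + K7 + 1000, by linarith, ?_⟩
  intro v Q X hRV r ψ β hE m hm hm4
  have hR := hRV.1
  have hv0 : 0 ≤ v := by linarith [hRV.2.1]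
  set K := |K1| + |K2| + K3 + K4 + K5 + K6 + K7 + 1000 with hK
  have hK0 : (0 : ℝ) ≤ K := by linarith
  have hK1' : (1 : ℝ) ≤ K := by linarith
  have hKp : (0 : ℝ) < K := by linarith
  have R1 := hR.mono (K' := K1) hK0 (by linarith)
  have R2 := hR.mono (K' := K2) hK0 (by linarith)
  have R3 := hRV.mono (K' := K3) hK0 (by linarith)
  have R4 := hRV.mono (K' := K4) hK0 (by linarith)
  have R5 := hRV.mono (K' := K5) hK0 (by linarith)
  have R6 := hR.mono (K' := K6) hK0 (by linarith)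
  have R7 := hRV.mono (K' := K7) hK0 (by linarith)
  have hlX : 1000 ≤ Real.log X := by
    have h1 := hR.logX_ge hKp
    have h2 := Real.add_one_le_exp K
    linarith
  have hlX0 : 0 < Real.log X := by linarith
  have hQge : (1000 : ℝ) ≤ Q := by
    have := hR.Q_ge hK1'
    linarith
  have hQ0 : (0 : ℝ) < Q := by linarith
  have hQ1 : 1 ≤ Q := hR.Q_pos hK1'
  have hlogQ : 1000 ≤ Real.log Q := by
    have := hR.logQ_ge hK1'
    linarith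
  have hlQX3 : 3 * Real.log Q ≤ Real.log X := by
    have h1 := hR.logQ_le hK1'
    have h2 : 3 * Real.log Q ≤ K * Real.log Q :=
      mul_le_mul_of_nonneg_right (by linarith) (by linarith)
    linarith
  have hlQX : 1 + Real.log Q ≤ Real.log X := by linarith
  have hXpos : (0 : ℝ) < X := by exact_mod_cast hR.X_pos hKp
  have hQX : (Q : ℝ) ^ 3 ≤ X := by
    have h3 : Real.log ((Q : ℝ) ^ 3) ≤ Real.log X := by
      rw [Real.log_pow]; push_cast; linarith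
    exact (Real.log_le_log_iff (by positivity) hXpos).mp h3
  have hQX' : Q ^ 3 ≤ X := by exact_mod_cast hQX
  have hQ1000 : 1000 ≤ Q := by exact_mod_cast hQge
  have hYle : X / Q ^ 2 * 2 ≤ X := by
    have h1 : X / Q ^ 2 * Q ^ 2 ≤ X := Nat.div_mul_le_self _ _
    have h2 : 2 ≤ Q ^ 2 := by nlinarith
    calc X / Q ^ 2 * 2 ≤ X / Q ^ 2 * Q ^ 2 := Nat.mul_le_mul_left _ h2
      _ ≤ X := h1
  have hX0 : 0 < X := hR.X_pos hKp
  have hQ2 : 2 * Q ≤ X := by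
    have : 2 * Q ≤ Q ^ 3 := by nlinarith [Nat.mul_le_mul hQ1000 hQ1000]
    omega
  have hYX : X / Q ^ 2 < X := by omega
  have hQY : Q + X / Q ^ 2 ≤ X := by omega
  have hd := one_le_dQ Q hQ1 m
  have hmain := XDA_diff Q X (X / Q ^ 2) m hm hm4 hYX hQY hQ1 r ψ hE.mem hE.ne hE.sq
    ((m : ℝ) ^ (β - 1))
  set ℓ := Real.log X with hℓ
  have hG1 : |G Q m| ≤ 100 * ℓ ^ 3 * dQ Q m := by
    refine (abs_G_le Q m).trans ?_
    have h1 : (1 + Real.log Q) ^ 2 ≤ ℓ ^ 2 := by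
      apply pow_le_pow_left₀ (by linarith) hlQX
    have h2 : ℓ ^ 2 ≤ ℓ ^ 3 := pow_le_pow_right₀ (by linarith) (by norm_num)
    have h0 : 0 ≤ ℓ ^ 2 := by positivity
    have h3 : 10 * (1 + Real.log Q) ^ 2 ≤ 100 * ℓ ^ 3 := by linarith
    exact mul_le_mul_of_nonneg_right h3 (by linarith)
  have hGam : ∀ p ∈ PC Q, |Gam Q p.1 m| ≤ 100 * ℓ ^ 3 * dQ Q m := by
    intro p hp
    have hp' := mem_PC.mp hp
    refine (abs_Gam_le Q p.1 hp'.1 hp'.2.1 m).trans ?_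
    have h1 : (1 + Real.log Q) ^ 3 ≤ ℓ ^ 3 := by
      apply pow_le_pow_left₀ (by linarith) hlQX
    exact mul_le_mul_of_nonneg_right (by linarith) (by linarith)
  have hpow : ∀ e : ℝ, e ≤ -(1 / 2) → (Q : ℝ) ^ e ≤ (Q : ℝ) ^ (-(1 / 2) : ℝ) := fun e he =>
    Real.rpow_le_rpow_of_exponent_le (by linarith) he
  set q := (Q : ℝ) ^ (-(1 / 2) : ℝ) with hq
  have hq0 : 0 ≤ q := Real.rpow_nonneg hQ0.le _
  have hB0 : |∑ n ∈ Icc 1 (60 * X), lp n * tent (X / Q ^ 2) (m - n) - 1| ≤ sv K4 v Q X + q :=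
    (hK2 Q X R2 m hm hm4).trans (add_le_add (hK4 v Q X R4 hE.zeta (hE.inv p0 (p0_mem hQ1) hE.ne.symm)) (hpow _ (by norm_num)))
  have hB1 : ‖∑ n ∈ Icc 1 (60 * X), ((lp n * tent (X / Q ^ 2) (m - n) : ℝ) : ℂ) *
        ψ (n : ZMod r) + (((m : ℝ) ^ (β - 1) : ℝ) : ℂ)‖ ≤ sv K7 v Q X + q :=
    (hK6 Q X R6 ⟨r, ψ⟩ (mem_PC.mp hE.mem).1 β hE.half hE.lt.le m hm hm4).trans
      (add_le_add (hK7 v Q X R7 ⟨r, ψ⟩ hE.mem hE.ne β hE.half hE.lt hE.log hE.high)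
        (hpow _ (by norm_num)))
  set S := (PC Q).filter (fun p => p ≠ p0 ∧ p ≠ ⟨r, ψ⟩) with hS
  have hSsub : S ⊆ PC Q := filter_subset _ _
  have hBs : ∑ p ∈ S, ‖∑ n ∈ Icc 1 (60 * X), ((lp n * tent (X / Q ^ 2) (m - n) : ℝ) : ℂ) *
        p.2 (n : ZMod p.1)‖ ≤ sv K3 v Q X + q := by
    calc _ ≤ ∑ p ∈ S,
          ((∫ t in (-(Q : ℝ) ^ 7)..((Q : ℝ) ^ 7), ‖FL X p t‖) + (Q : ℝ) ^ (-(5 / 2) : ℝ)) :=
          sum_le_sum fun p hp => hK1 Q X R1 p (mem_PC.mp (hSsub hp)).1 m hm hm4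
      _ = (∑ p ∈ S, ∫ t in (-(Q : ℝ) ^ 7)..((Q : ℝ) ^ 7), ‖FL X p t‖) +
            S.card * (Q : ℝ) ^ (-(5 / 2) : ℝ) := by
          rw [sum_add_distrib, sum_const, nsmul_eq_mul]
      _ ≤ _ := by
          refine add_le_add (hK3 v Q X R3 S hSsub ?_ ?_) ?_
          · rw [hS]
            simp only [mem_filter, not_and]
            exact fun _ h => absurd rfl h
          · intro p hp
            exact hE.inv p (hSsub hp) (mem_filter.mp hp).2.2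
          have h1 : (S.card : ℝ) ≤ (Q : ℝ) ^ 2 := by
            have := (card_le_card hSsub).trans (card_PC_le Q)
            exact_mod_cast this
          have h2 : q = (Q : ℝ) ^ 2 * (Q : ℝ) ^ (-(5 / 2) : ℝ) := by
            rw [hq, ← Real.rpow_natCast, ← Real.rpow_add hQ0]
            norm_num
          rw [h2]
          exact mul_le_mul_of_nonneg_right h1 (Real.rpow_nonneg hQ0.le _)
  set K' := K3 + K4 + K7 + 2 with hK'
  have s3 : sv K3 v Q X ≤ sv K' v Q X := sv_mono hv0 (by linarith) (by linarith) hQ1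
  have s4 : sv K4 v Q X ≤ sv K' v Q X := sv_mono hv0 (by linarith) (by linarith) hQ1
  have s7 : sv K7 v Q X ≤ sv K' v Q X := sv_mono hv0 (by linarith) (by linarith) hQ1
  have sq : q ≤ sv K' v Q X := by
    refine le_trans ?_ (sv_mono hv0 (by norm_num : (0:ℝ) < 2) (by linarith) hQ1)
    unfold sv
    rw [hq]
    linarith [Real.exp_pos (-(v * (Real.log X / (2 * Real.log Q))))]
  set σ := sv K' v Q X with hσ
  have hσ0 : 0 ≤ σ := (sv_pos K' v Q X hQ1).le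
  have hD0 : 0 ≤ 100 * ℓ ^ 3 * dQ Q m := by positivity
  have hsum : ∑ p ∈ S, |Gam Q p.1 m| *
        ‖∑ n ∈ Icc 1 (60 * X), ((lp n * tent (X / Q ^ 2) (m - n) : ℝ) : ℂ) *
          p.2 (n : ZMod p.1)‖ ≤ 100 * ℓ ^ 3 * dQ Q m * (2 * σ) := by
    refine (sum_le_sum fun p hp => mul_le_mul_of_nonneg_right (hGam p (hSsub hp))
      (norm_nonneg _)).trans ?_
    rw [← mul_sum]
    exact mul_le_mul_of_nonneg_left (hBs.trans (by linarith)) hD0
  have h6 : |G Q m| * |∑ n ∈ Icc 1 (60 * X), lp n * tent (X / Q ^ 2) (m - n) - 1| ≤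
      100 * ℓ ^ 3 * dQ Q m * (2 * σ) :=
    mul_le_mul hG1 (hB0.trans (by linarith)) (abs_nonneg _) hD0
  have h7 : |Gam Q r m| * ‖∑ n ∈ Icc 1 (60 * X), ((lp n * tent (X / Q ^ 2) (m - n) : ℝ) : ℂ) *
        ψ (n : ZMod r) + (((m : ℝ) ^ (β - 1) : ℝ) : ℂ)‖ ≤ 100 * ℓ ^ 3 * dQ Q m * (2 * σ) :=
    mul_le_mul (hGam ⟨r, ψ⟩ hE.mem) (hB1.trans (by linarith)) (norm_nonneg _) hD0
  have h8 := hK5 v Q X R5
  rw [← hℓ, ← hσ, zero_mul, Real.exp_zero, mul_one] at h8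
  have h9 : ℓ ^ (3 : ℝ) = ℓ ^ 3 := by
    rw [← Real.rpow_natCast]; norm_num
  rw [h9] at h8
  have h10 : sv K5 v Q X ≤ sv K v Q X := sv_mono hv0 (by linarith) (by linarith) hQ1
  calc _ ≤ 100 * ℓ ^ 3 * dQ Q m * (2 * σ) + 100 * ℓ ^ 3 * dQ Q m * (2 * σ) +
        100 * ℓ ^ 3 * dQ Q m * (2 * σ) := hmain.trans (add_le_add (add_le_add h6 h7) hsum)
    _ = (600 * ℓ ^ 3 * σ) * dQ Q m := by ring
    _ ≤ sv K v Q X * dQ Q m := mul_le_mul_of_nonneg_right (h8.trans h10) (by linarith)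

end Pool.Agent.Lib.H68T
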