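import Pool.Agent.Lib.H68X.XDefs

/-!
# Project H51D (SharpTuples): definitions for the main part

The chain `Lib/H68X` measures all errors by `sw K Q X = exp (-log X/(K log Q)) + Q^(-1/K)`. If the
exceptional zero is `1 - exp (-v)`, then by the Deuring-Heilbronn phenomenon all other zeros are at
distance at least `c v/log Q` from the line `Re s = 1`, and the errors are at most
`sv K v Q X = exp (-v log X/(K log Q)) + Q^(-1/K)`, in the regime
`RegV K v Q X : Reg K Q X ∧ 1 ≤ v ∧ K v ≤ log Q`. In this regime factors `C (log X)^A exp (B v)`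
can be absorbed (`sv_absorb`).
-/

open Finset

namespace Pool.Agent.Lib.H68T

noncomputable section

/-- The error measure with amplification `v`. It increases with `K`. -/
def sv (K v : ℝ) (Q X : ℕ) : ℝ :=
  Real.exp (-(v * (Real.log X / (K * Real.log Q)))) + (Q : ℝ) ^ (-(1 / K))

/-- The regime of the parameters. -/
def RegV (K v : ℝ) (Q X : ℕ) : Prop := Reg K Q X ∧ 1 ≤ v ∧ K * v ≤ Real.log Q

/-- Control of `1/L(s, ψ)` in the wider rectangle `Rg (c' v) Q`. -/
def InvV (c' C v : ℝ) (Q : ℕ) (p : Σ r : ℕ, DirichletCharacter ℂ r) : Prop :=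
  ∃ g : ℂ → ℂ, AnalyticOnNhd ℂ g (Rg (c' * v) Q) ∧
    (∀ s : ℂ, 1 < s.re → g s = LSeries (fun n => (ArithmeticFunction.moebius n : ℂ) *
      p.2 (n : ZMod p.1)) s) ∧ ∀ s ∈ Rg (c' * v) Q, ‖g s‖ ≤ Real.exp (C * v)

/-- As `InvV`, only for `|Im s| ≥ 1`. -/
def InvHighV (c' C v : ℝ) (Q : ℕ) (p : Σ r : ℕ, DirichletCharacter ℂ r) : Prop :=
  ∃ g : ℂ → ℂ, AnalyticOnNhd ℂ g (Rg (c' * v) Q ∩ {s | 1 ≤ |s.im|}) ∧
    (∀ s : ℂ, 1 < s.re → g s = LSeries (fun n => (ArithmeticFunction.moebius n : ℂ) *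
      p.2 (n : ZMod p.1)) s) ∧ ∀ s ∈ Rg (c' * v) Q, 1 ≤ |s.im| → ‖g s‖ ≤ Real.exp (C * v)

/-- Control of `-L'/L(s,ψ) + 1/(s-β)` in the wider rectangle. -/
def LogV (c' C v : ℝ) (Q : ℕ) (p : Σ r : ℕ, DirichletCharacter ℂ r) (β : ℝ) : Prop :=
  ∃ g : ℂ → ℂ, AnalyticOnNhd ℂ g (Rg (c' * v) Q) ∧
    (∀ s : ℂ, 1 < s.re → g s = LSeries (fun n => (ArithmeticFunction.vonMangoldt n : ℂ) *
      p.2 (n : ZMod p.1)) s + 1 / (s - β)) ∧ ∀ s ∈ Rg (c' * v) Q, ‖g s‖ ≤ Real.exp (C * v)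

/-- Control of `-ζ'/ζ(s) - 1/(s-1)` in the wider rectangle. -/
def ZetaV (c' C v : ℝ) (Q : ℕ) : Prop :=
  ∃ g : ℂ → ℂ, AnalyticOnNhd ℂ g (Rg (c' * v) Q) ∧
    (∀ s : ℂ, 1 < s.re → g s = LSeries (fun n => (ArithmeticFunction.vonMangoldt n : ℂ)) s -
      1 / (s - 1)) ∧ ∀ s ∈ Rg (c' * v) Q, ‖g s‖ ≤ Real.exp (C * v)

/-- Everything known about L-functions at a level `Q` with the exceptional zero `β` of `ψ`,
`v = log (1/(1-β))`. -/
structure ExcDataV (c' C v : ℝ) (Q r : ℕ) (ψ : DirichletCharacter ℂ r) (β : ℝ) : Prop where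
  mem : (⟨r, ψ⟩ : Σ r : ℕ, DirichletCharacter ℂ r) ∈ PC Q
  ne : (⟨r, ψ⟩ : Σ r : ℕ, DirichletCharacter ℂ r) ≠ p0
  sq : ψ ^ 2 = 1
  half : 1 / 2 ≤ β
  lt : β < 1
  log : LogV c' C v Q ⟨r, ψ⟩ β
  high : InvHighV c' C v Q ⟨r, ψ⟩
  zeta : ZetaV c' C v Q
  inv : ∀ p ∈ PC Q, p ≠ ⟨r, ψ⟩ → InvV c' C v Q p

/-- At least half of the admissible `k`-sets have a prime translate, for all large `x`, for all
`k ≤ (log x)^(κ-δ)`. -/
def MostHaveK (κ : ℝ) : Prop :=
  open Classical in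
  ∀ δ : ℝ, 0 < δ → δ < κ → ∃ x₀ : ℝ, ∀ x : ℝ, x₀ ≤ x → ∀ k : ℕ, 1 ≤ k →
    (k : ℝ) ≤ (Real.log x) ^ (κ - δ) →
    2 * (((range (⌊x ^ (1 - δ)⌋₊ + 1)).powersetCard k).filter (fun A => Admissible A ∧
      ¬ HasPrimeTranslate x A)).card ≤
        (((range (⌊x ^ (1 - δ)⌋₊ + 1)).powersetCard k).filter (fun A => Admissible A)).card

/-- Almost all admissible `k`-sets have a prime translate, for all large `x`, for all
`k ≤ (log x)^(κ-δ)`. -/
def AlmostAllHaveK (κ : ℝ) : Prop :=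
  open Classical in
  ∀ δ : ℝ, 0 < δ → δ < κ → ∃ x₀ : ℝ, ∀ x : ℝ, x₀ ≤ x → ∀ k : ℕ, 1 ≤ k →
    (k : ℝ) ≤ (Real.log x) ^ (κ - δ) →
    ((((range (⌊x ^ (1 - δ)⌋₊ + 1)).powersetCard k).filter (fun A => Admissible A ∧
      ¬ HasPrimeTranslate x A)).card : ℝ) ≤ (Real.log x) ^ (-(δ / 5)) *
        ((((range (⌊x ^ (1 - δ)⌋₊ + 1)).powersetCard k).filter
          (fun A => Admissible A)).card : ℝ)

/-- For every `ε > 0` and all large `r`, no real primitive character modulo `r` has a real zero in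
`[1 - exp (-(log r)^(1/κ-1+ε)), 1]`. -/
def NoSiegelK (κ : ℝ) : Prop :=
  ∀ ε : ℝ, 0 < ε → ∃ r₀ : ℕ, ∀ r : ℕ, r₀ ≤ r → ∀ [NeZero r], ∀ ψ : DirichletCharacter ℂ r,
    ψ.IsPrimitive → ψ ≠ 1 → ψ ^ 2 = 1 → ∀ σ : ℝ,
    1 - Real.exp (-(Real.log r) ^ (1 / κ - 1 + ε)) ≤ σ → σ ≤ 1 → ψ.LFunction (σ : ℂ) ≠ 0

end

theorem RegV.mono {K K' v : ℝ} {Q X : ℕ} (h : RegV K v Q X) (h0 : 0 ≤ K) (hK : K' ≤ K) :
    RegV K' v Q X := by
  obtain ⟨h1, h2, h3⟩ := h
  exact ⟨h1.mono h0 hK, h2, (mul_le_mul_of_nonneg_right hK (by linarith)).trans h3⟩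

theorem RegV.reg {K v : ℝ} {Q X : ℕ} (h : RegV K v Q X) : Reg K Q X := h.1

theorem RegV.v_ge {K v : ℝ} {Q X : ℕ} (h : RegV K v Q X) : 1 ≤ v := h.2.1

theorem RegV.v_le {K v : ℝ} {Q X : ℕ} (h : RegV K v Q X) : K * v ≤ Real.log Q := h.2.2

theorem InvV.mono {c c' C C' v : ℝ} {Q : ℕ} {p : Σ r : ℕ, DirichletCharacter ℂ r} (hv : 0 ≤ v)
    (h : InvV c' C v Q p) (hc : c ≤ c') (hC : C ≤ C') : InvV c C' v Q p := by
  obtain ⟨g, h1, h2, h3⟩ := h
  have hR := Rg_mono (Q := Q) (mul_le_mul_of_nonneg_right hc hv)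
  refine ⟨g, h1.mono hR, h2, fun s hs => (h3 s (hR hs)).trans ?_⟩
  exact Real.exp_le_exp.mpr (mul_le_mul_of_nonneg_right hC hv)

theorem InvHighV.mono {c c' C C' v : ℝ} {Q : ℕ} {p : Σ r : ℕ, DirichletCharacter ℂ r}
    (hv : 0 ≤ v) (h : InvHighV c' C v Q p) (hc : c ≤ c') (hC : C ≤ C') :
    InvHighV c C' v Q p := by
  obtain ⟨g, h1, h2, h3⟩ := h
  have hR := Rg_mono (Q := Q) (mul_le_mul_of_nonneg_right hc hv)
  refine ⟨g, h1.mono (Set.inter_subset_inter_left _ hR), h2, fun s hs hi =>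
    (h3 s (hR hs) hi).trans ?_⟩
  exact Real.exp_le_exp.mpr (mul_le_mul_of_nonneg_right hC hv)

theorem LogV.mono {c c' C C' v : ℝ} {Q : ℕ} {p : Σ r : ℕ, DirichletCharacter ℂ r} {β : ℝ}
    (hv : 0 ≤ v) (h : LogV c' C v Q p β) (hc : c ≤ c') (hC : C ≤ C') : LogV c C' v Q p β := by
  obtain ⟨g, h1, h2, h3⟩ := h
  have hR := Rg_mono (Q := Q) (mul_le_mul_of_nonneg_right hc hv)
  refine ⟨g, h1.mono hR, h2, fun s hs => (h3 s (hR hs)).trans ?_⟩
  exact Real.exp_le_exp.mpr (mul_le_mul_of_nonneg_right hC hv)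

theorem ZetaV.mono {c c' C C' v : ℝ} {Q : ℕ} (hv : 0 ≤ v) (h : ZetaV c' C v Q) (hc : c ≤ c')
    (hC : C ≤ C') : ZetaV c C' v Q := by
  obtain ⟨g, h1, h2, h3⟩ := h
  have hR := Rg_mono (Q := Q) (mul_le_mul_of_nonneg_right hc hv)
  refine ⟨g, h1.mono hR, h2, fun s hs => (h3 s (hR hs)).trans ?_⟩
  exact Real.exp_le_exp.mpr (mul_le_mul_of_nonneg_right hC hv)

theorem InvV.high {c' C v : ℝ} {Q : ℕ} {p : Σ r : ℕ, DirichletCharacter ℂ r}
    (h : InvV c' C v Q p) : InvHighV c' C v Q p := by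
  obtain ⟨g, h1, h2, h3⟩ := h
  exact ⟨g, h1.mono Set.inter_subset_left, h2, fun s hs _ => h3 s hs⟩

/-! ## Calculus of `sv` -/

theorem sv_pos (K v : ℝ) (Q X : ℕ) (hQ : 0 < Q) : 0 < sv K v Q X := by
  unfold sv
  have : (0:ℝ) < Q := by exact_mod_cast hQ
  positivity

theorem sv_mono {K K' v : ℝ} {Q X : ℕ} (hv : 0 ≤ v) (hK : 0 < K) (hKK : K ≤ K') (hQ : 1 ≤ Q) :
    sv K v Q X ≤ sv K' v Q X := by
  unfold sv
  have hQ1 : (1:ℝ) ≤ Q := by exact_mod_cast hQ
  have hlQ : 0 ≤ Real.log Q := Real.log_nonneg hQ1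
  have hlX : 0 ≤ Real.log X := by positivity
  have hK' : 0 < K' := hK.trans_le hKK
  apply add_le_add
  · apply Real.exp_le_exp.mpr
    apply neg_le_neg
    apply mul_le_mul_of_nonneg_left _ hv
    rcases eq_or_lt_of_le hlQ with h0 | h0
    · rw [← h0]; simp
    · exact div_le_div_of_nonneg_left hlX (by positivity) (mul_le_mul_of_nonneg_right hKK hlQ)
  · apply Real.rpow_le_rpow_of_exponent_le hQ1
    apply neg_le_neg
    exact one_div_le_one_div_of_le hK hKK

/-- `sv ≤ sw` -/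
theorem sv_le_sw {K v : ℝ} {Q X : ℕ} (hv : 1 ≤ v) (hK : 0 < K) (hQ : 1 ≤ Q) :
    sv K v Q X ≤ sw K Q X := by
  unfold sv sw
  have hQ1 : (1:ℝ) ≤ Q := by exact_mod_cast hQ
  have hlQ : 0 ≤ Real.log Q := Real.log_nonneg hQ1
  have hlX : 0 ≤ Real.log X := by positivity
  apply add_le_add _ le_rfl
  apply Real.exp_le_exp.mpr
  apply neg_le_neg
  exact le_mul_of_one_le_left (by positivity) hv

/-- Absorb constants, powers of `log X` and exponentials of `v` into `sv`. -/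
theorem sv_absorb (C A B K₁ : ℝ) (hK₁ : 0 < K₁) : ∃ K : ℝ, K₁ ≤ K ∧ 1 ≤ K ∧
    ∀ (v : ℝ) (Q X : ℕ), RegV K v Q X →
    C * (Real.log X) ^ A * Real.exp (B * v) * sv K₁ v Q X ≤ sv K v Q X := by
  set a := |A| + |B| + |C| + 2 with hadef
  have hA := abs_nonneg A
  have hBn := abs_nonneg B
  have hCn := abs_nonneg C
  set K := 2 * a * K₁ + 2 with hKdef
  have ha2 : 2 ≤ a := by rw [hadef]; linarith
  have hK1 : 1 ≤ K := by
    rw [hKdef]
    have : 0 ≤ 2 * a * K₁ := by positivity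
    linarith
  have hKK : K₁ ≤ K := by rw [hKdef]; nlinarith
  refine ⟨K, hKK, hK1, fun v Q X h => ?_⟩
  have hK0 : 0 < K := by linarith
  obtain ⟨hr, hv1, hvK⟩ := h
  have hv0 : 0 ≤ v := by linarith
  have hlX := hr.logX_pos hK0
  have hll : 1 ≤ Real.log (Real.log X) := hK1.trans hr.1
  have hlQ : 1 ≤ Real.log Q := hK1.trans (hr.logQ_ge hK1)
  have hQ : (0:ℝ) < Q := by exact_mod_cast hr.Q_pos hK1
  rcases le_or_gt C 0 with hC0 | hC0
  · have h1 : C * (Real.log X) ^ A * Real.exp (B * v) ≤ 0 :=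
      mul_nonpos_of_nonpos_of_nonneg
        (mul_nonpos_of_nonpos_of_nonneg hC0 (Real.rpow_nonneg hlX.le _)) (Real.exp_pos _).le
    have h2 := mul_nonpos_of_nonpos_of_nonneg h1 (sv_pos K₁ v Q X (hr.Q_pos hK1)).le
    exact h2.trans (sv_pos K v Q X (hr.Q_pos hK1)).le
  have hCA : C * (Real.log X) ^ A * Real.exp (B * v) ≤
      Real.exp ((a - 1) * Real.log (Real.log X) + (a - 1) * v) := by
    have h1 : C ≤ Real.exp ((1 + |C|) * Real.log (Real.log X)) := by
      have : C ≤ Real.exp C := by linarith [Real.add_one_le_exp C]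
      refine this.trans (Real.exp_le_exp.mpr ?_)
      have : C ≤ |C| := le_abs_self C
      nlinarith
    rw [Real.rpow_def_of_pos hlX]
    calc C * Real.exp (Real.log (Real.log X) * A) * Real.exp (B * v)
        ≤ Real.exp ((1 + |C|) * Real.log (Real.log X)) * Real.exp (Real.log (Real.log X) * A) *
            Real.exp (B * v) :=
          mul_le_mul_of_nonneg_right (mul_le_mul_of_nonneg_right h1 (Real.exp_pos _).le)
            (Real.exp_pos _).le
      _ = Real.exp ((1 + |C| + A) * Real.log (Real.log X) + B * v) := by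
          rw [← Real.exp_add, ← Real.exp_add]; ring_nf
      _ ≤ _ := by
          apply Real.exp_le_exp.mpr
          apply add_le_add
          · apply mul_le_mul_of_nonneg_right _ (by linarith)
            rw [hadef]
            linarith [le_abs_self A]
          · apply mul_le_mul_of_nonneg_right _ hv0
            rw [hadef]
            linarith [le_abs_self B]
  have hr2 : K * Real.log (Real.log X) ≤ Real.log X / Real.log Q := by
    rw [le_div_iff₀ (by linarith)]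
    have := hr.2.2
    nlinarith
  have hr1 : K * Real.log (Real.log X) ≤ Real.log Q := hr.2.1
  have hinv : 0 ≤ 1 / K₁ - 1 / K := by
    have := one_div_le_one_div_of_le hK₁ hKK
    linarith
  have ha : 2 * a ≤ K / K₁ := by
    rw [le_div_iff₀ hK₁, hKdef]; linarith
  have hkey : (a - 1) * Real.log (Real.log X) ≤
      (1 / K₁ - 1 / K) * (K * Real.log (Real.log X)) / 2 := by
    have h1 : (1 / K₁ - 1 / K) * (K * Real.log (Real.log X)) =
        (K / K₁ - 1) * Real.log (Real.log X) := by field_simp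
    rw [h1]
    have h2 : (a - 1) ≤ (K / K₁ - 1) / 2 := by linarith
    have h3 := mul_le_mul_of_nonneg_right h2 (show 0 ≤ Real.log (Real.log X) by linarith)
    linarith
  have hkey2 : (a - 1) * v ≤ (1 / K₁ - 1 / K) * (K * v) / 2 := by
    have h1 : (1 / K₁ - 1 / K) * (K * v) = (K / K₁ - 1) * v := by field_simp
    rw [h1]
    have h2 : (a - 1) ≤ (K / K₁ - 1) / 2 := by linarith
    have h3 := mul_le_mul_of_nonneg_right h2 hv0
    linarith
  unfold sv
  rw [mul_add]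
  apply add_le_add
  · calc C * (Real.log X) ^ A * Real.exp (B * v) *
          Real.exp (-(v * (Real.log X / (K₁ * Real.log Q))))
        ≤ Real.exp ((a - 1) * Real.log (Real.log X) + (a - 1) * v) *
            Real.exp (-(v * (Real.log X / (K₁ * Real.log Q)))) :=
          mul_le_mul_of_nonneg_right hCA (Real.exp_pos _).le
      _ = Real.exp ((a - 1) * Real.log (Real.log X) + (a - 1) * v -
            v * (Real.log X / (K₁ * Real.log Q))) := by
          rw [← Real.exp_add]; ring_nf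
      _ ≤ _ := by
          apply Real.exp_le_exp.mpr
          have h1 : Real.log X / (K₁ * Real.log Q) = (1 / K₁) * (Real.log X / Real.log Q) := by
            field_simp
          have h2 : Real.log X / (K * Real.log Q) = (1 / K) * (Real.log X / Real.log Q) := by
            field_simp
          rw [h1, h2]
          set R := Real.log X / Real.log Q with hR
          have hRK : K * Real.log (Real.log X) ≤ R := hr2
          have hRK' : K ≤ R := by
            have : K * 1 ≤ K * Real.log (Real.log X) :=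
              mul_le_mul_of_nonneg_left hll hK0.le
            linarith
          -- v R (1/K₁ - 1/K) ≥ both
          have h4 : (1 / K₁ - 1 / K) * (K * Real.log (Real.log X)) ≤ (1 / K₁ - 1 / K) * (v * R) := by
            apply mul_le_mul_of_nonneg_left _ hinv
            have h5 : 1 * R ≤ v * R := mul_le_mul_of_nonneg_right hv1 (by linarith)
            linarith
          have h5 : (1 / K₁ - 1 / K) * (K * v) ≤ (1 / K₁ - 1 / K) * (v * R) := by
            apply mul_le_mul_of_nonneg_left _ hinv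
            have h6 : v * K ≤ v * R := mul_le_mul_of_nonneg_left hRK' hv0
            linarith
          have h6 : (1 / K₁ - 1 / K) * (v * R) = v * (1 / K₁ * R) - v * (1 / K * R) := by ring
          linarith
  · calc C * (Real.log X) ^ A * Real.exp (B * v) * (Q : ℝ) ^ (-(1 / K₁))
        ≤ Real.exp ((a - 1) * Real.log (Real.log X) + (a - 1) * v) * (Q : ℝ) ^ (-(1 / K₁)) :=
          mul_le_mul_of_nonneg_right hCA (Real.rpow_nonneg hQ.le _)
      _ = Real.exp ((a - 1) * Real.log (Real.log X) + (a - 1) * v - (1 / K₁) * Real.log Q) := by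
          rw [Real.rpow_def_of_pos hQ, ← Real.exp_add]; ring_nf
      _ ≤ Real.exp (Real.log Q * (-(1 / K))) := by
          apply Real.exp_le_exp.mpr
          have h3 := mul_le_mul_of_nonneg_left hr1 hinv
          have h4 := mul_le_mul_of_nonneg_left hvK hinv
          linarith
      _ = _ := by rw [Real.rpow_def_of_pos hQ]

/-- Negative powers of `Q` are absorbed in `sv`. -/
theorem sv_of_Q (C A B ε : ℝ) (hε : 0 < ε) : ∃ K : ℝ, 1 ≤ K ∧ ∀ (v : ℝ) (Q X : ℕ), RegV K v Q X →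
    C * (Real.log X) ^ A * Real.exp (B * v) * (Q : ℝ) ^ (-ε) ≤ sv K v Q X := by
  obtain ⟨K, hK1, hK2, hK⟩ := sv_absorb |C| A B (1 / ε) (by positivity)
  refine ⟨K, hK2, fun v Q X h => le_trans ?_ (hK v Q X h)⟩
  have hlX := h.1.logX_pos (by linarith)
  have hQ : (0:ℝ) < Q := by exact_mod_cast h.1.Q_pos hK2
  have h1 : C * (Real.log X) ^ A * Real.exp (B * v) ≤ |C| * (Real.log X) ^ A * Real.exp (B * v) :=
    mul_le_mul_of_nonneg_right (mul_le_mul_of_nonneg_right (le_abs_self C)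
      (Real.rpow_nonneg hlX.le _)) (Real.exp_pos _).le
  calc C * (Real.log X) ^ A * Real.exp (B * v) * (Q : ℝ) ^ (-ε)
      ≤ |C| * (Real.log X) ^ A * Real.exp (B * v) * (Q : ℝ) ^ (-ε) :=
        mul_le_mul_of_nonneg_right h1 (Real.rpow_nonneg hQ.le _)
    _ ≤ |C| * (Real.log X) ^ A * Real.exp (B * v) * sv (1 / ε) v Q X := by
        apply mul_le_mul_of_nonneg_left _ (by positivity)
        unfold sv
        have : (-(1 / (1 / ε)) : ℝ) = -ε := by field_simp
        rw [this]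
        linarith [Real.exp_pos (-(v * (Real.log X / (1 / ε * Real.log Q))))]

/-- The saving of the wider zero-free region is absorbed in `sv`. -/
theorem sv_of_exp (C A B c : ℝ) (hc : 0 < c) : ∃ K : ℝ, 1 ≤ K ∧
    ∀ (v : ℝ) (Q X : ℕ), RegV K v Q X →
    C * (Real.log X) ^ A * Real.exp (B * v) *
      Real.exp (-(c * (v * (Real.log X / Real.log Q)))) ≤ sv K v Q X := by
  obtain ⟨K, hK1, hK2, hK⟩ := sv_absorb |C| A B (1 / c) (by positivity)
  refine ⟨K, hK2, fun v Q X h => le_trans ?_ (hK v Q X h)⟩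
  have hlX := h.1.logX_pos (by linarith)
  have hQ : (0:ℝ) < Q := by exact_mod_cast h.1.Q_pos hK2
  have h1 : C * (Real.log X) ^ A * Real.exp (B * v) ≤ |C| * (Real.log X) ^ A * Real.exp (B * v) :=
    mul_le_mul_of_nonneg_right (mul_le_mul_of_nonneg_right (le_abs_self C)
      (Real.rpow_nonneg hlX.le _)) (Real.exp_pos _).le
  calc C * (Real.log X) ^ A * Real.exp (B * v) *
        Real.exp (-(c * (v * (Real.log X / Real.log Q))))
      ≤ |C| * (Real.log X) ^ A * Real.exp (B * v) *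
          Real.exp (-(c * (v * (Real.log X / Real.log Q)))) :=
        mul_le_mul_of_nonneg_right h1 (Real.exp_pos _).le
    _ ≤ |C| * (Real.log X) ^ A * Real.exp (B * v) * sv (1 / c) v Q X := by
        apply mul_le_mul_of_nonneg_left _ (by positivity)
        unfold sv
        have : v * (Real.log X / (1 / c * Real.log Q)) =
            c * (v * (Real.log X / Real.log Q)) := by
          field_simp
        rw [this]
        linarith [Real.rpow_nonneg hQ.le (-(1 / (1 / c)))]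

/-- `(sv K)^θ ≤ sv (K/θ)` for `0 < θ ≤ 1`. -/
theorem sv_rpow (K v θ : ℝ) (hK : 0 < K) (hθ : 0 < θ) (hθ1 : θ ≤ 1) (Q X : ℕ) (hQ : 2 ≤ Q) :
    (sv K v Q X) ^ θ ≤ sv (K / θ) v Q X := by
  have hQ0 : (0:ℝ) < Q := by
    have : 0 < Q := by omega
    exact_mod_cast this
  unfold sv
  have h1 := Real.rpow_add_le_add_rpow (Real.exp_pos (-(v * (Real.log X / (K * Real.log Q))))).le
    (Real.rpow_nonneg hQ0.le (-(1 / K))) hθ.le hθ1
  refine h1.trans (le_of_eq ?_)
  congr 1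
  · rw [← Real.exp_mul]
    congr 1
    rw [neg_mul]
    congr 1
    have : K / θ * Real.log Q = (K * Real.log Q) / θ := by ring
    rw [this, div_div_eq_mul_div]
    ring
  · rw [← Real.rpow_mul hQ0.le]
    congr 1
    rw [one_div_div]
    ring

end Pool.Agent.Lib.H68T
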