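import Pool.Agent.Lib.H51D.VDefs
import Pool.Agent.Lib.H68X.XFP

/-!
# Chunk VFP: the asymptotic conditions
-/

open Filter Real

namespace Pool.Agent.Lib.H68T

/-- The asymptotic conditions which replace `i16`, `i16'`, `i22`, `i22'` of `XBig`. -/
structure VBig (δ κ b e A K L : ℝ) : Prop where
  j1 : 2 * L ^ κ * (2 * L ^ b) ≤ (L ^ e - 1) / 20
  j2 : Real.log (4 * L) ≤ L ^ b
  j3 : |K| * (L ^ b + 1) ≤ L ^ e - 1
  j4 : 4 * |K| * L ^ e ≤ (1 - δ) * L / 2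
  j5 : |K| * (A * Real.log L + 1) * L ^ e ≤ (1 - δ) * L / 2
  j6 : |K| * (A * Real.log L + 1) ≤ L ^ e - 1
  j7 : 2 ≤ L
  j8 : 3 ≤ L ^ e
  j9 : Real.exp 1 ≤ Real.log (L ^ e - 1)

/-- As `ev_xbig` (file `H68X/XFP.lean`): `ev_rpow`, `XFP_lin`, `XFP_const`, `XFP_log`. For `j5`:
`log L ≤ L^((1-e)/2)` for large `L`. -/
theorem ev_vbig (δ κ b e A K : ℝ) (hδ1 : δ < 1) (hκ : 0 < κ) (hb : 0 < b)
    (hκb : κ + b < e) (he1 : e < 1) : ∀ᶠ L : ℝ in atTop, VBig δ κ b e A K L := by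
  have ha : 0 < 1 - δ := by linarith
  have he0 : 0 < e := by linarith
  have j1 : ∀ᶠ L : ℝ in atTop, 2 * L ^ κ * (2 * L ^ b) ≤ (L ^ e - 1) / 20 := by
    filter_upwards [ev_rpow 160 (κ + b) e hκb, ev_rpow 2 0 e he0, eventually_gt_atTop (0:ℝ)]
      with L h1 h2 h3
    rw [rpow_zero] at h2
    have : L ^ (κ + b) = L ^ κ * L ^ b := rpow_add h3 _ _
    rw [this] at h1
    nlinarith
  have j2 : ∀ᶠ L : ℝ in atTop, Real.log (4 * L) ≤ L ^ b := by
    filter_upwards [XFP_const (Real.log 4) 1 b 1 hb one_pos, eventually_gt_atTop (0:ℝ)]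
      with L h1 h3
    rw [Real.log_mul (by norm_num) h3.ne']
    linarith
  have j3 : ∀ᶠ L : ℝ in atTop, |K| * (L ^ b + 1) ≤ L ^ e - 1 := by
    filter_upwards [ev_rpow (2 * |K|) b e (by linarith), ev_rpow (2 * (|K| + 1)) 0 e he0]
      with L h1 h2
    rw [rpow_zero] at h2
    linarith
  have j4 : ∀ᶠ L : ℝ in atTop, 4 * |K| * L ^ e ≤ (1 - δ) * L / 2 := by
    filter_upwards [XFP_lin ((1 - δ) / 2) (4 * |K|) e (by positivity) he1] with L h1
    linarith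
  have j5 : ∀ᶠ L : ℝ in atTop, |K| * (A * Real.log L + 1) * L ^ e ≤ (1 - δ) * L / 2 := by
    have hz : 0 < (1 - e) / 2 := by linarith
    filter_upwards [XFP_const 1 |A| ((1 - e) / 2) 1 hz one_pos,
      XFP_lin ((1 - δ) / 2) |K| ((1 + e) / 2) (by positivity) (by linarith),
      eventually_ge_atTop (1:ℝ)] with L h1 h2 h3
    have hL0 : 0 < L := by linarith
    have hl : 0 ≤ Real.log L := Real.log_nonneg h3
    have h4 : A * Real.log L + 1 ≤ L ^ ((1 - e) / 2) := by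
      have := mul_le_mul_of_nonneg_right (le_abs_self A) hl
      linarith
    have h5 : |K| * (A * Real.log L + 1) * L ^ e ≤ |K| * L ^ ((1 - e) / 2) * L ^ e :=
      mul_le_mul_of_nonneg_right (mul_le_mul_of_nonneg_left h4 (abs_nonneg K))
        (rpow_nonneg hL0.le _)
    have h6 : |K| * L ^ ((1 - e) / 2) * L ^ e = |K| * L ^ ((1 + e) / 2) := by
      rw [mul_assoc, ← rpow_add hL0]
      ring_nf
    linarith
  have j6 : ∀ᶠ L : ℝ in atTop, |K| * (A * Real.log L + 1) ≤ L ^ e - 1 := by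
    filter_upwards [XFP_const (|K| + 1) (|K| * A) e 1 he0 one_pos] with L h1
    nlinarith
  have j8 : ∀ᶠ L : ℝ in atTop, 3 ≤ L ^ e := by
    filter_upwards [ev_rpow 3 0 e he0] with L h1
    rwa [rpow_zero, mul_one] at h1
  have j9 : ∀ᶠ L : ℝ in atTop, Real.exp 1 ≤ Real.log (L ^ e - 1) := by
    filter_upwards [ev_rpow (Real.exp (Real.exp 1) + 1) 0 e he0] with L h1
    rw [rpow_zero, mul_one] at h1
    have h2 : Real.exp (Real.exp 1) ≤ L ^ e - 1 := by linarith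
    rw [Real.le_log_iff_exp_le (lt_of_lt_of_le (Real.exp_pos _) h2)]
    exact h2
  filter_upwards [j1, j2, j3, j4, j5, j6, eventually_ge_atTop (2:ℝ), j8, j9]
    with L a1 a2 a3 a4 a5 a6 a7 a8 a9
  exact ⟨a1, a2, a3, a4, a5, a6, a7, a8, a9⟩

end Pool.Agent.Lib.H68T
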