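import Pool.Agent.Lib.H51D.VMU1
import Pool.Agent.Lib.H68X.XMAIN1

/-!
# Chunk VMAIN1: the `L¹` norm of the main part, high frequencies
-/

open Finset MeasureTheory

namespace Pool.Agent.Lib.H68T

/-- Port of `main_L1_high` (file `H68X/XMAIN1.lean`; its auxiliary lemmas `XMAIN1_*` do not involve
`sw` and can be used), with `Mu_of_highV`: the only change is the factor `exp (D v)` in the second
term (`exp (D v) ≥ 1` in the terms which do not have it: `D` may be enlarged to be positive). -/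
theorem main_L1_highV (c' C : ℝ) (hc' : 0 < c') : ∃ K D : ℝ, 1 ≤ K ∧ ∀ (v : ℝ) (Q X : ℕ),
    RegV K v Q X → ∀ p ∈ PC Q, InvHighV c' C v Q p → ∀ T₁ : ℝ, 8 ≤ T₁ → T₁ ≤ (Q : ℝ) ^ 7 →
    (∫ t in T₁..((Q : ℝ) ^ 7),
      ‖FF X (fun m => (hmain Q X m : ℂ) * p.2 (m : ZMod p.1)) t‖) +
    (∫ t in (-(Q : ℝ) ^ 7)..(-T₁),
      ‖FF X (fun m => (hmain Q X m : ℂ) * p.2 (m : ZMod p.1)) t‖) ≤
      sv K v Q X + Real.exp (D * v) * (Real.log X) ^ (15 : ℝ) * T₁ ^ (-(1 / 2) : ℝ) := by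
  obtain ⟨C₁, K₁, hC₁, hK₁⟩ := main_integral
  obtain ⟨K₂, D₂, hK₂1, hK₂⟩ := Mu_of_highV c' C hc'
  obtain ⟨K₃, hK₃⟩ := mean_value
  obtain ⟨K₄, hK₄1, hK₄2, hK₄⟩ := sv_absorb (400 * Real.pi * C₁) 7 0 K₂ (by linarith)
  obtain ⟨K₅, hK₅1, hK₅⟩ := sv_of_Q (64 * C₁) 7 0 3 (by norm_num)
  have hpi := Real.pi_pos
  have a1 : 0 ≤ |K₁| := abs_nonneg _
  have a3 : 0 ≤ |K₃| := abs_nonneg _
  have b1 : K₁ ≤ |K₁| := le_abs_self _
  have b3 : K₃ ≤ |K₃| := le_abs_self _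
  have a4 : 0 ≤ 400 * Real.pi * C₁ + 1600 * C₁ := by positivity
  obtain ⟨K, hK⟩ : ∃ K : ℝ, K = |K₁| + K₂ + |K₃| + K₄ + K₅ +
    (400 * Real.pi * C₁ + 1600 * C₁) + 10 := ⟨_, rfl⟩
  have hK1 : 1 ≤ K := by rw [hK]; linarith
  refine ⟨K, |D₂|, hK1, ?_⟩
  intro ν Q X hregV p hp hinv T₁ hT₁ hT₁Q
  have hreg := hregV.1
  have hν0 : 0 ≤ ν := by linarith [hregV.2.1]
  have hKpos : 0 ≤ K := by linarith
  have r1 : Reg K₁ Q X := hreg.mono hKpos (by rw [hK]; linarith)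
  have r2 : RegV K₂ ν Q X := hregV.mono hKpos (by rw [hK]; linarith)
  have r3 : Reg K₃ Q X := hreg.mono hKpos (by rw [hK]; linarith)
  have r4 : RegV K₄ ν Q X := hregV.mono hKpos (by rw [hK]; linarith)
  have r5 : RegV K₅ ν Q X := hregV.mono hKpos (by rw [hK]; linarith)
  have hQn := hreg.Q_pos hK1
  have s4 : sv K₄ ν Q X ≤ sv K ν Q X := sv_mono hν0 (by linarith) (by rw [hK]; linarith) hQn
  have s5 : sv K₅ ν Q X ≤ sv K ν Q X := sv_mono hν0 (by linarith) (by rw [hK]; linarith) hQn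
  have hsw2 := (sv_pos K₂ ν Q X hQn).le
  have hLK : K ≤ Real.log X := by
    have h1 := hreg.logX_ge (by linarith)
    have := Real.add_one_le_exp K
    linarith
  have hQ10 : (10 : ℝ) ≤ Q := by
    have := hreg.Q_ge hK1
    rw [hK] at this
    linarith
  have hQ0 : (0 : ℝ) < Q := by linarith
  have hX : 1 ≤ X := hreg.X_pos (by linarith)
  have k1 := hK₁ Q X r1 p (mem_PC.mp hp).1
  have k2 := hK₂ ν Q X r2 p (mem_PC.mp hp).1 hinv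
  have k3 := hK₃ Q X r3
  have k4 := hK₄ ν Q X r4
  rw [zero_mul, Real.exp_zero, mul_one] at k4
  have k5 := hK₅ ν Q X r5
  rw [zero_mul, Real.exp_zero, mul_one] at k5
  have hlog : 1 + Real.log (60 * X) ≤ 2 * Real.log X := by
    have hX0 : (X : ℝ) ≠ 0 := by positivity
    rw [Real.log_mul (by norm_num) hX0]
    have : Real.log 60 ≤ 5 := by
      rw [Real.log_le_iff_le_exp (by norm_num)]
      have h1 : (2.7 : ℝ) ≤ Real.exp 1 := by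
        have := Real.exp_one_gt_d9
        linarith
      have h2 : Real.exp 5 = Real.exp 1 ^ 5 := by rw [← Real.exp_nat_mul]; norm_num
      rw [h2]
      have h3 : (2.7 : ℝ) ^ 5 ≤ Real.exp 1 ^ 5 := pow_le_pow_left₀ (by norm_num) h1 5
      have h4 : (60 : ℝ) ≤ 2.7 ^ 5 := by norm_num
      linarith
    rw [hK] at hLK
    linarith
  have hMB : ∀ t, ‖Mu X p t‖ ≤ 2 * Real.log X := fun t => (Mu_le X p t hX).trans hlog
  have hLbig : 400 * Real.pi * C₁ + 1600 * C₁ + 10 ≤ Real.log X := by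
    rw [hK] at hLK
    linarith
  obtain ⟨y, hy⟩ : ∃ y : ℝ, y = Real.exp (|D₂| * ν) := ⟨_, rfl⟩
  have hy1 : 1 ≤ y := by rw [hy]; exact Real.one_le_exp (by positivity)
  have hyD : Real.exp (D₂ * ν) ≤ y := by
    rw [hy]
    exact Real.exp_le_exp.mpr (mul_le_mul_of_nonneg_right (le_abs_self D₂) hν0)
  rw [← hy]
  clear hK₁ hK₂ hK₃ hK₄ hK₅ r1 r2 r3 r4 r5 hreg hlog hLK hinv
  obtain ⟨L, hL⟩ : ∃ L : ℝ, L = Real.log X := ⟨_, rfl⟩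
  rw [← hL] at k1 k2 k3 k4 k5 hMB hLbig ⊢
  have hL0 : 0 < L := by linarith
  have hI : ∫ t in (-(Q : ℝ) ^ 11)..((Q : ℝ) ^ 11), ‖Mu X p t‖ ^ 2 ≤ 100 * L ^ (3 : ℝ) := by
    refine le_trans ?_ k3
    refine single_le_sum (f := fun p => ∫ t in (-(Q : ℝ) ^ 11)..((Q : ℝ) ^ 11), ‖Mu X p t‖ ^ 2)
      (fun p _ => ?_) hp
    exact intervalIntegral.integral_nonneg (by linarith [pow_pos hQ0 11]) fun t _ => by positivity
  -- powers of `Q`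
  have hQ1 : (1 : ℝ) ≤ Q := by linarith
  have q7 : (Q : ℝ) ^ 7 ≤ (Q : ℝ) ^ 10 := pow_le_pow_right₀ hQ1 (by norm_num)
  have q11 : 10 * (Q : ℝ) ^ 10 ≤ (Q : ℝ) ^ 11 := by
    have : (Q : ℝ) ^ 11 = Q * (Q : ℝ) ^ 10 := by ring
    rw [this]
    exact mul_le_mul_of_nonneg_right hQ10 (by positivity)
  have q10 : 0 < (Q : ℝ) ^ 10 := by positivity
  have hT₁0 : 0 < T₁ := by linarith
  have hT₁h : 0 < T₁ ^ (-(1 / 2) : ℝ) := Real.rpow_pos_of_pos hT₁0 _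
  obtain ⟨v, hv⟩ : ∃ v : ℝ, v = y * T₁ ^ (-(1 / 2) : ℝ) := ⟨_, rfl⟩
  have hv0 : 0 < v := by rw [hv]; positivity
  have hTv' : T₁ ^ (-(1 / 2) : ℝ) ≤ v := by
    rw [hv]
    exact le_mul_of_one_le_left hT₁h.le hy1
  have hTv : 1 / T₁ ≤ v := by
    refine le_trans ?_ hTv'
    rw [one_div, ← Real.rpow_neg_one]
    exact Real.rpow_le_rpow_of_exponent_le (by linarith) (by norm_num)
  have hT2v : y * (T₁ / 2) ^ (-(1 / 2) : ℝ) ≤ 2 * v := by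
    rw [hv, Real.div_rpow hT₁0.le (by norm_num), div_eq_mul_inv, mul_comm 2, mul_assoc]
    refine mul_le_mul_of_nonneg_left ?_ (by linarith)
    refine mul_le_mul_of_nonneg_left ?_ hT₁h.le
    rw [← Real.rpow_neg (by norm_num)]
    calc (2 : ℝ) ^ (-(-(1 / 2)) : ℝ) ≤ (2 : ℝ) ^ (1 : ℝ) :=
          Real.rpow_le_rpow_of_exponent_le (by norm_num) (by norm_num)
      _ = 2 := Real.rpow_one 2
  have hS0 : 0 ≤ sv K₂ ν Q X + L ^ (4 : ℝ) * (2 * v) := by positivity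
  have hbd : ∀ s : ℝ, T₁ / 2 ≤ |s| → |s| ≤ (Q : ℝ) ^ 11 →
      ‖Mu X p s‖ ≤ sv K₂ ν Q X + L ^ (4 : ℝ) * (2 * v) := by
    intro s h1 h2
    refine (k2 s (by linarith) h2).trans ?_
    refine add_le_add le_rfl ?_
    have hLp : 0 ≤ L ^ (4 : ℝ) := by positivity
    have hs1 : |s| ^ (-(1 / 2) : ℝ) ≤ (T₁ / 2) ^ (-(1 / 2) : ℝ) :=
      Real.rpow_le_rpow_of_nonpos (by linarith) h1 (by norm_num)
    have hs0 : 0 ≤ |s| ^ (-(1 / 2) : ℝ) := by positivity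
    calc Real.exp (D₂ * ν) * L ^ (4 : ℝ) * |s| ^ (-(1 / 2) : ℝ) ≤
          y * L ^ (4 : ℝ) * (T₁ / 2) ^ (-(1 / 2) : ℝ) := by gcongr
      _ = L ^ (4 : ℝ) * (y * (T₁ / 2) ^ (-(1 / 2) : ℝ)) := by ring
      _ ≤ L ^ (4 : ℝ) * (2 * v) := mul_le_mul_of_nonneg_left hT2v hLp
  have m1 := XMAIN1_one hC₁.le hL0 hX p k1 hMB (S := sv K₂ ν Q X + L ^ (4 : ℝ) * (2 * v))
    (a := T₁) (b := (Q : ℝ) ^ 7) (R₁ := T₁ / 2) (R₂ := (Q : ℝ) ^ 10) (T₃ := (Q : ℝ) ^ 11)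
    (I₀ := 100 * L ^ (3 : ℝ)) hT₁Q (fun t ht τ hτ => by
      obtain ⟨h1, h2⟩ := abs_le.1 hτ
      refine hbd _ ?_ ?_
      · rw [abs_of_pos (by linarith [ht.1])]
        linarith [ht.1]
      · rw [abs_of_pos (by linarith [ht.1])]
        linarith [ht.2]) hS0 (by linarith) (by linarith) (by linarith) (by linarith) hI
  have m2 := XMAIN1_one hC₁.le hL0 hX p k1 hMB (S := sv K₂ ν Q X + L ^ (4 : ℝ) * (2 * v))
    (a := -(Q : ℝ) ^ 7) (b := -T₁) (R₁ := T₁ / 2) (R₂ := (Q : ℝ) ^ 10) (T₃ := (Q : ℝ) ^ 11)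
    (I₀ := 100 * L ^ (3 : ℝ)) (by linarith) (fun t ht τ hτ => by
      obtain ⟨h1, h2⟩ := abs_le.1 hτ
      refine hbd _ ?_ ?_
      · rw [abs_of_neg (by linarith [ht.2])]
        linarith [ht.2]
      · rw [abs_of_neg (by linarith [ht.2])]
        linarith [ht.1]) hS0 (by linarith) (by linarith) (by linarith) (by linarith) hI
  refine (add_le_add m1 m2).trans ?_
  have e4 : L ^ (4 : ℝ) = L ^ 4 := by
    rw [show (4 : ℝ) = ((4 : ℕ) : ℝ) by norm_num, Real.rpow_natCast]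
  have e3 : L ^ (3 : ℝ) = L ^ 3 := by
    rw [show (3 : ℝ) = ((3 : ℕ) : ℝ) by norm_num, Real.rpow_natCast]
  have e7 : L ^ (7 : ℝ) = L ^ 7 := by
    rw [show (7 : ℝ) = ((7 : ℕ) : ℝ) by norm_num, Real.rpow_natCast]
  have e15 : L ^ (15 : ℝ) = L ^ 15 := by
    rw [show (15 : ℝ) = ((15 : ℕ) : ℝ) by norm_num, Real.rpow_natCast]
  have eQ : (Q : ℝ) ^ (-(3 : ℝ)) = ((Q : ℝ) ^ 3)⁻¹ := by
    rw [Real.rpow_neg hQ0.le, show (3 : ℝ) = ((3 : ℕ) : ℝ) by norm_num, Real.rpow_natCast]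
  rw [e7] at k4 k5
  rw [eQ] at k5
  rw [e4, e3, e15]
  generalize sv K₂ ν Q X = s2 at *
  generalize Real.pi = π at *
  have w : ∀ c d : ℝ, d - c ≤ (Q : ℝ) ^ 7 → 2 / (Q : ℝ) ^ 10 * ((d - c) * (2 * L) ^ 3) ≤
      16 * L ^ 3 * ((Q : ℝ) ^ 3)⁻¹ := by
    intro c d hcd
    calc 2 / (Q : ℝ) ^ 10 * ((d - c) * (2 * L) ^ 3) ≤
          2 / (Q : ℝ) ^ 10 * ((Q : ℝ) ^ 7 * (2 * L) ^ 3) := by gcongr
      _ = 16 * L ^ 3 * ((Q : ℝ) ^ 3)⁻¹ := by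
          field_simp
          ring
  have w1 := w T₁ ((Q : ℝ) ^ 7) (by linarith)
  have w2 := w (-(Q : ℝ) ^ 7) (-T₁) (by linarith)
  have w3 : 2 / (T₁ / 2) * (2 * L * (100 * L ^ 3)) ≤ 800 * L ^ 4 * v := by
    have : 2 / (T₁ / 2) * (2 * L * (100 * L ^ 3)) = 800 * L ^ 4 * (1 / T₁) := by
      field_simp
      ring
    rw [this]
    exact mul_le_mul_of_nonneg_left hTv (by positivity)
  have hL1 : 1 ≤ L := by linarith
  have hfin : C₁ * L ^ 4 * (π * ((s2 + L ^ 4 * (2 * v)) * (100 * L ^ 3)) +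
      2 / (T₁ / 2) * (2 * L * (100 * L ^ 3)) +
      2 / (Q : ℝ) ^ 10 * (((Q : ℝ) ^ 7 - T₁) * (2 * L) ^ 3)) +
      C₁ * L ^ 4 * (π * ((s2 + L ^ 4 * (2 * v)) * (100 * L ^ 3)) +
      2 / (T₁ / 2) * (2 * L * (100 * L ^ 3)) +
      2 / (Q : ℝ) ^ 10 * ((-T₁ - -(Q : ℝ) ^ 7) * (2 * L) ^ 3)) ≤
      C₁ * L ^ 4 * (π * ((s2 + L ^ 4 * (2 * v)) * (100 * L ^ 3)) + 800 * L ^ 4 * v +
        16 * L ^ 3 * ((Q : ℝ) ^ 3)⁻¹) +
      C₁ * L ^ 4 * (π * ((s2 + L ^ 4 * (2 * v)) * (100 * L ^ 3)) + 800 * L ^ 4 * v +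
        16 * L ^ 3 * ((Q : ℝ) ^ 3)⁻¹) := by
    gcongr
  refine hfin.trans ?_
  have g1 : C₁ * L ^ 4 * (π * ((s2 + L ^ 4 * (2 * v)) * (100 * L ^ 3)) + 800 * L ^ 4 * v +
        16 * L ^ 3 * ((Q : ℝ) ^ 3)⁻¹) +
      C₁ * L ^ 4 * (π * ((s2 + L ^ 4 * (2 * v)) * (100 * L ^ 3)) + 800 * L ^ 4 * v +
        16 * L ^ 3 * ((Q : ℝ) ^ 3)⁻¹) =
      (400 * π * C₁ * L ^ 7 * s2) / 2 + (64 * C₁ * L ^ 7 * ((Q : ℝ) ^ 3)⁻¹) / 2 +
        ((400 * π * C₁) * L ^ 3 + 1600 * C₁) * L ^ 8 * v := by ring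
  rw [g1]
  have hgoal : y * L ^ 15 * T₁ ^ (-(1 / 2) : ℝ) = L ^ 15 * v := by rw [hv]; ring
  rw [hgoal]
  have g2 : ((400 * π * C₁) * L ^ 3 + 1600 * C₁) * L ^ 8 * v ≤ L ^ 15 * v := by
    refine mul_le_mul_of_nonneg_right ?_ hv0.le
    have h1 : (400 * π * C₁) * L ^ 3 + 1600 * C₁ ≤ (400 * π * C₁ + 1600 * C₁) * L ^ 3 := by
      have h2 : 1 ≤ L ^ 3 := one_le_pow₀ hL1
      have h3 : 1600 * C₁ * 1 ≤ 1600 * C₁ * L ^ 3 := mul_le_mul_of_nonneg_left h2 (by positivity)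
      linarith
    calc ((400 * π * C₁) * L ^ 3 + 1600 * C₁) * L ^ 8 ≤
          ((400 * π * C₁ + 1600 * C₁) * L ^ 3) * L ^ 8 :=
          mul_le_mul_of_nonneg_right h1 (by positivity)
      _ ≤ (L * L ^ 3) * L ^ 8 := by
          refine mul_le_mul_of_nonneg_right (mul_le_mul_of_nonneg_right ?_ (by positivity))
            (by positivity)
          linarith
      _ = L ^ 12 := by ring
      _ ≤ L ^ 15 := pow_le_pow_right₀ hL1 (by norm_num)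
  linarith

end Pool.Agent.Lib.H68T
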