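import Pool.Agent.Lib.H51D.VDefs
import Pool.Agent.Lib.H68X.XMU

/-!
# Chunk VMU: the Moebius polynomial from `InvV`
-/

open Finset

namespace Pool.Agent.Lib.H68T

theorem sv_le_one {K v : ℝ} (hK : 1 ≤ K) {Q X : ℕ} (h : RegV K v Q X) : sv K v Q X ≤ 1 := by
  have hr := h.1
  have hQ1 : 1 ≤ Q := hr.Q_pos hK
  refine (sv_le_sw h.2.1 (by linarith) hQ1).trans ?_
  have hll : 1 ≤ Real.log (Real.log X) := hK.trans hr.1
  have hlQ : K ≤ Real.log Q := hr.logQ_ge hK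
  have hQ0 : (0 : ℝ) < Q := by exact_mod_cast hQ1
  have hK0 : 0 < K := by linarith
  have hlX := hr.logX_pos hK0
  have hlQ0 : 0 < Real.log Q := by linarith
  have h1 : Real.exp (-(Real.log X / (K * Real.log Q))) ≤ Real.exp (-1) := by
    apply Real.exp_le_exp.mpr
    apply neg_le_neg
    rw [le_div_iff₀ (by positivity), one_mul]
    have h3 := hr.2.2
    have h4 : K * (Real.log Q * 1) ≤ K * (Real.log Q * Real.log (Real.log X)) := by
      apply mul_le_mul_of_nonneg_left _ hK0.le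
      exact mul_le_mul_of_nonneg_left hll (by linarith)
    linarith
  have h2 : (Q : ℝ) ^ (-(1 / K)) ≤ Real.exp (-1) := by
    rw [Real.rpow_def_of_pos hQ0]
    apply Real.exp_le_exp.mpr
    have : 1 ≤ Real.log Q * (1 / K) := by
      rw [mul_one_div, le_div_iff₀ hK0, one_mul]
      exact hlQ
    linarith
  have h3 : Real.exp (-1) ≤ 1 / 2 := by
    rw [Real.exp_neg, ← one_div]
    apply one_div_le_one_div_of_le (by norm_num)
    linarith [Real.add_one_le_exp (1 : ℝ)]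
  unfold sw
  linarith

/-- Port of `Mu_of_inv` (file `H68X/XMU.lean`). -/
theorem Mu_of_invV (c' C : ℝ) (hc' : 0 < c') : ∃ K : ℝ, 1 ≤ K ∧ ∀ (v : ℝ) (Q X : ℕ),
    RegV K v Q X → ∀ p : Σ r : ℕ, DirichletCharacter ℂ r, 1 ≤ p.1 → InvV c' C v Q p →
    ∀ t : ℝ, |t| ≤ (Q : ℝ) ^ 11 → ‖Mu X p t‖ ≤ sv K v Q X := by
  set D : ℝ := |C| + 1 with hD
  have hD1 : 1 ≤ D := by have := abs_nonneg C; linarith
  have hCD : C ≤ D := by have := le_abs_self C; linarith
  obtain ⟨K₁, hK₁1, hcore⟩ := XMU_core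
  obtain ⟨P, K₂, hP, hK₂1, hper⟩ := XMU_ces
  obtain ⟨K₃, hK₃1, hK₃⟩ := sv_of_exp (4 * P) 0 D (c' / 5) (by positivity)
  obtain ⟨K₄, hK₄1, hK₄⟩ := sv_of_Q (4 * (5 * P)) 2 D 1 (by norm_num)
  obtain ⟨K₆, hK₆1, hK₆⟩ := reg_pow_le 4 1 (1 / 5) (by norm_num)
  -- error terms
  obtain ⟨S₁, hS₁1, hS₁⟩ := sv_of_exp (80 * Real.sqrt P) 2 (D / 2) (c' / 10) (by positivity)
  obtain ⟨S₂, hS₂1, hS₂⟩ := sv_of_Q (80 * Real.sqrt (5 * P)) 3 (D / 2) (1 / 2) (by norm_num)
  obtain ⟨S₃, hS₃1, hS₃⟩ := sv_of_Q 80 2 0 (1 / 2) (by norm_num)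
  obtain ⟨S, hS1, hS2, hS⟩ := sv_absorb 3 0 0 (S₁ + S₂ + S₃) (by linarith)
  refine ⟨K₁ + K₂ + K₃ + K₄ + K₆ + S₁ + S₂ + S₃ + S + 2 * c' + 10, by linarith, ?_⟩
  intro v Q X hregV p hp1 hinv t ht
  have hreg := hregV.1
  have hv1 := hregV.2.1
  have hv0 : 0 < v := by linarith
  have hKpos : 0 ≤ K₁ + K₂ + K₃ + K₄ + K₆ + S₁ + S₂ + S₃ + S + 2 * c' + 10 := by linarith
  have r0 : Reg (2 * c' + 10) Q X := hreg.mono hKpos (by linarith)
  have r1 : Reg K₁ Q X := hreg.mono hKpos (by linarith)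
  have r2 : Reg K₂ Q X := hreg.mono hKpos (by linarith)
  have r3 : RegV K₃ v Q X := hregV.mono hKpos (by linarith)
  have r4 : RegV K₄ v Q X := hregV.mono hKpos (by linarith)
  have rc : RegV (2 * c') v Q X := hregV.mono hKpos (by linarith)
  have r6 : Reg K₆ Q X := hreg.mono hKpos (by linarith)
  have s1 : RegV S₁ v Q X := hregV.mono hKpos (by linarith)
  have s2 : RegV S₂ v Q X := hregV.mono hKpos (by linarith)
  have s3 : RegV S₃ v Q X := hregV.mono hKpos (by linarith)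
  have s4 : RegV S v Q X := hregV.mono hKpos (by linarith)
  set L : ℝ := Real.log X with hL
  have hLbig : 10 ≤ L := by
    have h1 := r0.logX_ge (by linarith)
    have := Real.add_one_le_exp (2 * c' + 10)
    linarith
  have hL0 : 0 < L := by linarith
  have hL1 : 1 ≤ L := by linarith
  have hQbig : 2 * c' + 10 ≤ Q := r0.Q_ge (by linarith)
  have hQ10 : (10 : ℝ) ≤ Q := by linarith
  have hQ0 : (0 : ℝ) < Q := by linarith
  have hQ1 : (1 : ℝ) ≤ Q := by linarith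
  have hQn : 1 ≤ Q := by exact_mod_cast hQ1
  have hlQbig : 2 * c' + 10 ≤ Real.log Q := r0.logQ_ge (by linarith)
  have hlQ0 : 0 < Real.log Q := by linarith
  have hlQL : Real.log Q ≤ L := by
    have h1 := r0.logQ_le (by linarith)
    have h2 : 1 * Real.log Q ≤ (2 * c' + 10) * Real.log Q :=
      mul_le_mul_of_nonneg_right (by linarith) hlQ0.le
    linarith
  have hX1 : 1 ≤ X := r0.X_pos (by linarith)
  have hX0 : (0 : ℝ) < X := by exact_mod_cast hX1
  obtain ⟨g, hg1, hg2, hg3⟩ := hinv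
  have hη1 : c' * v / Real.log Q ≤ 1 / 2 := by
    rw [div_le_iff₀ hlQ0]
    have := rc.2.2
    linarith
  set T : ℝ := (Q : ℝ) ^ 11 with hT
  have hT1 : 1 ≤ T := one_le_pow₀ (by linarith)
  have hT0 : 0 < T := by linarith
  have hT2 : 2 * T ≤ (Q : ℝ) ^ 12 := by
    have : (Q : ℝ) ^ 12 = T * Q := by rw [hT]; ring
    rw [this]
    nlinarith
  have hTQ : (Q : ℝ) ≤ T := by
    rw [hT]
    calc (Q : ℝ) = (Q : ℝ) ^ 1 := (pow_one _).symm
      _ ≤ (Q : ℝ) ^ 11 := pow_le_pow_right₀ hQ1 (by norm_num)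
  set B : ℝ := Real.exp (D * v) with hB
  have hB1 : 1 ≤ B := Real.one_le_exp (by positivity)
  have hCB : Real.exp (C * v) ≤ B :=
    Real.exp_le_exp.mpr (mul_le_mul_of_nonneg_right hCD hv0.le)
  have hmem : ∀ s : ℂ, 1 - c' * v / Real.log Q ≤ s.re → s.re ≤ 2 → |s.im| ≤ T →
      s + t * Complex.I ∈ Rg (c' * v) Q := by
    intro s h1 h2 h3
    refine ⟨?_, ?_, ?_⟩
    · simpa using h1
    · simpa using h2
    · have : (s + t * Complex.I).im = s.im + t := by simp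
      rw [this]
      refine (abs_add_le _ _).trans ?_
      linarith
  have hces := hper Q X r2 p t (c' * v) T B (fun s => g (s + t * Complex.I)) (by positivity) hη1
    hT1 hB1
    (by
      intro s hs
      have h1 := hg1 _ (hmem s hs.1 hs.2.1 hs.2.2)
      exact AnalyticAt.fun_comp h1 (by fun_prop))
    (fun s h1 h2 h3 => (hg3 _ (hmem s h1 h2 h3)).trans hCB)
    (fun s hs => by
      rw [ms_LSeries]
      have : (1 : ℝ) < (s + t * Complex.I).re := by simpa using hs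
      rw [← hg2 _ this])
  set E : ℝ := Real.exp (-(c' * v / 5 * (L / Real.log Q))) with hE
  have hE0 : 0 < E := Real.exp_pos _
  set κ : ℝ := P * B * E + 5 * P * B * L ^ 2 / Q + 1 / Q with hκ
  have hκ0 : 0 < κ := by positivity
  have hTT : T ≤ T ^ 2 := by nlinarith
  have hκ' : P * (B * E + B / T ^ 2 + 4 * L ^ 2 / T) ≤ κ := by
    have hL2 : 1 ≤ L ^ 2 := by nlinarith
    have e1 : B / T ^ 2 ≤ B * L ^ 2 / Q := by
      have : B ≤ B * L ^ 2 := le_mul_of_one_le_right (by linarith) hL2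
      calc B / T ^ 2 ≤ B * L ^ 2 / T ^ 2 := by gcongr
        _ ≤ B * L ^ 2 / Q := by gcongr; linarith
    have e2 : 4 * L ^ 2 / T ≤ 4 * B * L ^ 2 / Q := by
      have : 4 * L ^ 2 ≤ 4 * B * L ^ 2 := by nlinarith
      calc 4 * L ^ 2 / T ≤ 4 * B * L ^ 2 / T := by gcongr
        _ ≤ _ := by gcongr
    have e3 : 0 ≤ 1 / (Q : ℝ) := by positivity
    calc P * (B * E + B / T ^ 2 + 4 * L ^ 2 / T)
        ≤ P * (B * E + B * L ^ 2 / Q + 4 * B * L ^ 2 / Q) := by gcongr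
      _ = P * B * E + 5 * P * B * L ^ 2 / Q := by ring
      _ ≤ κ := by rw [hκ]; linarith
  have hEE : Real.exp (-(c' / 5 * (v * (L / Real.log Q)))) = E := by
    rw [hE]
    congr 2
    ring
  have hκ1 : κ ≤ 1 := by
    have k1 : 4 * P * B * E ≤ 1 := by
      have := (hK₃ v Q X r3).trans (sv_le_one (by linarith) r3)
      rw [Real.rpow_zero, mul_one, hEE] at this
      exact this
    have k2 : 4 * (5 * P) * L ^ 2 * B / Q ≤ 1 := by
      have := (hK₄ v Q X r4).trans (sv_le_one (by linarith) r4)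
      rw [Real.rpow_two, Real.rpow_neg_one, ← div_eq_mul_inv] at this
      exact this
    have k3 : 5 * P * B * L ^ 2 / Q ≤ 1 / 4 := by
      have : 4 * (5 * P) * L ^ 2 * B / Q = 4 * (5 * P * B * L ^ 2 / Q) := by ring
      rw [this] at k2
      linarith
    have k4 : 1 / (Q : ℝ) ≤ 1 / 10 := by
      apply one_div_le_one_div_of_le (by norm_num) hQ10
    rw [hκ]
    linarith
  have hκu : 1 ≤ κ * (X : ℝ) ^ ((1 : ℝ) / 5) := by
    have k1 : 4 * (Q : ℝ) ≤ (X : ℝ) ^ ((1 : ℝ) / 5) := by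
      have := hK₆ Q X r6
      rw [Real.rpow_one] at this
      exact this
    have k2 : 1 / (Q : ℝ) ≤ κ := by
      rw [hκ]
      have : 0 ≤ P * B * E + 5 * P * B * L ^ 2 / Q := by positivity
      linarith
    calc (1 : ℝ) = 1 / Q * Q := by field_simp
      _ ≤ κ * (X : ℝ) ^ ((1 : ℝ) / 5) := by
          apply mul_le_mul k2 (by linarith) hQ0.le hκ0.le
  have hmain := hcore Q X r1 p t κ hκ0 hκ1 hκu (fun u hu1 hu2 => by
    refine (hces u hu1 hu2).trans ?_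
    have hu0 : 0 ≤ u := le_trans (Real.rpow_nonneg hX0.le _) hu1
    exact mul_le_mul_of_nonneg_right hκ' hu0)
  refine hmain.trans ?_
  have hsq := XMU_sqrt3 (P * B * E) (5 * P * B * L ^ 2 / Q) (1 / Q) (by positivity)
    (by positivity) (by positivity)
  rw [← hκ] at hsq
  have hBs : Real.sqrt B = Real.exp (D / 2 * v) := by
    rw [hB, ← Real.exp_half]
    congr 1
    ring
  have q1 : Real.sqrt (P * B * E) = Real.sqrt P * Real.exp (D / 2 * v) *
      Real.exp (-(c' / 10 * (v * (L / Real.log Q)))) := by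
    rw [Real.sqrt_mul (by positivity), Real.sqrt_mul (by positivity), hBs, hE,
      ← Real.exp_half (-(c' * v / 5 * (L / Real.log Q)))]
    congr 2
    ring
  have q2 : Real.sqrt (5 * P * B * L ^ 2 / Q) = Real.sqrt (5 * P) * Real.exp (D / 2 * v) * L *
      (Q : ℝ) ^ (-(1 / 2) : ℝ) := by
    rw [Real.sqrt_div (by positivity), Real.sqrt_mul (by positivity), Real.sqrt_sq hL0.le,
      Real.sqrt_mul (by positivity), hBs,
      Real.rpow_neg hQ0.le, ← Real.sqrt_eq_rpow, div_eq_mul_inv]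
  have q3 : Real.sqrt (1 / Q) = (Q : ℝ) ^ (-(1 / 2) : ℝ) := by
    rw [Real.sqrt_div zero_le_one, Real.sqrt_one, Real.rpow_neg hQ0.le, ← Real.sqrt_eq_rpow,
      one_div]
  rw [q1, q2, q3] at hsq
  have w1 := hS₁ v Q X s1
  have w2 := hS₂ v Q X s2
  have w3 := hS₃ v Q X s3
  rw [← hL] at w1 w2 w3
  have p2 : L ^ (3 : ℝ) = L ^ 2 * L := by
    rw [show (3 : ℝ) = 2 + 1 by norm_num, Real.rpow_add hL0, Real.rpow_two, Real.rpow_one]
  have p3 : L ^ (2 : ℝ) = L ^ 2 := Real.rpow_two L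
  rw [p3] at w1
  rw [p2] at w2
  rw [p3, zero_mul, Real.exp_zero, mul_one] at w3
  have m1 : sv S₁ v Q X ≤ sv (S₁ + S₂ + S₃) v Q X :=
    sv_mono hv0.le (by linarith) (by linarith) hQn
  have m2 : sv S₂ v Q X ≤ sv (S₁ + S₂ + S₃) v Q X :=
    sv_mono hv0.le (by linarith) (by linarith) hQn
  have m3 : sv S₃ v Q X ≤ sv (S₁ + S₂ + S₃) v Q X :=
    sv_mono hv0.le (by linarith) (by linarith) hQn
  have m4 := hS v Q X s4
  rw [Real.rpow_zero, mul_one, zero_mul, Real.exp_zero, mul_one] at m4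
  have m5 : sv S v Q X ≤ sv (K₁ + K₂ + K₃ + K₄ + K₆ + S₁ + S₂ + S₃ + S + 2 * c' + 10) v Q X :=
    sv_mono hv0.le (by linarith) (by linarith) hQn
  refine le_trans ?_ m5
  refine le_trans ?_ m4
  calc 80 * L ^ 2 * Real.sqrt κ ≤ 80 * L ^ 2 * (Real.sqrt P * Real.exp (D / 2 * v) *
      Real.exp (-(c' / 10 * (v * (L / Real.log Q)))) +
      Real.sqrt (5 * P) * Real.exp (D / 2 * v) * L *
      (Q : ℝ) ^ (-(1 / 2) : ℝ) + (Q : ℝ) ^ (-(1 / 2) : ℝ)) := by gcongr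
    _ = 80 * Real.sqrt P * L ^ 2 * Real.exp (D / 2 * v) *
        Real.exp (-(c' / 10 * (v * (L / Real.log Q)))) +
        80 * Real.sqrt (5 * P) * (L ^ 2 * L) * Real.exp (D / 2 * v) *
        (Q : ℝ) ^ (-(1 / 2) : ℝ) + 80 * L ^ 2 * (Q : ℝ) ^ (-(1 / 2) : ℝ) := by ring
    _ ≤ 3 * sv (S₁ + S₂ + S₃) v Q X := by linarith

end Pool.Agent.Lib.H68T
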