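import Pool.Agent.Lib.H51D.VMU
import Pool.Agent.Lib.H68X.XMU1

/-!
# Chunk VMU1: the Moebius polynomial at high frequencies
-/

open Finset

namespace Pool.Agent.Lib.H68T

/-- Port of `Mu_of_high` (file `H68X/XMU1.lean`), with the changes of `Mu_of_invV`
(file `H51D/VMU.lean`): `B = exp (D v)`, `D = |C| + 1`; now
`P (B E + B/T² + 4 L²/T) ≤ κ = P B E + G B L²/|t| + 1/Q` for a constant `G`, and the square root of the
second term gives `√G exp (D v/2) L |t|^(-1/2)`, so the constant `D'` of the statement is for instance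
`D + 80 √G + 4 G + 10` (use `L ≥ 10`; `x ≤ exp x`). In the case `κ > 1`: `|t| ≤ 2 G B L²`, so
`exp (D' v) L^4 |t|^(-1/2) ≥ L² ≥ ‖Mu‖` bound. -/
theorem Mu_of_highV (c' C : ℝ) (hc' : 0 < c') : ∃ K D : ℝ, 1 ≤ K ∧ ∀ (v : ℝ) (Q X : ℕ),
    RegV K v Q X → ∀ p : Σ r : ℕ, DirichletCharacter ℂ r, 1 ≤ p.1 → InvHighV c' C v Q p →
    ∀ t : ℝ, 4 ≤ |t| → |t| ≤ (Q : ℝ) ^ 11 →
    ‖Mu X p t‖ ≤ sv K v Q X +
      Real.exp (D * v) * (Real.log X) ^ (4 : ℝ) * |t| ^ (-(1 / 2) : ℝ) := by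
  set D : ℝ := |C| + 1 with hD
  have hD1 : 1 ≤ D := by have := abs_nonneg C; linarith
  have hCD : C ≤ D := by have := le_abs_self C; linarith
  obtain ⟨K₁, hK₁1, hcore⟩ := XMU_core
  obtain ⟨P, K₂, hP, hK₂1, hper⟩ := XMU_ces
  obtain ⟨K₃, hK₃1, hK₃⟩ := sv_of_exp (4 * P) 0 D (c' / 5) (by positivity)
  obtain ⟨K₆, hK₆1, hK₆⟩ := reg_pow_le 4 1 (1 / 5) (by norm_num)
  set G : ℝ := 4 / 3 * (P * 5) with hG
  have hG0 : 0 < G := by positivity
  -- error terms
  obtain ⟨S₁, hS₁1, hS₁⟩ := sv_of_exp (80 * Real.sqrt P) 2 (D / 2) (c' / 10) (by positivity)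
  obtain ⟨S₃, hS₃1, hS₃⟩ := sv_of_Q 80 2 0 (1 / 2) (by norm_num)
  obtain ⟨S, hS1, hS2, hS⟩ := sv_absorb 2 0 0 (S₁ + S₃) (by linarith)
  refine ⟨K₁ + K₂ + K₃ + K₆ + S₁ + S₃ + S + 2 * c' + 80 * Real.sqrt G + 4 * G + 10, D, by
    have := Real.sqrt_nonneg G
    linarith, ?_⟩
  intro v Q X hregV p hp1 hinv t ht4 ht
  have hreg := hregV.1
  have hv1 := hregV.2.1
  have hv0 : 0 < v := by linarith
  have hsG := Real.sqrt_nonneg G
  have hKpos : 0 ≤ K₁ + K₂ + K₃ + K₆ + S₁ + S₃ + S + 2 * c' + 80 * Real.sqrt G + 4 * G + 10 := by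
    linarith
  have r0 : Reg (2 * c' + 80 * Real.sqrt G + 4 * G + 10) Q X := hreg.mono hKpos (by linarith)
  have r1 : Reg K₁ Q X := hreg.mono hKpos (by linarith)
  have r2 : Reg K₂ Q X := hreg.mono hKpos (by linarith)
  have r3 : RegV K₃ v Q X := hregV.mono hKpos (by linarith)
  have r6 : Reg K₆ Q X := hreg.mono hKpos (by linarith)
  have s1 : RegV S₁ v Q X := hregV.mono hKpos (by linarith)
  have s3 : RegV S₃ v Q X := hregV.mono hKpos (by linarith)
  have s4 : RegV S v Q X := hregV.mono hKpos (by linarith)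
  have rc : RegV (2 * c') v Q X := hregV.mono hKpos (by linarith)
  set L : ℝ := Real.log X with hL
  have hLbig : 2 * c' + 80 * Real.sqrt G + 4 * G + 10 ≤ L := by
    have h1 := r0.logX_ge (by linarith)
    have := Real.add_one_le_exp (2 * c' + 80 * Real.sqrt G + 4 * G + 10)
    linarith
  have hL10 : 10 ≤ L := by linarith
  have hL0 : 0 < L := by linarith
  have hL1 : 1 ≤ L := by linarith
  have hQbig : 2 * c' + 80 * Real.sqrt G + 4 * G + 10 ≤ Q := r0.Q_ge (by linarith)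
  have hQ10 : (10 : ℝ) ≤ Q := by linarith
  have hQ0 : (0 : ℝ) < Q := by linarith
  have hQ1 : (1 : ℝ) ≤ Q := by linarith
  have hQn : 1 ≤ Q := by exact_mod_cast hQ1
  have hlQbig : 2 * c' + 80 * Real.sqrt G + 4 * G + 10 ≤ Real.log Q := r0.logQ_ge (by linarith)
  have hlQ0 : 0 < Real.log Q := by linarith
  have hlQL : Real.log Q ≤ L := by
    have h1 := r0.logQ_le (by linarith)
    have h2 : 1 * Real.log Q ≤ (2 * c' + 80 * Real.sqrt G + 4 * G + 10) * Real.log Q :=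
      mul_le_mul_of_nonneg_right (by linarith) hlQ0.le
    linarith
  have hX1 : 1 ≤ X := r0.X_pos (by linarith)
  have hX0 : (0 : ℝ) < X := by exact_mod_cast hX1
  obtain ⟨g, hg1, hg2, hg3⟩ := hinv
  have hη1 : c' * v / Real.log Q ≤ 1 / 2 := by
    rw [div_le_iff₀ hlQ0]
    have := rc.2.2
    linarith
  have ht0 : 0 < |t| := by linarith
  set T : ℝ := |t| - 1 with hT
  have hT1 : 1 ≤ T := by linarith
  have hT0 : 0 < T := by linarith
  have hTt : 3 / 4 * |t| ≤ T := by linarith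
  set B : ℝ := Real.exp (D * v) with hB
  have hLL : L ≤ L ^ 2 := by
    rw [sq]
    exact le_mul_of_one_le_left hL0.le hL1
  have hB1 : 1 ≤ B := Real.one_le_exp (by positivity)
  have hB0 : 0 < B := by linarith
  have hCB : Real.exp (C * v) ≤ B :=
    Real.exp_le_exp.mpr (mul_le_mul_of_nonneg_right hCD hv0.le)
  have hmem : ∀ s : ℂ, 1 - c' * v / Real.log Q ≤ s.re → s.re ≤ 2 → |s.im| ≤ T →
      s + t * Complex.I ∈ Rg (c' * v) Q ∧ 1 ≤ |(s + t * Complex.I).im| := by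
    intro s h1 h2 h3
    have e : (s + t * Complex.I).im = s.im + t := by simp
    refine ⟨⟨?_, ?_, ?_⟩, ?_⟩
    · simpa using h1
    · simpa using h2
    · rw [e]
      refine (abs_add_le _ _).trans ?_
      have : (Q : ℝ) ^ 12 = (Q : ℝ) ^ 11 * Q := by ring
      have h4 : 0 ≤ (Q : ℝ) ^ 11 := by positivity
      have h5 : (Q : ℝ) ^ 11 * 2 ≤ (Q : ℝ) ^ 11 * Q :=
        mul_le_mul_of_nonneg_left (by linarith) h4
      rw [this]
      linarith
    · rw [e]
      have h4 := abs_sub_abs_le_abs_sub t (-s.im)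
      rw [abs_neg, sub_neg_eq_add, add_comm t] at h4
      linarith
  have hces := hper Q X r2 p t (c' * v) T B (fun s => g (s + t * Complex.I)) (by positivity)
    hη1 hT1 hB1
    (by
      intro s hs
      have h0 := hmem s hs.1 hs.2.1 hs.2.2
      have h1 := hg1 _ ⟨h0.1, h0.2⟩
      exact AnalyticAt.fun_comp h1 (by fun_prop))
    (fun s h1 h2 h3 => (hg3 _ (hmem s h1 h2 h3).1 (hmem s h1 h2 h3).2).trans hCB)
    (fun s hs => by
      rw [ms_LSeries]
      have : (1 : ℝ) < (s + t * Complex.I).re := by simpa using hs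
      rw [← hg2 _ this])
  set E : ℝ := Real.exp (-(c' * v / 5 * (L / Real.log Q))) with hE
  have hE0 : 0 < E := Real.exp_pos _
  set κ : ℝ := P * B * E + G * B * L ^ 2 / |t| + 1 / Q with hκ
  have hκ0 : 0 < κ := by positivity
  have hTT : T ≤ T ^ 2 := by
    rw [sq]
    exact le_mul_of_one_le_left hT0.le hT1
  have hinvT : 1 / T ≤ 4 / 3 / |t| := by
    rw [div_le_div_iff₀ hT0 ht0]
    linarith
  have hκ' : P * (B * E + B / T ^ 2 + 4 * L ^ 2 / T) ≤ κ := by
    have hL2 : 1 ≤ L ^ 2 := one_le_pow₀ hL1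
    have e1 : B / T ^ 2 ≤ B * L ^ 2 * (4 / 3 / |t|) := by
      have : B ≤ B * L ^ 2 := le_mul_of_one_le_right hB0.le hL2
      calc B / T ^ 2 ≤ B * L ^ 2 / T ^ 2 := by gcongr
        _ ≤ B * L ^ 2 / T := by gcongr
        _ = B * L ^ 2 * (1 / T) := by ring
        _ ≤ _ := by gcongr
    have e2 : 4 * L ^ 2 / T ≤ 4 * B * L ^ 2 * (4 / 3 / |t|) := by
      have : 4 * L ^ 2 ≤ 4 * B * L ^ 2 := by
        have h1 : 1 * (4 * L ^ 2) ≤ B * (4 * L ^ 2) :=
          mul_le_mul_of_nonneg_right hB1 (by positivity)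
        linarith
      calc 4 * L ^ 2 / T ≤ 4 * B * L ^ 2 / T := by gcongr
        _ = 4 * B * L ^ 2 * (1 / T) := by ring
        _ ≤ _ := by gcongr
    have e3 : 0 ≤ 1 / (Q : ℝ) := by positivity
    calc P * (B * E + B / T ^ 2 + 4 * L ^ 2 / T)
        ≤ P * (B * E + B * L ^ 2 * (4 / 3 / |t|) + 4 * B * L ^ 2 * (4 / 3 / |t|)) := by gcongr
      _ = P * B * E + G * B * L ^ 2 / |t| := by rw [hG]; ring
      _ ≤ κ := by rw [hκ]; linarith
  have hEE : Real.exp (-(c' / 5 * (v * (L / Real.log Q)))) = E := by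
    rw [hE]
    congr 2
    ring
  have k1 : 4 * P * B * E ≤ 1 := by
    have := (hK₃ v Q X r3).trans (sv_le_one (by linarith) r3)
    rw [Real.rpow_zero, mul_one, hEE] at this
    exact this
  have k4 : 1 / (Q : ℝ) ≤ 1 / 10 := by
    apply one_div_le_one_div_of_le (by norm_num) hQ10
  have hL4 : L ^ (4 : ℝ) = L ^ 4 := by
    rw [← Real.rpow_natCast L 4]
    norm_num
  have hti : |t| ^ (-(1 / 2) : ℝ) = (Real.sqrt |t|)⁻¹ := by
    rw [Real.rpow_neg ht0.le, ← Real.sqrt_eq_rpow]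
  rw [hL4, hti]
  have hst0 : 0 < Real.sqrt |t| := Real.sqrt_pos.2 ht0
  rcases le_or_gt κ 1 with hκ1 | hκ1
  · have hκu : 1 ≤ κ * (X : ℝ) ^ ((1 : ℝ) / 5) := by
      have k1 : 4 * (Q : ℝ) ≤ (X : ℝ) ^ ((1 : ℝ) / 5) := by
        have := hK₆ Q X r6
        rw [Real.rpow_one] at this
        exact this
      have k2 : 1 / (Q : ℝ) ≤ κ := by
        rw [hκ]
        have : 0 ≤ P * B * E + G * B * L ^ 2 / |t| := by positivity
        linarith
      calc (1 : ℝ) = 1 / Q * Q := by field_simp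
        _ ≤ κ * (X : ℝ) ^ ((1 : ℝ) / 5) := by
            apply mul_le_mul k2 (by linarith) hQ0.le hκ0.le
    have hmain := hcore Q X r1 p t κ hκ0 hκ1 hκu (fun u hu1 hu2 => by
      refine (hces u hu1 hu2).trans ?_
      have hu0 : 0 ≤ u := le_trans (Real.rpow_nonneg hX0.le _) hu1
      exact mul_le_mul_of_nonneg_right hκ' hu0)
    refine hmain.trans ?_
    have hsq := XMU_sqrt3 (P * B * E) (G * B * L ^ 2 / |t|) (1 / Q) (by positivity)
      (by positivity) (by positivity)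
    rw [← hκ] at hsq
    have hBs : Real.sqrt B = Real.exp (D / 2 * v) := by
      rw [hB, ← Real.exp_half]
      congr 1
      ring
    have hBs' : Real.sqrt B ≤ B := by
      rw [Real.sqrt_le_left hB0.le, sq]
      exact le_mul_of_one_le_left hB0.le hB1
    have q1 : Real.sqrt (P * B * E) = Real.sqrt P * Real.exp (D / 2 * v) *
        Real.exp (-(c' / 10 * (v * (L / Real.log Q)))) := by
      rw [Real.sqrt_mul (by positivity), Real.sqrt_mul (by positivity), hBs, hE,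
        ← Real.exp_half (-(c' * v / 5 * (L / Real.log Q)))]
      congr 2
      ring
    have q2 : Real.sqrt (G * B * L ^ 2 / |t|) = Real.sqrt G * Real.sqrt B * L *
        (Real.sqrt |t|)⁻¹ := by
      rw [Real.sqrt_div (by positivity), Real.sqrt_mul (by positivity), Real.sqrt_sq hL0.le,
        Real.sqrt_mul (by positivity), div_eq_mul_inv]
    have q3 : Real.sqrt (1 / Q) = (Q : ℝ) ^ (-(1 / 2) : ℝ) := by
      rw [Real.sqrt_div zero_le_one, Real.sqrt_one, Real.rpow_neg hQ0.le, ← Real.sqrt_eq_rpow,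
        one_div]
    rw [q1, q2, q3] at hsq
    have w1 := hS₁ v Q X s1
    have w3 := hS₃ v Q X s3
    rw [← hL] at w1 w3
    have p3 : L ^ (2 : ℝ) = L ^ 2 := Real.rpow_two L
    rw [p3] at w1
    rw [p3, zero_mul, Real.exp_zero, mul_one] at w3
    have m1 : sv S₁ v Q X ≤ sv (S₁ + S₃) v Q X := sv_mono hv0.le (by linarith) (by linarith) hQn
    have m3 : sv S₃ v Q X ≤ sv (S₁ + S₃) v Q X := sv_mono hv0.le (by linarith) (by linarith) hQn
    have m4 := hS v Q X s4
    rw [Real.rpow_zero, mul_one, zero_mul, Real.exp_zero, mul_one] at m4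
    have m5 : sv S v Q X ≤
        sv (K₁ + K₂ + K₃ + K₆ + S₁ + S₃ + S + 2 * c' + 80 * Real.sqrt G + 4 * G + 10) v Q X :=
      sv_mono hv0.le (by linarith) (by linarith) hQn
    have m6 : 80 * L ^ 2 * (Real.sqrt G * Real.sqrt B * L * (Real.sqrt |t|)⁻¹) ≤
        B * L ^ 4 * (Real.sqrt |t|)⁻¹ := by
      have e1 : 80 * Real.sqrt G ≤ L := by linarith
      have e2 : 0 ≤ L ^ 3 * (Real.sqrt |t|)⁻¹ := by positivity
      calc 80 * L ^ 2 * (Real.sqrt G * Real.sqrt B * L * (Real.sqrt |t|)⁻¹) =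
          (80 * Real.sqrt G) * Real.sqrt B * (L ^ 3 * (Real.sqrt |t|)⁻¹) := by ring
        _ ≤ L * B * (L ^ 3 * (Real.sqrt |t|)⁻¹) :=
            mul_le_mul_of_nonneg_right (mul_le_mul e1 hBs' (Real.sqrt_nonneg _) hL0.le) e2
        _ = _ := by ring
    calc 80 * L ^ 2 * Real.sqrt κ ≤ 80 * L ^ 2 * (Real.sqrt P * Real.exp (D / 2 * v) *
        Real.exp (-(c' / 10 * (v * (L / Real.log Q)))) + Real.sqrt G * Real.sqrt B * L *
        (Real.sqrt |t|)⁻¹ + (Q : ℝ) ^ (-(1 / 2) : ℝ)) := by gcongr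
      _ = 80 * Real.sqrt P * L ^ 2 * Real.exp (D / 2 * v) *
          Real.exp (-(c' / 10 * (v * (L / Real.log Q)))) +
          80 * L ^ 2 * (Real.sqrt G * Real.sqrt B * L * (Real.sqrt |t|)⁻¹) +
          80 * L ^ 2 * (Q : ℝ) ^ (-(1 / 2) : ℝ) := by ring
      _ ≤ 2 * sv (S₁ + S₃) v Q X + B * L ^ 4 * (Real.sqrt |t|)⁻¹ := by linarith
      _ ≤ _ := by linarith
  · -- trivial bound
    have h1 : 1 / 2 ≤ G * B * L ^ 2 / |t| := by
      rw [hκ] at hκ1
      linarith
    have h2 : |t| ≤ 2 * G * B * L ^ 2 := by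
      rw [le_div_iff₀ ht0] at h1
      linarith
    have hBs' : Real.sqrt B ≤ B := by
      rw [Real.sqrt_le_left hB0.le, sq]
      exact le_mul_of_one_le_left hB0.le hB1
    have h3 : Real.sqrt |t| ≤ Real.sqrt (2 * G) * Real.sqrt B * L := by
      rw [← Real.sqrt_mul (by positivity), ← Real.sqrt_sq hL0.le, ← Real.sqrt_mul (by positivity)]
      exact Real.sqrt_le_sqrt h2
    have h4 : Real.sqrt (2 * G) ≤ L := by
      rw [Real.sqrt_le_left hL0.le]
      have h41 : 10 * L ≤ L ^ 2 := by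
        rw [sq]
        exact mul_le_mul_of_nonneg_right hL10 hL0.le
      linarith
    have h5 : Real.sqrt |t| ≤ B * L ^ 2 := by
      calc Real.sqrt |t| ≤ Real.sqrt (2 * G) * Real.sqrt B * L := h3
        _ ≤ L * B * L := by
            apply mul_le_mul_of_nonneg_right _ hL0.le
            exact mul_le_mul h4 hBs' (Real.sqrt_nonneg _) hL0.le
        _ = B * L ^ 2 := by ring
    have h6 := Mu_le X p t hX1
    have h7 : Real.log (60 * X) ≤ 5 + L := by
      rw [Real.log_mul (by norm_num) hX0.ne', ← hL]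
      have : Real.log 60 ≤ 5 := by
        rw [Real.log_le_iff_le_exp (by norm_num)]
        have h8 : (2.7 : ℝ) ≤ Real.exp 1 := by
          have := Real.exp_one_gt_d9
          linarith
        have h9 : Real.exp 5 = Real.exp 1 ^ 5 := by
          rw [← Real.exp_nat_mul]
          norm_num
        rw [h9]
        calc (60 : ℝ) ≤ 2.7 ^ 5 := by norm_num
          _ ≤ Real.exp 1 ^ 5 := pow_le_pow_left₀ (by norm_num) h8 5
      linarith
    have h8 : L ^ 2 ≤ B * L ^ 4 * (Real.sqrt |t|)⁻¹ := by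
      rw [← div_eq_mul_inv, le_div_iff₀ hst0]
      calc L ^ 2 * Real.sqrt |t| ≤ L ^ 2 * (B * L ^ 2) := by gcongr
        _ = B * L ^ 4 := by ring
    have h9 : 0 < sv (K₁ + K₂ + K₃ + K₆ + S₁ + S₃ + S + 2 * c' + 80 * Real.sqrt G + 4 * G + 10)
        v Q X := sv_pos _ v Q X hQn
    have h10 : 6 + L ≤ L ^ 2 := by
      have h11 : 10 * L ≤ L ^ 2 := by
        rw [sq]
        exact mul_le_mul_of_nonneg_right hL10 hL0.le
      linarith
    linarith

end Pool.Agent.Lib.H68T
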