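import Pool.Agent.Lib.H51D.VMU
import Pool.Agent.Lib.H68X.XPN0

/-!
# Chunk VPN0: the prime number theorem with error `sv`
-/

open Finset

namespace Pool.Agent.Lib.H68T

/-- Port of `XPN0_core` (file `H68X/XPN0.lean`): `c' v` instead of `c'` in the exponent,
`B = exp (C v) ≥ 1` (`0 ≤ C`) instead of `(C+1) log X`. Use `M = 2 P + 4 P + 3` and
`κ = M B L² (E + q)` (in `XPN0_terms` the factor `(C+1) L` is replaced by `B`: write the variant of
`XPN0_terms` with `B ≥ 1`; `XPN0_kappa` with `M B` instead of `M`; `√(M B) = √M exp (C v/2)`;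
`XPN0_pow` with `c' v`). Smallness: `sv_of_exp`, `sv_of_Q`, `sv_le_one` instead of `reg_exp_le`,
`reg_log_le`. -/
theorem VPN0_core (P C c' : ℝ) (hP : 0 < P) (hC : 0 ≤ C) (hc' : 0 < c') :
    ∃ K : ℝ, 1 ≤ K ∧ ∀ (v : ℝ) (Q X : ℕ), RegV K v Q X →
    (c' * v / Real.log Q ≤ 1 / 2 ∧ 3 ≤ (X : ℝ) ^ ((1 : ℝ) / 5) ∧
      1 ≤ Real.exp (C * v) ∧ 0 < Real.log Q ∧ (1 : ℝ) ≤ Q) ∧
    ∀ b : ℕ → ℂ, (∀ n, 1 ≤ n → ‖b n‖ ≤ 1 + Real.log n) →
    (∀ u : ℝ, (X : ℝ) ^ ((1 : ℝ) / 5) ≤ u → u ≤ 2 * (60 * (X : ℝ)) →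
      ‖∑ n ∈ Icc 1 ⌊u⌋₊, b n * (1 - n / u)‖ ≤
        P * (Real.exp (C * v) * u ^ (1 - c' * v / Real.log Q) +
          Real.exp (C * v) * u / ((Q : ℝ) ^ 11) ^ 2 +
          u * (1 + Real.log u) ^ 2 / (Q : ℝ) ^ 11) + 3) →
    ∀ u : ℝ, (X : ℝ) / 8 ≤ u → u ≤ 60 * X → ‖∑ n ∈ Icc 1 ⌊u⌋₊, b n‖ ≤ u * sv K v Q X := by
  obtain ⟨N, hN⟩ : ∃ N : ℝ, N = 6 * P + 3 := ⟨_, rfl⟩
  have hN3 : 3 ≤ N := by
    rw [hN]
    linarith
  have hN0 : 0 < N := by linarith
  obtain ⟨K₂, hK₂1, hK₂⟩ := sv_of_exp (2 * N) 2 C (c' / 5) (by positivity)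
  obtain ⟨K₃, hK₃1, hK₃⟩ := sv_of_Q (2 * N) 2 C 10 (by norm_num)
  obtain ⟨K₆, hK₆1, hK₆⟩ := reg_pow_le 1 10 (1 / 5) (by norm_num)
  obtain ⟨K₇, hK₇1, hK₇⟩ := reg_pow_le 2 0 (1 / 20) (by norm_num)
  obtain ⟨K₈, hK₈1, hK₈⟩ := sv_of_exp (80 * √N) 2 (C / 2) (c' / 10) (by positivity)
  obtain ⟨K₉, hK₉1, hK₉⟩ := sv_of_Q (80 * √N) 2 (C / 2) 5 (by norm_num)
  obtain ⟨K, hK⟩ : ∃ K : ℝ, K = K₂ + K₃ + K₆ + K₇ + K₈ + K₉ + 2 * c' + 10 := ⟨_, rfl⟩
  have hK1 : 1 ≤ K := by rw [hK]; linarith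
  refine ⟨K, hK1, ?_⟩
  intro v Q X hregV
  have hreg := hregV.1
  have hv1 := hregV.2.1
  have hv0 : 0 < v := by linarith
  have hKpos : 0 ≤ K := by linarith
  have r1 : Reg (2 * c' + 10) Q X := hreg.mono hKpos (by rw [hK]; linarith)
  have r2 : RegV K₂ v Q X := hregV.mono hKpos (by rw [hK]; linarith)
  have r3 : RegV K₃ v Q X := hregV.mono hKpos (by rw [hK]; linarith)
  have r6 : Reg K₆ Q X := hreg.mono hKpos (by rw [hK]; linarith)
  have r7 : Reg K₇ Q X := hreg.mono hKpos (by rw [hK]; linarith)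
  have r8 : RegV K₈ v Q X := hregV.mono hKpos (by rw [hK]; linarith)
  have r9 : RegV K₉ v Q X := hregV.mono hKpos (by rw [hK]; linarith)
  have rc : RegV (2 * c') v Q X := hregV.mono hKpos (by rw [hK]; linarith)
  have hQ1n : 1 ≤ Q := hreg.Q_pos hK1
  have s8 : sv K₈ v Q X ≤ sv K v Q X := sv_mono hv0.le (by linarith) (by rw [hK]; linarith) hQ1n
  have s9 : sv K₉ v Q X ≤ sv K v Q X := sv_mono hv0.le (by linarith) (by rw [hK]; linarith) hQ1n
  have hLbig : 10 ≤ Real.log X := by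
    have h1 := r1.logX_ge (by linarith)
    have := Real.add_one_le_exp (2 * c' + 10)
    linarith
  have hQ10 : (10 : ℝ) ≤ Q := by
    have := r1.Q_ge (by linarith)
    linarith
  have hlQbig : 2 * c' + 10 ≤ Real.log Q := r1.logQ_ge (by linarith)
  have hlQ0 : 0 < Real.log Q := by linarith
  have hlQL : Real.log Q ≤ Real.log X := by
    have h1 := r1.logQ_le (by linarith)
    have h2 : 1 * Real.log Q ≤ (2 * c' + 10) * Real.log Q :=
      mul_le_mul_of_nonneg_right (by linarith) hlQ0.le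
    linarith
  have hX0 : (0 : ℝ) < X := by exact_mod_cast r1.X_pos (by linarith)
  obtain ⟨hu₀16, hu₀X, hlogu₀⟩ := XPN0_u0 hX0 (by
    have := hK₇ Q X r7
    rwa [Real.rpow_zero, mul_one] at this)
  have g1 := hK₈ v Q X r8
  have g2 := hK₉ v Q X r9
  have k2 := (hK₂ v Q X r2).trans (sv_le_one hK₂1 r2)
  have k3 := (hK₃ v Q X r3).trans (sv_le_one hK₃1 r3)
  have k6 := hK₆ Q X r6
  rw [Real.rpow_two] at g1 g2 k2 k3
  rw [one_mul, show ((10 : ℝ)) = ((10 : ℕ) : ℝ) by norm_num, Real.rpow_natCast] at k6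
  obtain ⟨B, hB⟩ : ∃ B : ℝ, B = Real.exp (C * v) := ⟨_, rfl⟩
  have hB1 : 1 ≤ B := by rw [hB]; exact Real.one_le_exp (by positivity)
  have hB0 : 0 < B := by linarith
  have hBs : √B = Real.exp (C / 2 * v) := by
    rw [hB, ← Real.exp_half]
    congr 1
    ring
  obtain ⟨M, hM⟩ : ∃ M : ℝ, M = N * B := ⟨_, rfl⟩
  have hM3 : 3 ≤ M := by
    rw [hM]
    calc (3 : ℝ) ≤ N := hN3
      _ ≤ N * B := le_mul_of_one_le_right hN0.le hB1
  have hM0 : 0 < M := by linarith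
  have hMs : √M = √N * Real.exp (C / 2 * v) := by
    rw [hM, Real.sqrt_mul hN0.le, hBs]
  rw [← hB] at k2 k3
  have hq10 : (Q : ℝ) ^ (-(10 : ℝ)) = ((Q : ℝ) ^ 10)⁻¹ := by
    rw [Real.rpow_neg (by positivity), show ((10 : ℝ)) = ((10 : ℕ) : ℝ) by norm_num,
      Real.rpow_natCast]
  rw [hq10] at k3
  have eexp5 : Real.exp (-(c' / 5 * (v * (Real.log X / Real.log Q)))) =
      Real.exp (-(c' * v / 5 * (Real.log X / Real.log Q))) := by
    congr 2
    ring
  have eexp10 : Real.exp (-(c' / 10 * (v * (Real.log X / Real.log Q)))) =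
      Real.exp (-(c' * v / 10 * (Real.log X / Real.log Q))) := by
    congr 2
    ring
  rw [eexp5] at k2
  rw [eexp10] at g1
  have hη1 : c' * v / Real.log Q ≤ 1 / 2 := by
    rw [div_le_iff₀ hlQ0]
    have := rc.2.2
    linarith
  have hcv0 : 0 < c' * v := by positivity
  clear hK₂ hK₃ hK₆ hK₇ hK₈ hK₉ r1 r2 r3 r6 r7 r8 r9 hreg rc hregV eexp5 eexp10
  generalize Real.log (Q : ℝ) = lQ at *
  refine ⟨⟨hη1, by linarith, by rw [← hB]; exact hB1, hlQ0, by linarith⟩, ?_⟩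
  intro b hb hsm
  -- the numbers
  have hQ0 : (0 : ℝ) < Q := by linarith
  obtain ⟨hκ0, hκ1, hκu, hsq⟩ := XPN0_kappa (M := M) (L := Real.log X)
    (E := Real.exp (-(c' * v / 5 * (Real.log X / lQ))))
    (e := Real.exp (-(c' * v / 10 * (Real.log X / lQ)))) (q := ((Q : ℝ) ^ 10)⁻¹)
    (f := (Q : ℝ) ^ (-(5 : ℝ))) (u₀ := (X : ℝ) ^ ((1 : ℝ) / 5)) hM3 hLbig (Real.exp_pos _)
    (by
      rw [← Real.exp_nat_mul]
      congr 1
      push_cast
      ring) (Real.rpow_pos_of_pos hQ0 _)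
    (by
      rw [← Real.rpow_natCast, ← Real.rpow_mul hQ0.le, ← Real.rpow_natCast (Q : ℝ) 10,
        ← Real.rpow_neg hQ0.le]
      norm_num) (by linarith)
    (by
      rw [← div_eq_inv_mul, le_div_iff₀ (by positivity), one_mul]
      exact k6)
    (by
      have : 2 * M * Real.log X ^ 2 * Real.exp (-(c' * v / 5 * (Real.log X / lQ))) =
        2 * N * Real.log X ^ 2 * B * Real.exp (-(c' * v / 5 * (Real.log X / lQ))) := by
        rw [hM]; ring
      rw [this]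
      exact k2)
    (by
      have : 2 * M * Real.log X ^ 2 * ((Q : ℝ) ^ 10)⁻¹ =
        2 * N * Real.log X ^ 2 * B * ((Q : ℝ) ^ 10)⁻¹ := by
        rw [hM]; ring
      rw [this]
      exact k3)
  have hqu : 1 ≤ ((Q : ℝ) ^ 10)⁻¹ * (X : ℝ) ^ ((1 : ℝ) / 5) := by
    rw [← div_eq_inv_mul, le_div_iff₀ (by positivity), one_mul]
    exact k6
  have huns := unsmooth b _ ((X : ℝ) ^ ((1 : ℝ) / 5)) (60 * X) hκ0 hκ1 (by linarith) hκu hb
    (fun u hu1 hu2 => by
      have hu0 : 0 < u := by linarith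
      refine (hsm u hu1 hu2).trans ?_
      rw [← hB]
      have hlogu : Real.log X / 5 ≤ Real.log u := by
        rw [← hlogu₀]
        exact Real.log_le_log (by linarith) hu1
      have hlogu2 : 1 + Real.log u ≤ 2 * Real.log X := by
        have h2 : Real.log u ≤ Real.log (120 * X) := Real.log_le_log hu0 (by linarith)
        rw [Real.log_mul (by norm_num) hX0.ne'] at h2
        have h3 := XPN0_log120
        linarith
      have hQ1 : (1 : ℝ) ≤ Q := by linarith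
      have hL1 : 1 ≤ Real.log X := by linarith
      have hstep : P * (B * u ^ (1 - c' * v / lQ) + B * u / ((Q : ℝ) ^ 11) ^ 2 +
          u * (1 + Real.log u) ^ 2 / (Q : ℝ) ^ 11) + 3 ≤
          P * (((B - 1) + 1) * Real.log X * u ^ (1 - c' * v / lQ) +
            ((B - 1) + 1) * Real.log X * u / ((Q : ℝ) ^ 11) ^ 2 +
          u * (1 + Real.log u) ^ 2 / (Q : ℝ) ^ 11) + 3 := by
        have hBL : B ≤ ((B - 1) + 1) * Real.log X := by
          rw [sub_add_cancel]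
          exact le_mul_of_one_le_right hB0.le hL1
        have hup : 0 ≤ u ^ (1 - c' * v / lQ) := Real.rpow_nonneg hu0.le _
        gcongr
      refine hstep.trans ?_
      have hMM : (2 * P * ((B - 1) + 1) + 4 * P + 3) * Real.log X ^ 2 *
          (Real.exp (-(c' * v / 5 * (Real.log X / lQ))) + ((Q : ℝ) ^ 10)⁻¹) * u ≤
          M * Real.log X ^ 2 *
          (Real.exp (-(c' * v / 5 * (Real.log X / lQ))) + ((Q : ℝ) ^ 10)⁻¹) * u := by
        have h1 : 2 * P * ((B - 1) + 1) + 4 * P + 3 ≤ M := by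
          rw [hM, hN]
          have h2 : 1 * (4 * P + 3) ≤ B * (4 * P + 3) :=
            mul_le_mul_of_nonneg_right hB1 (by positivity)
          linarith
        gcongr
      refine le_trans ?_ hMM
      refine XPN0_terms hP (by linarith) hLbig (Real.exp_pos _) (by positivity) hu0
        (XPN0_pow hu0 hlQ0 hcv0 hlogu) ?_ ?_ (by linarith) hlogu2 ?_
      · rw [← pow_mul]
        exact inv_anti₀ (by positivity) (pow_le_pow_right₀ hQ1 (by norm_num))
      · exact inv_anti₀ (by positivity) (pow_le_pow_right₀ hQ1 (by norm_num))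
      · exact hqu.trans (mul_le_mul_of_nonneg_left hu1 (by positivity)))
  intro u hu1 hu2
  have hu0 : 0 < u := by linarith
  refine (huns u (by linarith) hu2).trans ?_
  have hlogu2 : 1 + Real.log u ≤ 2 * Real.log X := by
    have h2 : Real.log u ≤ Real.log (60 * X) := Real.log_le_log hu0 (by linarith)
    rw [Real.log_mul (by norm_num) hX0.ne'] at h2
    have h3 := XPN0_log60
    linarith
  have hlogu0 : 0 ≤ 1 + Real.log u := by
    have := Real.log_nonneg (show 1 ≤ u by linarith)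
    linarith
  rw [hMs] at hsq
  generalize Real.exp (-(c' * v / 10 * (Real.log X / lQ))) = e at *
  clear hq10
  generalize (Q : ℝ) ^ (-(5 : ℝ)) = f at *
  generalize Real.log (X : ℝ) = L at *
  generalize √N = n at *
  generalize Real.exp (C / 2 * v) = z at *
  have h5 : 0 ≤ n * z * L * (e + f) := le_trans (Real.sqrt_nonneg _) hsq
  calc 20 * √(M * L ^ 2 * (Real.exp (-(c' * v / 5 * (L / lQ))) + ((Q : ℝ) ^ 10)⁻¹)) * u *
        (1 + Real.log u) ≤ 20 * (n * z * L * (e + f)) * u * (2 * L) := by gcongr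
    _ = u * ((80 * n * L ^ 2 * z * e) / 2 + (80 * n * L ^ 2 * z * f) / 2) := by ring
    _ ≤ u * sv K v Q X := by
        refine mul_le_mul_of_nonneg_left ?_ hu0.le
        linarith

end Pool.Agent.Lib.H68T
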