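import Pool.Agent.Lib.H51D.VFIN
import Pool.Agent.Lib.H51D.VRB
import Pool.Agent.Lib.H68X.XTH

/-!
# Chunk VTH: the theorems
-/

open Finset

namespace Pool.Agent.Lib.H68T

/-- The unconditional range: for `κ ≤ 1/2` we have `1/κ - 1 + ε ≥ 1 + ε`, and `1 - β ≥ c/r²`
(`zero_elementary`) `> exp (-(log r)^(1+ε))` for large `r`; `σ = 1` is not a zero
(`LFunction_ne_zero_of_one_le_re`). -/
theorem noSiegelK_half (κ : ℝ) (hκ : 0 < κ) (hκ2 : κ ≤ 1 / 2) : NoSiegelK κ := by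
  intro ε hε
  obtain ⟨c, hc, hz⟩ := zero_elementary
  obtain ⟨u₀, hu₀⟩ := Filter.eventually_atTop.mp ((ev_rpow 4 1 (1 + ε) (by linarith)).and
    (ev_rpow (2 * (|Real.log c| + 1)) 0 (1 + ε) (by linarith)))
  refine ⟨⌈Real.exp (max u₀ 1)⌉₊, fun r hr _ ψ _ hψ hψ2 σ hσ hσ1 hzero => ?_⟩
  have hre : Real.exp (max u₀ 1) ≤ (r : ℝ) := (Nat.le_ceil _).trans (by exact_mod_cast hr)
  have hr0 : (0:ℝ) < r := lt_of_lt_of_le (Real.exp_pos _) hre
  have hu : max u₀ 1 ≤ Real.log r := (Real.le_log_iff_exp_le hr0).mpr hre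
  have hu1 : 1 ≤ Real.log r := (le_max_right _ _).trans hu
  obtain ⟨e1, e2⟩ := hu₀ _ ((le_max_left _ _).trans hu)
  rw [Real.rpow_one] at e1
  rw [Real.rpow_zero, mul_one] at e2
  have hσne : σ ≠ 1 := by
    rintro rfl
    exact DirichletCharacter.LFunction_apply_one_ne_zero hψ (by exact_mod_cast hzero)
  have hlt : σ < 1 := lt_of_le_of_ne hσ1 hσne
  have h1 := hz r ψ hψ hψ2 σ hlt hzero
  have hκinv : 2 ≤ 1 / κ := by
    rw [le_div_iff₀ hκ]; linarith
  have h2 : (Real.log r) ^ (1 + ε) ≤ (Real.log r) ^ (1 / κ - 1 + ε) :=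
    Real.rpow_le_rpow_of_exponent_le hu1 (by linarith)
  have h3 : Real.exp (-(Real.log r) ^ (1 / κ - 1 + ε)) ≤
      Real.exp (-(2 * Real.log r + (|Real.log c| + 1))) :=
    Real.exp_le_exp.mpr (by linarith)
  have h4 : Real.exp (-(2 * Real.log r + (|Real.log c| + 1))) * (r : ℝ) ^ 2 < c := by
    have h5 : (r : ℝ) ^ 2 = Real.exp (2 * Real.log r) := by
      rw [mul_comm, Real.exp_mul, Real.exp_log hr0]
      norm_num
    rw [h5, ← Real.exp_add]
    calc Real.exp (-(2 * Real.log r + (|Real.log c| + 1)) + 2 * Real.log r)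
        = Real.exp (-|Real.log c| - 1) := by ring_nf
      _ < Real.exp (Real.log c) := by
          apply Real.exp_lt_exp.mpr
          linarith [neg_abs_le (Real.log c)]
      _ = c := Real.exp_log hc
  have h6 : c / (r : ℝ) ^ 2 ≤ Real.exp (-(2 * Real.log r + (|Real.log c| + 1))) := by
    linarith
  rw [div_le_iff₀ (by positivity)] at h6
  linarith

/-- Port of `forward` (file `H68X/XTH.lean`). Given `0 < δ < κ ≤ 1`, take in `coreV`
`κ' = κ - δ`, `θ = δ/4`, `t = κ - δ/2`, `ε = δ/2`, `b = t (1/κ - 1 + δ/2) > 0`, `e = 1 - δ/4`: then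
`κ' + b = 1 - δ/2 - δ/(2κ) + (δ/2) t ≤ 1 - δ/2 < e` (`t ≤ 1`, `κ ≤ 1`), and `t ≤ 1 - δ/2 < e`. For
conductors `r₀ ≤ r ≤ exp (L^t)` (`r₀` from `NoSiegelK κ` for `δ/2`):
`1 - β ≥ exp (-(log r)^(1/κ-1+δ/2)) ≥ exp (-(L^t)^(1/κ-1+δ/2)) = exp (-L^b)`; for `r < r₀`
`zero_elementary`. The exponent is `4θ/5 = δ/5`. -/
theorem forwardK (κ : ℝ) (hκ : 0 < κ) (hκ1 : κ ≤ 1) (h : NoSiegelK κ) : AlmostAllHaveK κ := by
  classical
  intro δ hδ hδκ
  obtain ⟨c, hc, hz⟩ := zero_elementary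
  obtain ⟨r₀, hr₀⟩ := h (δ / 2) (by linarith)
  set q := 1 / κ with hq
  have hqκ : q * κ = 1 := by rw [hq]; field_simp
  have hq1 : 1 ≤ q := by
    rw [hq, le_div_iff₀ hκ]; linarith
  set γ := q - 1 + δ / 2 with hγ
  have hγ0 : 0 < γ := by rw [hγ]; linarith
  set t := κ - δ / 2 with ht
  have ht0 : 0 < t := by rw [ht]; linarith
  set b := t * γ with hb
  have hb0 : 0 < b := mul_pos ht0 hγ0
  have hb1 : b = 1 - κ + κ * δ / 2 - δ * q / 2 + δ / 2 - δ ^ 2 / 4 := by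
    rw [hb, ht, hγ]
    linear_combination hqκ
  have hκb : κ - δ + b < 1 - δ / 4 := by
    rw [hb1]
    have h1 : κ * δ ≤ 1 * δ := mul_le_mul_of_nonneg_right hκ1 hδ.le
    have h2 : δ * 1 ≤ δ * q := mul_le_mul_of_nonneg_left hq1 hδ.le
    have h3 : 0 ≤ δ ^ 2 := sq_nonneg δ
    linarith
  obtain ⟨L₀, hcore⟩ := coreV δ (κ - δ) (δ / 4) t b (1 - δ / 4) hδ
    (by linarith) (by linarith) (by linarith) (by rw [ht]; linarith) (by rw [ht]; linarith) hb0
    hκb (by linarith)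
  obtain ⟨L₁, hL₁⟩ := Filter.eventually_atTop.mp
    (ev_rpow (|Real.log c| + 2 * Real.log (r₀ + 1)) 0 b hb0)
  refine ⟨Real.exp (max (max L₀ L₁) 1), fun x hx k hk1 hk => ?_⟩
  have hx0 : 0 < x := lt_of_lt_of_le (Real.exp_pos _) hx
  set L := Real.log x with hL
  have hLx : x = Real.exp L := (Real.exp_log hx0).symm
  have hLge : max (max L₀ L₁) 1 ≤ L := by
    rw [hL, Real.le_log_iff_exp_le hx0]; exact hx
  have hLL₀ : L₀ ≤ L := (le_max_left _ _).trans ((le_max_left _ _).trans hLge)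
  have hLL₁ : L₁ ≤ L := (le_max_right _ _).trans ((le_max_left _ _).trans hLge)
  have hL1 : 1 ≤ L := (le_max_right _ _).trans hLge
  have hL0 : 0 < L := by linarith
  have e1 := hL₁ L hLL₁
  rw [Real.rpow_zero, mul_one] at e1
  have h := hcore L hLL₀ ?_ k hk1 hk
  · rw [hLx]
    convert h using 2
    · ring_nf
  · intro r hr ψ hrL hprim hψ hψ2 β hβ hzero
    have hrpos : (1:ℝ) ≤ r := by
      have := Nat.pos_of_ne_zero (NeZero.ne r)
      exact_mod_cast this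
    rcases le_or_gt r₀ r with hrr | hrr
    · by_contra hcon
      push Not at hcon
      refine hr₀ r hrr ψ hprim hψ hψ2 β ?_ hβ.le hzero
      have hlr : 0 ≤ Real.log r := Real.log_nonneg hrpos
      have h1 : (Real.log r) ^ γ ≤ L ^ b := by
        have h1a : Real.log r ≤ L ^ t := by
          rw [Real.log_le_iff_le_exp (by linarith)]; exact hrL
        calc (Real.log r) ^ γ ≤ (L ^ t) ^ γ := Real.rpow_le_rpow hlr h1a hγ0.le
          _ = L ^ b := by rw [hb, Real.rpow_mul hL0.le]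
      have h2 : Real.exp (-L ^ b) ≤ Real.exp (-(Real.log r) ^ γ) :=
        Real.exp_le_exp.mpr (by linarith)
      linarith
    · refine le_trans ?_ (hz r ψ hψ hψ2 β hβ hzero)
      rw [le_div_iff₀ (by positivity)]
      have hc1 : Real.exp (-|Real.log c|) ≤ c := by
        calc Real.exp (-|Real.log c|) ≤ Real.exp (Real.log c) :=
              Real.exp_le_exp.mpr (neg_abs_le _)
          _ = c := Real.exp_log hc
      refine le_trans ?_ hc1
      have hr1 : (r : ℝ) ≤ r₀ + 1 := by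
        have : r ≤ r₀ + 1 := by omega
        exact_mod_cast this
      have hr0pos : (0:ℝ) < r₀ + 1 := by positivity
      calc Real.exp (-L ^ b) * (r : ℝ) ^ 2
          ≤ Real.exp (-L ^ b) * (Real.exp (Real.log (r₀ + 1))) ^ 2 := by
            apply mul_le_mul_of_nonneg_left _ (Real.exp_pos _).le
            rw [Real.exp_log hr0pos]
            exact pow_le_pow_left₀ (by linarith) hr1 2
        _ = Real.exp (-L ^ b + 2 * Real.log (r₀ + 1)) := by
            rw [← Real.exp_nat_mul, ← Real.exp_add]; push_cast; ring_nf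
        _ ≤ _ := by
            apply Real.exp_le_exp.mpr
            linarith

/-- Port of `most_of_all` (file `H68X/XTH.lean`). -/
theorem most_of_allK (κ : ℝ) (hκ : 0 < κ) (h : AlmostAllHaveK κ) : MostHaveK κ := by
  classical
  intro δ hδ hδ1
  obtain ⟨x₀, hx₀⟩ := h δ hδ hδ1
  obtain ⟨L₁, hL₁⟩ := Filter.eventually_atTop.mp (ev_rpow 2 0 (δ / 5) (by linarith))
  refine ⟨max x₀ (Real.exp (max L₁ 1)), fun x hx k hk1 hk => ?_⟩
  have hx1 := hx₀ x ((le_max_left _ _).trans hx) k hk1 hk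
  have hxe : Real.exp (max L₁ 1) ≤ x := (le_max_right _ _).trans hx
  have hx0 : 0 < x := lt_of_lt_of_le (Real.exp_pos _) hxe
  have hLge : max L₁ 1 ≤ Real.log x := by
    rw [Real.le_log_iff_exp_le hx0]; exact hxe
  have hL0 : 0 < Real.log x := lt_of_lt_of_le one_pos ((le_max_right _ _).trans hLge)
  have e1 := hL₁ _ ((le_max_left _ _).trans hLge)
  rw [Real.rpow_zero, mul_one] at e1
  have h2 : (Real.log x) ^ (-(δ / 5)) ≤ 1 / 2 := by
    rw [Real.rpow_neg hL0.le, ← one_div]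
    exact one_div_le_one_div_of_le (by norm_num) e1
  have h3 : 2 * ((((range (⌊x ^ (1 - δ)⌋₊ + 1)).powersetCard k).filter (fun A => Admissible A ∧
      ¬ HasPrimeTranslate x A)).card : ℝ) ≤
      ((((range (⌊x ^ (1 - δ)⌋₊ + 1)).powersetCard k).filter
          (fun A => Admissible A)).card : ℝ) := by
    have h4 := mul_le_mul_of_nonneg_right h2 (Nat.cast_nonneg (α := ℝ)
      (((range (⌊x ^ (1 - δ)⌋₊ + 1)).powersetCard k).filter (fun A => Admissible A)).card)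
    linarith
  exact_mod_cast h3

theorem equivalenceK (κ : ℝ) (hκ : 0 < κ) (hκ1 : κ ≤ 1) :
    (MostHaveK κ ↔ NoSiegelK κ) ∧ (AlmostAllHaveK κ ↔ NoSiegelK κ) :=
  ⟨⟨barrierK κ hκ hκ1, fun h => most_of_allK κ hκ (forwardK κ hκ hκ1 h)⟩,
    ⟨fun h => barrierK κ hκ hκ1 (most_of_allK κ hκ h), forwardK κ hκ hκ1⟩⟩

theorem all_largeK (κ : ℝ) (hκ : 0 < κ) (hκ2 : κ ≤ 1 / 2) : AlmostAllHaveK κ :=
  forwardK κ hκ (by linarith) (noSiegelK_half κ hκ hκ2)

end Pool.Agent.Lib.H68T
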